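import Mathlib

/-!
# Stepanov's bound for sums of Legendre symbols of polynomials

For an odd prime `p` and a polynomial `f` over `ZMod p` of degree `m` which is not a constant times
a square, `|∑ x, (f x / p)| ≤ 12 m √p`, uniformly in the degree.
-/

set_option autoImplicit false

namespace Stepanov

open Polynomial Finset

variable {p : ℕ} [Fact p.Prime]

/-- The operator `r ↦ e f' r + f r'`. -/
noncomputable def opA (f : (ZMod p)[X]) (e : ZMod p) : (ZMod p)[X] →ₗ[ZMod p] (ZMod p)[X] :=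
  LinearMap.mulLeft (ZMod p) (C e * derivative f) + (LinearMap.mulLeft (ZMod p) f) ∘ₗ derivative

theorem opA_apply (f : (ZMod p)[X]) (e : ZMod p) (r : (ZMod p)[X]) :
    opA f e r = C e * derivative f * r + f * derivative r := by
  simp [opA, mul_assoc]

/-- The iterated operators. -/
noncomputable def opR (f : (ZMod p)[X]) (e : ZMod p) : ℕ → ((ZMod p)[X] →ₗ[ZMod p] (ZMod p)[X])
  | 0 => LinearMap.id
  | k + 1 => (opA f (e - k)) ∘ₗ (opR f e k)

theorem der_opR (f r : (ZMod p)[X]) (E : ℕ) : ∀ k : ℕ, k ≤ E →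
    derivative^[k] (f ^ E * r) = f ^ (E - k) * opR f (E : ZMod p) k r := by
  intro k
  induction k with
  | zero => intro _; simp [opR]
  | succ k ih =>
    intro hk
    rw [Function.iterate_succ_apply', ih (by omega)]
    obtain ⟨d, rfl⟩ : ∃ d, E = k + 1 + d := ⟨E - (k + 1), by omega⟩
    have h1 : k + 1 + d - k = d + 1 := by omega
    have h2 : k + 1 + d - (k + 1) = d := by omega
    rw [h1, h2]
    change _ = f ^ d * (opA f (((k + 1 + d : ℕ) : ZMod p) - k)
      (opR f ((k + 1 + d : ℕ) : ZMod p) k r))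
    rw [opA_apply, derivative_mul, derivative_pow]
    have h3 : (((k + 1 + d : ℕ) : ZMod p) - k) = ((d + 1 : ℕ) : ZMod p) := by
      push_cast; ring
    rw [h3]
    simp only [Nat.add_sub_cancel, pow_succ]
    simp only [map_natCast]
    ring

theorem natDegree_opA_le (f : (ZMod p)[X]) (hf : 1 ≤ f.natDegree) (e : ZMod p)
    (r : (ZMod p)[X]) : (opA f e r).natDegree ≤ r.natDegree + (f.natDegree - 1) := by
  rw [opA_apply]
  refine (natDegree_add_le _ _).trans (max_le ?_ ?_)
  · refine natDegree_mul_le.trans ?_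
    have h1 : (C e * derivative f).natDegree ≤ f.natDegree - 1 :=
      (natDegree_C_mul_le _ _).trans (natDegree_derivative_le f)
    omega
  · by_cases hr : r.natDegree = 0
    · rw [derivative_of_natDegree_zero hr, mul_zero, natDegree_zero]
      omega
    · refine natDegree_mul_le.trans ?_
      have h1 := natDegree_derivative_le r
      omega

theorem natDegree_opR_le (f : (ZMod p)[X]) (hf : 1 ≤ f.natDegree) (e : ZMod p)
    (r : (ZMod p)[X]) : ∀ k : ℕ,
    (opR f e k r).natDegree ≤ r.natDegree + k * (f.natDegree - 1) := by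
  intro k
  induction k with
  | zero => simp [opR]
  | succ k ih =>
    change (opA f (e - k) (opR f e k r)).natDegree ≤ _
    refine (natDegree_opA_le f hf _ _).trans ?_
    have h2 : (k + 1) * (f.natDegree - 1) = k * (f.natDegree - 1) + (f.natDegree - 1) := by ring
    omega

/-- `X ^ (j p)` is a constant for the derivation. -/
theorem der_mul_Xpow (u : (ZMod p)[X]) (j : ℕ) : ∀ k : ℕ,
    derivative^[k] (u * X ^ (j * p)) = derivative^[k] u * X ^ (j * p) := by
  intro k
  induction k with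
  | zero => rfl
  | succ k ih =>
    rw [Function.iterate_succ_apply', Function.iterate_succ_apply', ih, derivative_mul,
      derivative_X_pow]
    simp

theorem iterate_der_sum {ι : Type*} (s : Finset ι) (u : ι → (ZMod p)[X]) (k : ℕ) :
    derivative^[k] (∑ j ∈ s, u j) = ∑ j ∈ s, derivative^[k] (u j) := by
  induction k with
  | zero => rfl
  | succ k ih =>
    rw [Function.iterate_succ_apply', ih, derivative_sum]
    simp_rw [Function.iterate_succ_apply']

theorem iterate_der_add (u v : (ZMod p)[X]) (k : ℕ) :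
    derivative^[k] (u + v) = derivative^[k] u + derivative^[k] v := by
  induction k with
  | zero => rfl
  | succ k ih =>
    rw [Function.iterate_succ_apply', ih, derivative_add, Function.iterate_succ_apply',
      Function.iterate_succ_apply']

/-- The auxiliary polynomial. -/
noncomputable def aux (f : (ZMod p)[X]) (c l J : ℕ) (r s : Fin J → (ZMod p)[X]) : (ZMod p)[X] :=
  ∑ j : Fin J, (f ^ l * r j + f ^ (l + c) * s j) * X ^ ((j : ℕ) * p)

theorem der_aux (f : (ZMod p)[X]) (c l J : ℕ) (r s : Fin J → (ZMod p)[X]) (k : ℕ) (hk : k ≤ l) :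
    derivative^[k] (aux f c l J r s) =
      ∑ j : Fin J, (f ^ (l - k) * opR f (l : ZMod p) k (r j) +
        f ^ (l + c - k) * opR f ((l + c : ℕ) : ZMod p) k (s j)) * X ^ ((j : ℕ) * p) := by
  unfold aux
  rw [iterate_der_sum]
  refine sum_congr rfl fun j _ => ?_
  rw [der_mul_Xpow]
  congr 1
  rw [iterate_der_add, der_opR f (r j) l k hk, der_opR f (s j) (l + c) k (by omega)]

/-- The polynomials which have to vanish. -/
noncomputable def Qk (f : (ZMod p)[X]) (a : ZMod p) (c l J k : ℕ) (r s : Fin J → (ZMod p)[X]) :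
    (ZMod p)[X] :=
  ∑ j : Fin J, (opR f (l : ZMod p) k (r j) + C a * opR f ((l + c : ℕ) : ZMod p) k (s j)) *
    X ^ (j : ℕ)

theorem eval_der_aux (f : (ZMod p)[X]) (a : ZMod p) (c l J : ℕ) (r s : Fin J → (ZMod p)[X])
    (k : ℕ) (hk : k ≤ l) (x : ZMod p) (hx : (f.eval x) ^ c = a) :
    (derivative^[k] (aux f c l J r s)).eval x =
      (f.eval x) ^ (l - k) * (Qk f a c l J k r s).eval x := by
  rw [der_aux f c l J r s k hk]
  unfold Qk
  rw [eval_finsetSum, eval_finsetSum, mul_sum]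
  refine sum_congr rfl fun j _ => ?_
  have h1 : x ^ ((j : ℕ) * p) = x ^ (j : ℕ) := by
    rw [mul_comm, pow_mul, ZMod.pow_card]
  have h2 : l + c - k = (l - k) + c := by omega
  simp only [eval_mul, eval_add, eval_pow, eval_X, eval_C]
  rw [h1, h2, pow_add, hx]
  ring

theorem natDegree_Qk_lt (f : (ZMod p)[X]) (hf : 1 ≤ f.natDegree) (a : ZMod p) (c l J k n0 : ℕ)
    (hJ : 1 ≤ J) (r s : Fin J → (ZMod p)[X]) (hr : ∀ j, (r j).natDegree < n0)
    (hs : ∀ j, (s j).natDegree < n0) (hk : k < l) :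
    (Qk f a c l J k r s).natDegree < n0 + (l - 1) * (f.natDegree - 1) + (J - 1) := by
  have h0 : 0 < n0 := lt_of_le_of_lt (Nat.zero_le _) (hr ⟨0, hJ⟩)
  have h5 : k * (f.natDegree - 1) ≤ (l - 1) * (f.natDegree - 1) :=
    Nat.mul_le_mul_right _ (by omega)
  unfold Qk
  refine lt_of_le_of_lt (natDegree_sum_le_of_forall_le _ _
    (n := (n0 - 1) + k * (f.natDegree - 1) + (J - 1)) ?_) (by omega)
  intro j _
  refine natDegree_mul_le.trans ?_
  rw [natDegree_X_pow]
  have h1 : (opR f (l : ZMod p) k (r j)).natDegree ≤ (n0 - 1) + k * (f.natDegree - 1) := by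
    refine (natDegree_opR_le f hf _ _ k).trans ?_
    have := hr j
    omega
  have h2 : (C a * opR f ((l + c : ℕ) : ZMod p) k (s j)).natDegree ≤
      (n0 - 1) + k * (f.natDegree - 1) := by
    refine (natDegree_C_mul_le _ _).trans ((natDegree_opR_le f hf _ _ k).trans ?_)
    have := hs j
    omega
  have h3 := (natDegree_add_le (opR f (l : ZMod p) k (r j))
    (C a * opR f ((l + c : ℕ) : ZMod p) k (s j))).trans (max_le h1 h2)
  have h4 : (j : ℕ) ≤ J - 1 := by have := j.2; omega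
  omega

/-- The coordinate polynomials of a vector. -/
noncomputable def pol (J n0 : ℕ) (i : Fin 2) (j : Fin J) :
    ((Fin 2 × Fin J × Fin n0) → ZMod p) →ₗ[ZMod p] (ZMod p)[X] :=
  ∑ t : Fin n0, (monomial (R := ZMod p) (t : ℕ)) ∘ₗ (LinearMap.proj (i, j, t))

theorem pol_apply (J n0 : ℕ) (i : Fin 2) (j : Fin J)
    (v : (Fin 2 × Fin J × Fin n0) → ZMod p) :
    pol J n0 i j v = ∑ t : Fin n0, monomial (t : ℕ) (v (i, j, t)) := by
  simp [pol]

theorem pol_coeff (J n0 : ℕ) (i : Fin 2) (j : Fin J)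
    (v : (Fin 2 × Fin J × Fin n0) → ZMod p) (t : Fin n0) :
    (pol J n0 i j v).coeff t = v (i, j, t) := by
  rw [pol_apply, finsetSum_coeff]
  rw [Finset.sum_eq_single t]
  · simp
  · intro b _ hb
    rw [coeff_monomial, if_neg]
    intro h
    exact hb (Fin.ext h)
  · simp

theorem pol_natDegree (J n0 : ℕ) (h0 : 0 < n0) (i : Fin 2) (j : Fin J)
    (v : (Fin 2 × Fin J × Fin n0) → ZMod p) :
    (pol J n0 i j v).natDegree < n0 := by
  rw [pol_apply]
  refine lt_of_le_of_lt (natDegree_sum_le_of_forall_le _ _ (n := n0 - 1) ?_) (by omega)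
  intro t _
  refine (natDegree_monomial_le _).trans ?_
  have := t.2
  omega

/-- The linear system. -/
noncomputable def sys (f : (ZMod p)[X]) (a : ZMod p) (c l J n0 T : ℕ) :
    ((Fin 2 × Fin J × Fin n0) → ZMod p) →ₗ[ZMod p] ((Fin l × Fin T) → ZMod p) :=
  LinearMap.pi fun kt => (lcoeff (ZMod p) (kt.2 : ℕ)) ∘ₗ
    (∑ j : Fin J, (LinearMap.mulRight (ZMod p) ((X : (ZMod p)[X]) ^ (j : ℕ))) ∘ₗ
      ((opR f (l : ZMod p) kt.1) ∘ₗ (pol J n0 0 j) +
        (LinearMap.mulLeft (ZMod p) (C a)) ∘ₗ (opR f ((l + c : ℕ) : ZMod p) kt.1) ∘ₗ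
          (pol J n0 1 j)))

theorem sys_apply (f : (ZMod p)[X]) (a : ZMod p) (c l J n0 T : ℕ)
    (v : (Fin 2 × Fin J × Fin n0) → ZMod p) (k : Fin l) (t : Fin T) :
    sys f a c l J n0 T v (k, t) =
      (Qk f a c l J k (fun j => pol J n0 0 j v) (fun j => pol J n0 1 j v)).coeff t := by
  simp [sys, Qk, lcoeff_apply]

theorem exists_aux (f : (ZMod p)[X]) (hf : 1 ≤ f.natDegree) (a : ZMod p) (c l J n0 : ℕ)
    (h0 : 0 < n0) (hJ : 1 ≤ J)
    (hdim : l * (n0 + (l - 1) * (f.natDegree - 1) + (J - 1)) < 2 * (J * n0)) :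
    ∃ r s : Fin J → (ZMod p)[X], (∀ j, (r j).natDegree < n0) ∧ (∀ j, (s j).natDegree < n0) ∧
      (∃ j, r j ≠ 0 ∨ s j ≠ 0) ∧ ∀ k < l, Qk f a c l J k r s = 0 := by
  set T := n0 + (l - 1) * (f.natDegree - 1) + (J - 1) with hT
  have hker : LinearMap.ker (sys f a c l J n0 T) ≠ ⊥ := by
    apply LinearMap.ker_ne_bot_of_finrank_lt
    simp only [Module.finrank_fintype_fun_eq_card, Fintype.card_prod, Fintype.card_fin]
    exact hdim
  obtain ⟨v, hv, hv0⟩ := Submodule.exists_mem_ne_zero_of_ne_bot hker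
  refine ⟨fun j => pol J n0 0 j v, fun j => pol J n0 1 j v, fun j => pol_natDegree J n0 h0 0 j v,
    fun j => pol_natDegree J n0 h0 1 j v, ?_, ?_⟩
  · by_contra hcon
    push Not at hcon
    apply hv0
    funext ⟨i, j, t⟩
    have h1 := pol_coeff J n0 i j v t
    have h2 : pol J n0 i j v = 0 := by
      fin_cases i
      · exact (hcon j).1
      · exact (hcon j).2
    rw [h2] at h1
    simpa using h1.symm
  · intro k hk
    ext t
    rw [coeff_zero]
    by_cases ht : t < T
    · have h1 : sys f a c l J n0 T v (⟨k, hk⟩, ⟨t, ht⟩) = 0 := by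
        rw [LinearMap.mem_ker.mp hv]; rfl
      rw [sys_apply] at h1
      exact h1
    · apply coeff_eq_zero_of_natDegree_lt
      have := natDegree_Qk_lt f hf a c l J k n0 hJ (fun j => pol J n0 0 j v)
        (fun j => pol J n0 1 j v) (fun j => pol_natDegree J n0 h0 0 j v)
        (fun j => pol_natDegree J n0 h0 1 j v) hk
      omega

/-- The auxiliary polynomial does not vanish. -/
theorem aux_ne_zero (f : (ZMod p)[X]) (hp : p ≠ 2) (hf0 : f.coeff 0 ≠ 0)
    (hsq : ∀ (c : ZMod p) (h : (ZMod p)[X]), f ≠ C c * h ^ 2) (l J n0 : ℕ)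
    (hn : 2 * (n0 - 1) + f.natDegree < p) (r s : Fin J → (ZMod p)[X])
    (hr : ∀ j, (r j).natDegree < n0) (hs : ∀ j, (s j).natDegree < n0)
    (hne : ∃ j, r j ≠ 0 ∨ s j ≠ 0) : aux f ((p - 1) / 2) l J r s ≠ 0 := by
  have hpp : p.Prime := Fact.out
  intro h0
  have hfne : f ≠ 0 := by
    rintro rfl
    exact hf0 (by simp)
  set g : (ZMod p)[X] := f ^ ((p - 1) / 2) with hg
  have hg2 : g ^ 2 * f = f ^ p := by
    rw [hg, ← pow_mul, ← pow_succ]
    congr 1
    have := hpp.eq_two_or_odd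
    have h2 := hpp.two_le
    omega
  have h1 : ∑ j : Fin J, (r j + s j * g) * X ^ ((j : ℕ) * p) = 0 := by
    have h2 : f ^ l * ∑ j : Fin J, (r j + s j * g) * X ^ ((j : ℕ) * p) = 0 := by
      rw [← h0]
      unfold aux
      rw [mul_sum]
      refine sum_congr rfl fun j _ => ?_
      rw [pow_add, hg]
      ring
    exact (mul_eq_zero.mp h2).resolve_left (pow_ne_zero _ hfne)
  -- minimal index
  classical
  obtain ⟨j0, hj0, hmin⟩ : ∃ j0 : Fin J, (r j0 ≠ 0 ∨ s j0 ≠ 0) ∧
      ∀ j < j0, ¬ (r j ≠ 0 ∨ s j ≠ 0) := by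
    have hwf := (univ.filter fun j : Fin J => r j ≠ 0 ∨ s j ≠ 0)
    have hS : (univ.filter fun j : Fin J => r j ≠ 0 ∨ s j ≠ 0).Nonempty := by
      obtain ⟨j, hj⟩ := hne
      exact ⟨j, by simpa using hj⟩
    refine ⟨(univ.filter fun j : Fin J => r j ≠ 0 ∨ s j ≠ 0).min' hS, ?_, ?_⟩
    · have := Finset.min'_mem _ hS
      simpa using this
    · intro j hj hcon
      have : (univ.filter fun j : Fin J => r j ≠ 0 ∨ s j ≠ 0).min' hS ≤ j :=
        Finset.min'_le _ _ (by simpa using hcon)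
      exact absurd hj (not_lt.mpr this)
  have hdvd : (X : (ZMod p)[X]) ^ p ∣ r j0 + s j0 * g := by
    have h2 : (X : (ZMod p)[X]) ^ (((j0 : ℕ) + 1) * p) ∣
        ∑ j ∈ univ.erase j0, (r j + s j * g) * X ^ ((j : ℕ) * p) := by
      refine dvd_sum fun j hj => ?_
      rcases lt_trichotomy j j0 with hlt | heq | hgt
      · have := hmin j hlt
        push Not at this
        rw [this.1, this.2]
        simp
      · exact absurd heq (ne_of_mem_erase hj)
      · refine Dvd.dvd.mul_left (pow_dvd_pow _ (Nat.mul_le_mul_right _ ?_)) _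
        exact hgt
    have h3 : (r j0 + s j0 * g) * X ^ ((j0 : ℕ) * p) =
        - ∑ j ∈ univ.erase j0, (r j + s j * g) * X ^ ((j : ℕ) * p) := by
      rw [← Finset.add_sum_erase _ _ (mem_univ j0)] at h1
      exact eq_neg_of_add_eq_zero_left h1
    have h4 : (X : (ZMod p)[X]) ^ (((j0 : ℕ) + 1) * p) ∣
        (r j0 + s j0 * g) * X ^ ((j0 : ℕ) * p) := by
      rw [h3]
      exact (dvd_neg).mpr h2
    have h5 : ((j0 : ℕ) + 1) * p = p + (j0 : ℕ) * p := by ring
    rw [h5, pow_add] at h4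
    exact (mul_dvd_mul_iff_right (pow_ne_zero _ X_ne_zero)).mp h4
  have hfrob : (X : (ZMod p)[X]) ^ p ∣ f ^ p - C (f.coeff 0) := by
    rw [← ZMod.expand_card f]
    rw [X_pow_dvd_iff]
    intro d hd
    rw [coeff_sub, coeff_expand hpp.pos, coeff_C]
    by_cases hd0 : d = 0
    · subst hd0
      simp
    · have : ¬ p ∣ d := fun h => by
        have := Nat.le_of_dvd (Nat.pos_of_ne_zero hd0) h
        omega
      rw [if_neg this, if_neg hd0, sub_zero]
  have hkey : (X : (ZMod p)[X]) ^ p ∣ (r j0) ^ 2 * f - C (f.coeff 0) * (s j0) ^ 2 := by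
    have h2 : (r j0) ^ 2 * f - C (f.coeff 0) * (s j0) ^ 2 =
        (r j0 + s j0 * g) * ((r j0 - s j0 * g) * f) +
          (f ^ p - C (f.coeff 0)) * (s j0) ^ 2 := by
      rw [← hg2]
      ring
    rw [h2]
    exact dvd_add (Dvd.dvd.mul_right hdvd _) (Dvd.dvd.mul_right hfrob _)
  have heq : (r j0) ^ 2 * f = C (f.coeff 0) * (s j0) ^ 2 := by
    rw [← sub_eq_zero]
    by_contra hcon
    have h2 := natDegree_le_of_dvd hkey hcon
    rw [natDegree_X_pow] at h2
    have h3 : ((r j0) ^ 2 * f - C (f.coeff 0) * (s j0) ^ 2).natDegree ≤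
        2 * (n0 - 1) + f.natDegree := by
      refine (natDegree_sub_le _ _).trans (max_le ?_ ?_)
      · refine natDegree_mul_le.trans ?_
        have h4 : ((r j0) ^ 2).natDegree ≤ 2 * (r j0).natDegree := natDegree_pow_le
        have h5 := hr j0
        omega
      · refine (natDegree_C_mul_le _ _).trans ?_
        have h4 : ((s j0) ^ 2).natDegree ≤ 2 * (s j0).natDegree := natDegree_pow_le
        have h5 := hs j0
        omega
    omega
  have hr0 : r j0 ≠ 0 := by
    intro h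
    rw [h] at heq
    have h2 : C (f.coeff 0) * (s j0) ^ 2 = 0 := by rw [← heq]; ring
    have h3 : s j0 = 0 := by
      rcases mul_eq_zero.mp h2 with h4 | h4
      · exact absurd (C_eq_zero.mp h4) hf0
      · exact pow_eq_zero_iff (two_ne_zero) |>.mp h4
    rcases hj0 with h4 | h4
    · exact h4 h
    · exact h4 h3
  have hdv : (r j0) ^ 2 ∣ (s j0) ^ 2 := by
    have h2 : (r j0) ^ 2 ∣ C (f.coeff 0) * (s j0) ^ 2 := ⟨f, heq.symm⟩
    have hu : IsUnit (C (f.coeff 0) : (ZMod p)[X]) := isUnit_C.mpr (isUnit_iff_ne_zero.mpr hf0)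
    exact (hu.dvd_mul_left).mp h2
  have hdv2 : r j0 ∣ s j0 := (UniqueFactorizationMonoid.pow_dvd_pow_iff_dvd two_ne_zero).mp hdv
  obtain ⟨h, hh⟩ := hdv2
  apply hsq (f.coeff 0) h
  have h2 : (r j0) ^ 2 * f = (r j0) ^ 2 * (C (f.coeff 0) * h ^ 2) := by
    rw [heq, hh]
    ring
  exact mul_left_cancel₀ (pow_ne_zero 2 hr0) h2

theorem natDegree_aux_le (f : (ZMod p)[X]) (c l J n0 : ℕ) (hJ : 1 ≤ J) (r s : Fin J → (ZMod p)[X])
    (hr : ∀ j, (r j).natDegree < n0) (hs : ∀ j, (s j).natDegree < n0) :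
    (aux f c l J r s).natDegree ≤ (l + c) * f.natDegree + (n0 - 1) + (J - 1) * p := by
  unfold aux
  refine natDegree_sum_le_of_forall_le _ _ ?_
  intro j _
  refine natDegree_mul_le.trans ?_
  rw [natDegree_X_pow]
  have h1 : (f ^ l * r j).natDegree ≤ (l + c) * f.natDegree + (n0 - 1) := by
    refine natDegree_mul_le.trans ?_
    have h2 : (f ^ l).natDegree ≤ l * f.natDegree := natDegree_pow_le
    have h3 : l * f.natDegree ≤ (l + c) * f.natDegree := Nat.mul_le_mul_right _ (by omega)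
    have h4 := hr j
    omega
  have h2 : (f ^ (l + c) * s j).natDegree ≤ (l + c) * f.natDegree + (n0 - 1) := by
    refine natDegree_mul_le.trans ?_
    have h2 : (f ^ (l + c)).natDegree ≤ (l + c) * f.natDegree := natDegree_pow_le
    have h4 := hs j
    omega
  have h3 := (natDegree_add_le (f ^ l * r j) (f ^ (l + c) * s j)).trans (max_le h1 h2)
  have h4 : (j : ℕ) * p ≤ (J - 1) * p := Nat.mul_le_mul_right _ (by have := j.2; omega)
  omega

/-- The count of the points with `f ^ ((p - 1) / 2) = a`. -/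
theorem card_mul_le (f : (ZMod p)[X]) (hp : p ≠ 2) (hf : 1 ≤ f.natDegree) (hf0 : f.coeff 0 ≠ 0)
    (hsq : ∀ (c : ZMod p) (h : (ZMod p)[X]), f ≠ C c * h ^ 2) (a : ZMod p) (l J n0 : ℕ)
    (h0 : 0 < n0) (hJ : 1 ≤ J) (hl : 1 ≤ l) (hlp : l ≤ p)
    (hn : 2 * (n0 - 1) + f.natDegree < p)
    (hdim : l * (n0 + (l - 1) * (f.natDegree - 1) + (J - 1)) < 2 * (J * n0)) :
    l * (univ.filter fun x : ZMod p => (f.eval x) ^ ((p - 1) / 2) = a).card ≤
      (l + (p - 1) / 2) * f.natDegree + (n0 - 1) + (J - 1) * p := by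
  have hpp : p.Prime := Fact.out
  obtain ⟨r, s, hr, hs, hne, hQ⟩ := exists_aux f hf a ((p - 1) / 2) l J n0 h0 hJ hdim
  set F := aux f ((p - 1) / 2) l J r s with hF
  have hFne : F ≠ 0 := aux_ne_zero f hp hf0 hsq l J n0 hn r s hr hs hne
  refine le_trans ?_ (natDegree_aux_le f ((p - 1) / 2) l J n0 hJ r s hr hs)
  rw [← hF]
  refine le_trans ?_ (card_roots' F)
  have hmult : ∀ x ∈ univ.filter (fun x : ZMod p => (f.eval x) ^ ((p - 1) / 2) = a),
      l ≤ F.roots.count x := by
    intro x hx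
    rw [mem_filter] at hx
    rw [count_roots]
    have h1 : l - 1 < F.rootMultiplicity x := by
      apply lt_rootMultiplicity_of_isRoot_iterate_derivative_of_mem_nonZeroDivisors' hFne
      · intro k hk
        rw [IsRoot, hF, eval_der_aux f a ((p - 1) / 2) l J r s k (by omega) x hx.2,
          hQ k (by omega)]
        simp
      · intro k hk hk0
        rw [mem_nonZeroDivisors_iff_ne_zero]
        intro h
        rw [ZMod.natCast_eq_zero_iff] at h
        have := Nat.le_of_dvd (Nat.pos_of_ne_zero hk0) h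
        omega
    omega
  calc l * (univ.filter fun x : ZMod p => (f.eval x) ^ ((p - 1) / 2) = a).card
      = ∑ x ∈ univ.filter (fun x : ZMod p => (f.eval x) ^ ((p - 1) / 2) = a), l := by
        rw [sum_const, smul_eq_mul, mul_comm]
    _ ≤ ∑ x ∈ univ.filter (fun x : ZMod p => (f.eval x) ^ ((p - 1) / 2) = a),
        F.roots.count x := sum_le_sum hmult
    _ ≤ ∑ x : ZMod p, F.roots.count x := sum_le_sum_of_subset (filter_subset _ _)
    _ = Multiset.card F.roots := by
        rw [Multiset.sum_count_eq_card]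
        intro x _
        exact mem_univ x

theorem params (p m w : ℕ) (hm : 1 ≤ m) (hw : w ^ 2 ≤ p) (hwm : 12 * m ≤ w) :
    2 * (w / 2) * ((p - m) / 2 + (2 * (w / 2) - 1) * (m - 1) + (w / 2 + 2 * m - 1)) <
      2 * ((w / 2 + 2 * m) * ((p - m) / 2)) := by
  obtain ⟨k, rfl⟩ : ∃ k, m = k + 1 := ⟨m - 1, by omega⟩
  set h := w / 2 with hh
  have h1 : 2 * h ≤ w := by omega
  have h1' : 1 ≤ h := by omega
  obtain ⟨h', hh'⟩ : ∃ h', h = h' + 1 := ⟨h - 1, by omega⟩
  have hpm : k + 1 ≤ p := by nlinarith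
  set n := (p - (k + 1)) / 2 with hn
  have h2 : p ≤ 2 * n + 1 + (k + 1) := by omega
  have e1 : 2 * h - 1 = 2 * h' + 1 := by omega
  have e2 : k + 1 - 1 = k := by omega
  have e3 : h + 2 * (k + 1) - 1 = h' + 2 * k + 2 := by omega
  rw [e1, e2, e3, hh']
  have h3 : 2 * (h' + 1) ≤ w := by omega
  -- reduce to an inequality without `n` on the left
  suffices hs : 2 * (h' + 1) * ((2 * h' + 1) * k + (h' + 2 * k + 2)) < 4 * (k + 1) * n by
    nlinarith
  have h4 : (2 * (h' + 1)) * (2 * (h' + 1)) ≤ p := by nlinarith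
  have h5 : 2 * (k + 1) * p ≤ 4 * (k + 1) * n + 2 * (k + 1) * (k + 2) := by nlinarith
  have h6 : 12 * (k + 1) * w ≤ p := by nlinarith
  -- LHS ≤ 4 H² k + 2 H² + 4 H (k+1), H = h' + 1
  have h7 : 2 * (h' + 1) * ((2 * h' + 1) * k + (h' + 2 * k + 2)) ≤
      (2 * (h' + 1)) * (2 * (h' + 1)) * k + 2 * (h' + 1) * (h' + 1) + 2 * (h' + 1) * (2 * (k + 1)) := by
    nlinarith
  have h8 : (2 * (h' + 1)) * (2 * (h' + 1)) * k ≤ p * k := Nat.mul_le_mul_right _ h4
  have h9 : 2 * (2 * (h' + 1) * (h' + 1)) ≤ p := by nlinarith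
  have h10 : 2 * (h' + 1) * (2 * (k + 1)) ≤ w * (2 * (k + 1)) := Nat.mul_le_mul_right _ h3
  have h11 : 2 * (k + 1) * (k + 2) ≤ 4 * (k + 1) * w := by nlinarith
  have h12 : 0 < (k + 1) * w := Nat.mul_pos (by omega) (by omega)
  nlinarith

theorem params_real (p m w N : ℕ) (hm : 1 ≤ m) (hw : w ^ 2 ≤ p) (hw2 : p < (w + 1) ^ 2)
    (hwm : 12 * m ≤ w)
    (hN : 2 * (w / 2) * N ≤ (2 * (w / 2) + (p - 1) / 2) * m + ((p - m) / 2 - 1) +
      (w / 2 + 2 * m - 1) * p) :
    (N : ℝ) ≤ p / 2 + 3 * m * √p + m := by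
  set h := w / 2 with hh
  have h1 : 2 * h ≤ w := by omega
  have h1' : w ≤ 2 * h + 1 := by omega
  have h6 : 6 ≤ h := by omega
  have hp1 : 144 ≤ p := by nlinarith
  have hsq : √(p : ℝ) < w + 1 := by
    rw [Real.sqrt_lt' (by positivity)]
    exact_mod_cast hw2
  have hsq2 : (w : ℝ) ≤ √(p : ℝ) := by
    apply Real.le_sqrt_of_sq_le
    exact_mod_cast hw
  have hs12 : 12 ≤ √(p : ℝ) := by
    have : (12 : ℝ) ≤ w := by exact_mod_cast (by omega : 12 ≤ w)
    linarith
  have hps : √(p : ℝ) * √(p : ℝ) = p := Real.mul_self_sqrt (by positivity)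
  have hc : (((p - 1) / 2 : ℕ) : ℝ) ≤ (p : ℝ) / 2 := by
    have : 2 * ((p - 1) / 2) ≤ p := by omega
    have h2 : (2 : ℝ) * (((p - 1) / 2 : ℕ) : ℝ) ≤ p := by exact_mod_cast this
    linarith
  have hn : ((((p - m) / 2 - 1 : ℕ)) : ℝ) ≤ (p : ℝ) / 2 := by
    have : 2 * ((p - m) / 2 - 1) ≤ p := by omega
    have h2 : (2 : ℝ) * (((p - m) / 2 - 1 : ℕ) : ℝ) ≤ p := by exact_mod_cast this
    linarith
  have hJ : (((h + 2 * m - 1 : ℕ)) : ℝ) = (h : ℝ) + 2 * m - 1 := by
    rw [Nat.cast_sub (by omega)]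
    push_cast
    ring
  have hN' : 2 * (h : ℝ) * N ≤ (2 * (h : ℝ) + (((p - 1) / 2 : ℕ) : ℝ)) * m +
      (((p - m) / 2 - 1 : ℕ) : ℝ) + ((h : ℝ) + 2 * m - 1) * p := by
    rw [← hJ]
    exact_mod_cast hN
  have hh4 : (5 / 3 : ℝ) * √p ≤ 4 * h := by
    have h2 : (w : ℝ) ≤ 2 * h + 1 := by exact_mod_cast h1'
    linarith
  have hmR : (1 : ℝ) ≤ m := by exact_mod_cast hm
  have hhR : (6 : ℝ) ≤ h := by exact_mod_cast h6
  have hpR : (0 : ℝ) ≤ p := by positivity
  have hb : 2 * (h : ℝ) * N ≤ 2 * h * m + h * p + 5 * m * p / 2 := by nlinarith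
  have hc2 : 5 * (m : ℝ) * p / 2 ≤ 2 * h * (3 * m * √p) := by
    have h2 : (m : ℝ) * √p * ((5 / 3 : ℝ) * √p) ≤ m * √p * (4 * h) :=
      mul_le_mul_of_nonneg_left hh4 (by positivity)
    have h3 : (m : ℝ) * √p * ((5 / 3 : ℝ) * √p) = 5 / 3 * m * p := by
      calc (m : ℝ) * √p * ((5 / 3 : ℝ) * √p) = 5 / 3 * m * (√(p : ℝ) * √(p : ℝ)) := by ring
        _ = 5 / 3 * m * p := by rw [hps]
    rw [h3] at h2
    nlinarith
  have hd : 2 * (h : ℝ) * N ≤ 2 * h * (p / 2 + 3 * m * √p + m) := by nlinarith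
  exact le_of_mul_le_mul_left hd (by positivity)

theorem count_le (f : (ZMod p)[X]) (hp : p ≠ 2) (hf : 1 ≤ f.natDegree) (hf0 : f.coeff 0 ≠ 0)
    (hsq : ∀ (c : ZMod p) (h : (ZMod p)[X]), f ≠ C c * h ^ 2) (a : ZMod p)
    (hbig : 12 * f.natDegree ≤ p.sqrt) :
    ((univ.filter fun x : ZMod p => (f.eval x) ^ ((p - 1) / 2) = a).card : ℝ) ≤
      p / 2 + 3 * f.natDegree * √p + f.natDegree := by
  have hw : p.sqrt ^ 2 ≤ p := Nat.sqrt_le' p
  have hw2 : p < (p.sqrt + 1) ^ 2 := Nat.lt_succ_sqrt' p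
  set w := p.sqrt with hwdef
  set m := f.natDegree with hm
  have hw12 : 12 ≤ w := by omega
  have hmp : 12 * m * w ≤ p := by nlinarith
  have hmp2 : 144 * m ≤ p := by nlinarith
  have hwp : w ≤ p := by nlinarith
  refine params_real p m w _ hf hw hw2 hbig ?_
  refine card_mul_le f hp hf hf0 hsq a (2 * (w / 2)) (w / 2 + 2 * m) ((p - m) / 2) (by omega)
    (by omega) (by omega) (by omega) ?_ (params p m w hf hw hbig)
  rw [← hm]
  omega

/-- **Stepanov's bound**, uniform in the degree: if the polynomial `f` over `ZMod p`, `p` odd, is not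
a constant times a square then the sum of the Legendre symbols of its values is at most
`12 (deg f) √p` in absolute value. -/
theorem stepanov (hp : p ≠ 2) (f : (ZMod p)[X])
    (hsq : ∀ (c : ZMod p) (h : (ZMod p)[X]), f ≠ C c * h ^ 2) :
    |((∑ x : ZMod p, quadraticChar (ZMod p) (f.eval x) : ℤ) : ℝ)| ≤ 12 * f.natDegree * √p := by
  have hpp : p.Prime := Fact.out
  have hf1 : 1 ≤ f.natDegree := by
    by_contra hcon
    have h0 : f.natDegree = 0 := by omega
    obtain ⟨c, hc⟩ := natDegree_eq_zero.mp h0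
    exact hsq c 1 (by rw [← hc]; simp)
  have hfne : f ≠ 0 := by rintro rfl; simp at hf1
  have hchi : ∀ y : ZMod p, |quadraticChar (ZMod p) y| ≤ 1 := by
    intro y
    rcases eq_or_ne y 0 with h | h
    · simp [h]
    · rcases quadraticChar_dichotomy h with h | h <;> simp [h]
  have htriv : |((∑ x : ZMod p, quadraticChar (ZMod p) (f.eval x) : ℤ) : ℝ)| ≤ p := by
    have h1 : |∑ x : ZMod p, quadraticChar (ZMod p) (f.eval x)| ≤ p := by
      refine (abs_sum_le_sum_abs _ _).trans ((sum_le_sum fun x _ => hchi _).trans ?_)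
      simp [ZMod.card]
    rw [← Int.cast_abs]
    exact_mod_cast h1
  have hpR : (0 : ℝ) ≤ p := by positivity
  have hps : √(p : ℝ) * √(p : ℝ) = p := Real.mul_self_sqrt hpR
  by_cases hbig : 12 * f.natDegree ≤ p.sqrt
  swap
  · refine htriv.trans ?_
    have h1 : p.sqrt + 1 ≤ 12 * f.natDegree := by omega
    have h2 : √(p : ℝ) ≤ p.sqrt + 1 := by
      rw [Real.sqrt_le_left (by positivity)]
      exact_mod_cast (Nat.lt_succ_sqrt' p).le
    have h3 : √(p : ℝ) ≤ 12 * f.natDegree := by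
      refine h2.trans ?_
      exact_mod_cast h1
    calc (p : ℝ) = √(p : ℝ) * √(p : ℝ) := hps.symm
      _ ≤ 12 * f.natDegree * √p := mul_le_mul_of_nonneg_right h3 (Real.sqrt_nonneg _)
  -- translation
  have hcard : (f.natDegree : Cardinal) < Cardinal.mk (ZMod p) := by
    rw [Cardinal.mk_fintype, ZMod.card]
    have h1 : p.sqrt ≤ p := Nat.sqrt_le_self p
    exact_mod_cast (by omega : f.natDegree < p)
  obtain ⟨t, ht⟩ := exists_eval_ne_zero_of_natDegree_lt_card f hfne hcard
  set f1 := taylor t f with hf1def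
  have hdeg : f1.natDegree = f.natDegree := natDegree_taylor f t
  have hsq1 : ∀ (c : ZMod p) (h : (ZMod p)[X]), f1 ≠ C c * h ^ 2 := by
    intro c h hcon
    apply hsq c (taylor (-t) h)
    have h1 : taylor (-t) f1 = f := by
      rw [hf1def, taylor_taylor]
      simp
    rw [← h1, hcon, taylor_mul, taylor_C, pow_two, taylor_mul, pow_two]
  have hsum : ∑ x : ZMod p, quadraticChar (ZMod p) (f.eval x) =
      ∑ x : ZMod p, quadraticChar (ZMod p) (f1.eval x) := by
    rw [← Equiv.sum_comp (Equiv.addRight t) (fun x => quadraticChar (ZMod p) (f.eval x))]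
    refine sum_congr rfl fun x _ => ?_
    rw [hf1def, taylor_eval]
    rfl
  rw [hsum]
  have hb1 := count_le f1 hp (by rw [hdeg]; exact hf1)
    (by rw [hf1def, taylor_coeff_zero]; exact ht) hsq1 1 (by rw [hdeg]; exact hbig)
  have hb2 := count_le f1 hp (by rw [hdeg]; exact hf1)
    (by rw [hf1def, taylor_coeff_zero]; exact ht) hsq1 (-1) (by rw [hdeg]; exact hbig)
  rw [hdeg] at hb1 hb2
  have hf1ne : f1 ≠ 0 := by
    intro h
    rw [h] at hdeg
    simp at hdeg
    omega
  have hchar : ringChar (ZMod p) ≠ 2 := by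
    rw [ZMod.ringChar_zmod_n]
    exact hp
  have hc2 : Fintype.card (ZMod p) / 2 = (p - 1) / 2 := by
    rw [ZMod.card]
    have := hpp.eq_two_or_odd
    omega
  have hone : (1 : ZMod p) ≠ -1 := by
    intro h
    have h2 : ((2 : ℕ) : ZMod p) = 0 := by
      push_cast
      have : (1 : ZMod p) + 1 = 0 := by
        nth_rewrite 1 [h]
        ring
      linear_combination this
    rw [ZMod.natCast_eq_zero_iff] at h2
    exact hp ((Nat.prime_dvd_prime_iff_eq hpp Nat.prime_two).mp h2)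
  set A1 := univ.filter fun x : ZMod p => (f1.eval x) ^ ((p - 1) / 2) = 1 with hA1
  set A2 := univ.filter fun x : ZMod p => (f1.eval x) ^ ((p - 1) / 2) = -1 with hA2
  set A3 := univ.filter fun x : ZMod p => f1.eval x = 0 with hA3
  have hA3c : A3.card ≤ f.natDegree := by
    rw [← hdeg]
    have h1 : A3 ⊆ f1.roots.toFinset := by
      intro x hx
      rw [hA3, mem_filter] at hx
      rw [Multiset.mem_toFinset, mem_roots hf1ne]
      exact hx.2
    exact (card_le_card h1).trans ((Multiset.toFinset_card_le _).trans (card_roots' f1))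
  have hval : ∀ x : ZMod p, quadraticChar (ZMod p) (f1.eval x) =
      (if x ∈ A1 then 1 else 0) - (if x ∈ A2 then 1 else 0) := by
    intro x
    simp only [hA1, hA2, mem_filter, mem_univ, true_and]
    have h1 := quadraticChar_eq_pow_of_char_ne_two' hchar (f1.eval x)
    rw [hc2] at h1
    rcases eq_or_ne (f1.eval x) 0 with h | h
    · have h2 : (p - 1) / 2 ≠ 0 := by
        have := hpp.two_le
        omega
      rw [h, zero_pow h2]
      simp
    · rcases quadraticChar_dichotomy h with h3 | h3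
      · rw [h3] at h1 ⊢
        rw [← h1]
        have : ¬ (((1 : ℤ) : ZMod p) = -1) := by push_cast; exact hone
        simp [hone]
      · rw [h3] at h1 ⊢
        rw [← h1]
        have h4 : ¬ (((-1 : ℤ) : ZMod p) = 1) := by push_cast; exact fun h => hone h.symm
        rw [if_neg h4]
        simp
  have hcov : (univ : Finset (ZMod p)).card ≤ A1.card + A2.card + A3.card := by
    have h1 : (univ : Finset (ZMod p)) ⊆ (A1 ∪ A2) ∪ A3 := by
      intro x _
      simp only [hA1, hA2, hA3, mem_union, mem_filter, mem_univ, true_and]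
      rcases eq_or_ne (f1.eval x) 0 with h | h
      · exact Or.inr h
      · left
        have h1 := quadraticChar_eq_pow_of_char_ne_two' hchar (f1.eval x)
        rw [hc2] at h1
        rcases quadraticChar_dichotomy h with h3 | h3
        · left; rw [← h1, h3]; simp
        · right; rw [← h1, h3]; simp
    exact (card_le_card h1).trans ((card_union_le _ _).trans
      (Nat.add_le_add_right (card_union_le _ _) _))
  have hdis : A1.card + A2.card ≤ p := by
    have h1 : Disjoint A1 A2 := by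
      rw [Finset.disjoint_left]
      intro x hx hx2
      rw [hA1, mem_filter] at hx
      rw [hA2, mem_filter] at hx2
      exact hone (hx.2.symm.trans hx2.2)
    rw [← card_union_of_disjoint h1]
    exact (card_le_univ _).trans (by rw [ZMod.card])
  rw [card_univ, ZMod.card] at hcov
  have hS : ((∑ x : ZMod p, quadraticChar (ZMod p) (f1.eval x) : ℤ) : ℝ) = A1.card - A2.card := by
    have h1 : ∑ x : ZMod p, quadraticChar (ZMod p) (f1.eval x) = (A1.card : ℤ) - A2.card := by
      simp_rw [hval]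
      rw [sum_sub_distrib]
      simp
    rw [h1]
    push_cast
    ring
  rw [hS]
  have hcovR : (p : ℝ) ≤ A1.card + A2.card + A3.card := by exact_mod_cast hcov
  have hdisR : (A1.card : ℝ) + A2.card ≤ p := by exact_mod_cast hdis
  have hA3R : (A3.card : ℝ) ≤ f.natDegree := by exact_mod_cast hA3c
  have hmR : (1 : ℝ) ≤ f.natDegree := by exact_mod_cast hf1
  have hs1 : (1 : ℝ) ≤ √p := by
    rw [Real.one_le_sqrt]
    exact_mod_cast hpp.one_lt.le
  have hms : (f.natDegree : ℝ) ≤ f.natDegree * √p := by nlinarith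
  rw [abs_le]
  constructor
  · nlinarith
  · nlinarith

end Stepanov
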