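import Pool.Agent.W_aaa0df_h86.Harm
import Pool.Agent.W_aaa0df_h86.AbelIneq
import Pool.Agent.W_aaa0df_h86.Chi

/-! Constant number of exceptional twists: sums over multiples (helper65). -/

set_option autoImplicit false

namespace TwV

open Finset Real Twist

theorem B1_image {a b D : ℕ} (hD : 1 ≤ D) :
    (Ioc a b).filter (fun n => D ∣ n) = (Ioc (a / D) (b / D)).image (fun j => D * j) := by
  ext n
  simp only [mem_filter, mem_Ioc, mem_image]
  constructor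
  · rintro ⟨⟨h1, h2⟩, ⟨j, rfl⟩⟩
    refine ⟨j, ⟨?_, ?_⟩, rfl⟩
    · rw [Nat.div_lt_iff_lt_mul (by omega), mul_comm]; exact h1
    · rw [Nat.le_div_iff_mul_le (by omega), mul_comm]; exact h2
  · rintro ⟨j, ⟨h1, h2⟩, rfl⟩
    refine ⟨⟨?_, ?_⟩, Dvd.intro j rfl⟩
    · rw [Nat.div_lt_iff_lt_mul (by omega), mul_comm] at h1; exact h1
    · rw [Nat.le_div_iff_mul_le (by omega), mul_comm] at h2; exact h2

theorem B1_sum {a b D : ℕ} (hD : 1 ≤ D) (g : ℕ → ℝ) :
    ∑ n ∈ (Ioc a b).filter (fun n => D ∣ n), g n = ∑ j ∈ Ioc (a / D) (b / D), g (D * j) := by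
  rw [B1_image hD, Finset.sum_image]
  intro x _ y _ h
  exact Nat.eq_of_mul_eq_mul_left (by omega) h

/-- Harmonic sums over the multiples of `D`.
Proof. The multiples of `D` in `(a, b]` are `D m` with `m ∈ (⌊a/D⌋, ⌊b/D⌋]` (real quotients), so the sum is
`(HH (b/D) - HH (a/D))/D`; by `HH_approx` (`a/D ≥ 1`, `b/D ≥ 1`) the bracket is `log(b/D) - log(a/D)` up to
`2 D/b + 2 D/a ≤ 4 D/a`. -/
theorem sum_inv_dvd {a b D : ℕ} (hD : 1 ≤ D) (hDa : D ≤ a) (hab : a ≤ b) :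
    |∑ n ∈ (Ioc a b).filter (fun n => D ∣ n), 1 / (n : ℝ) - log ((b : ℝ) / a) / D| ≤ 4 / a := by
  have hD0 : (0 : ℝ) < D := by exact_mod_cast hD
  have ha0 : (0 : ℝ) < a := by exact_mod_cast (by omega : 0 < a)
  have hb0 : (0 : ℝ) < b := by exact_mod_cast (by omega : 0 < b)
  have hab' : (a : ℝ) ≤ b := by exact_mod_cast hab
  have h1 : ∑ n ∈ (Ioc a b).filter (fun n => D ∣ n), 1 / (n : ℝ) =
      (HH ((b : ℝ) / D) - HH ((a : ℝ) / D)) / D := by
    rw [B1_sum hD (fun n => 1 / (n : ℝ))]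
    unfold HH
    rw [Nat.floor_div_natCast, Nat.floor_div_natCast, Nat.floor_natCast, Nat.floor_natCast]
    have h2 : ∑ j ∈ Icc 1 (b / D), 1 / (j : ℝ) =
        ∑ j ∈ Icc 1 (a / D), 1 / (j : ℝ) + ∑ j ∈ Ioc (a / D) (b / D), 1 / (j : ℝ) := by
      have e1 : Icc 1 (b / D) = Ioc 0 (b / D) := rfl
      have e2 : Icc 1 (a / D) = Ioc 0 (a / D) := rfl
      rw [e1, e2]
      exact (Finset.sum_Ioc_consecutive _ (Nat.zero_le _) (Nat.div_le_div_right hab)).symm
    rw [h2, add_sub_cancel_left, Finset.sum_div]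
    refine Finset.sum_congr rfl fun j _ => ?_
    push_cast
    rw [div_div, mul_comm]
  rw [h1]
  have hu : (1 : ℝ) ≤ (a : ℝ) / D := by
    rw [le_div_iff₀ hD0, one_mul]; exact_mod_cast hDa
  have hv : (1 : ℝ) ≤ (b : ℝ) / D := hu.trans (by gcongr)
  have k1 := abs_le.1 (HH_approx hu)
  have k2 := abs_le.1 (HH_approx hv)
  have hlog : log ((b : ℝ) / a) = log ((b : ℝ) / D) - log ((a : ℝ) / D) := by
    rw [log_div hb0.ne' ha0.ne', log_div hb0.ne' hD0.ne', log_div ha0.ne' hD0.ne']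
    ring
  rw [hlog, ← sub_div, abs_div, abs_of_pos hD0, div_le_iff₀ hD0]
  have m1 : 2 / ((b : ℝ) / D) ≤ 2 / ((a : ℝ) / D) := by gcongr
  have m2 : 2 / ((a : ℝ) / D) = 2 * D / a := by field_simp
  have m3 : 4 / (a : ℝ) * D = 2 * D / a + 2 * D / a := by field_simp; ring
  rw [m3, ← m2, abs_le]
  constructor <;> linarith [k1.1, k1.2, k2.1, k2.2]

/-- Character sums over the multiples of `D`.
Proof. With `n = D j`, `chi m n = chi m D chi m j`: the sum is `(chi m D/D) ∑_{⌊a/D⌋ < j ≤ ⌊b/D⌋} chi m j/j`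
(natural number quotients). `abel_ineq` with `q = 4m` (`(chi_RChar hm).sum`), `φ j = 1/j` bounds the sum over `j` by
`8 m/(⌊a/D⌋ + 1) ≤ 8 m D/a`. -/
theorem sum_chi_dvd {m : ℕ} (hm : ¬ IsSquare m) {a b D : ℕ} (hD : 1 ≤ D) (ha : 1 ≤ a) :
    |∑ n ∈ (Ioc a b).filter (fun n => D ∣ n), chi m n / (n : ℝ)| ≤ 8 * m / a := by
  have hD0 : (0 : ℝ) < D := by exact_mod_cast hD
  have ha0 : (0 : ℝ) < a := by exact_mod_cast (by omega : 0 < a)
  rw [B1_sum hD (fun n => chi m n / (n : ℝ))]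
  have h1 : ∑ j ∈ Ioc (a / D) (b / D), chi m (D * j) / ((D * j : ℕ) : ℝ) =
      chi m D / D * ∑ j ∈ Ioc (a / D) (b / D), chi m j * (1 / (j : ℝ)) := by
    rw [Finset.mul_sum]
    refine Finset.sum_congr rfl fun j _ => ?_
    rw [chi_mul]
    push_cast
    ring
  rw [h1, abs_mul, abs_div, abs_of_pos hD0]
  have h2 := abel_ineq (a := chi m) (q := 4 * (m : ℝ)) (chi_RChar hm).sum
    (φ := fun j : ℕ => 1 / (j : ℝ)) (M := a / D) (N := b / D)
    (by
      intro n hn _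
      have h0 : (0 : ℝ) < n := by
        exact_mod_cast (Nat.lt_of_lt_of_le (Nat.succ_pos _) hn : 0 < n)
      show 1 / ((n + 1 : ℕ) : ℝ) ≤ 1 / (n : ℝ)
      push_cast
      exact one_div_le_one_div_of_le h0 (by linarith))
    (by intro n _ _; positivity) (by positivity)
  have h3 : 1 / ((a / D + 1 : ℕ) : ℝ) ≤ D / a := by
    have h4 : a < D * (a / D + 1) := Nat.lt_mul_div_succ a (by omega)
    have h5 : (a : ℝ) ≤ D * ((a / D + 1 : ℕ) : ℝ) := by exact_mod_cast h4.le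
    have h6 : (0 : ℝ) < ((a / D + 1 : ℕ) : ℝ) := by positivity
    rw [div_le_div_iff₀ h6 ha0, one_mul]
    exact h5
  have hm0 : (0 : ℝ) ≤ m := Nat.cast_nonneg m
  calc |chi m D| / D * |∑ j ∈ Ioc (a / D) (b / D), chi m j * (1 / (j : ℝ))|
      ≤ 1 / D * (2 * (4 * (m : ℝ)) * (D / a)) := by
        apply mul_le_mul
        · gcongr; exact chi_abs m D
        · refine h2.trans ?_
          apply mul_le_mul_of_nonneg_left h3 (by positivity)
        · exact abs_nonneg _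
        · positivity
    _ = 8 * m / a := by field_simp; ring

end TwV
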