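import Pool.Agent.W_b58c63_h44.SelQ

/-! Constant number of exceptional twists: Selberg's weights for the density `1/p` (helper65). -/

set_option autoImplicit false

namespace TwV

open Finset Real

theorem B2_aux1 {d e : ℕ} (hd : Squarefree d) (he : Squarefree e) : Squarefree (Nat.lcm d e) := by
  have hd0 := hd.ne_zero
  have he0 := he.ne_zero
  have h0 : Nat.lcm d e ≠ 0 := Nat.lcm_ne_zero hd0 he0
  rw [Nat.squarefree_iff_factorization_le_one h0]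
  intro p
  rw [Nat.factorization_lcm hd0 he0, Finsupp.sup_apply]
  exact sup_le ((Nat.squarefree_iff_factorization_le_one hd0).1 hd p)
    ((Nat.squarefree_iff_factorization_le_one he0).1 he p)

/-- Selberg's weights.
Proof. `selberg_exists`, `selberg_value` (in `W_b58c63_h44/Sel.lean`) with `h = hin` (`SelQ_hin`), `SelQ_pp` (for squarefree
`n`; the lcm of squarefree numbers is squarefree: `Nat.Squarefree` / `Nat.squarefree_lcm`-type lemma via factorization),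
`GG_ge : log z ≤ GG hin z`. The set `SF w` is `(Icc 1 ⌊w⌋₊).filter Squarefree`. -/
theorem weights {w : ℝ} (hw : 1 < w) : ∃ l : ℕ → ℝ, l 1 = 1 ∧ (∀ d, |l d| ≤ 1) ∧
    (∀ d, d ∉ (Icc 1 ⌊w⌋₊).filter Squarefree → l d = 0) ∧
    ∑ d ∈ Icc 1 ⌊w⌋₊, ∑ e ∈ Icc 1 ⌊w⌋₊, l d * l e / (Nat.lcm d e : ℝ) ≤ 1 / log w := by
  obtain ⟨lam, h1, h2, h3, h4⟩ := Pool.Agent.PSG.selberg_exists Pool.Agent.PSG.hin
    (fun p hp => Pool.Agent.PSG.SelQ_hin hp) w hw.le
  have hval := Pool.Agent.PSG.selberg_value Pool.Agent.PSG.hin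
    (fun p hp => Pool.Agent.PSG.SelQ_hin hp) w hw.le lam h4
  refine ⟨lam, h1, h2, h3, ?_⟩
  have hsub : Pool.Agent.PSG.SF w ⊆ Icc 1 ⌊w⌋₊ := Finset.filter_subset _ _
  have hin : ∀ d, ∑ e ∈ Icc 1 ⌊w⌋₊, lam d * lam e / (Nat.lcm d e : ℝ) =
      ∑ e ∈ Pool.Agent.PSG.SF w, lam d * lam e / (Nat.lcm d e : ℝ) := by
    intro d
    symm
    refine Finset.sum_subset hsub fun e _ he => ?_
    rw [h3 e he, mul_zero, zero_div]
  have hout : ∑ d ∈ Icc 1 ⌊w⌋₊, ∑ e ∈ Icc 1 ⌊w⌋₊, lam d * lam e / (Nat.lcm d e : ℝ) =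
      ∑ d ∈ Pool.Agent.PSG.SF w, ∑ e ∈ Pool.Agent.PSG.SF w, lam d * lam e / (Nat.lcm d e : ℝ) := by
    rw [Finset.sum_congr rfl fun d _ => hin d]
    symm
    refine Finset.sum_subset hsub fun d _ hd => ?_
    refine Finset.sum_eq_zero fun e _ => ?_
    rw [h3 d hd, zero_mul, zero_div]
  have hpp : ∑ d ∈ Pool.Agent.PSG.SF w, ∑ e ∈ Pool.Agent.PSG.SF w, lam d * lam e / (Nat.lcm d e : ℝ) =
      ∑ d ∈ Pool.Agent.PSG.SF w, ∑ e ∈ Pool.Agent.PSG.SF w, lam d * lam e *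
        Pool.Agent.PSG.pp Pool.Agent.PSG.hin (Nat.lcm d e) := by
    refine Finset.sum_congr rfl fun d hd => Finset.sum_congr rfl fun e he => ?_
    rw [Pool.Agent.PSG.SelQ_pp (B2_aux1 (Pool.Agent.PSG.Sel_mem.1 hd).2.2 (Pool.Agent.PSG.Sel_mem.1 he).2.2),
      mul_one_div]
  rw [hout, hpp, hval]
  exact one_div_le_one_div_of_le (Real.log_pos hw) (Pool.Agent.PSG.GG_ge w hw.le)

end TwV
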