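import Pool.Agent.W_aaa0df_h65.B1
import Pool.Agent.W_aaa0df_h65.B2
import Pool.Agent.W_aaa0df_h86.LS

/-! Constant number of exceptional twists: the weighted large sieve (helper65). -/

set_option autoImplicit false

namespace TwV

open Finset Real Twist

/-- the sieve majorant `w(n) = (∑_{d ∣ n, d ≤ w} l(d))²` -/
noncomputable def maj (l : ℕ → ℝ) (w : ℝ) (n : ℕ) : ℝ :=
  (∑ d ∈ (Icc 1 ⌊w⌋₊).filter (fun d => d ∣ n), l d) ^ 2

theorem B3_maj (l : ℕ → ℝ) (w : ℝ) (n : ℕ) : maj l w n =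
    ∑ d ∈ Icc 1 ⌊w⌋₊, ∑ e ∈ Icc 1 ⌊w⌋₊, l d * l e * (if Nat.lcm d e ∣ n then 1 else 0) := by
  unfold maj
  rw [pow_two, Finset.sum_filter, Finset.sum_mul_sum]
  refine Finset.sum_congr rfl fun d _ => Finset.sum_congr rfl fun e _ => ?_
  by_cases h1 : d ∣ n
  · by_cases h2 : e ∣ n
    · rw [if_pos h1, if_pos h2, if_pos (Nat.lcm_dvd h1 h2), mul_one]
    · rw [if_neg h2, mul_zero, if_neg (fun h => h2 ((Nat.dvd_lcm_right d e).trans h)), mul_zero]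
  · rw [if_neg h1, zero_mul, if_neg (fun h => h1 ((Nat.dvd_lcm_left d e).trans h)), mul_zero]

/-- expansion of a sum against the majorant (`d ∣ n` and `e ∣ n` iff `lcm d e ∣ n`) -/
theorem maj_expand (l : ℕ → ℝ) (w : ℝ) (s : Finset ℕ) (g : ℕ → ℝ) :
    ∑ n ∈ s, maj l w n * g n =
      ∑ d ∈ Icc 1 ⌊w⌋₊, ∑ e ∈ Icc 1 ⌊w⌋₊, l d * l e * ∑ n ∈ s.filter (fun n => Nat.lcm d e ∣ n), g n := by
  have h1 : ∀ n ∈ s, maj l w n * g n = ∑ d ∈ Icc 1 ⌊w⌋₊, ∑ e ∈ Icc 1 ⌊w⌋₊,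
      l d * l e * (if Nat.lcm d e ∣ n then g n else 0) := by
    intro n _
    rw [B3_maj, Finset.sum_mul]
    refine Finset.sum_congr rfl fun d _ => ?_
    rw [Finset.sum_mul]
    refine Finset.sum_congr rfl fun e _ => ?_
    split_ifs
    · rw [mul_one]
    · rw [mul_zero, zero_mul]
  rw [Finset.sum_congr rfl h1, Finset.sum_comm]
  refine Finset.sum_congr rfl fun d _ => ?_
  rw [Finset.sum_comm]
  refine Finset.sum_congr rfl fun e _ => ?_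
  rw [← Finset.mul_sum, Finset.sum_filter]

theorem B3_card {w : ℝ} (hw : 1 < w) {c : ℝ} (hc : 0 ≤ c) {F : ℕ → ℕ → ℝ}
    (hF : ∀ d ∈ Icc 1 ⌊w⌋₊, ∀ e ∈ Icc 1 ⌊w⌋₊, F d e ≤ c) :
    ∑ d ∈ Icc 1 ⌊w⌋₊, ∑ e ∈ Icc 1 ⌊w⌋₊, F d e ≤ w ^ 2 * c := by
  refine (Finset.sum_le_sum fun d hd => Finset.sum_le_sum fun e he => hF d hd e he).trans ?_
  simp only [Finset.sum_const, Nat.card_Icc, nsmul_eq_mul, Nat.add_sub_cancel]
  have h1 : (⌊w⌋₊ : ℝ) ≤ w := Nat.floor_le (by linarith)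
  have h2 : (0 : ℝ) ≤ ⌊w⌋₊ := Nat.cast_nonneg _
  have h3 : (⌊w⌋₊ : ℝ) * ⌊w⌋₊ ≤ w ^ 2 := by nlinarith
  calc (⌊w⌋₊ : ℝ) * (⌊w⌋₊ * c) = (⌊w⌋₊ : ℝ) * ⌊w⌋₊ * c := by ring
    _ ≤ w ^ 2 * c := mul_le_mul_of_nonneg_right h3 hc

theorem B3_ll {l : ℕ → ℝ} (hl : ∀ d, |l d| ≤ 1) (d e : ℕ) {x c : ℝ} (hx : |x| ≤ c) : |l d * l e * x| ≤ c := by
  rw [abs_mul, abs_mul]
  have h1 : |l d| * |l e| ≤ 1 := mul_le_one₀ (hl d) (abs_nonneg _) (hl e)
  calc |l d| * |l e| * |x| ≤ 1 * |x| := mul_le_mul_of_nonneg_right h1 (abs_nonneg _)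
    _ ≤ c := by rw [one_mul]; exact hx

/-- the total mass of the majorant.
Proof. `maj_expand` with `g n = 1/n`, `sum_inv_dvd` for `D = lcm d e ≤ w² ≤ a`: main term
`log(b/a) ∑∑ l d l e/lcm ≤ log(b/a)/log w`, error at most `w² · 4/a ≤ 4` (`|l| ≤ 1`, at most `w²` pairs). -/
theorem maj_mass {l : ℕ → ℝ} {w : ℝ} (hw : 1 < w) (hl : ∀ d, |l d| ≤ 1)
    (hq : ∑ d ∈ Icc 1 ⌊w⌋₊, ∑ e ∈ Icc 1 ⌊w⌋₊, l d * l e / (Nat.lcm d e : ℝ) ≤ 1 / log w) {a b : ℕ}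
    (ha : w ^ 2 ≤ a) (hab : a ≤ b) :
    ∑ n ∈ Ioc a b, maj l w n * (1 / (n : ℝ)) ≤ log ((b : ℝ) / a) / log w + 4 := by
  have hw2 : (1 : ℝ) < w ^ 2 := by nlinarith
  have ha0 : (0 : ℝ) < a := by linarith
  have hL : 0 ≤ log ((b : ℝ) / a) := by
    apply Real.log_nonneg
    rw [le_div_iff₀ ha0, one_mul]
    exact_mod_cast hab
  rw [maj_expand]
  have h1 : ∀ d ∈ Icc 1 ⌊w⌋₊, ∀ e ∈ Icc 1 ⌊w⌋₊,
      l d * l e * ∑ n ∈ (Ioc a b).filter (fun n => Nat.lcm d e ∣ n), 1 / (n : ℝ) -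
        log ((b : ℝ) / a) * (l d * l e / (Nat.lcm d e : ℝ)) ≤ 4 / a := by
    intro d hd e he
    rw [mem_Icc] at hd he
    have hD : 1 ≤ Nat.lcm d e := Nat.lcm_pos (by omega) (by omega)
    have hDa : Nat.lcm d e ≤ a := by
      have k1 : Nat.lcm d e ≤ d * e := Nat.le_of_dvd (Nat.mul_pos (by omega) (by omega)) (Nat.lcm_dvd_mul d e)
      have k2 : (d : ℝ) ≤ w := (Nat.le_floor_iff (by linarith)).mp hd.2
      have k3 : (e : ℝ) ≤ w := (Nat.le_floor_iff (by linarith)).mp he.2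
      have k4 : (d : ℝ) * e ≤ w * w := mul_le_mul k2 k3 (Nat.cast_nonneg _) (by linarith)
      have k5 : ((d * e : ℕ) : ℝ) ≤ a := by
        push_cast
        nlinarith
      have k6 : d * e ≤ a := by exact_mod_cast k5
      omega
    have h2 := sum_inv_dvd hD hDa hab
    have h3 := B3_ll hl d e h2
    have h4 := (abs_le.1 h3).2
    refine le_trans (le_of_eq ?_) h4
    ring
  have h5 := B3_card hw (c := 4 / a) (by positivity) h1
  have h6 : ∑ d ∈ Icc 1 ⌊w⌋₊, ∑ e ∈ Icc 1 ⌊w⌋₊,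
      (l d * l e * ∑ n ∈ (Ioc a b).filter (fun n => Nat.lcm d e ∣ n), 1 / (n : ℝ) -
        log ((b : ℝ) / a) * (l d * l e / (Nat.lcm d e : ℝ))) =
      ∑ d ∈ Icc 1 ⌊w⌋₊, ∑ e ∈ Icc 1 ⌊w⌋₊,
        l d * l e * ∑ n ∈ (Ioc a b).filter (fun n => Nat.lcm d e ∣ n), 1 / (n : ℝ) -
      log ((b : ℝ) / a) * ∑ d ∈ Icc 1 ⌊w⌋₊, ∑ e ∈ Icc 1 ⌊w⌋₊, l d * l e / (Nat.lcm d e : ℝ) := by
    simp only [Finset.sum_sub_distrib, Finset.mul_sum]
  rw [h6] at h5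
  have h7 := mul_le_mul_of_nonneg_left hq hL
  have h8 : w ^ 2 * (4 / a) ≤ 4 := by
    rw [mul_div_assoc', div_le_iff₀ ha0]
    linarith
  have h9 : log ((b : ℝ) / a) * (1 / log w) = log ((b : ℝ) / a) / log w := by ring
  linarith

/-- character sums against the majorant.
Proof. `maj_expand` with `g n = chi m n/n`, and `sum_chi_dvd` for each pair. -/
theorem maj_chi {l : ℕ → ℝ} {w : ℝ} (hw : 1 < w) (hl : ∀ d, |l d| ≤ 1) {m : ℕ} (hm : ¬ IsSquare m) {a b : ℕ}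
    (ha : 1 ≤ a) : |∑ n ∈ Ioc a b, maj l w n * (chi m n / (n : ℝ))| ≤ w ^ 2 * (8 * m / a) := by
  rw [maj_expand]
  refine (Finset.abs_sum_le_sum_abs _ _).trans ?_
  refine (Finset.sum_le_sum fun d _ => Finset.abs_sum_le_sum_abs _ _).trans ?_
  apply B3_card hw (by positivity)
  intro d hd e he
  rw [mem_Icc] at hd he
  have hD : 1 ≤ Nat.lcm d e := Nat.lcm_pos (by omega) (by omega)
  exact B3_ll hl d e (sum_chi_dvd hm hD ha)

/-- **Weighted large sieve.** Proof. Open the square: the diagonal terms `chi e n ^ 2 ≤ 1` give at most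
`s.card` times `maj_mass`; the off-diagonal terms are `chi e n chi f n = chi (e f) n` (`chi_mul_left`), `e f ≤ E²` is not a
square (`LS_sq`), so `maj_chi` gives at most `w² 8 E²/a` for each of the at most `s.card²` pairs. -/
theorem wls {l : ℕ → ℝ} {w : ℝ} (hw : 1 < w) (hl : ∀ d, |l d| ≤ 1)
    (hq : ∑ d ∈ Icc 1 ⌊w⌋₊, ∑ e ∈ Icc 1 ⌊w⌋₊, l d * l e / (Nat.lcm d e : ℝ) ≤ 1 / log w) {a b : ℕ}
    (ha : w ^ 2 ≤ a) (hab : a ≤ b) {E : ℝ} {s : Finset ℕ} (hs : ∀ e ∈ s, Squarefree e ∧ (e : ℝ) ≤ E) :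
    ∑ n ∈ Ioc a b, maj l w n * ((∑ e ∈ s, chi e n) ^ 2 / (n : ℝ)) ≤
      s.card * (log ((b : ℝ) / a) / log w + 4) + (s.card : ℝ) ^ 2 * (w ^ 2 * (8 * E ^ 2 / a)) := by
  have hw2 : (1 : ℝ) < w ^ 2 := by nlinarith
  have ha0 : (0 : ℝ) < a := by linarith
  have ha1 : 1 ≤ a := by
    have : 0 < a := by exact_mod_cast ha0
    omega
  have h1 : ∑ n ∈ Ioc a b, maj l w n * ((∑ e ∈ s, chi e n) ^ 2 / (n : ℝ)) =
      ∑ e ∈ s, ∑ f ∈ s, ∑ n ∈ Ioc a b, maj l w n * (chi (e * f) n / (n : ℝ)) := by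
    have h2 : ∀ n, maj l w n * ((∑ e ∈ s, chi e n) ^ 2 / (n : ℝ)) =
        ∑ e ∈ s, ∑ f ∈ s, maj l w n * (chi (e * f) n / (n : ℝ)) := by
      intro n
      rw [pow_two, Finset.sum_mul_sum, Finset.sum_div, Finset.mul_sum]
      refine Finset.sum_congr rfl fun e _ => ?_
      rw [Finset.sum_div, Finset.mul_sum]
      refine Finset.sum_congr rfl fun f _ => ?_
      rw [chi_mul_left]
    rw [Finset.sum_congr rfl (fun n _ => h2 n), Finset.sum_comm]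
    exact Finset.sum_congr rfl (fun e _ => Finset.sum_comm)
  rw [h1]
  have hmass := maj_mass hw hl hq ha hab
  have hM0 : 0 ≤ log ((b : ℝ) / a) / log w + 4 := by
    refine le_trans ?_ hmass
    apply Finset.sum_nonneg
    intro n _
    unfold maj
    positivity
  have hE0 : 0 ≤ w ^ 2 * (8 * E ^ 2 / a) := by positivity
  have h3 : ∀ e ∈ s, ∀ f ∈ s, ∑ n ∈ Ioc a b, maj l w n * (chi (e * f) n / (n : ℝ)) ≤
      (if e = f then log ((b : ℝ) / a) / log w + 4 else 0) + w ^ 2 * (8 * E ^ 2 / a) := by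
    intro e he f hf
    by_cases hef : e = f
    · rw [if_pos hef]
      have h4 : ∑ n ∈ Ioc a b, maj l w n * (chi (e * f) n / (n : ℝ)) ≤
          ∑ n ∈ Ioc a b, maj l w n * (1 / (n : ℝ)) := by
        apply Finset.sum_le_sum
        intro n _
        have h5 : 0 ≤ maj l w n := by
          unfold maj
          positivity
        apply mul_le_mul_of_nonneg_left _ h5
        apply div_le_div_of_nonneg_right _ (Nat.cast_nonneg n)
        exact (abs_le.1 (chi_abs _ n)).2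
      linarith
    · rw [if_neg hef, zero_add]
      have hns : ¬ IsSquare (e * f) := fun h => hef (LS_sq (hs e he).1 (hs f hf).1 h)
      have h4 := (abs_le.1 (maj_chi hw hl hns (b := b) ha1)).2
      refine h4.trans ?_
      apply mul_le_mul_of_nonneg_left _ (by positivity)
      apply div_le_div_of_nonneg_right _ ha0.le
      push_cast
      have h5 : (e : ℝ) * f ≤ E * E :=
        mul_le_mul (hs e he).2 (hs f hf).2 (Nat.cast_nonneg f)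
          ((Nat.cast_nonneg e).trans (hs e he).2)
      nlinarith
  calc ∑ e ∈ s, ∑ f ∈ s, ∑ n ∈ Ioc a b, maj l w n * (chi (e * f) n / (n : ℝ))
      ≤ ∑ e ∈ s, ∑ f ∈ s, ((if e = f then log ((b : ℝ) / a) / log w + 4 else 0) + w ^ 2 * (8 * E ^ 2 / a)) :=
        Finset.sum_le_sum (fun e he => Finset.sum_le_sum (fun f hf => h3 e he f hf))
    _ = s.card * (log ((b : ℝ) / a) / log w + 4) + (s.card : ℝ) ^ 2 * (w ^ 2 * (8 * E ^ 2 / a)) := by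
      have h6 : ∀ e ∈ s, ∑ f ∈ s, ((if e = f then log ((b : ℝ) / a) / log w + 4 else 0) +
          w ^ 2 * (8 * E ^ 2 / a)) = (log ((b : ℝ) / a) / log w + 4) + s.card * (w ^ 2 * (8 * E ^ 2 / a)) := by
        intro e he
        rw [Finset.sum_add_distrib, Finset.sum_ite_eq, if_pos he, Finset.sum_const, nsmul_eq_mul]
      rw [Finset.sum_congr rfl h6, Finset.sum_const, nsmul_eq_mul]
      ring

end TwV
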