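import Pool.Agent.W_aaa0df_h65.B3
import Pool.Agent.W_aaa0df_h86.Moment

/-! Constant number of exceptional twists: weighted moments (helper65). -/

set_option autoImplicit false

namespace TwV

open Finset Real Twist

/-- Moment inequality with weights `1/p` (compare `Twist.moment`).
Proof. For `e ∈ s`, `η^k ≤ (∑_p ψ p chi e p/p)^k` (`k` even). Summing over `e` and expanding the power over the tuples
`f ∈ P^k` (`Finset.prod_univ_sum`): `s.card η^k ≤ ∑_f (∏ ψ(f i)/(f i)) F(∏ f)`, `F n = ∑_{e ∈ s} chi e n`. By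
Cauchy-Schwarz and `|ψ| ≤ 1` the square is at most `(∑_f ∏ 1/f i) · ∑_f (∏ 1/f i) F(∏ f)²`; the first factor is
`(∑_p 1/p)^k ≤ L^k`. In the second `∏ 1/f i = 1/n`, `n = ∏ f`; group by `n` (each `n` has at most `k!` tuples,
`card_prod_le`); `n` lies in `(a, b]` because `z^k ≤ n ≤ y^k`, `a < z^k`, `y^k ≤ b`; and `maj l w n = l(1)² = 1` because
the prime factors of `n` are `≥ z > w`, so the only divisor `d ≤ w` of `n` is `1`. All other terms of the sum over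
`Ioc a b` are nonnegative. -/
theorem wmoment {l : ℕ → ℝ} {w z y : ℝ} (hw : 1 < w) (hwz : w < z) (hl1 : l 1 = 1) {E : ℝ} {s : Finset ℕ}
    {P : Finset ℕ} (hP : ∀ p ∈ P, p.Prime ∧ z ≤ p ∧ (p : ℝ) ≤ y)
    {ψ : ℕ → ℝ} (hψ : ∀ p ∈ P, |ψ p| ≤ 1) {k : ℕ} (hk : Even k) {η L : ℝ} (hη : 0 ≤ η)
    (hL : ∑ p ∈ P, 1 / (p : ℝ) ≤ L) (hbad : ∀ e ∈ s, η ≤ |∑ p ∈ P, ψ p * chi e p / p|) {a b : ℕ}
    (ha : (a : ℝ) < z ^ k) (hb : y ^ k ≤ b) :
    ((s.card : ℝ) * η ^ k) ^ 2 ≤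
      L ^ k * (k.factorial * ∑ n ∈ Ioc a b, maj l w n * ((∑ e ∈ s, chi e n) ^ 2 / (n : ℝ))) := by
  set F : ℕ → ℝ := fun n => ∑ e ∈ s, chi e n with hF
  set A : Finset (Fin k → ℕ) := Fintype.piFinset (fun _ : Fin k => P) with hA
  have hpos : ∀ f ∈ A, ∀ i, (0 : ℝ) < f i := by
    intro f hf i
    rw [hA, Fintype.mem_piFinset] at hf
    exact_mod_cast (hP _ (hf i)).1.pos
  set W : (Fin k → ℕ) → ℝ := fun f => ∏ i, 1 / (f i : ℝ) with hW
  have hW0 : ∀ f, 0 ≤ W f := fun f => Finset.prod_nonneg fun i _ => by positivity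
  have h1 : (s.card : ℝ) * η ^ k ≤ ∑ f ∈ A, ((∏ i, ψ (f i)) * W f) * F (∏ i, f i) := by
    calc (s.card : ℝ) * η ^ k = ∑ _e ∈ s, η ^ k := by simp
      _ ≤ ∑ e ∈ s, (∑ p ∈ P, ψ p * chi e p / p) ^ k := by
        apply Finset.sum_le_sum
        intro e he
        rw [← hk.pow_abs (∑ p ∈ P, ψ p * chi e p / p)]
        exact pow_le_pow_left₀ hη (hbad e he) k
      _ = ∑ e ∈ s, ∑ f ∈ A, ((∏ i, ψ (f i)) * W f) * chi e (∏ i, f i) := by
        apply Finset.sum_congr rfl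
        intro e _
        have h2 : (∑ p ∈ P, ψ p * chi e p / p) ^ k =
            ∏ _i : Fin k, ∑ p ∈ P, ψ p * chi e p / p := by simp
        rw [h2, Finset.prod_univ_sum]
        apply Finset.sum_congr rfl
        intro f _
        rw [← Moment_prod, hW, ← Finset.prod_mul_distrib, ← Finset.prod_mul_distrib]
        apply Finset.prod_congr rfl
        intro i _
        ring
      _ = ∑ f ∈ A, ((∏ i, ψ (f i)) * W f) * F (∏ i, f i) := by
        rw [Finset.sum_comm]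
        apply Finset.sum_congr rfl
        intro f _
        rw [hF, Finset.mul_sum]
  have h0 : 0 ≤ (s.card : ℝ) * η ^ k := mul_nonneg (Nat.cast_nonneg _) (pow_nonneg hη k)
  have h2 : ∀ f ∈ A, ((∏ i, ψ (f i)) * W f) * F (∏ i, f i) =
      ((∏ i, ψ (f i)) * √(W f)) * (√(W f) * F (∏ i, f i)) := by
    intro f _
    have h3 := Real.mul_self_sqrt (hW0 f)
    calc ((∏ i, ψ (f i)) * W f) * F (∏ i, f i) =
        ((∏ i, ψ (f i)) * (√(W f) * √(W f))) * F (∏ i, f i) := by rw [h3]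
      _ = _ := by ring
  rw [Finset.sum_congr rfl h2] at h1
  have h3 : ((s.card : ℝ) * η ^ k) ^ 2 ≤ (∑ f ∈ A, ((∏ i, ψ (f i)) * √(W f)) ^ 2) *
      ∑ f ∈ A, (√(W f) * F (∏ i, f i)) ^ 2 :=
    (pow_le_pow_left₀ h0 h1 2).trans (Finset.sum_mul_sq_le_sq_mul_sq _ _ _)
  have hs0 : 0 ≤ ∑ p ∈ P, 1 / (p : ℝ) := Finset.sum_nonneg fun p _ => by positivity
  have h4 : ∑ f ∈ A, ((∏ i, ψ (f i)) * √(W f)) ^ 2 ≤ L ^ k := by
    calc ∑ f ∈ A, ((∏ i, ψ (f i)) * √(W f)) ^ 2 ≤ ∑ f ∈ A, W f := by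
          apply Finset.sum_le_sum
          intro f hf
          rw [mul_pow, Real.sq_sqrt (hW0 f)]
          rw [hA, Fintype.mem_piFinset] at hf
          refine mul_le_of_le_one_left (hW0 f) ?_
          rw [← Finset.prod_pow]
          apply Finset.prod_le_one (fun i _ => sq_nonneg _)
          intro i _
          rw [← sq_abs]
          exact pow_le_one₀ (abs_nonneg _) (hψ _ (hf i))
      _ = (∑ p ∈ P, 1 / (p : ℝ)) ^ k := by
          have h5 : (∑ p ∈ P, 1 / (p : ℝ)) ^ k = ∏ _i : Fin k, ∑ p ∈ P, 1 / (p : ℝ) := by simp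
          rw [h5, Finset.prod_univ_sum]
      _ ≤ L ^ k := pow_le_pow_left₀ hs0 hL k
  have hw1 : 1 ≤ ⌊w⌋₊ := Nat.le_floor (by exact_mod_cast hw.le)
  have hmaj : ∀ f ∈ A, maj l w (∏ i, f i) = 1 := by
    intro f hf
    rw [hA, Fintype.mem_piFinset] at hf
    have h5 : (Icc 1 ⌊w⌋₊).filter (fun d => d ∣ ∏ i, f i) = {1} := by
      ext d
      rw [mem_filter, mem_Icc, mem_singleton]
      constructor
      · rintro ⟨⟨h6, h7⟩, h8⟩
        by_contra h9
        obtain ⟨q, hq, hqd⟩ := Nat.exists_prime_and_dvd h9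
        obtain ⟨i, -, hi⟩ := (hq.prime.dvd_finset_prod_iff f).1 (hqd.trans h8)
        have h10 : q = f i := (Nat.prime_dvd_prime_iff_eq hq (hP _ (hf i)).1).1 hi
        have h11 : z ≤ q := by
          rw [h10]
          exact (hP _ (hf i)).2.1
        have h12 : (q : ℝ) ≤ d := by exact_mod_cast Nat.le_of_dvd h6 hqd
        have h13 : (d : ℝ) ≤ w :=
          (by exact_mod_cast h7 : (d : ℝ) ≤ (⌊w⌋₊ : ℝ)).trans (Nat.floor_le (by linarith))
        linarith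
      · rintro rfl
        exact ⟨⟨le_rfl, hw1⟩, one_dvd _⟩
    unfold maj
    rw [h5, sum_singleton, hl1, one_pow]
  have hmaj0 : ∀ n, 0 ≤ maj l w n := fun n => sq_nonneg _
  have h5 : ∑ f ∈ A, (√(W f) * F (∏ i, f i)) ^ 2 ≤
      k.factorial * ∑ n ∈ Ioc a b, maj l w n * (F n ^ 2 / (n : ℝ)) := by
    have h6 : ∀ f ∈ A, (√(W f) * F (∏ i, f i)) ^ 2 =
        F (∏ i, f i) ^ 2 / ((∏ i, f i : ℕ) : ℝ) := by
      intro f _
      rw [mul_pow, Real.sq_sqrt (hW0 f), hW]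
      simp only
      rw [Finset.prod_div_distrib, Finset.prod_const_one]
      push_cast
      ring
    rw [Finset.sum_congr rfl h6]
    have hmaps : ∀ f ∈ A, ∏ i, f i ∈ Ioc a b := by
      intro f hf
      rw [hA, Fintype.mem_piFinset] at hf
      have hz0 : 0 ≤ z := by linarith
      rw [mem_Ioc]
      constructor
      · have h7 : z ^ k ≤ ((∏ i, f i : ℕ) : ℝ) := by
          push_cast
          calc z ^ k = ∏ _i : Fin k, z := by simp
            _ ≤ ∏ i, (f i : ℝ) :=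
              Finset.prod_le_prod (fun i _ => hz0) fun i _ => (hP _ (hf i)).2.1
        exact_mod_cast ha.trans_le h7
      · have h7 : ((∏ i, f i : ℕ) : ℝ) ≤ y ^ k := by
          push_cast
          calc ∏ i, (f i : ℝ) ≤ ∏ _i : Fin k, y :=
                Finset.prod_le_prod (fun i _ => Nat.cast_nonneg _) fun i _ => (hP _ (hf i)).2.2
            _ = y ^ k := by simp
        exact_mod_cast h7.trans hb
    rw [← Finset.sum_fiberwise_of_maps_to hmaps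
      (fun f => F (∏ i, f i) ^ 2 / ((∏ i, f i : ℕ) : ℝ)), Finset.mul_sum]
    apply Finset.sum_le_sum
    intro n _
    have h7 : ∑ f ∈ A.filter (fun f => ∏ i, f i = n),
        F (∏ i, f i) ^ 2 / ((∏ i, f i : ℕ) : ℝ) =
        (A.filter (fun f => ∏ i, f i = n)).card * (F n ^ 2 / (n : ℝ)) := by
      rw [← nsmul_eq_mul, ← Finset.sum_const]
      apply Finset.sum_congr rfl
      intro f hf
      rw [(mem_filter.1 hf).2]
    rw [h7]
    have hG : 0 ≤ F n ^ 2 / (n : ℝ) := by positivity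
    rcases (A.filter (fun f => ∏ i, f i = n)).eq_empty_or_nonempty with h8 | ⟨f, hf⟩
    · rw [h8, card_empty, Nat.cast_zero, zero_mul]
      exact mul_nonneg (Nat.cast_nonneg _) (mul_nonneg (hmaj0 n) hG)
    · obtain ⟨hf1, hf2⟩ := mem_filter.1 hf
      have h9 : maj l w n = 1 := by
        rw [← hf2]
        exact hmaj f hf1
      rw [h9, one_mul]
      refine mul_le_mul_of_nonneg_right ?_ hG
      exact_mod_cast card_prod_le (fun p hp => (hP p hp).1) k n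
  have hL0 : 0 ≤ L := hs0.trans hL
  exact h3.trans (mul_le_mul h4 h5 (Finset.sum_nonneg fun f _ => sq_nonneg _) (pow_nonneg hL0 k))

/-- **Boundedly many bad twists.**
Proof. `weights hw` gives `l`; `a = ⌈z^k⌉₊ - 1` (so `z^k/2 ≤ z^k - 1 ≤ a < z^k` as `z^k ≥ 16 w^2 ≥ 2`), `b = ⌈y^k⌉₊ ≤ 2 y^k`.
`wmoment` and `wls` give, with `S = s.card`, `W = log(b/a)/log w + 4`, `log(b/a) ≤ log(4 (y/z)^k) ≤ k log(y/z) + 2`:
`S² η^(2k) ≤ L^k k! (S W + S² w² 8 E²/a)`, and `w² 8 E²/a ≤ 16 w² E²/z^k`, so by `hbig` the last term is at most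
`S² η^(2k)/2`. Hence `S η^(2k) ≤ 2 L^k k! W` (for `S > 0` divide by `S`). -/
theorem few_log {w z y : ℝ} (hw : 1 < w) (hwz : w < z) (hzy : z ≤ y) {E : ℝ} (hE : 1 ≤ E) {s : Finset ℕ}
    (hs : ∀ e ∈ s, Squarefree e ∧ (e : ℝ) ≤ E)
    {P : Finset ℕ} (hP : ∀ p ∈ P, p.Prime ∧ z ≤ p ∧ (p : ℝ) ≤ y)
    {ψ : ℕ → ℝ} (hψ : ∀ p ∈ P, |ψ p| ≤ 1) {k : ℕ} (hk : Even k) (hk0 : 2 ≤ k) {η L : ℝ} (hη : 0 < η)
    (hL0 : 0 ≤ L) (hL : ∑ p ∈ P, 1 / (p : ℝ) ≤ L) (hbad : ∀ e ∈ s, η ≤ |∑ p ∈ P, ψ p * chi e p / p|)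
    (hza : 16 * w ^ 2 ≤ z ^ k)
    (hbig : 32 * L ^ k * k.factorial * w ^ 2 * E ^ 2 ≤ η ^ (2 * k) * z ^ k) :
    (s.card : ℝ) * η ^ (2 * k) ≤ 2 * L ^ k * k.factorial * ((k * log (y / z) + 2) / log w + 4) := by
  obtain ⟨l, hl1, hl, -, hq⟩ := weights hw
  have hw0 : 0 < w := by linarith
  have hz1 : 1 < z := hw.trans hwz
  have hz0 : 0 < z := by linarith
  have hy0 : 0 < y := by linarith
  have hZ : 0 < z ^ k := pow_pos hz0 k
  have hZY : z ^ k ≤ y ^ k := pow_le_pow_left₀ hz0.le hzy k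
  have hw2 : 1 ≤ w ^ 2 := one_le_pow₀ hw.le
  have hZ16 : 16 ≤ z ^ k := by linarith
  set a : ℕ := ⌈z ^ k⌉₊ - 1 with ha
  set b : ℕ := ⌈y ^ k⌉₊ with hb
  have hc1 : 1 ≤ ⌈z ^ k⌉₊ := Nat.one_le_ceil_iff.2 hZ
  have haR : (a : ℝ) = (⌈z ^ k⌉₊ : ℝ) - 1 := by
    rw [ha, Nat.cast_sub hc1, Nat.cast_one]
  have ha1 : (a : ℝ) < z ^ k := by
    rw [haR]
    have := Nat.ceil_lt_add_one hZ.le
    linarith
  have ha2 : z ^ k / 2 ≤ a := by
    rw [haR]
    have := Nat.le_ceil (z ^ k)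
    linarith
  have ha0 : (0 : ℝ) < a := by linarith
  have hb1 : y ^ k ≤ b := Nat.le_ceil _
  have hb2 : (b : ℝ) ≤ 2 * y ^ k := by
    have := Nat.ceil_lt_add_one (pow_pos hy0 k).le
    linarith
  have hab : a ≤ b := by
    have h1 : (a : ℝ) ≤ b := by linarith
    exact_mod_cast h1
  have hwa : w ^ 2 ≤ a := by linarith
  have h1 := wmoment hw hwz hl1 (E := E) (s := s) hP hψ hk hη.le hL hbad ha1 hb1
  have h2 := wls hw hl hq hwa hab hs
  set S : ℝ := (s.card : ℝ) with hS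
  set K : ℝ := (k.factorial : ℝ) with hK
  have hS0 : 0 ≤ S := Nat.cast_nonneg _
  have hK0 : 0 < K := by
    rw [hK]
    exact_mod_cast Nat.factorial_pos k
  have hLk : 0 ≤ L ^ k := pow_nonneg hL0 k
  have hlw : 0 < log w := Real.log_pos hw
  have hyz : 1 ≤ y / z := by
    rw [le_div_iff₀ hz0, one_mul]
    exact hzy
  have hlyz : 0 ≤ log (y / z) := Real.log_nonneg hyz
  -- the logarithm
  have h3 : log ((b : ℝ) / a) ≤ k * log (y / z) + 2 := by
    have h4 : (b : ℝ) / a ≤ 4 * (y / z) ^ k := by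
      rw [div_le_iff₀ ha0, div_pow]
      calc (b : ℝ) ≤ 2 * y ^ k := hb2
        _ = 4 * (y ^ k / z ^ k) * (z ^ k / 2) := by
            field_simp
            ring
        _ ≤ 4 * (y ^ k / z ^ k) * a := mul_le_mul_of_nonneg_left ha2 (by positivity)
    have hb0 : (0 : ℝ) < b := by linarith
    have h5 : log ((b : ℝ) / a) ≤ log (4 * (y / z) ^ k) :=
      Real.log_le_log (div_pos hb0 ha0) h4
    rw [Real.log_mul (by norm_num) (by positivity), Real.log_pow] at h5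
    have h6 : log 4 ≤ 2 := by
      have h7 : log 4 = 2 * log 2 := by
        rw [show (4 : ℝ) = 2 ^ 2 by norm_num, Real.log_pow]
        norm_num
      have h8 := Real.log_two_lt_d9
      rw [h7]
      linarith
    linarith
  set V : ℝ := (k * log (y / z) + 2) / log w + 4 with hV
  have hV0 : 0 ≤ V := by positivity
  have h4 : log ((b : ℝ) / a) / log w + 4 ≤ V := by
    rw [hV]
    have := div_le_div_of_nonneg_right h3 hlw.le
    linarith
  have h5 : w ^ 2 * (8 * E ^ 2 / a) ≤ w ^ 2 * (16 * E ^ 2 / z ^ k) := by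
    refine mul_le_mul_of_nonneg_left ?_ (by positivity)
    rw [div_le_div_iff₀ ha0 hZ]
    have h6 : 0 ≤ E ^ 2 := sq_nonneg E
    nlinarith
  have h6 : L ^ k * K * (w ^ 2 * (16 * E ^ 2 / z ^ k)) ≤ η ^ (2 * k) / 2 := by
    have h7 : L ^ k * K * (w ^ 2 * (16 * E ^ 2 / z ^ k)) =
        (32 * L ^ k * K * w ^ 2 * E ^ 2) / (2 * z ^ k) := by
      field_simp
      ring
    rw [h7, div_le_iff₀ (by positivity)]
    calc 32 * L ^ k * K * w ^ 2 * E ^ 2 ≤ η ^ (2 * k) * z ^ k := hbig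
      _ = η ^ (2 * k) / 2 * (2 * z ^ k) := by ring
  have h7 : S ^ 2 * η ^ (2 * k) ≤ L ^ k * K * (S * V) + S ^ 2 * (η ^ (2 * k) / 2) := by
    have e1 : (S * η ^ k) ^ 2 = S ^ 2 * η ^ (2 * k) := by
      rw [mul_pow, ← pow_mul, mul_comm k 2]
    rw [e1] at h1
    have e2 : 0 ≤ L ^ k * K := mul_nonneg hLk hK0.le
    have e3 : S * (log ((b : ℝ) / a) / log w + 4) + S ^ 2 * (w ^ 2 * (8 * E ^ 2 / a)) ≤
        S * V + S ^ 2 * (w ^ 2 * (16 * E ^ 2 / z ^ k)) :=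
      add_le_add (mul_le_mul_of_nonneg_left h4 hS0) (mul_le_mul_of_nonneg_left h5 (sq_nonneg S))
    have e4 := mul_le_mul_of_nonneg_left (h2.trans e3) e2
    have e5 := mul_le_mul_of_nonneg_left h6 (sq_nonneg S)
    have e6 : L ^ k * K * (S * V + S ^ 2 * (w ^ 2 * (16 * E ^ 2 / z ^ k))) =
        L ^ k * K * (S * V) + S ^ 2 * (L ^ k * K * (w ^ 2 * (16 * E ^ 2 / z ^ k))) := by ring
    rw [e6] at e4
    rw [← mul_assoc] at h1
    linarith
  rcases eq_or_lt_of_le hS0 with h8 | h8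
  · rw [← h8, zero_mul]
    positivity
  · have h9 : S * (S * η ^ (2 * k)) ≤ S * (2 * L ^ k * K * V) := by nlinarith
    exact le_of_mul_le_mul_left h9 h8

end TwV
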