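import Pool.Agent.W_aaa0df_h86.MertA
import Pool.Agent.W_aaa0df_h86.MertB

/-! Constant number of exceptional twists: logarithmic prime sums (helper65). -/

set_option autoImplicit false

namespace TwV

open Finset Real Twist

/-- `∑ 1/p` over the primes `z ≤ p < y` -/
noncomputable def primeLog (z y : ℝ) : ℝ :=
  ∑ p ∈ (range ⌈y⌉₊).filter (fun p : ℕ => p.Prime ∧ z ≤ p), 1 / (p : ℝ)

open Classical in
/-- `∑ 1/p` over the primes `z ≤ p < y` with `p ∤ d` and `d` a square modulo `4p` (the primes that split in `ℚ(√d)`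
if `d` is a fundamental discriminant) -/
noncomputable def splitLog (d : ℤ) (z y : ℝ) : ℝ :=
  ∑ p ∈ (range ⌈y⌉₊).filter (fun p : ℕ => p.Prime ∧ z ≤ p ∧ ¬ ((p : ℤ) ∣ d) ∧
    ∃ x : ℤ, (4 * (p : ℤ)) ∣ x ^ 2 - d), 1 / (p : ℝ)

/-- Upper bound.
Proof. For these primes `log p ≥ ρ log y`, so `1/p ≤ (log p/p)/(ρ log y)`, and
`∑_{p < y} log p/p ≤ ML (log y) ≤ log y + C` (`mertens`; `lam p = log p`). For `log y ≥ C` the sum is at most
`2/ρ`. -/
theorem primeLog_le (ρ : ℝ) (hρ : 0 < ρ) : ∃ Y : ℝ, ∀ y : ℝ, Y ≤ y → primeLog (y ^ ρ) y ≤ 2 / ρ := by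
  obtain ⟨C, hC, hM⟩ := mertens
  refine ⟨Real.exp (C + 1), fun y hy => ?_⟩
  have hy0 : 0 < y := (Real.exp_pos _).trans_le hy
  have hL : C + 1 ≤ Real.log y := (Real.le_log_iff_exp_le hy0).2 hy
  have hL0 : 0 < Real.log y := by linarith
  have hρL : 0 < ρ * Real.log y := mul_pos hρ hL0
  have h1 : primeLog (y ^ ρ) y ≤ ML (Real.log y) / (ρ * Real.log y) := by
    unfold primeLog ML S
    rw [Finset.sum_div, Real.exp_log hy0]
    have hsub : (range ⌈y⌉₊).filter (fun p : ℕ => p.Prime ∧ y ^ ρ ≤ p) ⊆ Icc 1 ⌊y⌋₊ := by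
      intro p hp
      rw [mem_filter, mem_range] at hp
      rw [mem_Icc]
      refine ⟨hp.2.1.one_le, Nat.le_floor ?_⟩
      exact (Nat.lt_ceil.1 hp.1).le
    calc ∑ p ∈ (range ⌈y⌉₊).filter (fun p : ℕ => p.Prime ∧ y ^ ρ ≤ p), 1 / (p : ℝ)
        ≤ ∑ p ∈ (range ⌈y⌉₊).filter (fun p : ℕ => p.Prime ∧ y ^ ρ ≤ p),
            lam p / p / (ρ * Real.log y) := by
          refine Finset.sum_le_sum fun p hp => ?_
          rw [mem_filter, mem_range] at hp
          have hp0 : (0 : ℝ) < p := by exact_mod_cast hp.2.1.pos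
          have e1 : lam p = Real.log p := ArithmeticFunction.vonMangoldt_apply_prime hp.2.1
          have e2 : ρ * Real.log y ≤ Real.log p := by
            rw [← Real.log_rpow hy0]
            exact Real.log_le_log (Real.rpow_pos_of_pos hy0 _) hp.2.2
          rw [e1, le_div_iff₀ hρL, one_div, inv_mul_eq_div]
          exact div_le_div_of_nonneg_right e2 hp0.le
      _ ≤ ∑ p ∈ Icc 1 ⌊y⌋₊, lam p / p / (ρ * Real.log y) :=
          Finset.sum_le_sum_of_subset_of_nonneg hsub fun n _ _ =>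
            div_nonneg (div_nonneg (lam_nonneg n) (Nat.cast_nonneg n)) hρL.le
  have h2 := (abs_le.1 (hM (Real.log y) hL0.le)).2
  refine h1.trans ?_
  rw [div_le_div_iff₀ hρL hρ]
  have h3 : ML (Real.log y) ≤ 2 * Real.log y := by linarith
  calc ML (Real.log y) * ρ ≤ 2 * Real.log y * ρ := mul_le_mul_of_nonneg_right h3 hρ.le
    _ = 2 * (ρ * Real.log y) := by ring

/-- `∑ log p / p` is at most `log y` times `∑ 1/p` -/
lemma B5_aux1 (y z : ℝ) :
    ∑ p ∈ (range ⌈y⌉₊).filter (fun p : ℕ => p.Prime ∧ z ≤ p), Real.log p / (p : ℝ) ≤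
      Real.log y * primeLog z y := by
  unfold primeLog
  rw [Finset.mul_sum]
  refine Finset.sum_le_sum fun p hp => ?_
  rw [mem_filter, mem_range] at hp
  have hp0 : (0 : ℝ) < p := by exact_mod_cast hp.2.1.pos
  rw [mul_one_div]
  exact div_le_div_of_nonneg_right (Real.log_le_log hp0 (Nat.lt_ceil.1 hp.1).le) hp0.le

/-- the primes in `(y^ρ, y]` -/
lemma B5_aux2 {y ρ : ℝ} (hy : 1 ≤ y) :
    ∑ n ∈ ((Icc 1 ⌊y⌋₊).filter (fun n : ℕ => ρ * Real.log y < Real.log n)).filter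
      (fun n : ℕ => n.Prime), lam n / n ≤
      ∑ p ∈ (range ⌈y⌉₊).filter (fun p : ℕ => p.Prime ∧ y ^ ρ ≤ p), Real.log p / (p : ℝ) + 1 := by
  classical
  have hy0 : 0 < y := by linarith
  have hlog1 : ∀ n : ℕ, Real.log n / (n : ℝ) ≤ 1 := by
    intro n
    rcases Nat.eq_zero_or_pos n with rfl | hn
    · simp
    · have hn0 : (0 : ℝ) < n := by exact_mod_cast hn
      rw [div_le_one hn0]
      linarith [Real.log_le_sub_one_of_pos hn0]
  have hnn : ∀ n : ℕ, 0 ≤ Real.log n / (n : ℝ) := fun n =>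
    div_nonneg (Real.log_natCast_nonneg n) (Nat.cast_nonneg n)
  have e1 : ∑ n ∈ ((Icc 1 ⌊y⌋₊).filter (fun n : ℕ => ρ * Real.log y < Real.log n)).filter
      (fun n : ℕ => n.Prime), lam n / n =
      ∑ n ∈ ((Icc 1 ⌊y⌋₊).filter (fun n : ℕ => ρ * Real.log y < Real.log n)).filter
      (fun n : ℕ => n.Prime), Real.log n / (n : ℝ) := by
    refine Finset.sum_congr rfl fun n hn => ?_
    rw [mem_filter] at hn
    have : lam n = Real.log n := ArithmeticFunction.vonMangoldt_apply_prime hn.2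
    rw [this]
  rw [e1]
  have hsub : ((Icc 1 ⌊y⌋₊).filter (fun n : ℕ => ρ * Real.log y < Real.log n)).filter
      (fun n : ℕ => n.Prime) ⊆
      insert ⌊y⌋₊ ((range ⌈y⌉₊).filter (fun p : ℕ => p.Prime ∧ y ^ ρ ≤ p)) := by
    intro n hn
    rw [mem_filter, mem_filter, mem_Icc] at hn
    obtain ⟨⟨⟨h1, h2⟩, h3⟩, h4⟩ := hn
    rw [mem_insert, mem_filter, mem_range]
    rcases eq_or_lt_of_le h2 with h5 | h5
    · exact Or.inl h5
    · right
      have hn0 : (0 : ℝ) < n := by exact_mod_cast h1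
      refine ⟨Nat.lt_ceil.2 ?_, h4, ?_⟩
      · have h6 : (n : ℝ) < (⌊y⌋₊ : ℕ) := by exact_mod_cast h5
        exact h6.trans_le (Nat.floor_le hy0.le)
      · have h7 : Real.log (y ^ ρ) ≤ Real.log n := by
          rw [Real.log_rpow hy0]
          exact h3.le
        exact (Real.log_le_log_iff (Real.rpow_pos_of_pos hy0 _) hn0).1 h7
  refine (Finset.sum_le_sum_of_subset_of_nonneg hsub fun n _ _ => hnn n).trans ?_
  by_cases hmem : ⌊y⌋₊ ∈ (range ⌈y⌉₊).filter (fun p : ℕ => p.Prime ∧ y ^ ρ ≤ p)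
  · rw [Finset.insert_eq_of_mem hmem]
    linarith
  · rw [Finset.sum_insert hmem]
    linarith [hlog1 ⌊y⌋₊]

/-- Lower bound.
Proof. `ML (log y) - ML (ρ log y) ≥ (1-ρ) log y - 2C` (`mertens`), which is the sum of `Λ(n)/n` over
`y^ρ < n ≤ y` (`S_sub_eq`); the non-primes contribute at most `C'` (`nonprime_sum`), `n = y` at most `1`. So
`∑_{y^ρ ≤ p < y} log p/p ≥ (1-ρ) log y - 2C - C' - 1`, and `1/p ≥ (log p/p)/log y`. -/
theorem primeLog_ge (ρ : ℝ) (hρ : 0 < ρ) (hρ1 : ρ < 1) :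
    ∃ Y : ℝ, ∀ y : ℝ, Y ≤ y → (1 - ρ) / 2 ≤ primeLog (y ^ ρ) y := by
  obtain ⟨C, hC, hM⟩ := mertens
  obtain ⟨C', hC', hN⟩ := nonprime_sum
  set K : ℝ := 2 * (2 * C + C' + 1) / (1 - ρ) with hK
  have h1ρ : 0 < 1 - ρ := by linarith
  have hK0 : 0 < K := by rw [hK]; positivity
  refine ⟨Real.exp K, fun y hy => ?_⟩
  have hy0 : 0 < y := (Real.exp_pos _).trans_le hy
  have hy1 : 1 ≤ y := (Real.one_le_exp hK0.le).trans hy
  have hL : K ≤ Real.log y := (Real.le_log_iff_exp_le hy0).2 hy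
  have hL0 : 0 < Real.log y := by linarith
  have hρL : 0 < ρ * Real.log y := mul_pos hρ hL0
  have hle : ρ * Real.log y ≤ Real.log y := by nlinarith
  have h1 := (abs_le.1 (hM (Real.log y) hL0.le)).1
  have h2 := (abs_le.1 (hM (ρ * Real.log y) hρL.le)).2
  have h3 : ML (Real.log y) - ML (ρ * Real.log y) =
      ∑ n ∈ (Icc 1 ⌊y⌋₊).filter (fun n : ℕ => ρ * Real.log y < Real.log n), lam n / n := by
    unfold ML
    rw [S_sub_eq hle, Real.exp_log hy0]
  have h4 : ∑ n ∈ (Icc 1 ⌊y⌋₊).filter (fun n : ℕ => ρ * Real.log y < Real.log n), lam n / n =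
      ∑ n ∈ ((Icc 1 ⌊y⌋₊).filter (fun n : ℕ => ρ * Real.log y < Real.log n)).filter
        (fun n : ℕ => n.Prime), lam n / n +
      ∑ n ∈ ((Icc 1 ⌊y⌋₊).filter (fun n : ℕ => ρ * Real.log y < Real.log n)).filter
        (fun n : ℕ => ¬ n.Prime), lam n / n :=
    (Finset.sum_filter_add_sum_filter_not _ _ _).symm
  have h5 : ∑ n ∈ ((Icc 1 ⌊y⌋₊).filter (fun n : ℕ => ρ * Real.log y < Real.log n)).filter
        (fun n : ℕ => ¬ n.Prime), lam n / n ≤ C' := by
    refine le_trans (Finset.sum_le_sum_of_subset_of_nonneg ?_ fun n _ _ =>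
      div_nonneg (lam_nonneg n) (Nat.cast_nonneg n)) (hN ⌊y⌋₊)
    exact Finset.filter_subset_filter _ (Finset.filter_subset _ _)
  have h6 := B5_aux2 (ρ := ρ) hy1
  have h7 := B5_aux1 y (y ^ ρ)
  have h8 : (1 - ρ) * Real.log y - 2 * C - C' - 1 ≤ Real.log y * primeLog (y ^ ρ) y := by
    have e1 : (1 - ρ) * Real.log y = Real.log y - ρ * Real.log y := by ring
    linarith
  have h9 : 2 * C + C' + 1 ≤ (1 - ρ) / 2 * Real.log y := by
    have e2 : (1 - ρ) / 2 * K = 2 * C + C' + 1 := by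
      rw [hK]
      field_simp
    rw [← e2]
    exact mul_le_mul_of_nonneg_left hL (by linarith)
  have h10 : Real.log y * ((1 - ρ) / 2) ≤ Real.log y * primeLog (y ^ ρ) y := by
    have e3 : (1 - ρ) * Real.log y = Real.log y * ((1 - ρ) / 2) + (1 - ρ) / 2 * Real.log y := by ring
    linarith
  exact le_of_mul_le_mul_left h10 hL0

end TwV
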