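import Pool.Agent.W_aaa0df_h65.B5
import Pool.Agent.W_aaa0df_h86.SplitB
import Pool.Agent.W_aaa0df_h86.Image

/-! Constant number of exceptional twists: from split primes to characters (helper65). -/

set_option autoImplicit false

namespace TwV

open Finset Real Twist MPaaa0df

/-- Comparison of the logarithmic split sum with a character sum (compare `Twist.split_sum`).
Proof. For an odd prime `p`, `p` is counted in `splitLog` iff `J(d|p) = 1` (`split_iff`), so its indicator is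
`(1 + J(d|p) - [p ∣ d])/2`. Hence `splitLog - primeLog/2 = (1/2) ∑_{p odd} J(d|p)/p - (1/2) ∑_{p odd, p ∣ d} 1/p` plus a
term for `p = 2` (only if `z ≤ 2`; at most `1/2 ≤ 1/z`). All `1/p ≤ 1/z`. At most `2 log |d|` primes divide `d` and at
most `2 log |d₀|` divide `d₀` (see the proof of `PR_card`/`split_sum`), and dropping the odd primes dividing `d₀`
from the character sum gives the sum over `PR d₀ y`. -/
theorem splitLog_sum {d d₀ : ℤ} (hd : d % 4 = 0 ∨ d % 4 = 1) (h : d ≠ 0) (h₀ : d₀ ≠ 0) {z : ℝ} (hz : 0 < z) (y : ℝ) :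
    |splitLog d z y - primeLog z y / 2| ≤
      |∑ p ∈ (PR d₀ y).filter (fun p : ℕ => z ≤ (p : ℝ)), ((jacobiSym d p : ℤ) : ℝ) / p| / 2 +
        (2 * log |(d : ℝ)| + 4 * log |(d₀ : ℝ)| + 2) / z := by
  classical
  have hd1 : (1 : ℝ) ≤ |(d : ℝ)| := by
    rw [← Int.cast_abs]; exact_mod_cast Int.one_le_abs h
  have hd01 : (1 : ℝ) ≤ |(d₀ : ℝ)| := by
    rw [← Int.cast_abs]; exact_mod_cast Int.one_le_abs h₀
  have hl : 0 ≤ log |(d : ℝ)| := Real.log_nonneg hd1
  have hl0 : 0 ≤ log |(d₀ : ℝ)| := Real.log_nonneg hd01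
  set P := (PR d₀ y).filter (fun p : ℕ => z ≤ (p : ℝ)) with hP
  set F := (range ⌈y⌉₊).filter (fun p : ℕ => p.Prime ∧ z ≤ (p : ℝ)) with hF
  have hPF : P ⊆ F := by
    intro p hp
    rw [hP, mem_filter, mem_PR] at hp
    rw [hF, mem_filter, mem_range, Nat.lt_ceil]
    exact ⟨hp.1.2.1, hp.1.1, hp.2⟩
  have hzF : ∀ p ∈ F, 1 / (p : ℝ) ≤ 1 / z := by
    intro p hp
    rw [hF, mem_filter] at hp
    exact one_div_le_one_div_of_le hz hp.2.2
  have hpF : ∀ p ∈ F, (0 : ℝ) < p := by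
    intro p hp
    rw [hF, mem_filter] at hp
    exact hz.trans_le hp.2.2
  set σ : ℕ → ℝ := fun p => if (¬ ((p : ℤ) ∣ d) ∧ ∃ x : ℤ, (4 * (p : ℤ)) ∣ x ^ 2 - d) then 1 else -1
    with hσ
  have hσ1 : ∀ p, |σ p| ≤ 1 := by
    intro p; rw [hσ]; simp only
    split_ifs <;> norm_num
  have h1 : 2 * splitLog d z y - primeLog z y = ∑ p ∈ F, σ p / p := by
    have e0 : splitLog d z y = ∑ p ∈ F, (if (¬ ((p : ℤ) ∣ d) ∧ ∃ x : ℤ, (4 * (p : ℤ)) ∣ x ^ 2 - d)
        then 1 / (p : ℝ) else 0) := by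
      unfold splitLog
      rw [← Finset.sum_filter, hF, Finset.filter_filter]
      refine Finset.sum_congr ?_ fun _ _ => rfl
      ext p
      simp only [mem_filter]
      tauto
    have e00 : primeLog z y = ∑ p ∈ F, 1 / (p : ℝ) := rfl
    rw [e0, e00, Finset.mul_sum, ← Finset.sum_sub_distrib]
    refine Finset.sum_congr rfl fun p _ => ?_
    rw [hσ]
    simp only
    split_ifs <;> ring
  have h2 : ∑ p ∈ F, σ p / p = ∑ p ∈ F \ P, σ p / p +
      (∑ p ∈ P, (σ p - ((jacobiSym d p : ℤ) : ℝ)) / p + ∑ p ∈ P, ((jacobiSym d p : ℤ) : ℝ) / p) := by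
    rw [← Finset.sum_add_distrib, ← Finset.sum_sdiff hPF]
    congr 1
    apply Finset.sum_congr rfl
    intro p _; ring
  have h3 : |∑ p ∈ F \ P, σ p / p| ≤ (1 + 2 * log |(d₀ : ℝ)|) / z := by
    have e1 : ((F \ P).card : ℝ) ≤ 1 + 2 * log |(d₀ : ℝ)| := by
      have e4 := omega_le h₀ (le_refl |(d₀ : ℝ)|) (F.filter (fun p : ℕ => (p : ℤ) ∣ d₀)) (by
        intro p hp
        rw [mem_filter, hF, mem_filter] at hp
        exact ⟨hp.1.2.1, hp.2⟩)
      have e5 : F \ P ⊆ insert 2 (F.filter (fun p : ℕ => (p : ℤ) ∣ d₀)) := by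
        intro p hp
        rw [mem_sdiff] at hp
        rw [mem_insert, mem_filter]
        by_cases hp2 : p = 2
        · exact Or.inl hp2
        · right
          refine ⟨hp.1, ?_⟩
          by_contra hnd
          apply hp.2
          have hpf := hp.1
          rw [hF, mem_filter, mem_range, Nat.lt_ceil] at hpf
          rw [hP, mem_filter, mem_PR]
          exact ⟨⟨hpf.2.1, hpf.1, hp2, hnd⟩, hpf.2.2⟩
      have e6 := (Finset.card_le_card e5).trans (Finset.card_insert_le _ _)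
      have e7 : ((F \ P).card : ℝ) ≤ ((F.filter (fun p : ℕ => (p : ℤ) ∣ d₀)).card : ℝ) + 1 := by
        exact_mod_cast e6
      linarith
    calc |∑ p ∈ F \ P, σ p / p| ≤ ∑ p ∈ F \ P, |σ p / p| := Finset.abs_sum_le_sum_abs _ _
      _ ≤ ∑ _p ∈ F \ P, 1 / z := by
          refine Finset.sum_le_sum fun p hp => ?_
          have hpf := (mem_sdiff.1 hp).1
          rw [abs_div, abs_of_pos (hpF p hpf)]
          refine le_trans ?_ (hzF p hpf)
          exact div_le_div_of_nonneg_right (hσ1 p) (hpF p hpf).le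
      _ = (F \ P).card / z := by rw [Finset.sum_const, nsmul_eq_mul, mul_one_div]
      _ ≤ _ := div_le_div_of_nonneg_right e1 hz.le
  have h4 : |∑ p ∈ P, (σ p - ((jacobiSym d p : ℤ) : ℝ)) / p| ≤ 2 * log |(d : ℝ)| / z := by
    have e1 : ∀ p ∈ P, |(σ p - ((jacobiSym d p : ℤ) : ℝ)) / p| ≤
        (if (p : ℤ) ∣ d then 1 / z else 0) := by
      intro p hp
      have hpf := hPF hp
      rw [abs_div, abs_of_pos (hpF p hpf)]
      rw [hP, mem_filter, mem_PR] at hp
      obtain ⟨⟨hpp, _, hp2, _⟩, _⟩ := hp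
      have hpF' : Fact p.Prime := ⟨hpp⟩
      have e3 := Twist.split_iff hd hpp hp2
      by_cases hpd : (p : ℤ) ∣ d
      · rw [if_pos hpd]
        have e2 : jacobiSym d p = 0 := by
          rw [← jacobiSym.legendreSym.to_jacobiSym, legendreSym.eq_zero_iff,
            ZMod.intCast_zmod_eq_zero_iff_dvd]
          exact hpd
        rw [e2, Int.cast_zero, sub_zero]
        refine le_trans ?_ (hzF p hpf)
        exact div_le_div_of_nonneg_right (hσ1 p) (hpF p hpf).le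
      · rw [if_neg hpd]
        rcases jacobiSym.trichotomy d p with h | h | h
        · exfalso
          rw [← jacobiSym.legendreSym.to_jacobiSym, legendreSym.eq_zero_iff,
            ZMod.intCast_zmod_eq_zero_iff_dvd] at h
          exact hpd h
        · have : σ p = 1 := by
            rw [hσ]; simp only; rw [if_pos (e3.2 h)]
          rw [this, h]; norm_num
        · have : σ p = -1 := by
            rw [hσ]; simp only
            rw [if_neg]
            intro h'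
            rw [e3.1 h'] at h
            norm_num at h
          rw [this, h]; norm_num
    have e4 := omega_le h (le_refl |(d : ℝ)|) (P.filter (fun p : ℕ => (p : ℤ) ∣ d)) (by
      intro p hp
      rw [Finset.mem_filter, hP, mem_filter, mem_PR] at hp
      exact ⟨hp.1.1.1, hp.2⟩)
    calc |∑ p ∈ P, (σ p - ((jacobiSym d p : ℤ) : ℝ)) / p|
        ≤ ∑ p ∈ P, |(σ p - ((jacobiSym d p : ℤ) : ℝ)) / p| :=
          Finset.abs_sum_le_sum_abs _ _
      _ ≤ ∑ p ∈ P, (if (p : ℤ) ∣ d then 1 / z else 0) := Finset.sum_le_sum e1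
      _ = (P.filter (fun p : ℕ => (p : ℤ) ∣ d)).card / z := by
          rw [← Finset.sum_filter, Finset.sum_const, nsmul_eq_mul, mul_one_div]
      _ ≤ _ := div_le_div_of_nonneg_right e4 hz.le
  have h5 := abs_add_le (∑ p ∈ F \ P, σ p / p) (∑ p ∈ P, (σ p - ((jacobiSym d p : ℤ) : ℝ)) / p
      + ∑ p ∈ P, ((jacobiSym d p : ℤ) : ℝ) / p)
  have h6 := abs_add_le (∑ p ∈ P, (σ p - ((jacobiSym d p : ℤ) : ℝ)) / p)
    (∑ p ∈ P, ((jacobiSym d p : ℤ) : ℝ) / p)
  rw [← h2] at h5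
  have h7 : splitLog d z y - primeLog z y / 2 = (∑ p ∈ F, σ p / p) / 2 := by
    rw [← h1]
    ring
  rw [h7, abs_div, abs_of_pos (by norm_num : (0 : ℝ) < 2)]
  have h8 : (1 + 2 * log |(d₀ : ℝ)|) / z + 2 * log |(d : ℝ)| / z ≤
      2 * ((2 * log |(d : ℝ)| + 4 * log |(d₀ : ℝ)| + 2) / z) := by
    rw [← add_div, ← mul_div_assoc]
    refine div_le_div_of_nonneg_right ?_ hz.le
    linarith
  linarith

/-- Passage to the twists (compare `Twist.image_twists`).
Proof. For `d ∈ s` choose `e, k` with `d d₀ = e k²`, `1 ≤ e ≤ E`, and (`kernel`, `j = 1`) the squarefree `e_d ≤ e` with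
`d d₀ = e_d b²`. The map `d ↦ e_d` is injective on `s` (`same_e`). By `twist_rel` `J(d|p) = J(d₀|p) chi e_d p` for
`p ∈ PR d₀ y`, and `splitLog_sum` and `herr` give `η < (1/2) |∑| + η/2`, i.e. `|∑| > η`. -/
theorem image_log {d₀ : ℤ} (h₀ : d₀ < 0) (hF₀ : Fund d₀) {E z y η : ℝ} (hz : 0 < z) (s : Finset ℤ)
    (hs : ∀ d ∈ s, Near d₀ E d ∧ η < |splitLog d z y - primeLog z y / 2|)
    (herr : ∀ d ∈ s, (2 * log |(d : ℝ)| + 4 * log |(d₀ : ℝ)| + 2) / z ≤ η / 2) :
    ∃ s' : Finset ℕ, s'.card = s.card ∧ (∀ e ∈ s', Squarefree e ∧ (e : ℝ) ≤ E) ∧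
      ∀ e ∈ s', η ≤ |∑ p ∈ (PR d₀ y).filter (fun p : ℕ => z ≤ (p : ℝ)),
        ((jacobiSym d₀ p : ℤ) : ℝ) * chi e p / p| := by
  classical
  have hex : ∀ d : ℤ, ∃ e b : ℕ, d ∈ s → Squarefree e ∧ (e : ℝ) ≤ E ∧
      d * d₀ = (e : ℤ) * (b : ℤ) ^ 2 := by
    intro d
    by_cases hd : d ∈ s
    · obtain ⟨⟨hd0, hF, e, k, he1, heE, hek⟩, _⟩ := hs d hd
      have h0 : d * d₀ ≠ 0 := mul_ne_zero (fund_ne hF) (fund_ne hF₀)
      obtain ⟨s', b, hs', hse, _, hx⟩ := kernel (x := d * d₀) h0 (j := 1) (m := e) (k := k)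
        one_ne_zero (by rw [hek]; push_cast; ring)
      refine ⟨s', b, fun _ => ⟨hs', ?_, hx⟩⟩
      exact le_trans (by exact_mod_cast hse) heE
    · exact ⟨0, 0, fun h => absurd h hd⟩
  choose ef bf hef using hex
  refine ⟨s.image ef, ?_, ?_, ?_⟩
  · apply Finset.card_image_of_injOn
    intro d hd d' hd' hee
    obtain ⟨_, _, h1⟩ := hef d hd
    obtain ⟨_, _, h2⟩ := hef d' hd'
    obtain ⟨⟨hd0, hF, _⟩, _⟩ := hs d hd
    obtain ⟨⟨hd0', hF', _⟩, _⟩ := hs d' hd'
    have hee' : ef d = ef d' := hee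
    rw [← hee'] at h2
    exact same_e hd0 hd0' hF hF' (fund_ne hF₀) h1 h2
  · intro e he
    rw [Finset.mem_image] at he
    obtain ⟨d, hd, rfl⟩ := he
    exact ⟨(hef d hd).1, (hef d hd).2.1⟩
  · intro e he
    rw [Finset.mem_image] at he
    obtain ⟨d, hd, rfl⟩ := he
    obtain ⟨_, _, hx⟩ := hef d hd
    obtain ⟨⟨hd0, hF, _⟩, hbad⟩ := hs d hd
    have h1 := splitLog_sum (fund_mod hF) (fund_ne hF) (fund_ne hF₀) hz y
    have h2 := herr d hd
    have h4 : ∑ p ∈ (PR d₀ y).filter (fun p : ℕ => z ≤ (p : ℝ)), ((jacobiSym d p : ℤ) : ℝ) / p =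
        ∑ p ∈ (PR d₀ y).filter (fun p : ℕ => z ≤ (p : ℝ)),
          ((jacobiSym d₀ p : ℤ) : ℝ) * chi (ef d) p / p := by
      apply Finset.sum_congr rfl
      intro p hp
      obtain ⟨hp1, _, hp2, hp3⟩ := mem_PR.1 (mem_filter.1 hp).1
      rw [twist_rel hF hx hp1 hp2 hp3]
    rw [h4] at h1
    linarith

end TwV
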