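import Pool.Agent.W_aaa0df_h65.B4
import Pool.Agent.W_aaa0df_h65.B6
import Pool.Agent.W_aaa0df_h86.BallA
import Pool.Agent.W_aaa0df_h86.BallB

/-! Constant number of exceptional twists: the theorem (helper65). -/

set_option autoImplicit false

namespace TwV

open Finset Real Twist MPaaa0df

/-- Choice of the parameters in `few_log`: `z = y^ρ`, `w = z^(1/2)`, `E = z^K`, `L = 2/ρ`, `k` an even number
`≥ 2K + 4`.
Proof. Take `k = 2 ⌈K + 2⌉₊`, `C = 2 L^k k! (k · 2(1-ρ)/ρ + 5)/η^(2k)`. For large `y`: `16 w² = 16 z ≤ z^k`,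
`32 L^k k! w² E² = 32 L^k k! z^(1+2K) ≤ η^(2k) z^k` since `k ≥ 2K + 4`, `(k log(y/z) + 2)/log w =
(k (1-ρ) log y + 2)/((ρ/2) log y) ≤ 2k(1-ρ)/ρ + 1` once `log y ≥ 4/ρ`. -/
theorem params_log (K ρ η : ℝ) (hK : 0 ≤ K) (hρ : 0 < ρ) (hρ1 : ρ < 1) (hη : 0 < η) :
    ∃ (k : ℕ) (C Y : ℝ), Even k ∧ 2 ≤ k ∧ 0 ≤ C ∧ ∀ y : ℝ, Y ≤ y →
      1 < (y ^ ρ) ^ (1 / 2 : ℝ) ∧ (y ^ ρ) ^ (1 / 2 : ℝ) < y ^ ρ ∧ y ^ ρ ≤ y ∧
      16 * ((y ^ ρ) ^ (1 / 2 : ℝ)) ^ 2 ≤ (y ^ ρ) ^ k ∧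
      32 * (2 / ρ) ^ k * k.factorial * ((y ^ ρ) ^ (1 / 2 : ℝ)) ^ 2 * ((y ^ ρ) ^ K) ^ 2 ≤
        η ^ (2 * k) * (y ^ ρ) ^ k ∧
      2 * (2 / ρ) ^ k * k.factorial *
        ((k * log (y / y ^ ρ) + 2) / log ((y ^ ρ) ^ (1 / 2 : ℝ)) + 4) ≤ C * η ^ (2 * k) := by
  set m : ℕ := ⌈K + 2⌉₊ with hm
  have hmK : K + 2 ≤ m := Nat.le_ceil _
  have hm2 : 2 ≤ m := by
    have h1 : (2 : ℝ) ≤ m := by linarith
    exact_mod_cast h1
  set k : ℕ := 2 * m with hk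
  have hk4 : 4 ≤ k := by omega
  have hkK : 2 * K + 4 ≤ (k : ℝ) := by
    rw [hk]
    push_cast
    linarith
  have hη2 : 0 < η ^ (2 * k) := by positivity
  set A : ℝ := (2 / ρ) ^ k * (k.factorial : ℝ) with hA
  have hA0 : 0 < A := by
    have : (0 : ℝ) < k.factorial := by exact_mod_cast Nat.factorial_pos k
    positivity
  set M : ℝ := max (32 * A / η ^ (2 * k)) 16 with hM
  have hM16 : 16 ≤ M := le_max_right _ _
  have hM0 : 0 < M := by linarith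
  have h1ρ : 0 < 1 - ρ := by linarith
  refine ⟨k, 2 * A * (2 * k * (1 - ρ) / ρ + 5) / η ^ (2 * k),
    max (M ^ (1 / ρ)) (Real.exp (4 / ρ)), ⟨m, by omega⟩, by omega, by positivity,
    fun y hy => ?_⟩
  have hyM : M ^ (1 / ρ) ≤ y := (le_max_left _ _).trans hy
  have hye : Real.exp (4 / ρ) ≤ y := (le_max_right _ _).trans hy
  have hy0 : 0 < y := (Real.exp_pos _).trans_le hye
  have hy1 : 1 ≤ y := by
    refine le_trans ?_ hye
    exact Real.one_le_exp (by positivity)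
  have hly : 4 / ρ ≤ log y := (Real.le_log_iff_exp_le hy0).2 hye
  have hz : M ≤ y ^ ρ := by
    have h2 := Real.rpow_le_rpow (Real.rpow_nonneg hM0.le _) hyM hρ.le
    rwa [← Real.rpow_mul hM0.le, one_div_mul_cancel hρ.ne', Real.rpow_one] at h2
  set z : ℝ := y ^ ρ with hzdef
  have hz16 : 16 ≤ z := hM16.trans hz
  have hz0 : 0 < z := by linarith
  have hz1 : 1 < z := by linarith
  have hw2 : (z ^ (1 / 2 : ℝ)) ^ 2 = z := by
    rw [← Real.rpow_natCast, ← Real.rpow_mul hz0.le]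
    norm_num
  refine ⟨Real.one_lt_rpow hz1 (by norm_num), ?_, ?_, ?_, ?_, ?_⟩
  · calc z ^ (1 / 2 : ℝ) < z ^ (1 : ℝ) := Real.rpow_lt_rpow_of_exponent_lt hz1 (by norm_num)
      _ = z := Real.rpow_one z
  · calc z ≤ y ^ (1 : ℝ) := Real.rpow_le_rpow_of_exponent_le hy1 hρ1.le
      _ = y := Real.rpow_one y
  · rw [hw2]
    calc 16 * z ≤ z * z := mul_le_mul_of_nonneg_right hz16 hz0.le
      _ = z ^ 2 := by ring
      _ ≤ z ^ k := pow_le_pow_right₀ hz1.le (by omega)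
  · rw [hw2]
    have h3 : (z ^ K) ^ 2 = z ^ (2 * K) := by
      rw [← Real.rpow_natCast, ← Real.rpow_mul hz0.le]
      congr 1
      push_cast
      ring
    have h4 : z * z * z ^ (2 * K) ≤ z ^ k := by
      have h5 : z * z * z ^ (2 * K) = z ^ (2 + 2 * K) := by
        rw [Real.rpow_add hz0, Real.rpow_two]
        ring
      rw [h5, ← Real.rpow_natCast]
      exact Real.rpow_le_rpow_of_exponent_le hz1.le (by linarith)
    have h6 : 32 * A ≤ η ^ (2 * k) * z := by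
      have h7 : 32 * A / η ^ (2 * k) ≤ z := (le_max_left _ _).trans hz
      rw [div_le_iff₀ hη2] at h7
      linarith
    have h8 : 0 ≤ z * z ^ (2 * K) := by positivity
    rw [h3]
    calc 32 * (2 / ρ) ^ k * (k.factorial : ℝ) * z * z ^ (2 * K) = 32 * A * (z * z ^ (2 * K)) := by
          rw [hA]; ring
      _ ≤ η ^ (2 * k) * z * (z * z ^ (2 * K)) := mul_le_mul_of_nonneg_right h6 h8
      _ = η ^ (2 * k) * (z * z * z ^ (2 * K)) := by ring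
      _ ≤ η ^ (2 * k) * z ^ k := mul_le_mul_of_nonneg_left h4 hη2.le
  · have hly0 : 0 < log y := lt_of_lt_of_le (by positivity) hly
    have e1 : log (y / z) = (1 - ρ) * log y := by
      rw [Real.log_div hy0.ne' hz0.ne', hzdef, Real.log_rpow hy0]
      ring
    have e2 : log (z ^ (1 / 2 : ℝ)) = ρ / 2 * log y := by
      rw [Real.log_rpow hz0, hzdef, Real.log_rpow hy0]
      ring
    rw [e1, e2]
    have h9 : (k * ((1 - ρ) * log y) + 2) / (ρ / 2 * log y) ≤ 2 * k * (1 - ρ) / ρ + 1 := by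
      rw [div_le_iff₀ (by positivity)]
      have h10 : (2 * k * (1 - ρ) / ρ + 1) * (ρ / 2 * log y) =
          k * ((1 - ρ) * log y) + ρ / 2 * log y := by
        field_simp
      rw [h10]
      have h11 : 4 ≤ log y * ρ := (div_le_iff₀ hρ).1 hly
      linarith
    rw [div_mul_cancel₀ _ hη2.ne']
    calc 2 * (2 / ρ) ^ k * (k.factorial : ℝ) *
          ((k * ((1 - ρ) * log y) + 2) / (ρ / 2 * log y) + 4) =
          2 * A * ((k * ((1 - ρ) * log y) + 2) / (ρ / 2 * log y) + 4) := by rw [hA]; ring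
      _ ≤ 2 * A * (2 * k * (1 - ρ) / ρ + 5) :=
        mul_le_mul_of_nonneg_left (by linarith) (by positivity)

/-- Sizes in the ball of radius `ℓ^K`. -/
theorem B7_size (K : ℝ) : ∃ L : ℝ, 4 ≤ L ∧ ∀ d₀ : ℤ, Fund d₀ → L ≤ log |(d₀ : ℝ)| → ∀ d : ℤ,
    Near d₀ (log |(d₀ : ℝ)| ^ K) d →
      log |(d : ℝ)| ≤ 2 * log |(d₀ : ℝ)| ∧ 1 ≤ log |(d : ℝ)| ∧
        log (log |(d₀ : ℝ)| ^ K) ≤ log |(d₀ : ℝ)| / 4 := by
  obtain ⟨L, hL⟩ := ballb_large K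
  refine ⟨max L 4, le_max_right _ _, fun d₀ hF hl d hd => ?_⟩
  have hl4 : 4 ≤ log |(d₀ : ℝ)| := (le_max_right _ _).trans hl
  obtain ⟨_, h1⟩ := hL _ ((le_max_left _ _).trans hl)
  have hns := near_size hF hd
  have hlog4 : log 4 ≤ 3 / 2 := by
    have h1 : (4 : ℝ) = 2 ^ 2 := by norm_num
    rw [h1, Real.log_pow]
    have := Real.log_two_lt_d9
    push_cast
    linarith
  rw [Real.log_rpow (by linarith)] at hns ⊢
  obtain ⟨h2, h3⟩ := hns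
  exact ⟨by linarith, by linarith, h1⟩

/-- **Boundedly many exceptions, logarithmic density.**
Proof. Let `ℓ = log |d₀|`, `z = y^ρ ≥ ℓ^β`, `E = ℓ^K ≤ z^K` (`ℓ ≥ 1`, `β ≥ 1`). Since `y ≥ z ≥ ℓ^β → ∞`, everything
is large. By `near_size`, `log |d| ≤ 2ℓ` for `d ∈ s`, so the hypothesis `herr` of `image_log` holds:
`(8 ℓ + 2)/ℓ^β ≤ η/2` for large `ℓ`. Apply `few_log` to `s'` (squarefree `e ≤ E ≤ z^K`) with
`P = (PR d₀ y).filter (z ≤ ·)`, `ψ p = J(d₀|p)` (`balla_jacobi_abs`), `L = 2/ρ` (`primeLog_le`: the sum of `1/p`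
over `P` is at most `primeLog z y`), and the parameters of `params_log`: `s'.card η^(2k) ≤ C η^(2k)`. -/
theorem const_ball (K β ρ η : ℝ) (hK : 0 ≤ K) (hβ : 1 < β) (hρ : 0 < ρ) (hρ1 : ρ < 1) (hη : 0 < η) :
    ∃ C D : ℝ, ∀ d₀ : ℤ, d₀ < 0 → Fund d₀ → D ≤ |(d₀ : ℝ)| → ∀ y : ℝ,
      log |(d₀ : ℝ)| ^ β ≤ y ^ ρ → ∀ s : Finset ℤ,
      (∀ d ∈ s, Near d₀ (log |(d₀ : ℝ)| ^ K) d ∧ η < |splitLog d (y ^ ρ) y - primeLog (y ^ ρ) y / 2|) →
      (s.card : ℝ) ≤ C := by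
  obtain ⟨k, C, Y, hk, hk2, hC, hpar⟩ := params_log K ρ η hK hρ hρ1 hη
  obtain ⟨Y₁, hY₁⟩ := primeLog_le ρ hρ
  obtain ⟨L, hL4, hsize⟩ := B7_size K
  refine ⟨C, Real.exp (max (max (max Y Y₁) L) ((20 / η) ^ (1 / (β - 1)))), ?_⟩
  intro d₀ h₀ hF₀ hD y hyρ s hs
  have hd₀ : d₀ ≠ 0 := h₀.ne
  have habs : (0 : ℝ) < |(d₀ : ℝ)| := by
    rw [abs_pos]
    exact_mod_cast hd₀
  have hlog := (Real.le_log_iff_exp_le habs).2 hD
  set l : ℝ := log |(d₀ : ℝ)| with hldef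
  have hlY : Y ≤ l := ((le_max_left _ _).trans ((le_max_left _ _).trans (le_max_left _ _))).trans hlog
  have hlY₁ : Y₁ ≤ l :=
    ((le_max_right _ _).trans ((le_max_left _ _).trans (le_max_left _ _))).trans hlog
  have hlL : L ≤ l := ((le_max_right _ _).trans (le_max_left _ _)).trans hlog
  have hlη : (20 / η) ^ (1 / (β - 1)) ≤ l := (le_max_right _ _).trans hlog
  have hl4 : 4 ≤ l := hL4.trans hlL
  have hl0 : 0 < l := by linarith
  have hlβ : l ≤ l ^ β := by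
    calc l = l ^ (1 : ℝ) := (Real.rpow_one l).symm
      _ ≤ l ^ β := Real.rpow_le_rpow_of_exponent_le (by linarith) hβ.le
  rcases lt_or_ge y 0 with hy | hy
  · have hs0 : s = ∅ := by
      rw [Finset.eq_empty_iff_forall_notMem]
      intro d hd
      have h1 := (hs d hd).2
      have h2 : ⌈y⌉₊ = 0 := Nat.ceil_eq_zero.2 hy.le
      unfold splitLog primeLog at h1
      rw [h2] at h1
      simp at h1
      linarith
    rw [hs0]
    simpa using hC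
  have hy1 : 1 ≤ y := by
    by_contra hcon
    have h1 : y ^ ρ ≤ 1 := Real.rpow_le_one hy (not_le.1 hcon).le hρ.le
    linarith
  have hzy : y ^ ρ ≤ y := by
    calc y ^ ρ ≤ y ^ (1 : ℝ) := Real.rpow_le_rpow_of_exponent_le hy1 hρ1.le
      _ = y := Real.rpow_one y
  obtain ⟨p1, p2, p3, p4, p5, p6⟩ := hpar y (by linarith)
  have hpl := hY₁ y (by linarith)
  set z : ℝ := y ^ ρ with hzdef
  have hlz : l ≤ z := hlβ.trans hyρ
  have hz0 : 0 < z := by linarith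
  have hEz : l ^ K ≤ z ^ K := Real.rpow_le_rpow hl0.le hlz hK
  have hbe : 20 / η ≤ l ^ (β - 1) := by
    have h0 : 0 < 20 / η := by positivity
    have h1 : 0 < β - 1 := by linarith
    have h2 := Real.rpow_le_rpow (Real.rpow_nonneg h0.le _) hlη h1.le
    rwa [← Real.rpow_mul h0.le, one_div_mul_cancel h1.ne', Real.rpow_one] at h2
  have hlβ2 : l ^ β = l ^ (β - 1) * l := by
    rw [← Real.rpow_add_one hl0.ne']
    congr 1
    ring
  have herr : ∀ d ∈ s, (2 * log |(d : ℝ)| + 4 * log |(d₀ : ℝ)| + 2) / z ≤ η / 2 := by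
    intro d hd
    obtain ⟨h1, _, _⟩ := hsize d₀ hF₀ hlL d (hs d hd).1
    rw [← hldef] at h1 ⊢
    rw [div_le_iff₀ hz0]
    have h2 : 20 / η * l ≤ z := by
      calc 20 / η * l ≤ l ^ (β - 1) * l := mul_le_mul_of_nonneg_right hbe hl0.le
        _ = l ^ β := hlβ2.symm
        _ ≤ z := hyρ
    have h3 : η / 2 * (20 / η * l) = 10 * l := by
      field_simp
      ring
    have h4 := mul_le_mul_of_nonneg_left h2 (show 0 ≤ η / 2 by positivity)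
    rw [h3] at h4
    linarith
  obtain ⟨s', hcard, hsq, hbad⟩ := image_log h₀ hF₀ hz0 s hs herr
  have hL : ∑ p ∈ (PR d₀ y).filter (fun p : ℕ => z ≤ (p : ℝ)), 1 / (p : ℝ) ≤ 2 / ρ := by
    refine le_trans ?_ hpl
    unfold primeLog
    refine Finset.sum_le_sum_of_subset_of_nonneg (fun p hp => ?_) fun p _ _ => by positivity
    rw [Finset.mem_filter] at hp ⊢
    obtain ⟨h1, h2, _, _⟩ := mem_PR.1 hp.1
    exact ⟨Finset.mem_range.2 (Nat.lt_ceil.2 h2), h1, hp.2⟩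
  have hfew := few_log (w := z ^ (1 / 2 : ℝ)) (z := z) (y := y) p1 p2 p3 (E := z ^ K)
    (Real.one_le_rpow (by linarith) hK) (s := s')
    (fun e he => ⟨(hsq e he).1, (hsq e he).2.trans hEz⟩)
    (P := (PR d₀ y).filter (fun p : ℕ => z ≤ (p : ℝ)))
    (fun p hp => by
      rw [Finset.mem_filter] at hp
      obtain ⟨h1, h2, _, _⟩ := mem_PR.1 hp.1
      exact ⟨h1, hp.2, h2.le⟩)
    (ψ := fun p => ((jacobiSym d₀ p : ℤ) : ℝ)) (fun p _ => balla_jacobi_abs d₀ p) hk hk2 hη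
    (show (0 : ℝ) ≤ 2 / ρ by positivity) hL hbad p4 p5
  have h1 : (s'.card : ℝ) * η ^ (2 * k) ≤ C * η ^ (2 * k) := hfew.trans p6
  rw [hcard] at h1
  exact le_of_mul_le_mul_right h1 (by positivity)

/-- The logarithmic split sum is at most the number of split primes over `z`. -/
theorem B7_splitLog_le (d : ℤ) {z : ℝ} (hz : 0 < z) (y : ℝ) :
    splitLog d z y ≤ splitCount d y / z := by
  classical
  unfold splitLog
  have h1 : ∀ p ∈ (range ⌈y⌉₊).filter (fun p : ℕ => p.Prime ∧ z ≤ p ∧ ¬ ((p : ℤ) ∣ d) ∧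
      ∃ x : ℤ, (4 * (p : ℤ)) ∣ x ^ 2 - d), 1 / (p : ℝ) ≤ 1 / z := by
    intro p hp
    rw [Finset.mem_filter] at hp
    exact one_div_le_one_div_of_le hz hp.2.2.1
  refine (Finset.sum_le_card_nsmul _ _ _ h1).trans ?_
  rw [nsmul_eq_mul, mul_one_div]
  refine div_le_div_of_nonneg_right ?_ hz.le
  have h2 : ((range ⌈y⌉₊).filter (fun p : ℕ => p.Prime ∧ z ≤ p ∧ ¬ ((p : ℤ) ∣ d) ∧
      ∃ x : ℤ, (4 * (p : ℤ)) ∣ x ^ 2 - d)).card ≤ splitCount d y := by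
    unfold splitCount
    rw [← Set.ncard_coe_finset]
    refine Set.ncard_le_ncard (fun p hp => ?_) (ballb_fin d y)
    have hp' := Finset.mem_filter.1 (Finset.mem_coe.1 hp)
    exact ⟨hp'.2.1, Nat.lt_ceil.1 (Finset.mem_range.1 hp'.1), hp'.2.2.2⟩
  exact_mod_cast h2

/-- **Boundedly many exceptions, `N(d)`.**
Proof. `ρ = (max κ 1 + 2)/4 ∈ (max κ 1/2, 1)`, `β = 2ρ > 1`, `η = (1-ρ)/8`, `y = ℓ²` (`ℓ = log |d₀|`), so
`y^ρ = ℓ^β`. If `N d < (log |d|)^κ`, `d` in the ball, then `splitCount d y ≤ N d` (`N_ge`), `log |d| ≤ 2ℓ`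
(`near_size`), so `splitLog d (y^ρ) y ≤ splitCount d y/y^ρ ≤ (2ℓ)^(max κ 0)/ℓ^(2ρ) ≤ (1-ρ)/16` for large `ℓ`, while
`primeLog (y^ρ) y/2 ≥ (1-ρ)/4` (`primeLog_ge`): the difference exceeds `η`. Apply `const_ball`. -/
theorem const_ball_N (K κ : ℝ) (hK : 0 ≤ K) (hκ : κ < 2) :
    ∃ C D : ℝ, ∀ d₀ : ℤ, d₀ < 0 → Fund d₀ → D ≤ |(d₀ : ℝ)| → ∀ s : Finset ℤ,
      (∀ d ∈ s, Near d₀ (log |(d₀ : ℝ)| ^ K) d ∧ (N d : ℝ) < log |(d : ℝ)| ^ κ) → (s.card : ℝ) ≤ C := by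
  set M : ℝ := max κ 1 with hM
  have hM1 : 1 ≤ M := le_max_right _ _
  have hMκ : κ ≤ M := le_max_left _ _
  have hM2 : M < 2 := max_lt hκ (by norm_num)
  set ρ : ℝ := (M + 2) / 4 with hρd
  have hρ0 : 0 < ρ := by rw [hρd]; linarith
  have hρ1 : ρ < 1 := by rw [hρd]; linarith
  have h1ρ : 0 < 1 - ρ := by linarith
  obtain ⟨C, D, hcb⟩ := const_ball K (2 * ρ) ρ ((1 - ρ) / 8) hK (by rw [hρd]; linarith) hρ0 hρ1
    (by positivity)
  obtain ⟨D₁, hN⟩ := N_ge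
  obtain ⟨L, hL4, hsize⟩ := B7_size K
  obtain ⟨Y₂, hY₂⟩ := primeLog_ge ρ hρ0 hρ1
  refine ⟨C, max (max D D₁) (Real.exp (max (max L Y₂) ((64 / (1 - ρ)) ^ (2 / (2 - M))))), ?_⟩
  intro d₀ h₀ hF₀ hD s hs
  have hD0 : D ≤ |(d₀ : ℝ)| := ((le_max_left _ _).trans (le_max_left _ _)).trans hD
  have hD1 : D₁ ≤ |(d₀ : ℝ)| := ((le_max_right _ _).trans (le_max_left _ _)).trans hD
  have hD2 := (le_max_right _ _).trans hD
  have hd₀ : d₀ ≠ 0 := h₀.ne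
  have habs : (0 : ℝ) < |(d₀ : ℝ)| := by
    rw [abs_pos]
    exact_mod_cast hd₀
  have hlog := (Real.le_log_iff_exp_le habs).2 hD2
  have hlL : L ≤ log |(d₀ : ℝ)| := ((le_max_left _ _).trans (le_max_left _ _)).trans hlog
  have hlY : Y₂ ≤ log |(d₀ : ℝ)| := ((le_max_right _ _).trans (le_max_left _ _)).trans hlog
  have hlr : (64 / (1 - ρ)) ^ (2 / (2 - M)) ≤ log |(d₀ : ℝ)| := (le_max_right _ _).trans hlog
  have hcb' := hcb d₀ h₀ hF₀ hD0 (log |(d₀ : ℝ)| ^ (2 : ℝ))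
  have hsz := hsize d₀ hF₀ hlL
  have hN' := hN d₀ hF₀ hD1 (log |(d₀ : ℝ)| ^ K)
  set l : ℝ := log |(d₀ : ℝ)| with hldef
  have hl4 : 4 ≤ l := hL4.trans hlL
  have hl0 : 0 < l := by linarith
  have hyρ : (l ^ (2 : ℝ)) ^ ρ = l ^ (2 * ρ) := by rw [← Real.rpow_mul hl0.le]
  refine hcb' (by rw [hyρ]) s fun d hd => ?_
  obtain ⟨hnear, hNd⟩ := hs d hd
  refine ⟨hnear, ?_⟩
  obtain ⟨g1, g2, g3⟩ := hsz d hnear
  have hly : l ≤ l ^ (2 : ℝ) := by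
    calc l = l ^ (1 : ℝ) := (Real.rpow_one l).symm
      _ ≤ l ^ (2 : ℝ) := Real.rpow_le_rpow_of_exponent_le (by linarith) (by norm_num)
  have hpl := hY₂ (l ^ (2 : ℝ)) (hlY.trans hly)
  have hz0 : 0 < (l ^ (2 : ℝ)) ^ ρ := by positivity
  have hsl := B7_splitLog_le d hz0 (l ^ (2 : ℝ))
  have hsc : (splitCount d (l ^ (2 : ℝ)) : ℝ) ≤ N d := by
    exact_mod_cast hN' (Real.one_le_rpow (by linarith) hK) g3 d hnear
  have hpow : log |(d : ℝ)| ^ κ ≤ (2 * l) ^ M :=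
    (Real.rpow_le_rpow_of_exponent_le g2 hMκ).trans
      (Real.rpow_le_rpow (by linarith) g1 (by linarith))
  have h2M : (2 : ℝ) ^ M ≤ 4 := by
    calc (2 : ℝ) ^ M ≤ 2 ^ (2 : ℝ) := Real.rpow_le_rpow_of_exponent_le (by norm_num) hM2.le
      _ = 4 := by norm_num
  have hbig : 64 / (1 - ρ) ≤ l ^ ((2 - M) / 2) := by
    have h0 : 0 < 64 / (1 - ρ) := by positivity
    have h1 : 0 < (2 - M) / 2 := by linarith
    have h2 := Real.rpow_le_rpow (Real.rpow_nonneg h0.le _) hlr h1.le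
    have h3 : 2 / (2 - M) * ((2 - M) / 2) = 1 := by
      have : 2 - M ≠ 0 := by linarith
      field_simp
    rwa [← Real.rpow_mul h0.le, h3, Real.rpow_one] at h2
  have hz : l ^ (2 * ρ) = l ^ M * l ^ ((2 - M) / 2) := by
    rw [← Real.rpow_add hl0]
    congr 1
    rw [hρd]
    ring
  have hsplit : splitLog d ((l ^ (2 : ℝ)) ^ ρ) (l ^ (2 : ℝ)) ≤ (1 - ρ) / 16 := by
    refine hsl.trans ?_
    rw [div_le_iff₀ hz0, hyρ, hz]
    have hlM : 0 < l ^ M := Real.rpow_pos_of_pos hl0 _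
    calc (splitCount d (l ^ (2 : ℝ)) : ℝ) ≤ (2 * l) ^ M := by linarith
      _ = 2 ^ M * l ^ M := Real.mul_rpow (by norm_num) hl0.le
      _ ≤ 4 * l ^ M := mul_le_mul_of_nonneg_right h2M hlM.le
      _ = (1 - ρ) / 16 * (l ^ M * (64 / (1 - ρ))) := by
        have : 1 - ρ ≠ 0 := h1ρ.ne'
        field_simp
        norm_num
      _ ≤ (1 - ρ) / 16 * (l ^ M * l ^ ((2 - M) / 2)) := by
        have := mul_le_mul_of_nonneg_left hbig hlM.le
        exact mul_le_mul_of_nonneg_left this (by positivity)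
  rw [lt_abs]
  right
  linarith

end TwV
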