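import Mathlib

/-! Parameters for exceptional twists in large balls (helper65). -/

set_option autoImplicit false

namespace TwV

open Finset Real

theorem BP_pow {L η B k' : ℝ} (k : ℕ) (hL : 0 < L) (hη : 0 < η) (hBL : L ≤ B * η ^ 2) (hB1 : 1 ≤ B)
    (hk : (k : ℝ) ≤ k') :
    L ^ k * (k.factorial : ℝ) ≤ (k' * B) ^ k * η ^ (2 * k) := by
  have h1 : L ^ k ≤ (B * η ^ 2) ^ k := pow_le_pow_left₀ hL.le hBL k
  have h2 : (k.factorial : ℝ) ≤ (k : ℝ) ^ k := by exact_mod_cast Nat.factorial_le_pow k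
  have h3 : (k : ℝ) ^ k ≤ k' ^ k := pow_le_pow_left₀ (Nat.cast_nonneg k) hk k
  have h4 : L ^ k * (k.factorial : ℝ) ≤ (B * η ^ 2) ^ k * k' ^ k :=
    mul_le_mul h1 (h2.trans h3) (by positivity) (by positivity)
  have h5 : (B * η ^ 2) ^ k * k' ^ k = (k' * B) ^ k * η ^ (2 * k) := by
    rw [mul_pow, mul_pow, pow_mul]; ring
  rw [← h5]; exact h4

/-- Choice of the parameters in `few_log` for large radii: `z ≥ ℓ`, `w = z^(1/2)`, `x = log E/log ℓ`.
Proof. `k` = the even number `2 ⌈2 + 2x⌉₊`, so `4 + 4x ≤ k ≤ 6 + 4x`; `x ≤ log E ≤ ℓ^(1/8)` for `log ℓ ≥ 1`. Let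
`B = L/η²` (may assume `B ≥ 1` by enlarging: use `max B 1`). `k! (L/η²)^k ≤ (k max(B,1))^k ≤ (z^(1/4))^k` because
`k max(B,1) ≤ (6 + 4 ℓ^(1/8)) max(B,1) ≤ ℓ^(1/4) ≤ z^(1/4)` for large `ℓ`. Second inequality to prove (the hypothesis
`hbig` of `few_log`): `32 L^k k! z E² ≤ η^(2k) z^k` follows from `32 z E² ≤ z^(3k/4)`, and
`z^(3k/4) = z z^(3k/4 - 1) ≥ z ℓ^(3k/4-1) ≥ z ℓ^(2+3x) = z ℓ² E³ ≥ 32 z E²` (`3k/4 - 1 ≥ 2 + 3x`, `ℓ^x = E`).
First: `16 z ≤ z^k` as `k ≥ 4`. Last: `2 L^k k! ((k Λ + 2)/... )`: with `log(y/z) ≤ a log z` and `log w = (log z)/2`,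
`(k log(y/z) + 2)/log w + 4 ≤ 2 a k + 8` (`log z ≥ 1`) `≤ (2a+8) k ≤ (2a+8) 2^k`, so
`2 L^k k! (...) ≤ 2 (2a+8) (2 k max(B,1))^k η^(2k) ≤ (C (1+x))^(6+4x) η^(2k)` with
`C = 24 (2a+8) max(B,1)` (`2 (2a+8) ≤ (2(2a+8))^k`; `2(2a+8) · 2 k max(B,1) ≤ C (1 + x)` needs `k ≤ 6(1+x)`; the base
is `≥ 1`, so the exponent `k` may be increased to `6 + 4x`). -/
theorem params_big (L η a : ℝ) (hL : 0 < L) (hη : 0 < η) (ha : 0 ≤ a) :
    ∃ C ℓ₀ : ℝ, 1 ≤ C ∧ ∀ ℓ z y E : ℝ, ℓ₀ ≤ ℓ → ℓ ≤ z → z ≤ y → log (y / z) ≤ a * log z → 1 ≤ E →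
      log E ≤ ℓ ^ (1 / 8 : ℝ) →
      ∃ k : ℕ, Even k ∧ 2 ≤ k ∧ 1 < z ^ (1 / 2 : ℝ) ∧ z ^ (1 / 2 : ℝ) < z ∧
        16 * (z ^ (1 / 2 : ℝ)) ^ 2 ≤ z ^ k ∧
        32 * L ^ k * k.factorial * (z ^ (1 / 2 : ℝ)) ^ 2 * E ^ 2 ≤ η ^ (2 * k) * z ^ k ∧
        2 * L ^ k * k.factorial * ((k * log (y / z) + 2) / log (z ^ (1 / 2 : ℝ)) + 4) ≤
          (C * (1 + log E / log ℓ)) ^ (6 + 4 * log E / log ℓ) * η ^ (2 * k) := by
  set B : ℝ := max (L / η ^ 2) 1 with hB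
  have hB1 : 1 ≤ B := le_max_right _ _
  have hη2 : 0 < η ^ 2 := by positivity
  have hBL : L ≤ B * η ^ 2 := by
    have h : L / η ^ 2 ≤ B := le_max_left _ _
    rwa [div_le_iff₀ hη2] at h
  have hB0 : 0 < B := lt_of_lt_of_le one_pos hB1
  refine ⟨24 * (2 * a + 8) * B, (10 * B) ^ 8, ?_, ?_⟩
  · have h1 : (1 : ℝ) ≤ 24 * (2 * a + 8) := by linarith
    exact one_le_mul_of_one_le_of_one_le h1 hB1
  intro ℓ z y E hℓ hz hy hyz hE hlE
  -- size of ℓ
  have hℓ8 : (10 : ℝ) ^ 8 ≤ ℓ := by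
    refine le_trans ?_ hℓ
    exact pow_le_pow_left₀ (by norm_num) (by linarith) 8
  have hℓ0 : 0 < ℓ := lt_of_lt_of_le (by norm_num) hℓ8
  have hz8 : (10 : ℝ) ^ 8 ≤ z := hℓ8.trans hz
  have hz0 : 0 < z := lt_of_lt_of_le hℓ0 hz
  have hz1 : 1 < z := lt_of_lt_of_le (by norm_num) hz8
  have hlogℓ : 1 ≤ log ℓ := by
    rw [Real.le_log_iff_exp_le hℓ0]
    have := Real.exp_one_lt_d9
    linarith
  have hlogz : 1 ≤ log z := hlogℓ.trans (Real.log_le_log hℓ0 hz)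
  have hlogℓ0 : 0 < log ℓ := lt_of_lt_of_le one_pos hlogℓ
  have hlogz0 : 0 < log z := lt_of_lt_of_le one_pos hlogz
  have hE0 : 0 < E := lt_of_lt_of_le one_pos hE
  have hlogE : 0 ≤ log E := Real.log_nonneg hE
  set x : ℝ := log E / log ℓ with hx
  have hx0 : 0 ≤ x := div_nonneg hlogE hlogℓ0.le
  have hxE : x ≤ log E := div_le_self hlogE hlogℓ
  have hxℓ : x ≤ ℓ ^ (1 / 8 : ℝ) := hxE.trans hlE
  have hℓ18 : 10 * B ≤ ℓ ^ (1 / 8 : ℝ) := by
    have h1 : ((10 * B) ^ 8) ^ (1 / 8 : ℝ) ≤ ℓ ^ (1 / 8 : ℝ) :=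
      Real.rpow_le_rpow (by positivity) hℓ (by norm_num)
    have h2 : ((10 * B) ^ 8) ^ (1 / 8 : ℝ) = 10 * B := by
      rw [← Real.rpow_natCast, ← Real.rpow_mul (by positivity)]
      norm_num
    rw [h2] at h1
    exact h1
  set u : ℝ := ℓ ^ (1 / 8 : ℝ) with hu
  have hu1 : 1 ≤ u := by linarith
  have hu2 : ℓ ^ (1 / 4 : ℝ) = u ^ 2 := by
    rw [hu, ← Real.rpow_natCast, ← Real.rpow_mul hℓ0.le]
    norm_num
  -- the number k
  set m : ℕ := ⌈2 + 2 * x⌉₊ with hm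
  have hm1 : 2 + 2 * x ≤ m := Nat.le_ceil _
  have hm2 : (m : ℝ) < 2 + 2 * x + 1 := Nat.ceil_lt_add_one (by linarith)
  have hk1 : 4 + 4 * x ≤ ((2 * m : ℕ) : ℝ) := by push_cast; linarith
  have hk2 : ((2 * m : ℕ) : ℝ) ≤ 6 + 4 * x := by push_cast; linarith
  have hk4 : 4 ≤ 2 * m := by
    have h : (4 : ℝ) ≤ ((2 * m : ℕ) : ℝ) := by linarith
    exact_mod_cast h
  have heven : Even (2 * m) := even_two_mul m
  clear_value m
  generalize hk : 2 * m = k at hk1 hk2 hk4 heven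
  have hkpos : 0 < k := by omega
  have hsq : (z ^ (1 / 2 : ℝ)) ^ 2 = z := by
    rw [← Real.rpow_natCast, ← Real.rpow_mul hz0.le]
    norm_num
  refine ⟨k, heven, by omega, ?_, ?_, ?_, ?_, ?_⟩
  · exact Real.one_lt_rpow hz1 (by norm_num)
  · calc z ^ (1 / 2 : ℝ) < z ^ (1 : ℝ) := Real.rpow_lt_rpow_of_exponent_lt hz1 (by norm_num)
      _ = z := Real.rpow_one z
  · rw [hsq]
    have h16 : (16 : ℝ) ≤ z := by linarith
    calc 16 * z ≤ z * z := mul_le_mul_of_nonneg_right h16 hz0.le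
      _ = z ^ 2 := by ring
      _ ≤ z ^ k := pow_le_pow_right₀ hz1.le (by omega)
  · rw [hsq]
    -- L^k k! ≤ (z^(1/4))^k η^(2k)
    have h1 : L ^ k * (k.factorial : ℝ) ≤ ((6 + 4 * x) * B) ^ k * η ^ (2 * k) :=
      BP_pow k hL hη hBL hB1 hk2
    have h2 : (6 + 4 * x) * B ≤ z ^ (1 / 4 : ℝ) := by
      have h3 : (6 + 4 * x) * B ≤ u ^ 2 := by
        have h4 : 6 + 4 * x ≤ 10 * u := by linarith
        calc (6 + 4 * x) * B ≤ (10 * u) * B := mul_le_mul_of_nonneg_right h4 hB0.le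
          _ = (10 * B) * u := by ring
          _ ≤ u * u := mul_le_mul_of_nonneg_right hℓ18 (by linarith)
          _ = u ^ 2 := by ring
      rw [← hu2] at h3
      exact h3.trans (Real.rpow_le_rpow hℓ0.le hz (by norm_num))
    have h3 : ((6 + 4 * x) * B) ^ k ≤ z ^ ((k : ℝ) / 4) := by
      have h4 : ((6 + 4 * x) * B) ^ k ≤ (z ^ (1 / 4 : ℝ)) ^ k :=
        pow_le_pow_left₀ (by positivity) h2 k
      have h5 : (z ^ (1 / 4 : ℝ)) ^ k = z ^ ((k : ℝ) / 4) := by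
        rw [← Real.rpow_natCast, ← Real.rpow_mul hz0.le]
        congr 1
        ring
      rw [← h5]; exact h4
    have h4 : 32 * z * E ^ 2 ≤ z ^ (3 * (k : ℝ) / 4) := by
      have h5 : z ^ (3 * (k : ℝ) / 4) = z * z ^ (3 * (k : ℝ) / 4 - 1) := by
        nth_rewrite 2 [← Real.rpow_one z]
        rw [← Real.rpow_add hz0]
        congr 1
        ring
      have h6 : ℓ ^ (2 + 3 * x) ≤ z ^ (3 * (k : ℝ) / 4 - 1) := by
        calc ℓ ^ (2 + 3 * x) ≤ z ^ (2 + 3 * x) := Real.rpow_le_rpow hℓ0.le hz (by positivity)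
          _ ≤ z ^ (3 * (k : ℝ) / 4 - 1) := Real.rpow_le_rpow_of_exponent_le hz1.le (by linarith)
      have h7 : ℓ ^ (2 + 3 * x) = ℓ ^ 2 * E ^ 3 := by
        have h8 : ℓ ^ (3 * x) = E ^ 3 := by
          rw [Real.rpow_def_of_pos hℓ0]
          have h9 : log ℓ * (3 * x) = ((3 : ℕ) : ℝ) * log E := by
            have h10 : log ℓ * x = log E := by
              rw [hx]
              field_simp
            push_cast
            linear_combination 3 * h10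
          rw [h9, Real.exp_nat_mul, Real.exp_log hE0]
        rw [Real.rpow_add hℓ0, h8]
        norm_num
      rw [h5]
      have h8 : 32 * E ^ 2 ≤ ℓ ^ 2 * E ^ 3 := by
        have h1ℓ : (1 : ℝ) ≤ ℓ := by linarith
        have h32 : (32 : ℝ) ≤ ℓ := by linarith
        have h9 : (32 : ℝ) ≤ ℓ ^ 2 := h32.trans (le_self_pow₀ h1ℓ (by norm_num))
        have h10 : E ^ 2 ≤ E ^ 3 := pow_le_pow_right₀ hE (by norm_num)
        exact mul_le_mul h9 h10 (by positivity) (by positivity)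
      calc 32 * z * E ^ 2 = z * (32 * E ^ 2) := by ring
        _ ≤ z * z ^ (3 * (k : ℝ) / 4 - 1) :=
            mul_le_mul_of_nonneg_left (h8.trans (h7 ▸ h6)) hz0.le
    calc 32 * L ^ k * k.factorial * z * E ^ 2 = (L ^ k * k.factorial) * (32 * z * E ^ 2) := by ring
      _ ≤ (((6 + 4 * x) * B) ^ k * η ^ (2 * k)) * z ^ (3 * (k : ℝ) / 4) :=
          mul_le_mul h1 h4 (by positivity) (by positivity)
      _ ≤ (z ^ ((k : ℝ) / 4) * η ^ (2 * k)) * z ^ (3 * (k : ℝ) / 4) := by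
          apply mul_le_mul_of_nonneg_right _ (by positivity)
          exact mul_le_mul_of_nonneg_right h3 (by positivity)
      _ = η ^ (2 * k) * (z ^ ((k : ℝ) / 4) * z ^ (3 * (k : ℝ) / 4)) := by ring
      _ = η ^ (2 * k) * z ^ k := by
          rw [← Real.rpow_add hz0, ← Real.rpow_natCast z k]
          congr 2
          ring
  · have hlw : log (z ^ (1 / 2 : ℝ)) = log z / 2 := by
      rw [Real.log_rpow hz0]; ring
    rw [hlw]
    have hkR : (1 : ℝ) ≤ k := by exact_mod_cast hkpos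
    have h1 : (k * log (y / z) + 2) / (log z / 2) + 4 ≤ (2 * a + 8) * k := by
      have h2 : (k * log (y / z) + 2) / (log z / 2) ≤ 2 * a * k + 4 := by
        rw [div_le_iff₀ (by positivity)]
        have h3 : k * log (y / z) ≤ k * (a * log z) := mul_le_mul_of_nonneg_left hyz (by positivity)
        have h4 : (2 * a * k + 4) * (log z / 2) = k * (a * log z) + 2 * log z := by ring
        rw [h4]
        linarith
      have h5 : (2 * a + 8) * (k : ℝ) = 2 * a * k + 8 * k := by ring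
      rw [h5]
      linarith
    have h2k : (k : ℝ) ≤ 2 ^ k := by
      have := (Nat.lt_two_pow_self (n := k)).le
      exact_mod_cast this
    have h3 : L ^ k * (k.factorial : ℝ) ≤ (k * B) ^ k * η ^ (2 * k) :=
      BP_pow k hL hη hBL hB1 le_rfl
    have hq : (1 : ℝ) ≤ 2 * (2 * a + 8) := by linarith
    have h4 : 2 * (2 * a + 8) ≤ (2 * (2 * a + 8)) ^ k := le_self_pow₀ hq hkpos.ne'
    have h5 : 2 * L ^ k * k.factorial * ((k * log (y / z) + 2) / (log z / 2) + 4) ≤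
        ((2 * (2 * a + 8)) * (2 * k * B)) ^ k * η ^ (2 * k) := by
      calc 2 * L ^ k * k.factorial * ((k * log (y / z) + 2) / (log z / 2) + 4)
          ≤ 2 * L ^ k * k.factorial * ((2 * a + 8) * k) :=
            mul_le_mul_of_nonneg_left h1 (by positivity)
        _ ≤ 2 * L ^ k * k.factorial * ((2 * a + 8) * 2 ^ k) :=
            mul_le_mul_of_nonneg_left (mul_le_mul_of_nonneg_left h2k (by positivity)) (by positivity)
        _ = (2 * (2 * a + 8)) * (2 ^ k * (L ^ k * k.factorial)) := by ring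
        _ ≤ (2 * (2 * a + 8)) ^ k * (2 ^ k * ((k * B) ^ k * η ^ (2 * k))) := by
            apply mul_le_mul h4 _ (by positivity) (by positivity)
            exact mul_le_mul_of_nonneg_left h3 (by positivity)
        _ = ((2 * (2 * a + 8)) * (2 * k * B)) ^ k * η ^ (2 * k) := by
            rw [mul_pow _ (2 * (k : ℝ) * B), mul_assoc 2 (k : ℝ) B, mul_pow 2 ((k : ℝ) * B)]
            ring
    refine h5.trans ?_
    apply mul_le_mul_of_nonneg_right _ (by positivity)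
    have h6 : (2 * (2 * a + 8)) * (2 * k * B) ≤ 24 * (2 * a + 8) * B * (1 + x) := by
      have h7 : (k : ℝ) ≤ 6 * (1 + x) := by linarith
      calc (2 * (2 * a + 8)) * (2 * k * B) = (4 * (2 * a + 8) * B) * k := by ring
        _ ≤ (4 * (2 * a + 8) * B) * (6 * (1 + x)) := mul_le_mul_of_nonneg_left h7 (by positivity)
        _ = 24 * (2 * a + 8) * B * (1 + x) := by ring
    have h7 : 1 ≤ 24 * (2 * a + 8) * B * (1 + x) := by
      have h8 : (1 : ℝ) ≤ 24 * (2 * a + 8) * B :=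
        one_le_mul_of_one_le_of_one_le (by linarith) hB1
      exact one_le_mul_of_one_le_of_one_le h8 (by linarith)
    have h8 : 6 + 4 * log E / log ℓ = 6 + 4 * x := by rw [hx]; ring
    rw [h8]
    calc ((2 * (2 * a + 8)) * (2 * k * B)) ^ k ≤ (24 * (2 * a + 8) * B * (1 + x)) ^ k :=
          pow_le_pow_left₀ (by positivity) h6 k
      _ = (24 * (2 * a + 8) * B * (1 + x)) ^ (k : ℝ) := (Real.rpow_natCast _ _).symm
      _ ≤ (24 * (2 * a + 8) * B * (1 + x)) ^ (6 + 4 * x) :=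
          Real.rpow_le_rpow_of_exponent_le h7 hk2

end TwV
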