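import Pool.Agent.W_aaa0df_h65.RDefs
import Pool.Agent.W_aaa0df_h86.Chi
import Pool.Agent.W_aaa0df_bg.A4
import Pool.Agent.W_aaa0df_bg.C1

/-! Burgess bound in the form needed for the repulsion lemma (helper65). -/

set_option autoImplicit false

namespace TwV

open Finset Real Twist

theorem BU_sq {e : ℕ} (he : Squarefree e) (h1 : e ≠ 1) : ¬ IsSquare e := by
  rintro ⟨r, hr⟩
  have h2 : IsUnit r := he r (by rw [hr])
  have h3 : r = 1 := Nat.isUnit_iff.1 h2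
  exact h1 (by rw [hr, h3])

theorem BU_two {e : ℕ} (he : Squarefree e) : ∃ v m : ℕ, v ≤ 1 ∧ Odd m ∧ Squarefree m ∧ e = 2 ^ v * m := by
  rcases Nat.even_or_odd e with h | h
  · obtain ⟨r, hr⟩ := h
    have hr2 : e = 2 * r := by omega
    have hsr : Squarefree r := he.squarefree_of_dvd ⟨2, by rw [hr2]; ring⟩
    refine ⟨1, r, le_rfl, ?_, hsr, by rw [hr2]; ring⟩
    by_contra hodd
    rw [Nat.not_odd_iff_even] at hodd
    obtain ⟨t, ht⟩ := hodd
    have h4 : 2 * 2 ∣ e := ⟨t, by rw [hr2, ht]; ring⟩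
    have := he 2 h4
    rw [Nat.isUnit_iff] at this
    omega
  · exact ⟨0, e, by norm_num, h, he, by simp⟩

/-- `PS x₀ s (chi e)` with `x₀ = C e^(1/4+ε)`, for squarefree `e ≥ 2`.
Proof. Let `δ, C₁, M` be given by `BG.burgess ε`, `s = δ`. Write `e = 2^v m`, `m` odd squarefree, `v ≤ 1`;
`BG.reciprocity (e : ℤ) v m` gives `w` of period `8`, zero at even `n`, with `J(e|n) = w n J(n|m)` for odd `n`, so
`∑_{n ≤ N} chi e n = SJ w m N`. If `m ≥ M` and `N ≥ m^(1/4+ε)`: at most `C₁ N^(1-δ)`. If `N < m^(1/4+ε) ≤ e^(1/4+ε)`: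
at most `N = N^δ N^(1-δ) ≤ (e^(1/4+ε))^δ N^(1-δ)`. If `m < M`, then `e ≤ 2M` and the sum is at most `4 e ≤ 8 M`
(`(chi_RChar h).sum`; `e` is not a square). With `C = (C₁ + 8M + 1)^(1/δ)`: `(C e^(1/4+ε))^δ ≥ C₁ + 8M + 1` and
`≥ (e^(1/4+ε))^δ`, and `N^(1-δ) ≥ 1`. -/
theorem burgess_PS (ε : ℝ) (hε : 0 < ε) : ∃ s C : ℝ, 0 < s ∧ s ≤ 1 ∧ 1 ≤ C ∧ ∀ e : ℕ, Squarefree e → e ≠ 1 →
    1 ≤ C * (e : ℝ) ^ (1 / 4 + ε) ∧ PS (C * (e : ℝ) ^ (1 / 4 + ε)) s (chi e) := by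
  obtain ⟨δ, C₁, M, hδ, hδ1, hC₁, hB⟩ := BG.burgess ε hε
  set B : ℝ := C₁ + 8 * M + 1 with hBdef
  have hB1 : 1 ≤ B := by
    have : (0 : ℝ) ≤ 8 * M := by positivity
    linarith
  have hB0 : 0 < B := by linarith
  refine ⟨δ, B ^ (1 / δ), hδ, by linarith, Real.one_le_rpow hB1 (by positivity), fun e he he1 => ?_⟩
  have hns := BU_sq he he1
  have he0 : e ≠ 0 := he.ne_zero
  have he1' : (1 : ℝ) ≤ e := by exact_mod_cast Nat.one_le_iff_ne_zero.2 he0
  have hep : (1 : ℝ) ≤ (e : ℝ) ^ (1 / 4 + ε) := Real.one_le_rpow he1' (by positivity)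
  have hep0 : (0 : ℝ) < (e : ℝ) ^ (1 / 4 + ε) := by linarith
  have hBp : 1 ≤ B ^ (1 / δ) := Real.one_le_rpow hB1 (by positivity)
  refine ⟨by nlinarith, fun N hN => ?_⟩
  have hX : (B ^ (1 / δ) * (e : ℝ) ^ (1 / 4 + ε)) ^ δ = B * ((e : ℝ) ^ (1 / 4 + ε)) ^ δ := by
    rw [Real.mul_rpow (by positivity) hep0.le, ← Real.rpow_mul hB0.le, one_div,
      inv_mul_cancel₀ hδ.ne', Real.rpow_one]
  rw [hX]
  have hN1 : (1 : ℝ) ≤ N := by exact_mod_cast hN
  have hN0 : (0 : ℝ) < N := by linarith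
  have hNp : (1 : ℝ) ≤ (N : ℝ) ^ (1 - δ) := Real.one_le_rpow hN1 (by linarith)
  have heδ : (1 : ℝ) ≤ ((e : ℝ) ^ (1 / 4 + ε)) ^ δ := Real.one_le_rpow hep hδ.le
  obtain ⟨v, m, hv, hm, hsm, hem⟩ := BU_two he
  have hme : (m : ℝ) ≤ e := by
    have : m ≤ e := by rw [hem]; exact Nat.le_mul_of_pos_left m (by positivity)
    exact_mod_cast this
  by_cases hmM : M ≤ m
  · by_cases hNm : (m : ℝ) ^ (1 / 4 + ε) ≤ N
    · obtain ⟨w, hw1, hw8, hwe, hwo⟩ := BG.reciprocity (e : ℤ) v m hm (by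
        rw [Int.natAbs_natCast]; exact hem)
      have h1 := hB m hmM hm hsm w hw1 hw8 N hNm
      have h2 : ∑ n ∈ Icc 1 N, chi e n = BG.SJ w m N := by
        unfold BG.SJ
        refine Finset.sum_congr rfl fun n _ => ?_
        unfold Twist.chi
        by_cases hn : Odd n
        · rw [if_pos hn]
          exact hwo n hn
        · rw [if_neg hn, hwe n (Nat.not_odd_iff_even.1 hn), zero_mul]
      rw [h2]
      refine h1.trans ?_
      have h3 : C₁ * (N : ℝ) ^ (1 - δ) ≤ B * (N : ℝ) ^ (1 - δ) := by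
        apply mul_le_mul_of_nonneg_right _ (by positivity)
        have : (0 : ℝ) ≤ 8 * M := by positivity
        linarith
      refine h3.trans ?_
      apply mul_le_mul_of_nonneg_right _ (by positivity)
      nlinarith
    · have h1 : |∑ n ∈ Icc 1 N, chi e n| ≤ N := by
        refine (Finset.abs_sum_le_sum_abs _ _).trans ?_
        refine (Finset.sum_le_sum fun n _ => chi_abs e n).trans ?_
        simp
      refine h1.trans ?_
      have h2 : (N : ℝ) = (N : ℝ) ^ δ * (N : ℝ) ^ (1 - δ) := by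
        rw [← Real.rpow_add hN0]
        rw [show δ + (1 - δ) = 1 by ring, Real.rpow_one]
      have h3 : (N : ℝ) ≤ (e : ℝ) ^ (1 / 4 + ε) :=
        (not_le.1 hNm).le.trans (Real.rpow_le_rpow (by positivity) hme (by positivity))
      have h4 : (N : ℝ) ^ δ ≤ ((e : ℝ) ^ (1 / 4 + ε)) ^ δ := Real.rpow_le_rpow hN0.le h3 hδ.le
      calc (N : ℝ) = (N : ℝ) ^ δ * (N : ℝ) ^ (1 - δ) := h2
        _ ≤ ((e : ℝ) ^ (1 / 4 + ε)) ^ δ * (N : ℝ) ^ (1 - δ) := by gcongr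
        _ ≤ B * ((e : ℝ) ^ (1 / 4 + ε)) ^ δ * (N : ℝ) ^ (1 - δ) := by
            apply mul_le_mul_of_nonneg_right _ (by positivity)
            nlinarith
  · have h1 := (chi_RChar hns).sum N
    have h2 : (e : ℝ) ≤ 2 * M := by
      have h3 : e ≤ 2 * m := by
        rw [hem]
        have : 2 ^ v ≤ 2 := by
          interval_cases v <;> norm_num
        exact Nat.mul_le_mul_right m this
      have h4 : e ≤ 2 * M := by omega
      exact_mod_cast h4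
    have h5 : |∑ n ∈ Icc 1 N, chi e n| ≤ B := by linarith
    refine h5.trans ?_
    have h6 : B ≤ B * ((e : ℝ) ^ (1 / 4 + ε)) ^ δ := by nlinarith
    have h7 : 0 ≤ B * ((e : ℝ) ^ (1 / 4 + ε)) ^ δ := by positivity
    nlinarith

end TwV
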