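import Pool.Agent.W_aaa0df_h65.RW1
import Pool.Agent.W_aaa0df_h86.BallOne

/-! At most one exception in a twist ball of radius `(log|d₀|)^(2(2-κ)-ε)`, all `0 < κ < 2` (helper65). -/

set_option autoImplicit false

namespace TwV

open Finset Real Twist MPaaa0df Filter

/-- eventual inequalities used in `ball_oneW` -/
theorem RW2_aux (κ ε : ℝ) (hκ : 0 < κ) (hκ2 : κ < 2) (hε : 0 < ε) (y₀ : ℝ) :
    ∃ L : ℝ, ∀ ℓ : ℝ, L ≤ ℓ → 8 ≤ ℓ ∧ y₀ ≤ ℓ ^ (2 : ℝ) ∧ 4 * log ℓ ≤ ℓ / 4 ∧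
      8 * log ℓ + 1 ≤ ℓ ^ (κ + ε / 8) ∧ ℓ ^ κ ≤ ℓ ^ (κ + ε / 8) ∧ 2 * (2 * ℓ) ^ κ ≤ ℓ ^ (κ + ε / 8) := by
  have e1 : ∀ᶠ l : ℝ in atTop, 8 * l ^ κ ≤ l ^ (κ + ε / 8) := TwR.ev_rpow (by linarith) 8
  have e2 := (isLittleO_log_rpow_atTop (show 0 < κ + ε / 8 by linarith)).bound
    (show (0 : ℝ) < 1 / 16 by norm_num)
  have e3 := Real.isLittleO_log_id_atTop.bound (show (0 : ℝ) < 1 / 16 by norm_num)
  have e4 := (tendsto_rpow_atTop (show 0 < κ + ε / 8 by linarith)).eventually_ge_atTop (2 : ℝ)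
  obtain ⟨L, hL⟩ := (((e1.and e2).and (e3.and e4)).and
    ((eventually_ge_atTop (8 : ℝ)).and (eventually_ge_atTop y₀))).exists_forall_of_atTop
  refine ⟨L, fun ℓ hℓ => ?_⟩
  obtain ⟨⟨⟨h1, h2⟩, h3, h4⟩, h5, h6⟩ := hL ℓ hℓ
  have hp : 0 < ℓ := by linarith
  have hone : 1 ≤ ℓ := by linarith
  have hlog : 0 ≤ log ℓ := Real.log_nonneg hone
  rw [Real.norm_eq_abs, abs_of_nonneg hlog, Real.norm_eq_abs, abs_of_nonneg (by positivity)] at h2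
  rw [Real.norm_eq_abs, abs_of_nonneg hlog] at h3
  simp only [id, Real.norm_eq_abs, abs_of_pos hp] at h3
  refine ⟨h5, ?_, by linarith, by linarith,
    Real.rpow_le_rpow_of_exponent_le hone (by linarith), ?_⟩
  · calc y₀ ≤ ℓ := h6
      _ = ℓ ^ (1 : ℝ) := (Real.rpow_one ℓ).symm
      _ ≤ ℓ ^ (2 : ℝ) := Real.rpow_le_rpow_of_exponent_le hone (by norm_num)
  · rw [Real.mul_rpow (by norm_num) hp.le]
    have h7 : (2 : ℝ) ^ κ ≤ 2 ^ (2 : ℝ) :=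
      Real.rpow_le_rpow_of_exponent_le (by norm_num) hκ2.le
    have h8 : (2 : ℝ) ^ (2 : ℝ) = 4 := by norm_num
    have h9 : 0 ≤ ℓ ^ κ := Real.rpow_nonneg hp.le _
    have h10 : (2 : ℝ) ^ κ * ℓ ^ κ ≤ 4 * ℓ ^ κ :=
      mul_le_mul_of_nonneg_right (by linarith) h9
    linarith

/-- number of prime factors: `ω(n) ≤ 2 log n` -/
theorem omega_le {n : ℕ} (hn : n ≠ 0) : (n.primeFactors.card : ℝ) ≤ 2 * log n := by
  have h1 : 2 ^ n.primeFactors.card ≤ ∏ p ∈ n.primeFactors, p := by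
    rw [← Finset.prod_const]
    exact Finset.prod_le_prod' fun p hp => (Nat.prime_of_mem_primeFactors hp).two_le
  have h2 : ∏ p ∈ n.primeFactors, p ≤ n := Nat.le_of_dvd (Nat.pos_of_ne_zero hn) (Nat.prod_primeFactors_dvd n)
  have h3 : ((2 ^ n.primeFactors.card : ℕ) : ℝ) ≤ n := by exact_mod_cast h1.trans h2
  have h4 := Real.log_le_log (by positivity) h3
  rw [Nat.cast_pow, Real.log_pow] at h4
  have h5 := Real.log_two_gt_d9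
  have h6 : (0 : ℝ) ≤ (n.primeFactors.card : ℝ) := Nat.cast_nonneg _
  push_cast at h4
  nlinarith

/-- prime factors of a twist -/
theorem omega_near {d d₀ : ℤ} (hF : Fund d) (hF₀ : Fund d₀) {e k : ℕ} (he : 1 ≤ e)
    (h : d * d₀ = (e : ℤ) * (k : ℤ) ^ 2) :
    d.natAbs.primeFactors.card ≤ d₀.natAbs.primeFactors.card + e.primeFactors.card + 1 := by
  classical
  have hsub : d.natAbs.primeFactors ⊆ (d₀.natAbs.primeFactors ∪ e.primeFactors) ∪ {2} := by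
    intro p hp
    obtain ⟨hp1, hp2, _⟩ := Nat.mem_primeFactors.1 hp
    rw [Finset.mem_union, Finset.mem_union, Finset.mem_singleton]
    by_contra hcon
    push Not at hcon
    obtain ⟨⟨h1, h2⟩, h3⟩ := hcon
    have h4 : ¬ (p : ℤ) ∣ d₀ := fun h5 =>
      h1 (Nat.mem_primeFactors.2 ⟨hp1, Int.natCast_dvd.1 h5, Int.natAbs_ne_zero.2 (fund_ne hF₀)⟩)
    have h5 : ¬ p ∣ e := fun h6 => h2 (Nat.mem_primeFactors.2 ⟨hp1, h6, by omega⟩)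
    have h6 : (p : ℤ) ∣ d := Int.natCast_dvd.2 hp2
    have hpi : Prime (p : ℤ) := Nat.prime_iff_prime_int.1 hp1
    have h7 : (p : ℤ) ∣ (k : ℤ) := by
      have h8 : (p : ℤ) ∣ (e : ℤ) * (k : ℤ) ^ 2 := h ▸ (h6.mul_right d₀)
      rcases hpi.dvd_or_dvd h8 with h9 | h9
      · exact absurd (Int.natCast_dvd_natCast.1 h9) h5
      · exact hpi.dvd_of_dvd_pow h9
    have h8 : (p : ℤ) ^ 2 ∣ d * d₀ := by
      rw [h]
      exact (pow_dvd_pow_of_dvd h7 2).mul_left _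
    have h9 : IsCoprime ((p : ℤ) ^ 2) d₀ := (hpi.coprime_iff_not_dvd.2 h4).pow_left
    exact fund_sq hF hp1 h3 (h9.dvd_of_dvd_mul_right h8)
  calc d.natAbs.primeFactors.card ≤ ((d₀.natAbs.primeFactors ∪ e.primeFactors) ∪ {2}).card :=
        Finset.card_le_card hsub
    _ ≤ (d₀.natAbs.primeFactors ∪ e.primeFactors).card + ({2} : Finset ℕ).card := Finset.card_union_le _ _
    _ ≤ _ := by
        have := Finset.card_union_le d₀.natAbs.primeFactors e.primeFactors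
        rw [Finset.card_singleton]
        omega

/-- **At most one exception**, for all `0 < κ < 2`; for `κ < 1` under the hypothesis `ω(d₀) ≤ (log|d₀|)^κ`. -/
theorem ball_oneW (κ ε : ℝ) (hκ : 0 < κ) (hκ2 : κ < 2) (hε : 0 < ε) :
    ∃ D : ℝ, ∀ d₀ : ℤ, d₀ < 0 → Fund d₀ → D ≤ |(d₀ : ℝ)| →
      (1 ≤ κ ∨ (d₀.natAbs.primeFactors.card : ℝ) ≤ log |(d₀ : ℝ)| ^ κ) → ∀ d₁ d₂ : ℤ,
      Near d₀ (log |(d₀ : ℝ)| ^ (2 * (2 - κ) - ε)) d₁ → Near d₀ (log |(d₀ : ℝ)| ^ (2 * (2 - κ) - ε)) d₂ →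
      (N d₁ : ℝ) < log |(d₁ : ℝ)| ^ κ → (N d₂ : ℝ) < log |(d₂ : ℝ)| ^ κ → d₁ = d₂ := by
  rcases lt_or_ge (2 * (2 - κ) - ε) 0 with hneg | hpos
  · refine ⟨Real.exp 2, ?_⟩
    intro d₀ h₀ hF₀ hd₀ _ d₁ d₂ hn1 _ _ _
    exfalso
    obtain ⟨_, _, e, k, he, heE, _⟩ := hn1
    have h2 : 2 ≤ log |(d₀ : ℝ)| := by
      rw [Real.le_log_iff_exp_le (lt_of_lt_of_le (Real.exp_pos _) hd₀)]
      exact hd₀
    have h3 : log |(d₀ : ℝ)| ^ (2 * (2 - κ) - ε) < 1 :=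
      Real.rpow_lt_one_of_one_lt_of_neg (by linarith) hneg
    have h4 : (1 : ℝ) ≤ e := by exact_mod_cast he
    linarith
  obtain ⟨θ, hθ⟩ : ∃ θ : ℝ, θ = κ / 2 + ε / 16 := ⟨_, rfl⟩
  have hθ0 : 0 < θ := by rw [hθ]; linarith
  obtain ⟨y₀, hrep⟩ := repelW θ (ε / 2) 6 hθ0 (by linarith) (by norm_num)
  obtain ⟨DN, hDN⟩ := N_ge
  obtain ⟨L, hL⟩ := RW2_aux κ ε hκ hκ2 hε y₀
  refine ⟨max (Real.exp (max L 1)) DN, ?_⟩
  intro d₀ h₀ hF₀ hd₀ hom d₁ d₂ hn1 hn2 hN1 hN2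
  by_contra hne
  set ℓ : ℝ := log |(d₀ : ℝ)| with hℓ
  have hLℓ : L ≤ ℓ := by
    have h1 : Real.exp (max L 1) ≤ |(d₀ : ℝ)| := le_trans (le_max_left _ _) hd₀
    have h2 : max L 1 ≤ ℓ := by
      rw [hℓ, Real.le_log_iff_exp_le (lt_of_lt_of_le (Real.exp_pos _) h1)]
      exact h1
    exact le_trans (le_max_left _ _) h2
  obtain ⟨hℓ8, hy₀, hlog, hlog2, hmon, hfin⟩ := hL ℓ hLℓ
  have hℓ1 : 1 ≤ ℓ := by linarith
  have hℓ0 : 0 < ℓ := by linarith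
  have hlog0 : 0 ≤ log ℓ := Real.log_nonneg hℓ1
  have hc1 : 2 * (2 - κ) - ε ≤ 4 := by linarith
  have hE1 : 1 ≤ ℓ ^ (2 * (2 - κ) - ε) := Real.one_le_rpow hℓ1 hpos
  have hlogE : log (ℓ ^ (2 * (2 - κ) - ε)) ≤ 4 * log ℓ := by
    rw [Real.log_rpow hℓ0]
    exact mul_le_mul_of_nonneg_right hc1 hlog0
  have hl4 : log 4 ≤ ℓ / 4 := by
    have : log 4 = 2 * log 2 := by
      rw [show (4 : ℝ) = 2 ^ 2 by norm_num, Real.log_pow]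
      norm_num
    have h2 := Real.log_two_lt_d9
    linarith
  -- the number of prime factors of `d₀`
  have hom2 : (d₀.natAbs.primeFactors.card : ℝ) ≤ 2 * ℓ ^ κ := by
    rcases hom with h | h
    · have h1 := omega_le (Int.natAbs_ne_zero.2 (fund_ne hF₀))
      have h2 : ((d₀.natAbs : ℕ) : ℝ) = |(d₀ : ℝ)| := by
        rw [Nat.cast_natAbs, Int.cast_abs]
      rw [h2, ← hℓ] at h1
      have h3 : ℓ ≤ ℓ ^ κ := by
        calc ℓ = ℓ ^ (1 : ℝ) := (Real.rpow_one ℓ).symm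
          _ ≤ ℓ ^ κ := Real.rpow_le_rpow_of_exponent_le hℓ1 h
      linarith
    · have h1 : 0 ≤ ℓ ^ κ := Real.rpow_nonneg hℓ0.le _
      linarith
  have key : ∀ d : ℤ, Near d₀ (ℓ ^ (2 * (2 - κ) - ε)) d → 1 ≤ log |(d : ℝ)| ∧ log |(d : ℝ)| ≤ 2 * ℓ ∧
      splitCount d (ℓ ^ (2 : ℝ)) ≤ N d ∧
      (d.natAbs.primeFactors.card : ℝ) ≤ 3 * ℓ ^ (κ + ε / 8) := by
    intro d hd
    obtain ⟨h1, h2⟩ := near_size hF₀ hd
    refine ⟨by rw [← hℓ] at h2; linarith, by rw [← hℓ] at h1; linarith, ?_, ?_⟩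
    · exact hDN d₀ hF₀ (le_trans (le_max_right _ _) hd₀) _ hE1 (by rw [← hℓ]; linarith) d hd
    · obtain ⟨_, hFd, e, k, he, heE, hk⟩ := hd
      have h3 := omega_near hFd hF₀ he hk
      have h4 := omega_le (show e ≠ 0 by omega)
      have he0 : (0 : ℝ) < e := by exact_mod_cast he
      have h5 : log e ≤ 4 * log ℓ := (Real.log_le_log he0 heE).trans hlogE
      have h6 : (d.natAbs.primeFactors.card : ℝ) ≤
          d₀.natAbs.primeFactors.card + e.primeFactors.card + 1 := by exact_mod_cast h3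
      linarith
  obtain ⟨hlo1, hup1, hsp1, hw1⟩ := key d₁ hn1
  obtain ⟨hlo2, hup2, hsp2, hw2⟩ := key d₂ hn2
  obtain ⟨hd1, hF1, e₁, k₁, he₁, heE₁, hk₁⟩ := hn1
  obtain ⟨hd2, hF2, e₂, k₂, he₂, heE₂, hk₂⟩ := hn2
  have hsq : ¬ IsSquare (d₁ * d₂) := fun h => hne (fund_inj hd1 hd2 hF1 hF2 h)
  have h12 : d₁ * d₂ ≠ 0 := mul_ne_zero (fund_ne hF1) (fund_ne hF2)
  have hj : d₀.natAbs ≠ 0 := Int.natAbs_ne_zero.2 (fund_ne hF₀)
  obtain ⟨s, b, hs, hse, hb, hx⟩ := kernel (x := d₁ * d₂) h12 (j := d₀.natAbs) (m := e₁ * e₂)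
    (k := k₁ * k₂) hj (by
      have h3 : ((d₀.natAbs : ℤ)) ^ 2 = d₀ ^ 2 := Int.natAbs_sq d₀
      rw [h3]
      push_cast
      calc d₁ * d₂ * d₀ ^ 2 = (d₁ * d₀) * (d₂ * d₀) := by ring
        _ = _ := by rw [hk₁, hk₂]; ring)
  have hs1 : s ≠ 1 := by
    intro hr
    apply hsq
    refine ⟨(b : ℤ), ?_⟩
    rw [hx, hr]
    push_cast
    ring
  have hyθ : (ℓ ^ (2 : ℝ)) ^ θ = ℓ ^ (κ + ε / 8) := by
    rw [← Real.rpow_mul hℓ0.le, hθ]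
    congr 1
    ring
  have hse' : (s : ℝ) ≤ (ℓ ^ (2 : ℝ)) ^ (4 * (1 - θ) - ε / 2) := by
    have h1 : (s : ℝ) ≤ (e₁ : ℝ) * e₂ := by exact_mod_cast hse
    have h2 : (e₁ : ℝ) * e₂ ≤ ℓ ^ (2 * (2 - κ) - ε) * ℓ ^ (2 * (2 - κ) - ε) :=
      mul_le_mul heE₁ heE₂ (by positivity) (by positivity)
    have h3 : ℓ ^ (2 * (2 - κ) - ε) * ℓ ^ (2 * (2 - κ) - ε) = ℓ ^ (2 * (2 * (2 - κ) - ε)) := by
      rw [← Real.rpow_add hℓ0]
      congr 1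
      ring
    have h4 : ℓ ^ (2 * (2 * (2 - κ) - ε)) ≤ ℓ ^ (2 * (4 * (1 - θ) - ε / 2)) :=
      Real.rpow_le_rpow_of_exponent_le hℓ1 (by rw [hθ]; linarith)
    have h5 : (ℓ ^ (2 : ℝ)) ^ (4 * (1 - θ) - ε / 2) = ℓ ^ (2 * (4 * (1 - θ) - ε / 2)) := by
      rw [← Real.rpow_mul hℓ0.le]
    rw [h5]
    linarith
  have hcard : Even ({d₁, d₂} : Finset ℤ).card := by
    rw [Finset.card_pair hne]
    exact even_two
  have hfs : ∀ d ∈ ({d₁, d₂} : Finset ℤ), d ≠ 0 ∧ (d % 4 = 0 ∨ d % 4 = 1) := by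
    intro d hd
    rw [Finset.mem_insert, Finset.mem_singleton] at hd
    rcases hd with rfl | rfl
    · exact ⟨fund_ne hF1, fund_mod hF1⟩
    · exact ⟨fund_ne hF2, fund_mod hF2⟩
  have hsum : ∑ d ∈ ({d₁, d₂} : Finset ℤ), (d.natAbs.primeFactors.card : ℝ) ≤ 6 * (ℓ ^ (2 : ℝ)) ^ θ := by
    rw [Finset.sum_pair hne, hyθ]
    linarith
  have hp := hrep (ℓ ^ (2 : ℝ)) hy₀ {d₁, d₂} s b hcard hfs hs hs1 hse'
    (by rw [Finset.prod_pair hne]; exact hx) hsum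
  rw [Finset.sum_pair hne, hyθ] at hp
  have hNb : ∀ d : ℤ, 1 ≤ log |(d : ℝ)| → log |(d : ℝ)| ≤ 2 * ℓ →
      log |(d : ℝ)| ^ κ ≤ (2 * ℓ) ^ κ := by
    intro d h1 h2
    exact Real.rpow_le_rpow (by linarith) h2 (by linarith)
  have h1 := hNb d₁ hlo1 hup1
  have h2 := hNb d₂ hlo2 hup2
  have h3 : (splitCount d₁ (ℓ ^ (2 : ℝ)) : ℝ) ≤ N d₁ := by exact_mod_cast hsp1
  have h4 : (splitCount d₂ (ℓ ^ (2 : ℝ)) : ℝ) ≤ N d₂ := by exact_mod_cast hsp2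
  linarith

end TwV
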