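import Pool.Agent.W_aaa0df_h65.B7
import Pool.Agent.W_aaa0df_h65.BP
import Pool.Agent.W_aaa0df_h65.RW2
import Pool.Agent.W_aaa0df_h86.Main

/-! The number of exceptional twists in all ranges (helper65). -/

set_option autoImplicit false

namespace TwV

open Finset Real Twist MPaaa0df

/-- **The number of exceptions in a ball of arbitrary radius.** (Compare `const_ball` and `const_ball_N` in B7.lean.)
Proof. `ℓ = log |d₀|`, `ρ = (max κ 1 + 2)/4 ∈ (max κ 1/2, 1)`, `y = ℓ²`, `z = y^ρ = ℓ^(2ρ) ≥ ℓ`, `η = (1-ρ)/8`,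
`L = 2/ρ`, `a = 1/ρ - 1` (`log(y/z) = (1-ρ) log y = (1/ρ - 1) log z`). As in `const_ball_N`: if `d` is in the ball and
`N d < (log |d|)^κ`, then `splitCount d y ≤ N d` (`N_ge`; `log E ≤ ℓ^(1/8) ≤ ℓ/4`), `log |d| ≤ 2ℓ` (`near_size`), so
`splitLog d z y ≤ splitCount d y/z ≤ (2ℓ)^κ/ℓ^(2ρ) ≤ (1-ρ)/16`, while `primeLog z y/2 ≥ (1-ρ)/4` (`primeLog_ge`), hence
`η < |splitLog d z y - primeLog z y/2|`. `image_log` gives `s'` (`herr` as in `const_ball`), and `few_log` with the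
parameters of `params_big` gives the bound. -/
theorem ball_gen (κ : ℝ) (hκ : κ < 2) :
    ∃ C D : ℝ, 1 ≤ C ∧ ∀ d₀ : ℤ, d₀ < 0 → Fund d₀ → D ≤ |(d₀ : ℝ)| → ∀ E : ℝ, 1 ≤ E →
      log E ≤ log |(d₀ : ℝ)| ^ (1 / 8 : ℝ) → ∀ s : Finset ℤ,
      (∀ d ∈ s, Near d₀ E d ∧ (N d : ℝ) < log |(d : ℝ)| ^ κ) →
      (s.card : ℝ) ≤ (C * (1 + log E / log (log |(d₀ : ℝ)|))) ^ (6 + 4 * log E / log (log |(d₀ : ℝ)|)) := by
  set M : ℝ := max κ 1 with hM
  have hM1 : 1 ≤ M := le_max_right _ _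
  have hMκ : κ ≤ M := le_max_left _ _
  have hM2 : M < 2 := max_lt hκ (by norm_num)
  set ρ : ℝ := (M + 2) / 4 with hρd
  have hρ0 : 0 < ρ := by rw [hρd]; linarith
  have hρ1 : ρ < 1 := by rw [hρd]; linarith
  have hβ : 1 < 2 * ρ := by rw [hρd]; linarith
  have h1ρ : 0 < 1 - ρ := by linarith
  set η : ℝ := (1 - ρ) / 8 with hηd
  have hη : 0 < η := by rw [hηd]; positivity
  have ha : 0 ≤ 1 / ρ - 1 := by
    rw [sub_nonneg, le_div_iff₀ hρ0]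
    linarith
  obtain ⟨C, ℓ₀, hC, hpar⟩ := params_big (2 / ρ) η (1 / ρ - 1) (by positivity) hη ha
  obtain ⟨D₁, hN⟩ := N_ge
  obtain ⟨Y₁, hY₁⟩ := primeLog_le ρ hρ0
  obtain ⟨Y₂, hY₂⟩ := primeLog_ge ρ hρ0 hρ1
  refine ⟨C, max D₁ (Real.exp (max (max (max ℓ₀ 16) (max Y₁ Y₂))
    (max ((64 / (1 - ρ)) ^ (2 / (2 - M))) ((20 / η) ^ (1 / (2 * ρ - 1)))))), hC, ?_⟩
  intro d₀ h₀ hF₀ hD E hE hlE s hs
  have hD1 : D₁ ≤ |(d₀ : ℝ)| := (le_max_left _ _).trans hD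
  have hD2 := (le_max_right _ _).trans hD
  have hd₀ : d₀ ≠ 0 := h₀.ne
  have habs : (0 : ℝ) < |(d₀ : ℝ)| := by
    rw [abs_pos]
    exact_mod_cast hd₀
  have hlog := (Real.le_log_iff_exp_le habs).2 hD2
  have hN' := hN d₀ hF₀ hD1 E hE
  set l : ℝ := log |(d₀ : ℝ)| with hldef
  have hA := (le_max_left _ _).trans hlog
  have hB := (le_max_right _ _).trans hlog
  have hl0' : ℓ₀ ≤ l := ((le_max_left _ _).trans (le_max_left _ _)).trans hA
  have hl16 : 16 ≤ l := ((le_max_right _ _).trans (le_max_left _ _)).trans hA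
  have hlY₁ : Y₁ ≤ l := ((le_max_left _ _).trans (le_max_right _ _)).trans hA
  have hlY₂ : Y₂ ≤ l := ((le_max_right _ _).trans (le_max_right _ _)).trans hA
  have hlr : (64 / (1 - ρ)) ^ (2 / (2 - M)) ≤ l := (le_max_left _ _).trans hB
  have hlη : (20 / η) ^ (1 / (2 * ρ - 1)) ≤ l := (le_max_right _ _).trans hB
  have hl0 : 0 < l := by linarith
  have hlE4 : log E ≤ l / 4 := by
    refine hlE.trans ?_
    have h4 : l ^ (1 / 8 : ℝ) ≤ l ^ (1 / 2 : ℝ) :=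
      Real.rpow_le_rpow_of_exponent_le (by linarith) (by norm_num)
    have h5 : 4 ≤ l ^ (1 / 2 : ℝ) := by
      rw [← Real.sqrt_eq_rpow]
      apply Real.le_sqrt_of_sq_le
      linarith
    have h6 : l ^ (1 / 2 : ℝ) * l ^ (1 / 2 : ℝ) = l := by
      rw [← Real.rpow_add hl0]
      norm_num
    nlinarith
  have hsz : ∀ d : ℤ, Near d₀ E d → log |(d : ℝ)| ≤ 2 * l ∧ 1 ≤ log |(d : ℝ)| := by
    intro d hd
    obtain ⟨h2, h3⟩ := near_size hF₀ hd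
    have hlog4 : log 4 ≤ 3 / 2 := by
      have h1 : (4 : ℝ) = 2 ^ 2 := by norm_num
      rw [h1, Real.log_pow]
      have := Real.log_two_lt_d9
      push_cast
      linarith
    rw [← hldef] at h2 h3
    exact ⟨by linarith, by linarith⟩
  have hN'' := hN' hlE4
  have hly : l ≤ l ^ (2 : ℝ) := by
    calc l = l ^ (1 : ℝ) := (Real.rpow_one l).symm
      _ ≤ l ^ (2 : ℝ) := Real.rpow_le_rpow_of_exponent_le (by linarith) (by norm_num)
  set y : ℝ := l ^ (2 : ℝ) with hyd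
  have hy0 : 0 < y := by linarith
  have hyρ : y ^ ρ = l ^ (2 * ρ) := by rw [hyd, ← Real.rpow_mul hl0.le]
  have hpl1 := hY₁ y (by linarith)
  have hpl2 := hY₂ y (by linarith)
  have hzy : y ^ ρ ≤ y := by
    calc y ^ ρ ≤ y ^ (1 : ℝ) := Real.rpow_le_rpow_of_exponent_le (by linarith) hρ1.le
      _ = y := Real.rpow_one y
  have hlz : l ≤ y ^ ρ := by
    rw [hyρ]
    calc l = l ^ (1 : ℝ) := (Real.rpow_one l).symm
      _ ≤ l ^ (2 * ρ) := Real.rpow_le_rpow_of_exponent_le (by linarith) hβ.le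
  have hz0 : 0 < y ^ ρ := by linarith
  have hloga : log (y / y ^ ρ) ≤ (1 / ρ - 1) * log (y ^ ρ) := by
    rw [Real.log_div hy0.ne' hz0.ne', Real.log_rpow hy0]
    refine le_of_eq ?_
    have : ρ ≠ 0 := hρ0.ne'
    field_simp
  obtain ⟨k, hk, hk2, p1, p2, p4, p5, p6⟩ := hpar l (y ^ ρ) y E hl0' hlz hzy hloga hE hlE
  -- the error term
  have hbe : 20 / η ≤ l ^ (2 * ρ - 1) := by
    have h0 : 0 < 20 / η := by positivity
    have h1 : 0 < 2 * ρ - 1 := by linarith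
    have h2 := Real.rpow_le_rpow (Real.rpow_nonneg h0.le _) hlη h1.le
    rwa [← Real.rpow_mul h0.le, one_div_mul_cancel h1.ne', Real.rpow_one] at h2
  have hlβ2 : l ^ (2 * ρ) = l ^ (2 * ρ - 1) * l := by
    rw [← Real.rpow_add_one hl0.ne']
    congr 1
    ring
  have herr : ∀ d ∈ s, (2 * log |(d : ℝ)| + 4 * log |(d₀ : ℝ)| + 2) / y ^ ρ ≤ η / 2 := by
    intro d hd
    obtain ⟨h1, _⟩ := hsz d (hs d hd).1
    rw [← hldef, div_le_iff₀ hz0]
    have h2 : 20 / η * l ≤ y ^ ρ := by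
      calc 20 / η * l ≤ l ^ (2 * ρ - 1) * l := mul_le_mul_of_nonneg_right hbe hl0.le
        _ = y ^ ρ := by rw [hyρ, hlβ2]
    have h3 : η / 2 * (20 / η * l) = 10 * l := by
      field_simp
      ring
    have h4 := mul_le_mul_of_nonneg_left h2 (show 0 ≤ η / 2 by positivity)
    rw [h3] at h4
    linarith
  -- members of the set are bad
  have hbig : 64 / (1 - ρ) ≤ l ^ ((2 - M) / 2) := by
    have h0 : 0 < 64 / (1 - ρ) := by positivity
    have h1 : 0 < (2 - M) / 2 := by linarith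
    have h2 := Real.rpow_le_rpow (Real.rpow_nonneg h0.le _) hlr h1.le
    have h3 : 2 / (2 - M) * ((2 - M) / 2) = 1 := by
      have : 2 - M ≠ 0 := by linarith
      field_simp
    rwa [← Real.rpow_mul h0.le, h3, Real.rpow_one] at h2
  have hz : l ^ (2 * ρ) = l ^ M * l ^ ((2 - M) / 2) := by
    rw [← Real.rpow_add hl0]
    congr 1
    rw [hρd]
    ring
  have hs2 : ∀ d ∈ s, Near d₀ E d ∧ η < |splitLog d (y ^ ρ) y - primeLog (y ^ ρ) y / 2| := by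
    intro d hd
    obtain ⟨hnear, hNd⟩ := hs d hd
    refine ⟨hnear, ?_⟩
    obtain ⟨g1, g2⟩ := hsz d hnear
    have hsl := B7_splitLog_le d hz0 y
    have hsc : (splitCount d y : ℝ) ≤ N d := by
      exact_mod_cast hN'' d hnear
    have hpow : log |(d : ℝ)| ^ κ ≤ (2 * l) ^ M :=
      (Real.rpow_le_rpow_of_exponent_le g2 hMκ).trans
        (Real.rpow_le_rpow (by linarith) g1 (by linarith))
    have h2M : (2 : ℝ) ^ M ≤ 4 := by
      calc (2 : ℝ) ^ M ≤ 2 ^ (2 : ℝ) := Real.rpow_le_rpow_of_exponent_le (by norm_num) hM2.le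
        _ = 4 := by norm_num
    have hsplit : splitLog d (y ^ ρ) y ≤ (1 - ρ) / 16 := by
      refine hsl.trans ?_
      rw [div_le_iff₀ hz0, hyρ, hz]
      have hlM : 0 < l ^ M := Real.rpow_pos_of_pos hl0 _
      calc (splitCount d y : ℝ) ≤ (2 * l) ^ M := by linarith
        _ = 2 ^ M * l ^ M := Real.mul_rpow (by norm_num) hl0.le
        _ ≤ 4 * l ^ M := mul_le_mul_of_nonneg_right h2M hlM.le
        _ = (1 - ρ) / 16 * (l ^ M * (64 / (1 - ρ))) := by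
          have : 1 - ρ ≠ 0 := h1ρ.ne'
          field_simp
          norm_num
        _ ≤ (1 - ρ) / 16 * (l ^ M * l ^ ((2 - M) / 2)) := by
          have := mul_le_mul_of_nonneg_left hbig hlM.le
          exact mul_le_mul_of_nonneg_left this (by positivity)
    rw [lt_abs]
    right
    rw [hηd]
    linarith
  obtain ⟨s', hcard, hsq, hbad⟩ := image_log h₀ hF₀ hz0 s hs2 herr
  have hL : ∑ p ∈ (PR d₀ y).filter (fun p : ℕ => y ^ ρ ≤ (p : ℝ)), 1 / (p : ℝ) ≤ 2 / ρ := by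
    refine le_trans ?_ hpl1
    unfold primeLog
    refine Finset.sum_le_sum_of_subset_of_nonneg (fun p hp => ?_) fun p _ _ => by positivity
    rw [Finset.mem_filter] at hp ⊢
    obtain ⟨h1, h2, _, _⟩ := mem_PR.1 hp.1
    exact ⟨Finset.mem_range.2 (Nat.lt_ceil.2 h2), h1, hp.2⟩
  have hfew := few_log (w := (y ^ ρ) ^ (1 / 2 : ℝ)) (z := y ^ ρ) (y := y) p1 p2 hzy (E := E)
    hE (s := s') (fun e he => ⟨(hsq e he).1, (hsq e he).2⟩)
    (P := (PR d₀ y).filter (fun p : ℕ => y ^ ρ ≤ (p : ℝ)))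
    (fun p hp => by
      rw [Finset.mem_filter] at hp
      obtain ⟨h1, h2, _, _⟩ := mem_PR.1 hp.1
      exact ⟨h1, hp.2, h2.le⟩)
    (ψ := fun p => ((jacobiSym d₀ p : ℤ) : ℝ)) (fun p _ => balla_jacobi_abs d₀ p) hk hk2 hη
    (show (0 : ℝ) ≤ 2 / ρ by positivity) hL hbad p4 p5
  have h1 := hfew.trans p6
  rw [hcard] at h1
  exact le_of_mul_le_mul_right h1 (by positivity)

/-- Final form. -/
theorem exceptional_twists (κ ε : ℝ) (hκ : 0 < κ) (hκ2 : κ < 2) (hε : 0 < ε) :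
    ∃ C D : ℝ, ∀ d₀ : ℤ, d₀ < 0 → Fund d₀ → D ≤ |(d₀ : ℝ)| → ∀ E : ℝ, 1 ≤ E →
      log E ≤ log |(d₀ : ℝ)| ^ (1 / 8 : ℝ) →
      {d : ℤ | Near d₀ E d ∧ (N d : ℝ) < log |(d : ℝ)| ^ κ}.Finite ∧
      (Set.ncard {d : ℤ | Near d₀ E d ∧ (N d : ℝ) < log |(d : ℝ)| ^ κ} : ℝ) ≤
        (C * (1 + log E / log (log |(d₀ : ℝ)|))) ^ (6 + 4 * log E / log (log |(d₀ : ℝ)|)) ∧
      (E ≤ log |(d₀ : ℝ)| ^ (2 * (2 - κ) - ε) →
        (1 ≤ κ ∨ (d₀.natAbs.primeFactors.card : ℝ) ≤ log |(d₀ : ℝ)| ^ κ) →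
        Set.ncard {d : ℤ | Near d₀ E d ∧ (N d : ℝ) < log |(d : ℝ)| ^ κ} ≤ 1) := by
  obtain ⟨C, D₁, _, h1⟩ := ball_gen κ hκ2
  obtain ⟨D₂, h2⟩ := ball_oneW κ ε hκ hκ2 hε
  refine ⟨C, max D₁ D₂, fun d₀ h₀ hF hD E hE hlE => ?_⟩
  have h3 := finite_ncard_le (h1 d₀ h₀ hF ((le_max_left _ _).trans hD) E hE hlE)
  refine ⟨h3.1, h3.2, fun hE2 hom => ?_⟩
  refine (Set.ncard_le_one_iff (hs := h3.1)).2 ?_
  intro a b ha hb
  have hmono : ∀ d, Near d₀ E d → Near d₀ (log |(d₀ : ℝ)| ^ (2 * (2 - κ) - ε)) d := by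
    rintro d ⟨hd, hFd, e, k, he, heE, hk⟩
    exact ⟨hd, hFd, e, k, he, heE.trans hE2, hk⟩
  exact h2 d₀ h₀ hF ((le_max_right _ _).trans hD) hom a b (hmono a ha.1) (hmono b hb.1) ha.2 hb.2

end TwV
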