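import Mathlib

/-! Polya-Vinogradov with a loss of `q^ε`, for arbitrary (imprimitive) characters: Gauss sums (helper65). -/

set_option autoImplicit false

namespace TwV

open Finset

/-- the number of solutions of `x a = b` in `ZMod M` is at most `gcd(a, M)`.
Proof. If there is a solution `x₀`, the solutions are `x₀ + z` with `z a = 0`; for `z = (j : ZMod M)`, `0 ≤ j < M`,
`z a = 0` iff `M ∣ j a` iff `(M / gcd(a, M)) ∣ j`, and there are `gcd(a, M)` such `j < M`. -/
theorem card_mul_eq {M : ℕ} [NeZero M] (a : ℕ) (b : ZMod M) :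
    (univ.filter (fun x : ZMod M => x * (a : ZMod M) = b)).card ≤ Nat.gcd a M := by
  classical
  have hM : 0 < M := Nat.pos_of_ne_zero (NeZero.ne M)
  have hg : 0 < Nat.gcd a M := Nat.gcd_pos_of_pos_right a hM
  have hM' : Nat.gcd a M * (M / Nat.gcd a M) = M := Nat.mul_div_cancel' (Nat.gcd_dvd_right a M)
  have hM'0 : 0 < M / Nat.gcd a M := by
    rcases Nat.eq_zero_or_pos (M / Nat.gcd a M) with h | h
    · rw [h, Nat.mul_zero] at hM'; omega
    · exact h
  rcases (univ.filter (fun x : ZMod M => x * (a : ZMod M) = b)).eq_empty_or_nonempty with he | ⟨x₀, hx₀⟩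
  · rw [he]; simp
  have hx₀' : x₀ * (a : ZMod M) = b := (Finset.mem_filter.1 hx₀).2
  have key : ∀ x : ZMod M, x * (a : ZMod M) = b → (M / Nat.gcd a M) ∣ (x - x₀).val := by
    intro x hx
    have h1 : (x - x₀) * (a : ZMod M) = 0 := by rw [sub_mul, hx, hx₀', sub_self]
    have h2 : (((x - x₀).val * a : ℕ) : ZMod M) = 0 := by
      rw [Nat.cast_mul, ZMod.natCast_zmod_val]; exact h1
    rw [ZMod.natCast_eq_zero_iff] at h2
    have h3 : Nat.gcd a M * (M / Nat.gcd a M) ∣ Nat.gcd a M * ((x - x₀).val * (a / Nat.gcd a M)) := by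
      rw [hM']
      have : Nat.gcd a M * ((x - x₀).val * (a / Nat.gcd a M)) = (x - x₀).val * a := by
        rw [Nat.mul_left_comm, Nat.mul_div_cancel' (Nat.gcd_dvd_left a M)]
      rw [this]; exact h2
    have h4 := Nat.dvd_of_mul_dvd_mul_left hg h3
    have h5 : Nat.Coprime (M / Nat.gcd a M) (a / Nat.gcd a M) :=
      (Nat.coprime_div_gcd_div_gcd hg).symm
    exact h5.dvd_of_dvd_mul_right h4
  have hcard : (univ.filter (fun x : ZMod M => x * (a : ZMod M) = b)).card ≤
      (Finset.range (Nat.gcd a M)).card := by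
    refine Finset.card_le_card_of_injOn (fun x => (x - x₀).val / (M / Nat.gcd a M)) ?_ ?_
    · intro x _
      simp only [Finset.coe_range, Set.mem_Iio]
      rw [Nat.div_lt_iff_lt_mul hM'0, hM']
      exact ZMod.val_lt _
    · intro x hx y hy hxy
      have hx' : x * (a : ZMod M) = b := (Finset.mem_filter.1 (Finset.mem_coe.1 hx)).2
      have hy' : y * (a : ZMod M) = b := (Finset.mem_filter.1 (Finset.mem_coe.1 hy)).2
      simp only at hxy
      have h1 := Nat.div_mul_cancel (key x hx')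
      have h2 := Nat.div_mul_cancel (key y hy')
      have h3 : (x - x₀).val = (y - x₀).val := by rw [← h1, ← h2, hxy]
      have h4 : x - x₀ = y - x₀ := ZMod.val_injective M h3
      exact sub_left_injective h4
  rw [Finset.card_range] at hcard
  exact hcard

theorem PV1_orth {M : ℕ} [NeZero M] (z : ZMod M) :
    ∑ a : ZMod M, ZMod.stdAddChar (z * a) = if z = 0 then (M : ℂ) else 0 := by
  have h := AddChar.sum_mulShift z (ZMod.isPrimitive_stdAddChar M)
  have h2 : ∑ a : ZMod M, (ZMod.stdAddChar (z * a) : ℂ) = ∑ a : ZMod M, ZMod.stdAddChar (a * z) := by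
    refine Finset.sum_congr rfl fun a _ => ?_
    rw [mul_comm]
  rw [h2, h]
  simp [ZMod.card]

/-- Parseval on `ZMod M`.
Proof. Expand the square, exchange, orthogonality `∑_a ψ(z a) = M [z = 0]`
(`AddChar.sum_mulShift`, `ZMod.isPrimitive_stdAddChar`). -/
theorem zmod_parseval {M : ℕ} [NeZero M] (f : ZMod M → ℂ) :
    ∑ a : ZMod M, ‖∑ x : ZMod M, f x * ZMod.stdAddChar (x * a)‖ ^ 2 = M * ∑ x : ZMod M, ‖f x‖ ^ 2 := by
  have hnorm : ∀ w : ℂ, ((‖w‖ ^ 2 : ℝ) : ℂ) = w * (starRingEnd ℂ) w := by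
    intro w
    rw [Complex.mul_conj, Complex.normSq_eq_norm_sq]
  have hc : ∀ t : ZMod M, (starRingEnd ℂ) (ZMod.stdAddChar t : ℂ) = ZMod.stdAddChar (-t) := by
    intro t
    rw [AddChar.map_neg_eq_conj]
  have hmain : ((∑ a : ZMod M, ‖∑ x : ZMod M, f x * ZMod.stdAddChar (x * a)‖ ^ 2 : ℝ) : ℂ) =
      ((M * ∑ x : ZMod M, ‖f x‖ ^ 2 : ℝ) : ℂ) := by
    push_cast
    have e1 : ∀ a : ZMod M, (((‖∑ x : ZMod M, f x * ZMod.stdAddChar (x * a)‖ : ℝ) : ℂ)) ^ 2 =
        ∑ x : ZMod M, ∑ y : ZMod M, f x * (starRingEnd ℂ) (f y) *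
          ZMod.stdAddChar ((x - y) * a) := by
      intro a
      have := hnorm (∑ x : ZMod M, f x * ZMod.stdAddChar (x * a))
      push_cast at this
      rw [this, map_sum, Finset.sum_mul_sum]
      refine Finset.sum_congr rfl fun x _ => Finset.sum_congr rfl fun y _ => ?_
      rw [RingHom.map_mul, hc, sub_mul, sub_eq_add_neg, AddChar.map_add_eq_mul]
      ring
    rw [Finset.sum_congr rfl fun a _ => e1 a, Finset.sum_comm]
    rw [Finset.mul_sum]
    refine Finset.sum_congr rfl fun x _ => ?_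
    rw [Finset.sum_comm]
    have e2 : ∀ y : ZMod M, ∑ a : ZMod M, f x * (starRingEnd ℂ) (f y) *
        ZMod.stdAddChar ((x - y) * a) = if y = x then (M : ℂ) * (f x * (starRingEnd ℂ) (f x)) else 0 := by
      intro y
      rw [← Finset.mul_sum, PV1_orth]
      by_cases h : y = x
      · subst h; simp [mul_comm]
      · have h' : x - y ≠ 0 := sub_ne_zero.2 (Ne.symm h)
        simp [h, h']
    rw [Finset.sum_congr rfl fun y _ => e2 y, Finset.sum_ite_eq' univ x]
    simp only [Finset.mem_univ, if_true]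
    have := hnorm (f x)
    push_cast at this
    rw [this]
  exact_mod_cast hmain

/-- Gauss sums of imprimitive characters: `|F(a)|² ≤ M gcd(a, M)`, `F(a) = ∑_x f(x) ψ(x a)`.
Proof. For a unit `u`, `F(u a) = ∑_x f(x) ψ(x u a) = ∑_y f(u⁻¹ y) ψ(y a) = f(u⁻¹) F(a)`, so `|F(u a)| = |F(a)|`.
Hence `φ(M) |F(a)|² = ∑_u |F(u a)|² = ∑_b #{u : u a = b} |F(b)|² ≤ gcd(a, M) ∑_b |F(b)|²` (`card_mul_eq`)
`= gcd(a, M) M ∑_x |f x|² = gcd(a, M) M φ(M)` (`zmod_parseval`; `f` vanishes outside the units and has absolute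
value `1` on them). Divide by `φ(M) > 0`. (Number of units: `Fintype.card (ZMod M)ˣ`, `ZMod.card_units_eq_totient`.) -/
theorem gauss_le {M : ℕ} [NeZero M] {f : ZMod M → ℂ} (hm : ∀ (u : (ZMod M)ˣ) (x : ZMod M), f (u * x) = f u * f x)
    (h1 : ∀ u : (ZMod M)ˣ, ‖f u‖ = 1) (h0 : ∀ x : ZMod M, ¬ IsUnit x → f x = 0) (a : ℕ) :
    ‖∑ x : ZMod M, f x * ZMod.stdAddChar (x * (a : ZMod M))‖ ^ 2 ≤ M * (Nat.gcd a M : ℝ) := by
  classical
  set F : ZMod M → ℂ := fun b => ∑ x : ZMod M, f x * ZMod.stdAddChar (x * b) with hF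
  change ‖F a‖ ^ 2 ≤ _
  have hu : ∀ u : (ZMod M)ˣ, ‖F ((u : ZMod M) * (a : ZMod M))‖ = ‖F a‖ := by
    intro u
    have e1 : F ((u : ZMod M) * (a : ZMod M)) = f (u⁻¹ : (ZMod M)ˣ) * F a := by
      simp only [hF]
      rw [Finset.mul_sum]
      refine Fintype.sum_equiv u.mulRight _ _ fun x => ?_
      have e2 : f (u.mulRight x) = f u * f x := by
        change f (x * u) = _
        rw [mul_comm x, hm]
      have e3 : f (u⁻¹ : (ZMod M)ˣ) * f u = f 1 := by
        rw [← hm]; simp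
      have e4 : ∀ y : ZMod M, f 1 * f y = f y := by
        intro y
        have := hm 1 y
        simpa using this.symm
      rw [e2]
      have e5 : (u.mulRight x : ZMod M) * (a : ZMod M) = x * ((u : ZMod M) * (a : ZMod M)) := by
        change x * u * a = _
        ring
      rw [e5]
      have e6 : f (u⁻¹ : (ZMod M)ˣ) * (f u * f x *
          ZMod.stdAddChar (x * ((u : ZMod M) * (a : ZMod M)))) =
          (f (u⁻¹ : (ZMod M)ˣ) * f u * f x) *
            ZMod.stdAddChar (x * ((u : ZMod M) * (a : ZMod M))) := by ring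
      rw [e6, e3, e4]
    rw [e1, norm_mul, h1, one_mul]
  have hφ : (0 : ℝ) < Fintype.card (ZMod M)ˣ := by exact_mod_cast Fintype.card_pos
  have s1 : (Fintype.card (ZMod M)ˣ : ℝ) * ‖F a‖ ^ 2 = ∑ u : (ZMod M)ˣ, ‖F ((u : ZMod M) * (a : ZMod M))‖ ^ 2 := by
    rw [Finset.sum_congr rfl fun u _ => by rw [hu u], Finset.sum_const, Finset.card_univ,
      nsmul_eq_mul]
  have s2 : ∑ u : (ZMod M)ˣ, ‖F ((u : ZMod M) * (a : ZMod M))‖ ^ 2 =
      ∑ b : ZMod M, ((univ.filter (fun u : (ZMod M)ˣ => (u : ZMod M) * (a : ZMod M) = b)).card : ℝ) *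
        ‖F b‖ ^ 2 := by
    rw [← Finset.sum_fiberwise univ (fun u : (ZMod M)ˣ => (u : ZMod M) * (a : ZMod M))]
    refine Finset.sum_congr rfl fun b _ => ?_
    rw [Finset.sum_congr rfl (g := fun _ => ‖F b‖ ^ 2), Finset.sum_const, nsmul_eq_mul]
    intro u hu'
    rw [(Finset.mem_filter.1 hu').2]
  have s3 : ∀ b : ZMod M, ((univ.filter (fun u : (ZMod M)ˣ => (u : ZMod M) * (a : ZMod M) = b)).card : ℝ) ≤
      (Nat.gcd a M : ℝ) := by
    intro b
    have h := card_mul_eq (M := M) a b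
    have h' : (univ.filter (fun u : (ZMod M)ˣ => (u : ZMod M) * (a : ZMod M) = b)).card ≤
        (univ.filter (fun x : ZMod M => x * (a : ZMod M) = b)).card := by
      refine Finset.card_le_card_of_injOn (fun u => (u : ZMod M)) ?_ ?_
      · intro u hu'
        simpa using hu'
      · intro u _ v _ h
        exact Units.ext h
    exact_mod_cast h'.trans h
  have s4 : ∑ x : ZMod M, ‖f x‖ ^ 2 = (Fintype.card (ZMod M)ˣ : ℝ) := by
    have : ∑ x : ZMod M, ‖f x‖ ^ 2 = ∑ u : (ZMod M)ˣ, ‖f u‖ ^ 2 := by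
      rw [← Finset.sum_subset (Finset.subset_univ (univ.image (fun u : (ZMod M)ˣ => (u : ZMod M)))),
        Finset.sum_image]
      · intro u _ v _ h; exact Units.ext h
      · intro x _ hx
        rw [h0 x, norm_zero]; · norm_num
        rintro ⟨u, rfl⟩
        exact hx (Finset.mem_image_of_mem _ (Finset.mem_univ u))
    rw [this, Finset.sum_congr rfl fun u _ => by rw [h1 u]]
    simp
  have s5 := zmod_parseval f
  have s6 : (Fintype.card (ZMod M)ˣ : ℝ) * ‖F a‖ ^ 2 ≤
      (Fintype.card (ZMod M)ˣ : ℝ) * (M * (Nat.gcd a M : ℝ)) := by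
    rw [s1, s2]
    calc _ ≤ ∑ b : ZMod M, (Nat.gcd a M : ℝ) * ‖F b‖ ^ 2 :=
          Finset.sum_le_sum fun b _ => mul_le_mul_of_nonneg_right (s3 b) (by positivity)
      _ = (Nat.gcd a M : ℝ) * (M * (Fintype.card (ZMod M)ˣ : ℝ)) := by
          rw [← Finset.mul_sum]
          congr 1
          rw [← s4]
          exact s5
      _ = _ := by ring
  exact le_of_mul_le_mul_left s6 hφ

end TwV
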