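import Pool.Agent.W_aaa0df_h65.PV1
import Pool.Agent.W_b58c63_h68.LSa

/-! Polya-Vinogradov with a loss of `q^ε`: partial sums (helper65). -/

set_option autoImplicit false

namespace TwV

open Finset

theorem PV2_ee {M : ℕ} [NeZero M] (n b : ℕ) :
    Pool.Agent.Wb58c63.ee (n * ((b : ℝ) / M)) = ZMod.stdAddChar ((n : ZMod M) * (b : ZMod M)) := by
  have h1 : ((n : ZMod M) * (b : ZMod M)) = (((n * b : ℕ) : ℤ) : ZMod M) := by
    push_cast
    rfl
  rw [h1, ZMod.stdAddChar_coe]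
  unfold Pool.Agent.Wb58c63.ee
  congr 1
  push_cast
  ring

theorem PV2_dn {M a : ℕ} (ha : 1 ≤ a) (haM : a < M) :
    ((min a (M - a) : ℕ) : ℝ) / M ≤ Pool.Agent.Wb58c63.dn ((a : ℝ) / M) := by
  have hM : (0 : ℝ) < M := by
    have : 0 < M := by omega
    exact_mod_cast this
  unfold Pool.Agent.Wb58c63.dn
  generalize round ((a : ℝ) / M) = m
  have h1 : (a : ℝ) / M - m = (a - M * m) / M := by
    field_simp
  rw [h1, abs_div, abs_of_pos hM]
  apply div_le_div_of_nonneg_right _ hM.le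
  have h2 : ((min a (M - a) : ℕ) : ℤ) ≤ |(a : ℤ) - M * m| := by
    rcases le_or_gt m 0 with h | h
    · have h3 : (0 : ℤ) ≤ (a : ℤ) - M * m := by
        nlinarith
      rw [abs_of_nonneg h3]
      have h4 : ((min a (M - a) : ℕ) : ℤ) ≤ a := by
        exact_mod_cast min_le_left _ _
      nlinarith
    · have h3 : (a : ℤ) - M * m ≤ 0 := by
        have : (M : ℤ) ≤ M * m := by nlinarith
        have h5 : (a : ℤ) < M := by exact_mod_cast haM
        linarith
      rw [abs_of_nonpos h3]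
      have h4 : ((min a (M - a) : ℕ) : ℤ) ≤ (M : ℤ) - a := by
        have : (min a (M - a) : ℕ) ≤ M - a := min_le_right _ _
        omega
      nlinarith
  have h3 : (((min a (M - a) : ℕ) : ℤ) : ℝ) ≤ ((|(a : ℤ) - M * m| : ℤ) : ℝ) := by
    exact_mod_cast h2
  push_cast at h3 ⊢
  exact h3

/-- Geometric sums: for `1 ≤ a < M`, `|∑_{n < N} ψ(n a)| ≤ M/(2 min(a, M - a))`.
Proof. `ψ(n a) = ee (n (a/M))` (`Pool.Agent.Wb58c63.ee`, `ZMod.stdAddChar_coe`; see `LSc_ee` in
`W_b58c63_h68/LSc.lean`). By `LSa_geom`, `LSa_ee_sub`, `norm_ee`: `|sum| 4 dn(a/M) ≤ |sum| |ee(a/M) - 1| ≤ 2`, and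
`dn(a/M) = min(a, M - a)/M` (only `≥` is needed: `|a/M - m| ≥ min(a, M-a)/M` for every integer `m`). -/
theorem geom_le {M : ℕ} [NeZero M] {a : ℕ} (ha : 1 ≤ a) (haM : a < M) (N : ℕ) :
    ‖∑ n ∈ range N, ZMod.stdAddChar ((n : ZMod M) * (a : ZMod M))‖ ≤ M / (2 * (min a (M - a) : ℕ)) := by
  have hM : (0 : ℝ) < M := by
    have : 0 < M := by omega
    exact_mod_cast this
  have hmin : (0 : ℝ) < (min a (M - a) : ℕ) := by
    have : 0 < min a (M - a) := by
      apply lt_min <;> omega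
    exact_mod_cast this
  have h0 : ∑ n ∈ range N, ZMod.stdAddChar ((n : ZMod M) * (a : ZMod M)) =
      ∑ n ∈ range N, Pool.Agent.Wb58c63.ee (n * ((a : ℝ) / M)) :=
    Finset.sum_congr rfl fun n _ => (PV2_ee n a).symm
  rw [h0]
  have h1 := congrArg norm (Pool.Agent.Wb58c63.LSa_geom N ((a : ℝ) / M))
  rw [norm_mul] at h1
  have h2 : ‖Pool.Agent.Wb58c63.ee (N * ((a : ℝ) / M)) - 1‖ ≤ 2 := by
    refine (norm_sub_le _ _).trans ?_
    rw [Pool.Agent.Wb58c63.norm_ee, norm_one]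
    norm_num
  have h3 := Pool.Agent.Wb58c63.LSa_ee_sub ((a : ℝ) / M)
  have h4 := PV2_dn ha haM
  set S := ‖∑ n ∈ range N, Pool.Agent.Wb58c63.ee (n * ((a : ℝ) / M))‖ with hS
  have hS0 : 0 ≤ S := norm_nonneg _
  have h5 : S * (4 * (((min a (M - a) : ℕ) : ℝ) / M)) ≤ 2 := by
    calc S * (4 * (((min a (M - a) : ℕ) : ℝ) / M)) ≤ S * (4 * Pool.Agent.Wb58c63.dn ((a : ℝ) / M)) := by
          apply mul_le_mul_of_nonneg_left _ hS0
          linarith
      _ ≤ S * ‖Pool.Agent.Wb58c63.ee ((a : ℝ) / M) - 1‖ := mul_le_mul_of_nonneg_left h3 hS0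
      _ ≤ 2 := by rw [h1]; exact h2
  rw [le_div_iff₀ (by positivity)]
  have h6 : S * (4 * (((min a (M - a) : ℕ) : ℝ) / M)) = S * (2 * ((min a (M - a) : ℕ) : ℝ)) * 2 / M := by
    ring
  rw [h6, div_le_iff₀ hM] at h5
  linarith

theorem PV2_mult {K g : ℕ} (hg : 1 ≤ g) :
    ∑ a ∈ (Icc 1 K).filter (fun a => g ∣ a), (1 : ℝ) / a ≤ (1 / g) * (1 + Real.log K) := by
  have hgR : (0 : ℝ) < g := by exact_mod_cast hg
  have h1 : (Icc 1 K).filter (fun a => g ∣ a) = (Icc 1 (K / g)).image (fun j => g * j) := by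
    ext a
    simp only [mem_filter, mem_Icc, mem_image]
    constructor
    · rintro ⟨⟨h1, h2⟩, ⟨j, rfl⟩⟩
      refine ⟨j, ⟨?_, ?_⟩, rfl⟩
      · rcases Nat.eq_zero_or_pos j with h | h
        · subst h
          simp at h1
        · exact h
      · rw [Nat.le_div_iff_mul_le (by omega)]
        rw [mul_comm]
        exact h2
    · rintro ⟨j, ⟨h1, h2⟩, rfl⟩
      rw [Nat.le_div_iff_mul_le (by omega)] at h2
      refine ⟨⟨?_, ?_⟩, Dvd.intro _ rfl⟩
      · exact Nat.mul_pos (by omega) (by omega)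
      · rw [mul_comm]
        exact h2
  rw [h1, Finset.sum_image (by
    intro x _ y _ h
    exact Nat.eq_of_mul_eq_mul_left (by omega) h)]
  have h2 : ∑ j ∈ Icc 1 (K / g), (1 : ℝ) / ((g * j : ℕ) : ℝ) = (1 / g) * ∑ j ∈ Icc 1 (K / g), (1 : ℝ) / j := by
    rw [Finset.mul_sum]
    refine Finset.sum_congr rfl fun j _ => ?_
    push_cast
    rw [one_div_mul_one_div]
  rw [h2]
  apply mul_le_mul_of_nonneg_left _ (by positivity)
  have h3 : ∑ j ∈ Icc 1 (K / g), (1 : ℝ) / j ≤ ∑ j ∈ Icc 1 K, (1 : ℝ) / j := by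
    apply Finset.sum_le_sum_of_subset_of_nonneg
    · exact Finset.Icc_subset_Icc le_rfl (Nat.div_le_self _ _)
    · intro i _ _
      positivity
  refine h3.trans ?_
  have h4 := harmonic_le_one_add_log K
  have h5 : ((harmonic K : ℚ) : ℝ) = ∑ j ∈ Icc 1 K, (1 : ℝ) / j := by
    rw [harmonic_eq_sum_Icc]
    push_cast
    refine Finset.sum_congr rfl fun j _ => ?_
    rw [one_div]
  rw [← h5]
  exact h4

/-- `∑_{1 ≤ a ≤ K} √gcd(a, M)/a ≤ τ(M) (1 + log K)`.
Proof. `√gcd(a,M) ≤ ∑_{g ∣ M, g ∣ a} √g` (the term `g = gcd(a, M)`), so the sum is at most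
`∑_{g ∣ M} √g ∑_{a ≤ K, g ∣ a} 1/a = ∑_{g ∣ M} √g/g ∑_{j ≤ K/g} 1/j ≤ ∑_{g ∣ M} (1 + log K)`. -/
theorem gcd_sum_le {M K : ℕ} (hM : 1 ≤ M) (hK : 1 ≤ K) :
    ∑ a ∈ Icc 1 K, Real.sqrt (Nat.gcd a M) / a ≤ M.divisors.card * (1 + Real.log K) := by
  have hlog : (0 : ℝ) ≤ 1 + Real.log K := by
    have : 0 ≤ Real.log K := Real.log_nonneg (by exact_mod_cast hK)
    linarith
  have h1 : ∀ a ∈ Icc 1 K, Real.sqrt (Nat.gcd a M) / a ≤
      ∑ g ∈ M.divisors, if g ∣ a then Real.sqrt g * (1 / a) else 0 := by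
    intro a ha
    rw [mem_Icc] at ha
    have h2 : Nat.gcd a M ∈ M.divisors := by
      rw [Nat.mem_divisors]
      exact ⟨Nat.gcd_dvd_right _ _, by omega⟩
    have h3 := Finset.single_le_sum (f := fun g : ℕ => if g ∣ a then Real.sqrt g * (1 / a) else 0)
      (fun g _ => by
        split_ifs
        · positivity
        · exact le_rfl) h2
    refine le_trans (le_of_eq ?_) h3
    rw [if_pos (Nat.gcd_dvd_left _ _), mul_one_div]
  refine (Finset.sum_le_sum h1).trans ?_
  rw [Finset.sum_comm]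
  have h4 : ∀ g ∈ M.divisors, ∑ a ∈ Icc 1 K, (if g ∣ a then Real.sqrt g * (1 / (a : ℝ)) else 0) ≤
      1 + Real.log K := by
    intro g hg
    have hg1 : 1 ≤ g := Nat.pos_of_mem_divisors hg
    have hgR : (0 : ℝ) < g := by exact_mod_cast hg1
    rw [← Finset.sum_filter, ← Finset.mul_sum]
    have h5 := PV2_mult (K := K) hg1
    have h6 := mul_le_mul_of_nonneg_left h5 (Real.sqrt_nonneg (g : ℝ))
    refine h6.trans ?_
    rw [← mul_assoc]
    have h7 : Real.sqrt g * (1 / g) ≤ 1 := by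
      rw [mul_one_div, div_le_one hgR]
      have h8 : (1 : ℝ) ≤ g := by exact_mod_cast hg1
      rw [Real.sqrt_le_left (by linarith)]
      nlinarith
    calc Real.sqrt g * (1 / g) * (1 + Real.log K) ≤ 1 * (1 + Real.log K) :=
          mul_le_mul_of_nonneg_right h7 hlog
      _ = 1 + Real.log K := one_mul _
  refine (Finset.sum_le_sum h4).trans ?_
  rw [Finset.sum_const, nsmul_eq_mul]

theorem PV2_orth {M : ℕ} [NeZero M] (z : ZMod M) :
    ∑ a : ZMod M, (ZMod.stdAddChar (z * a) : ℂ) = if z = 0 then (M : ℂ) else 0 := by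
  have h := AddChar.sum_mulShift (R := ZMod M) z (ZMod.isPrimitive_stdAddChar M)
  have h2 : ∑ a : ZMod M, (ZMod.stdAddChar (z * a) : ℂ) = ∑ a : ZMod M, (ZMod.stdAddChar (a * z) : ℂ) :=
    Finset.sum_congr rfl fun a _ => by rw [mul_comm]
  rw [h2, h, ZMod.card]
  push_cast
  rfl

theorem PV2_inv {M : ℕ} [NeZero M] (f : ZMod M → ℂ) (n : ZMod M) :
    (M : ℂ) * f n = ∑ a : ZMod M, (∑ x : ZMod M, f x * ZMod.stdAddChar (x * a)) * ZMod.stdAddChar (n * (-a)) := by
  have h1 : ∀ a : ZMod M, (∑ x : ZMod M, f x * ZMod.stdAddChar (x * a)) * ZMod.stdAddChar (n * (-a)) =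
      ∑ x : ZMod M, f x * ZMod.stdAddChar ((x - n) * a) := by
    intro a
    rw [Finset.sum_mul]
    refine Finset.sum_congr rfl fun x _ => ?_
    rw [mul_assoc, ← AddChar.map_add_eq_mul]
    congr 2
    ring
  rw [Finset.sum_congr rfl fun a _ => h1 a, Finset.sum_comm]
  have h2 : ∀ x : ZMod M, ∑ a : ZMod M, f x * (ZMod.stdAddChar ((x - n) * a) : ℂ) =
      if x = n then (M : ℂ) * f n else 0 := by
    intro x
    rw [← Finset.mul_sum, PV2_orth]
    by_cases h : x = n
    · subst h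
      simp [mul_comm]
    · rw [if_neg h, if_neg (sub_ne_zero.mpr h), mul_zero]
  rw [Finset.sum_congr rfl fun x _ => h2 x, Finset.sum_ite_eq' Finset.univ n]
  simp

theorem PV2_range {M : ℕ} [NeZero M] (F : ZMod M → ℝ) :
    ∑ a : ZMod M, F a = ∑ a ∈ range M, F (a : ZMod M) := by
  symm
  refine Finset.sum_bij (fun (a : ℕ) _ => (a : ZMod M)) (fun _ _ => mem_univ _) ?_ ?_ (fun _ _ => rfl)
  · intro a ha b hb hab
    rw [mem_range] at ha hb
    rw [ZMod.natCast_eq_natCast_iff'] at hab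
    rwa [Nat.mod_eq_of_lt ha, Nat.mod_eq_of_lt hb] at hab
  · intro b _
    exact ⟨b.val, mem_range.mpr (ZMod.val_lt b), ZMod.natCast_zmod_val b⟩

/-- Polya-Vinogradov for imprimitive characters, with a divisor factor.
Proof. Inversion: `f(n) = M⁻¹ ∑_a F(a) ψ(-n a)`, `F(a) = ∑_x f(x) ψ(x a)` (orthogonality), so
`∑_{n<N} f(n) = M⁻¹ ∑_a F(a) ∑_{n<N} ψ(-n a)`. `F(0) = ∑ f = 0`. For `1 ≤ a < M` (representatives), `-a` is
`M - a`, `geom_le` and `gauss_le` bound the term by `√(M gcd(a,M)) M/(2 min(a, M-a))`. Since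
`gcd(a,M) = gcd(M-a,M)`, the sum over `a < M` is at most twice the sum over `1 ≤ a ≤ M/2` of
`√(M gcd(a,M)) M/(2a)`; total at most `√M ∑_{a ≤ M} √gcd(a,M)/a ≤ √M τ(M)(1 + log M)` (`gcd_sum_le`).
(If `M = 1` then `f = 0` because the sum over the whole group is `0`.) -/
theorem pv {M : ℕ} [NeZero M] {f : ZMod M → ℂ} (hm : ∀ (u : (ZMod M)ˣ) (x : ZMod M), f (u * x) = f u * f x)
    (h1 : ∀ u : (ZMod M)ˣ, ‖f u‖ = 1) (h0 : ∀ x : ZMod M, ¬ IsUnit x → f x = 0) (hs : ∑ x : ZMod M, f x = 0)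
    (N : ℕ) : ‖∑ n ∈ range N, f (n : ZMod M)‖ ≤ Real.sqrt M * (M.divisors.card * (1 + Real.log M)) := by
  have hMpos : 0 < M := Nat.pos_of_ne_zero (NeZero.ne M)
  have hM : (0 : ℝ) < M := by exact_mod_cast hMpos
  set F : ZMod M → ℂ := fun a => ∑ x : ZMod M, f x * ZMod.stdAddChar (x * a) with hF
  have hF0 : F 0 = 0 := by
    simp only [hF, mul_zero, AddChar.map_zero_eq_one, mul_one]
    exact hs
  have e1 : (M : ℂ) * ∑ n ∈ range N, f (n : ZMod M) =
      ∑ a : ZMod M, F a * ∑ n ∈ range N, (ZMod.stdAddChar ((n : ZMod M) * (-a)) : ℂ) := by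
    rw [Finset.mul_sum]
    have e0 : ∀ n ∈ range N, (M : ℂ) * f (n : ZMod M) =
        ∑ a : ZMod M, F a * ZMod.stdAddChar ((n : ZMod M) * (-a)) := fun n _ => PV2_inv f (n : ZMod M)
    rw [Finset.sum_congr rfl e0, Finset.sum_comm]
    refine Finset.sum_congr rfl fun a _ => ?_
    rw [Finset.mul_sum]
  have e2 : (M : ℝ) * ‖∑ n ∈ range N, f (n : ZMod M)‖ ≤
      ∑ a : ZMod M, ‖F a‖ * ‖∑ n ∈ range N, (ZMod.stdAddChar ((n : ZMod M) * (-a)) : ℂ)‖ := by
    have h := congrArg norm e1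
    rw [norm_mul, Complex.norm_natCast] at h
    rw [h]
    refine (norm_sum_le _ _).trans (le_of_eq ?_)
    exact Finset.sum_congr rfl fun a _ => norm_mul _ _
  rw [PV2_range] at e2
  -- each term
  have e3 : ∀ a ∈ range M, ‖F (a : ZMod M)‖ * ‖∑ n ∈ range N, (ZMod.stdAddChar ((n : ZMod M) * (-(a : ZMod M))) : ℂ)‖ ≤
      (M : ℝ) * Real.sqrt M / 2 * ((if 1 ≤ a then Real.sqrt (Nat.gcd a M) / a else 0) +
        (if 1 ≤ a then Real.sqrt (Nat.gcd (M - a) M) / (M - a : ℕ) else 0)) := by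
    intro a ha
    rw [mem_range] at ha
    rcases Nat.eq_zero_or_pos a with h | h
    · subst h
      simp [hF0]
    · rw [if_pos (by omega), if_pos (by omega)]
      have g1 : ‖F (a : ZMod M)‖ ≤ Real.sqrt M * Real.sqrt (Nat.gcd a M) := by
        rw [← Real.sqrt_mul hM.le]
        apply Real.le_sqrt_of_sq_le
        exact gauss_le hm h1 h0 a
      have g2 : (-(a : ZMod M)) = ((M - a : ℕ) : ZMod M) := by
        rw [Nat.cast_sub ha.le, ZMod.natCast_self, zero_sub]
      have g3 := geom_le (M := M) (a := M - a) (by omega) (by omega) N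
      rw [← g2] at g3
      have g4 : (M - (M - a) : ℕ) = a := by omega
      rw [g4, min_comm] at g3
      have hmin : (0 : ℝ) < (min a (M - a) : ℕ) := by
        have : 0 < min a (M - a) := by
          apply lt_min <;> omega
        exact_mod_cast this
      have haR : (0 : ℝ) < a := by exact_mod_cast h
      have hbR : (0 : ℝ) < ((M - a : ℕ) : ℝ) := by
        have : 0 < M - a := by omega
        exact_mod_cast this
      have g5 : Nat.gcd (M - a) M = Nat.gcd a M := by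
        rw [Nat.gcd_comm (M - a) M]
        have h8 : Nat.gcd M (M - a) = Nat.gcd M a := by
          rw [Nat.gcd_self_sub_right ha.le]
        rw [h8, Nat.gcd_comm]
      rw [g5]
      calc ‖F (a : ZMod M)‖ * ‖∑ n ∈ range N, (ZMod.stdAddChar ((n : ZMod M) * (-(a : ZMod M))) : ℂ)‖
          ≤ (Real.sqrt M * Real.sqrt (Nat.gcd a M)) * (M / (2 * (min a (M - a) : ℕ))) :=
            mul_le_mul g1 g3 (norm_nonneg _) (by positivity)
        _ = (M : ℝ) * Real.sqrt M / 2 * (Real.sqrt (Nat.gcd a M) * (1 / (min a (M - a) : ℕ))) := by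
            field_simp
        _ ≤ (M : ℝ) * Real.sqrt M / 2 * (Real.sqrt (Nat.gcd a M) / a +
              Real.sqrt (Nat.gcd a M) / (M - a : ℕ)) := by
            apply mul_le_mul_of_nonneg_left _ (by positivity)
            rw [div_eq_mul_one_div (Real.sqrt (Nat.gcd a M)) (a : ℝ),
              div_eq_mul_one_div (Real.sqrt (Nat.gcd a M)) ((M - a : ℕ) : ℝ), ← mul_add]
            apply mul_le_mul_of_nonneg_left _ (Real.sqrt_nonneg _)
            rcases min_choice a (M - a) with h9 | h9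
            · rw [h9]
              have : 0 ≤ 1 / ((M - a : ℕ) : ℝ) := by positivity
              linarith
            · rw [h9]
              have : 0 ≤ 1 / (a : ℝ) := by positivity
              linarith
  have e4 : (M : ℝ) * ‖∑ n ∈ range N, f (n : ZMod M)‖ ≤
      (M : ℝ) * Real.sqrt M / 2 * (2 * (M.divisors.card * (1 + Real.log M))) := by
    refine e2.trans ((Finset.sum_le_sum e3).trans ?_)
    rw [← Finset.mul_sum]
    apply mul_le_mul_of_nonneg_left _ (by positivity)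
    rw [Finset.sum_add_distrib]
    have k1 : ∑ a ∈ range M, (if 1 ≤ a then Real.sqrt (Nat.gcd a M) / (a : ℝ) else 0) ≤
        M.divisors.card * (1 + Real.log M) := by
      refine le_trans ?_ (gcd_sum_le (M := M) (K := M) hMpos hMpos)
      rw [← Finset.sum_filter]
      apply Finset.sum_le_sum_of_subset_of_nonneg
      · intro a ha
        rw [mem_filter, mem_range] at ha
        rw [mem_Icc]
        omega
      · intro i _ _
        positivity
    have k2 : ∑ a ∈ range M, (if 1 ≤ a then Real.sqrt (Nat.gcd (M - a) M) / ((M - a : ℕ) : ℝ) else 0) ≤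
        M.divisors.card * (1 + Real.log M) := by
      refine le_trans ?_ k1
      rw [← Finset.sum_filter, ← Finset.sum_filter]
      apply le_of_eq
      refine Finset.sum_bij (fun a _ => M - a) ?_ ?_ ?_ ?_
      · intro a ha
        rw [mem_filter, mem_range] at ha ⊢
        omega
      · intro a ha b hb hab
        rw [mem_filter, mem_range] at ha hb
        omega
      · intro b hb
        rw [mem_filter, mem_range] at hb
        refine ⟨M - b, ?_, ?_⟩
        · rw [mem_filter, mem_range]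
          omega
        · omega
      · intro a _
        rfl
    linarith
  have e5 : (M : ℝ) * Real.sqrt M / 2 * (2 * (M.divisors.card * (1 + Real.log M))) =
      M * (Real.sqrt M * (M.divisors.card * (1 + Real.log M))) := by ring
  rw [e5] at e4
  exact le_of_mul_le_mul_left e4 hM

end TwV
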