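import Pool.Agent.W_aaa0df_h86.RAsym
import Pool.Agent.W_aaa0df_h86.AbelLog
import Pool.Agent.W_aaa0df_h86.Conv
import Pool.Agent.W_aaa0df_h86.Nonneg
import Pool.Agent.W_aaa0df_h86.MertA
import Pool.Agent.W_aaa0df_h86.MertB

/-! Definitions for the repulsion lemma with a real exponent (helper65). -/

set_option autoImplicit false

namespace TwV

open Finset Real Twist

/-- Bound for the partial sums at the scale `x₀` with exponent `s` (`s = 1`: all partial sums are at most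
`x₀`). -/
def PS (x₀ s : ℝ) (χ : ℕ → ℝ) : Prop :=
  ∀ N : ℕ, 1 ≤ N → |∑ n ∈ Icc 1 N, χ n| ≤ x₀ ^ s * (N : ℝ) ^ (1 - s)

/-- `H(t) = ∑_{b ≤ e^t} (1 - χ(b)) Λ(b)/b · R(t - log b)`. -/
noncomputable def HN (χ : ℕ → ℝ) (t : ℝ) : ℝ :=
  ∑ b ∈ Icc 1 ⌊Real.exp t⌋₊, (1 - χ b) * lam b / b * RR χ (t - log b)

/-- `I(t) = ∑_{n ≤ e^t} r(n)/n · (t - log n)` (this is `∫_0^t R`). -/
noncomputable def II (χ : ℕ → ℝ) (t : ℝ) : ℝ :=
  ∑ n ∈ Icc 1 ⌊Real.exp t⌋₊, rr χ n / n * (t - log n)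

end TwV
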