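import Pool.Agent.W_aaa0df_h65.PV2
import Pool.Agent.W_aaa0df_h65.RDefs
import Pool.Agent.W_aaa0df_h86.Chi
import Pool.Agent.W_fd120a_h34.Div

/-! Polya-Vinogradov for the real characters `chi m` (helper65). -/

set_option autoImplicit false

namespace TwV

open Finset Real Twist

theorem PV3_mod {m : ℕ} (hm : m ≠ 0) (n : ℕ) : chi m (n % (4 * m)) = chi m n :=
  Function.Periodic.map_mod_nat (fun n => chi_per m n hm) n

theorem PV3_zero (m : ℕ) : chi m 0 = 0 := by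
  unfold chi
  rw [if_neg (by simp)]

theorem PV3_odd {m n : ℕ} (h : Nat.Coprime n (4 * m)) : Odd n := by
  rcases Nat.even_or_odd n with h1 | h1
  · exfalso
    obtain ⟨k, hk⟩ := h1
    have h2 : 2 ∣ Nat.gcd n (4 * m) := Nat.dvd_gcd ⟨k, by omega⟩ ⟨2 * m, by ring⟩
    rw [h] at h2
    omega
  · exact h1

theorem PV3_unit {m n : ℕ} (h : Nat.Coprime n (4 * m)) : chi m n = 1 ∨ chi m n = -1 := by
  rcases chi_val m n with h1 | h1
  · exfalso
    unfold chi at h1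
    rw [if_pos (PV3_odd h)] at h1
    have h2 : jacobiSym (m : ℤ) n = 0 := by exact_mod_cast h1
    rw [jacobiSym.eq_zero_iff, Int.gcd_natCast_natCast] at h2
    exact h2.2 (Nat.Coprime.coprime_mul_left_right h).symm
  · exact h1

theorem PV3_nonunit {m n : ℕ} (hm : m ≠ 0) (h : ¬ Nat.Coprime n (4 * m)) : chi m n = 0 := by
  unfold chi
  by_cases hn : Odd n
  · rw [if_pos hn]
    have h2 : jacobiSym (m : ℤ) n = 0 := by
      rw [jacobiSym.eq_zero_iff, Int.gcd_natCast_natCast]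
      refine ⟨fun h0 => ?_, fun hc => h ?_⟩
      · rw [h0] at hn
        simp at hn
      · refine Nat.Coprime.mul_right ?_ (Nat.Coprime.symm hc)
        have h3 : Nat.Coprime n 2 := (Nat.coprime_two_right).2 hn
        have h4 : (4 : ℕ) = 2 * 2 := rfl
        rw [h4]
        exact h3.mul_right h3
    rw [h2]
    norm_num
  · rw [if_neg hn]

theorem PV3_main {m : ℕ} (hm : ¬ IsSquare m) (N : ℕ) :
    |∑ n ∈ Icc 1 N, chi m n| ≤
      Real.sqrt ((4 * m : ℕ) : ℝ) * ((4 * m).divisors.card * (1 + Real.log ((4 * m : ℕ) : ℝ))) := by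
  have hm0 : m ≠ 0 := by
    rintro rfl
    exact hm ⟨0, rfl⟩
  haveI : NeZero (4 * m) := ⟨by omega⟩
  obtain ⟨a, hao, haJ⟩ := exists_jacobi_neg_one hm
  have hfa : chi m a = -1 := by
    unfold chi
    rw [if_pos hao, haJ]
    norm_num
  have hcop4 : Nat.Coprime a (4 * m) := by
    by_contra h
    rw [PV3_nonunit hm0 h] at hfa
    norm_num at hfa
  obtain ⟨f, hf⟩ : ∃ f : ZMod (4 * m) → ℂ, ∀ x, f x = ((chi m x.val : ℝ) : ℂ) := ⟨_, fun _ => rfl⟩
  have hc : ∀ n : ℕ, f (n : ZMod (4 * m)) = ((chi m n : ℝ) : ℂ) := fun n => by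
    rw [hf, ZMod.val_natCast, PV3_mod hm0]
  have h1 := pv (f := f) (fun u x => ?_) (fun u => ?_) (fun x hx => ?_) ?_ (N + 1)
  · rw [Finset.sum_congr rfl fun n _ => hc n, ← Complex.ofReal_sum, Complex.norm_real,
      Real.norm_eq_abs, Finset.sum_range_succ', PV3_zero, add_zero] at h1
    have h2 : ∑ n ∈ Icc 1 N, chi m n = ∑ n ∈ range N, chi m (n + 1) := by
      rw [Finset.range_eq_Ico, Finset.sum_Ico_add' (chi m) 0 N 1]
      rfl
    rw [h2]
    exact h1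
  · have e1 : (u : ZMod (4 * m)) * x = (((u : ZMod (4 * m)).val * x.val : ℕ) : ZMod (4 * m)) := by
      rw [Nat.cast_mul, ZMod.natCast_zmod_val, ZMod.natCast_zmod_val]
    rw [e1, hc, chi_mul, hf, hf]
    push_cast
    rfl
  · rw [hf, Complex.norm_real, Real.norm_eq_abs]
    rcases PV3_unit (ZMod.val_coe_unit_coprime u) with h | h <;> rw [h] <;> norm_num
  · rw [hf, PV3_nonunit hm0, Complex.ofReal_zero]
    intro h
    apply hx
    have h2 := (ZMod.isUnit_iff_coprime x.val (4 * m)).2 h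
    rwa [ZMod.natCast_zmod_val] at h2
  · have h2 : ∑ x : ZMod (4 * m), f x = ∑ n ∈ range (4 * m), ((chi m n : ℝ) : ℂ) := by
      refine Finset.sum_nbij' (fun x => x.val) (fun n => (n : ZMod (4 * m))) ?_ ?_ ?_ ?_ ?_
      · intro x _
        exact Finset.mem_range.2 (ZMod.val_lt x)
      · intro n _
        exact Finset.mem_univ _
      · intro x _
        exact ZMod.natCast_zmod_val x
      · intro n hn
        exact ZMod.val_natCast_of_lt (Finset.mem_range.1 hn)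
      · intro x _
        exact hf x
    rw [h2, ← Complex.ofReal_sum, periodic_zero_sum (by omega) (fun n => chi_per m n hm0)
      (chi_mul m) hcop4 hfa, Complex.ofReal_zero]

theorem PV3_log {δ x : ℝ} (hδ : 0 < δ) (hx : 1 ≤ x) :
    1 + Real.log x ≤ (1 + 1 / δ) * x ^ δ := by
  have h1 : Real.log x ≤ x ^ δ / δ := Real.log_le_rpow_div (by linarith) hδ
  have h2 : 1 ≤ x ^ δ := Real.one_le_rpow hx hδ.le
  have h3 : (1 + 1 / δ) * x ^ δ = x ^ δ + x ^ δ / δ := by ring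
  rw [h3]
  linarith

/-- Polya-Vinogradov with a loss `m^ε` for the Jacobi symbols `n ↦ (m/n)`, `n` odd, `m` not a square.
Proof. `M = 4m` (`m ≥ 2`), `f(x) = chi m x.val` on `ZMod M`. By `chi_per` `f((n : ZMod M)) = chi m n` for all `n : ℕ`
(`n ≡ n % M`), so `f` is completely multiplicative (`chi_mul`); `chi m n ≠ 0` iff `n` is odd and coprime to `m`
(`jacobiSym.eq_zero_iff_not_coprime`), i.e. iff `n` is coprime to `4m`, i.e. iff `(n : ZMod M)` is a unit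
(`ZMod.isUnit_iff_coprime`), and then it is `±1`. The sum over `ZMod M` vanishes: `periodic_zero_sum` with the `n` of
`exists_jacobi_neg_one` (see the proof of `chi_RChar`). `pv` with `N + 1` (the term `n = 0` is `chi m 0 = 0`) gives
`|∑_{n ≤ N} chi m n| ≤ √(4m) τ(4m) (1 + log (4m))`, and `τ(4m) ≤ C m^(ε/2)` (`divisor_bound`),
`1 + log(4m) ≤ C m^(ε/2)`. -/
theorem chi_PV (ε : ℝ) (hε : 0 < ε) : ∃ C : ℝ, 1 ≤ C ∧ ∀ m : ℕ, ¬ IsSquare m → ∀ N : ℕ,
    |∑ n ∈ Icc 1 N, chi m n| ≤ C * (m : ℝ) ^ (1 / 2 + ε) := by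
  obtain ⟨C1, hC1, hdiv⟩ := FD120.divisor_bound (ε / 2) (by linarith)
  obtain ⟨C2, hC2⟩ : ∃ C2 : ℝ, C2 = 1 + 1 / (ε / 2) := ⟨_, rfl⟩
  have hC20 : 0 < C2 := by
    rw [hC2]
    positivity
  refine ⟨max 1 (C1 * C2 * 4 ^ (1 / 2 + ε)), le_max_left _ _, fun m hm N => ?_⟩
  have hm0 : 0 < m := by
    rcases Nat.eq_zero_or_pos m with h0 | h0
    · exact absurd ⟨0, by rw [h0]⟩ hm
    · exact h0
  have h1 := PV3_main hm N
  have hM0 : 0 < 4 * m := by omega
  obtain ⟨x, hx⟩ : ∃ x : ℝ, x = ((4 * m : ℕ) : ℝ) := ⟨_, rfl⟩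
  have hx1 : 1 ≤ x := by
    rw [hx]
    exact_mod_cast hM0
  have hx0 : 0 < x := by linarith
  have h2 := hdiv (4 * m) hM0
  rw [← hx] at h1 h2
  have h3 : 1 + Real.log x ≤ C2 * x ^ (ε / 2) := by
    rw [hC2]
    exact PV3_log (by linarith) hx1
  have h4 : 0 ≤ 1 + Real.log x := by
    have := Real.log_nonneg hx1
    linarith
  have h5 : ((4 * m).divisors.card : ℝ) * (1 + Real.log x) ≤
      (C1 * x ^ (ε / 2)) * (C2 * x ^ (ε / 2)) :=
    mul_le_mul h2 h3 h4 (by positivity)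
  have h6 : Real.sqrt x * ((4 * m).divisors.card * (1 + Real.log x)) ≤
      Real.sqrt x * ((C1 * x ^ (ε / 2)) * (C2 * x ^ (ε / 2))) :=
    mul_le_mul_of_nonneg_left h5 (Real.sqrt_nonneg x)
  have h7 : Real.sqrt x * ((C1 * x ^ (ε / 2)) * (C2 * x ^ (ε / 2))) =
      C1 * C2 * x ^ (1 / 2 + ε) := by
    have e1 : x ^ (1 / 2 + ε) = x ^ (1 / 2 : ℝ) * (x ^ (ε / 2) * x ^ (ε / 2)) := by
      rw [← Real.rpow_add hx0, ← Real.rpow_add hx0]
      congr 1
      ring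
    rw [e1, Real.sqrt_eq_rpow]
    ring
  have h8 : x ^ (1 / 2 + ε) = 4 ^ (1 / 2 + ε) * (m : ℝ) ^ (1 / 2 + ε) := by
    rw [hx]
    push_cast
    exact Real.mul_rpow (by norm_num) (Nat.cast_nonneg m)
  have h9 : C1 * C2 * x ^ (1 / 2 + ε) ≤
      max 1 (C1 * C2 * 4 ^ (1 / 2 + ε)) * (m : ℝ) ^ (1 / 2 + ε) := by
    rw [h8, ← mul_assoc]
    exact mul_le_mul_of_nonneg_right (le_max_right _ _) (by positivity)
  linarith

/-- In the form needed for the repulsion lemma (`s = 1`): `PS x₀ 1 (chi m)` with `x₀ = C m^(1/2+ε)`. -/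
theorem chi_PS (ε : ℝ) (hε : 0 < ε) : ∃ C : ℝ, 1 ≤ C ∧ ∀ m : ℕ, ¬ IsSquare m →
    1 ≤ C * (m : ℝ) ^ (1 / 2 + ε) ∧ PS (C * (m : ℝ) ^ (1 / 2 + ε)) 1 (chi m) := by
  obtain ⟨C, hC, h⟩ := chi_PV ε hε
  refine ⟨C, hC, fun m hm => ?_⟩
  have hm1 : 1 ≤ m := by
    rcases Nat.eq_zero_or_pos m with h0 | h0
    · exact absurd ⟨0, by rw [h0]⟩ hm
    · exact h0
  have h1 : (1 : ℝ) ≤ (m : ℝ) ^ (1 / 2 + ε) :=
    Real.one_le_rpow (by exact_mod_cast hm1) (by positivity)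
  refine ⟨by nlinarith, fun N _ => ?_⟩
  rw [sub_self, Real.rpow_zero, mul_one, Real.rpow_one]
  exact h m hm N

end TwV
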