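import Pool.Agent.W_aaa0df_h65.RDefs

/-! Repulsion lemma: partial summation with a power bound (helper65). -/

set_option autoImplicit false

namespace TwV

open Finset Real Twist

/-- `y^(-s) (1 + s/y) ≤ (y-1)^(-s)` -/
theorem RA1_bern {y s : ℝ} (hy : 1 < y) (hs : 0 < s) :
    y ^ (-s) / y ≤ 1 / s * ((y - 1) ^ (-s) - y ^ (-s)) := by
  have hy0 : 0 < y := by linarith
  have hy1 : 0 < y - 1 := by linarith
  have hp : 0 < y ^ (-s) := rpow_pos_of_pos hy0 _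
  have h1 : (y - 1) ^ (-s) = y ^ (-s) * Real.exp (s * (log y - log (y - 1))) := by
    rw [rpow_def_of_pos hy1, rpow_def_of_pos hy0, ← Real.exp_add]
    congr 1
    ring
  have h2 : 1 / y ≤ log y - log (y - 1) := by
    have h3 := Real.log_le_sub_one_of_pos (div_pos hy1 hy0)
    rw [Real.log_div hy1.ne' hy0.ne'] at h3
    have h4 : (y - 1) / y - 1 = -(1 / y) := by field_simp; ring
    linarith
  have h5 : 1 + s / y ≤ Real.exp (s * (log y - log (y - 1))) := by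
    have h6 := Real.add_one_le_exp (s * (log y - log (y - 1)))
    have h7 : s * (1 / y) ≤ s * (log y - log (y - 1)) := mul_le_mul_of_nonneg_left h2 hs.le
    have h8 : s / y = s * (1 / y) := by ring
    linarith
  have h9 : y ^ (-s) * (1 + s / y) ≤ (y - 1) ^ (-s) := by
    rw [h1]
    exact mul_le_mul_of_nonneg_left h5 hp.le
  have h10 : y ^ (-s) / y = 1 / s * (y ^ (-s) * (s / y)) := by
    field_simp
  rw [h10]
  apply mul_le_mul_of_nonneg_left _ (by positivity)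
  linarith

/-- `(y+1)^(1-s) - y^(1-s) ≤ y^(-s)` -/
theorem RA1_diff {y s : ℝ} (hy : 0 < y) (hs : 0 < s) :
    (y + 1) ^ (1 - s) - y ^ (1 - s) ≤ y ^ (-s) := by
  have hy1 : 0 < y + 1 := by linarith
  have h1 : (y + 1) ^ (1 - s) = (y + 1) * (y + 1) ^ (-s) := by
    rw [sub_eq_add_neg, rpow_add hy1, rpow_one]
  have h2 : y ^ (1 - s) = y * y ^ (-s) := by
    rw [sub_eq_add_neg, rpow_add hy, rpow_one]
  have h3 : (y + 1) ^ (-s) ≤ y ^ (-s) := by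
    apply rpow_le_rpow_of_nonpos hy (by linarith) (by linarith)
  rw [h1, h2]
  nlinarith [mul_le_mul_of_nonneg_left h3 hy1.le]

theorem RA1_ind {x₀ s G : ℝ} (hx : 1 ≤ x₀) (hs : 0 < s) (hs1 : s ≤ 1) (hG : 0 ≤ G) {χ : ℕ → ℝ}
    (h : PS x₀ s χ) {φ : ℕ → ℝ} {M : ℕ} (hM : 1 ≤ M) (N : ℕ) (hN : M + 1 ≤ N)
    (hφ : ∀ n, M + 1 ≤ n → n < N → φ (n + 1) ≤ φ n) (hpos : ∀ n, M + 1 ≤ n → n ≤ N → 0 ≤ φ n)
    (hφG : ∀ n, M + 1 ≤ n → n ≤ N → φ n ≤ G / n) :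
    |∑ n ∈ Ioc M N, χ n * φ n - (∑ n ∈ Icc 1 N, χ n) * φ N| ≤ x₀ ^ s *
      ((M : ℝ) ^ (1 - s) * φ (M + 1) + ((M : ℝ) + 1) ^ (1 - s) * φ (M + 1)
        + G / s * ((M : ℝ) ^ (-s) - ((N : ℝ) - 1) ^ (-s)) - (N : ℝ) ^ (1 - s) * φ N) := by
  have hx0 : 0 < x₀ := by linarith
  have hX : 0 < x₀ ^ s := rpow_pos_of_pos hx0 _
  induction N, hN using Nat.le_induction with
  | base =>
    have e1 : Ioc M (M + 1) = {M + 1} := by
      ext a; simp
    have e2 : ∑ n ∈ Icc 1 (M + 1), χ n = ∑ n ∈ Icc 1 M, χ n + χ (M + 1) := by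
      rw [Finset.sum_Icc_succ_top (by omega)]
    rw [e1, Finset.sum_singleton, e2]
    have e3 : χ (M + 1) * φ (M + 1) - (∑ n ∈ Icc 1 M, χ n + χ (M + 1)) * φ (M + 1)
        = - ((∑ n ∈ Icc 1 M, χ n) * φ (M + 1)) := by ring
    rw [e3, abs_neg, abs_mul, abs_of_nonneg (hpos (M + 1) le_rfl le_rfl)]
    have e4 := mul_le_mul_of_nonneg_right (h M hM) (hpos (M + 1) le_rfl le_rfl)
    have e5 : x₀ ^ s * ((M : ℝ) ^ (1 - s) * φ (M + 1) + ((M : ℝ) + 1) ^ (1 - s) * φ (M + 1)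
        + G / s * ((M : ℝ) ^ (-s) - (((M + 1 : ℕ) : ℝ) - 1) ^ (-s))
        - ((M + 1 : ℕ) : ℝ) ^ (1 - s) * φ (M + 1)) = x₀ ^ s * (M : ℝ) ^ (1 - s) * φ (M + 1) := by
      push_cast
      rw [add_sub_cancel_right]
      ring
    rw [e5]
    exact e4
  | succ N hN ih =>
    have ih' := ih (fun n h1 h2 => hφ n h1 (by omega)) (fun n h1 h2 => hpos n h1 (by omega))
      (fun n h1 h2 => hφG n h1 (by omega))
    have e1 : ∑ n ∈ Ioc M (N + 1), χ n * φ n = ∑ n ∈ Ioc M N, χ n * φ n + χ (N + 1) * φ (N + 1) := by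
      rw [Finset.sum_Ioc_succ_top (by omega)]
    have e2 : ∑ n ∈ Icc 1 (N + 1), χ n = ∑ n ∈ Icc 1 N, χ n + χ (N + 1) := by
      rw [Finset.sum_Icc_succ_top (by omega)]
    rw [e1, e2]
    set S := ∑ n ∈ Ioc M N, χ n * φ n
    set P := ∑ n ∈ Icc 1 N, χ n with hP
    have e3 : S + χ (N + 1) * φ (N + 1) - (P + χ (N + 1)) * φ (N + 1)
        = (S - P * φ N) + P * (φ N - φ (N + 1)) := by ring
    rw [e3]
    have hmono : 0 ≤ φ N - φ (N + 1) := by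
      have := hφ N hN (by omega)
      linarith
    have e4 : |P * (φ N - φ (N + 1))| ≤ x₀ ^ s * (N : ℝ) ^ (1 - s) * (φ N - φ (N + 1)) := by
      rw [abs_mul, abs_of_nonneg hmono]
      exact mul_le_mul_of_nonneg_right (h N (by omega)) hmono
    have hNr : (1 : ℝ) < N := by
      have : 1 < N := by omega
      exact_mod_cast this
    have hN0 : (0 : ℝ) < N := by linarith
    have e5 : (((N : ℝ) + 1) ^ (1 - s) - (N : ℝ) ^ (1 - s)) * φ (N + 1)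
        ≤ G / s * (((N : ℝ) - 1) ^ (-s) - (N : ℝ) ^ (-s)) := by
      have f1 := RA1_diff hN0 hs
      have f2 := RA1_bern hNr hs
      have f3 := hφG (N + 1) (by omega) le_rfl
      have f4 := hpos (N + 1) (by omega) le_rfl
      have f5 : φ (N + 1) ≤ G / N := by
        refine f3.trans ?_
        push_cast
        exact div_le_div_of_nonneg_left hG hN0 (by linarith)
      have f6 : 0 ≤ (N : ℝ) ^ (-s) := (rpow_pos_of_pos hN0 _).le
      calc (((N : ℝ) + 1) ^ (1 - s) - (N : ℝ) ^ (1 - s)) * φ (N + 1)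
          ≤ (N : ℝ) ^ (-s) * φ (N + 1) := mul_le_mul_of_nonneg_right f1 f4
        _ ≤ (N : ℝ) ^ (-s) * (G / N) := mul_le_mul_of_nonneg_left f5 f6
        _ = G * ((N : ℝ) ^ (-s) / N) := by ring
        _ ≤ G * (1 / s * (((N : ℝ) - 1) ^ (-s) - (N : ℝ) ^ (-s))) :=
            mul_le_mul_of_nonneg_left f2 hG
        _ = G / s * (((N : ℝ) - 1) ^ (-s) - (N : ℝ) ^ (-s)) := by ring
    refine (abs_add_le _ _).trans ((add_le_add ih' e4).trans ?_)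
    rw [mul_assoc, ← mul_add]
    apply mul_le_mul_of_nonneg_left _ hX.le
    push_cast
    rw [add_sub_cancel_right]
    nlinarith [e5]

/-- Partial summation.
Let `P(n) = ∑_{m ≤ n} χ m`, `|P(n)| ≤ x₀^s n^(1-s)` for `n ≥ 1`, and let `φ ≥ 0` be non-increasing on
`(M, N]` with `φ n ≤ G/n` there, `M ≥ 1`.

Proof. If `N ≤ M` the sum is empty. Otherwise by Abel summation
`∑_{M < n ≤ N} χ n φ n = P(N) φ(N) - P(M) φ(M+1) + ∑_{M < n < N} P(n) (φ(n) - φ(n+1))`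
(induction on `N`). The first two terms are at most
`x₀^s N^(1-s) G/N + x₀^s M^(1-s) G/(M+1) ≤ 2 G x₀^s M^(-s)` in absolute value. The last sum is at most
`x₀^s ∑_{M < n < N} n^(1-s) (φ(n) - φ(n+1))`, and by Abel summation again
`∑_{M<n<N} n^(1-s) (φ(n) - φ(n+1)) ≤ (M+1)^(1-s) φ(M+1) + ∑_{M+1 < n ≤ N} (n^(1-s) - (n-1)^(1-s)) φ(n)`.
Here `(M+1)^(1-s) φ(M+1) ≤ G (M+1)^(-s) ≤ G M^(-s)`, and `n^(1-s) - (n-1)^(1-s) ≤ (n-1)^(-s)` (mean value
theorem, or: `n^(1-s) ≤ n (n-1)^(-s)` because `n^(-s) ≤ (n-1)^(-s)`, and `n (n-1)^(-s) - (n-1)^(1-s)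
= (n-1)^(-s)`), so the terms are at most `G (n-1)^(-s)/n ≤ G (n-1)^(-1-s)`, and
`∑_{n > M+1} (n-1)^(-1-s) = ∑_{j > M} j^(-1-s) ≤ M^(-s)/s`
(because `j^(-1-s) ≤ ((j-1)^(-s) - j^(-s))/s`: by the inequality `1 + s u ≤ (1 - u)^(-s)`, `u = 1/j`, i.e.
Bernoulli `Real.one_add_mul_self_le_rpow_one_add`-type inequality or the mean value theorem; the sum
telescopes). Total: `G x₀^s M^(-s) (3 + 1/s)`.
-/
theorem ps_abel {x₀ s G : ℝ} (hx : 1 ≤ x₀) (hs : 0 < s) (hs1 : s ≤ 1) (hG : 0 ≤ G) {χ : ℕ → ℝ}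
    (h : PS x₀ s χ) {φ : ℕ → ℝ} {M N : ℕ} (hM : 1 ≤ M)
    (hφ : ∀ n, M + 1 ≤ n → n < N → φ (n + 1) ≤ φ n) (hpos : ∀ n, M + 1 ≤ n → n ≤ N → 0 ≤ φ n)
    (hφG : ∀ n, M + 1 ≤ n → n ≤ N → φ n ≤ G / n) :
    |∑ n ∈ Ioc M N, χ n * φ n| ≤ (3 + 1 / s) * G * (x₀ / M) ^ s := by
  have hx0 : 0 < x₀ := by linarith
  have hX : 0 < x₀ ^ s := rpow_pos_of_pos hx0 _
  have hM0 : (0 : ℝ) < M := by exact_mod_cast hM
  have hdiv : (x₀ / M) ^ s = x₀ ^ s * (M : ℝ) ^ (-s) := by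
    rw [div_rpow hx0.le hM0.le, rpow_neg hM0.le, div_eq_mul_inv]
  have hMs : 0 < (M : ℝ) ^ (-s) := rpow_pos_of_pos hM0 _
  rw [hdiv]
  rcases Nat.lt_or_ge M N with hMN | hMN
  · have h1 := RA1_ind hx hs hs1 hG h hM N hMN hφ hpos hφG
    have hNr : (0 : ℝ) < N := by
      have : 0 < N := by omega
      exact_mod_cast this
    have hN1 : (0 : ℝ) ≤ (N : ℝ) - 1 := by
      have : (1 : ℝ) ≤ N := by
        have : 1 ≤ N := by omega
        exact_mod_cast this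
      linarith
    have h2 : |(∑ n ∈ Icc 1 N, χ n) * φ N| ≤ x₀ ^ s * (N : ℝ) ^ (1 - s) * φ N := by
      rw [abs_mul, abs_of_nonneg (hpos N (by omega) le_rfl)]
      exact mul_le_mul_of_nonneg_right (h N (by omega)) (hpos N (by omega) le_rfl)
    have h3 : |∑ n ∈ Ioc M N, χ n * φ n| ≤
        |∑ n ∈ Ioc M N, χ n * φ n - (∑ n ∈ Icc 1 N, χ n) * φ N|
          + |(∑ n ∈ Icc 1 N, χ n) * φ N| := by
      have := abs_add_le (∑ n ∈ Ioc M N, χ n * φ n - (∑ n ∈ Icc 1 N, χ n) * φ N)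
        ((∑ n ∈ Icc 1 N, χ n) * φ N)
      rwa [sub_add_cancel] at this
    have h4 : ((M : ℝ) + 1) ^ (1 - s) * φ (M + 1) ≤ G * (M : ℝ) ^ (-s) := by
      have hM1 : (0 : ℝ) < (M : ℝ) + 1 := by linarith
      have f1 : φ (M + 1) ≤ G / ((M : ℝ) + 1) := by
        have := hφG (M + 1) le_rfl hMN
        push_cast at this
        exact this
      have f2 : ((M : ℝ) + 1) ^ (1 - s) = ((M : ℝ) + 1) * ((M : ℝ) + 1) ^ (-s) := by
        rw [sub_eq_add_neg, rpow_add hM1, rpow_one]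
      have f3 : ((M : ℝ) + 1) ^ (-s) ≤ (M : ℝ) ^ (-s) :=
        rpow_le_rpow_of_nonpos hM0 (by linarith) (by linarith)
      calc ((M : ℝ) + 1) ^ (1 - s) * φ (M + 1)
          ≤ ((M : ℝ) + 1) ^ (1 - s) * (G / ((M : ℝ) + 1)) :=
            mul_le_mul_of_nonneg_left f1 (rpow_pos_of_pos hM1 _).le
        _ = G * ((M : ℝ) + 1) ^ (-s) := by rw [f2]; field_simp
        _ ≤ G * (M : ℝ) ^ (-s) := mul_le_mul_of_nonneg_left f3 hG
    have h5 : (M : ℝ) ^ (1 - s) * φ (M + 1) ≤ G * (M : ℝ) ^ (-s) := by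
      refine le_trans ?_ h4
      apply mul_le_mul_of_nonneg_right _ (hpos (M + 1) le_rfl hMN)
      exact rpow_le_rpow hM0.le (by linarith) (by linarith)
    have h6 : 0 ≤ ((N : ℝ) - 1) ^ (-s) := rpow_nonneg hN1 _
    have h7 : 0 ≤ G / s := div_nonneg hG hs.le
    have h8 : G / s * ((M : ℝ) ^ (-s) - ((N : ℝ) - 1) ^ (-s)) ≤ G / s * (M : ℝ) ^ (-s) :=
      mul_le_mul_of_nonneg_left (by linarith) h7
    have h9 : 0 ≤ G * (M : ℝ) ^ (-s) := mul_nonneg hG hMs.le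
    refine h3.trans ((add_le_add h1 h2).trans ?_)
    rw [mul_assoc (x₀ ^ s) ((N : ℝ) ^ (1 - s)) (φ N), ← mul_add]
    have h10 : (3 + 1 / s) * G * (x₀ ^ s * (M : ℝ) ^ (-s))
        = x₀ ^ s * (3 * (G * (M : ℝ) ^ (-s)) + G / s * (M : ℝ) ^ (-s)) := by ring
    rw [h10]
    apply mul_le_mul_of_nonneg_left _ hX.le
    linarith
  · rw [Finset.Ioc_eq_empty (by omega), Finset.sum_empty, abs_zero]
    positivity

end TwV
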