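import Pool.Agent.W_aaa0df_h65.RA1

/-! Repulsion lemma: asymptotics of `R(t)` beyond the scale `x₀` (helper65). -/

set_option autoImplicit false

namespace TwV

open Finset Real Twist

/-- Asymptotics of `R(t) = ∑_{n ≤ e^t} r(n)/n`, `r = 1 * χ`, for `t ≥ log x₀ + 2`.

Proof (compare `Twist.RR_asym` in `W_aaa0df_h86/RAsym.lean`, from which most lines can be copied; there the
cut is `⌊e^(t/2)⌋`). Let `γ` be the Euler-Mascheroni constant, `Z = ⌊e^T⌋`,
`L = ∑_{d ≤ Z} χ(d)/d`, `κ = ∑_{d ≤ Z} χ(d) (γ - log d)/d`. For `log x₀ + 2 ≤ t ≤ T` put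
`B = ⌊(x₀ e^t)^(1/2)⌋`, so `x₀ e ≤ (x₀ e^t)^(1/2)`, `B ≥ 2`, `B ≥ (x₀ e^t)^(1/2)/2`, `B ≤ e^t`, and
`x₀/B ≤ 2 (x₀/e^t)^(1/2)`, hence `(x₀/B)^s ≤ 2 exp(-(s/2)(t - log x₀)) =: 2 ε_t`.
By `RR_eq`, `RR χ t = ∑_{d ≤ e^t} χ(d) HH(e^t/d)/d`. For `d ≤ B` replace `HH(e^t/d)` by
`t - log d + γ` with error `2 d/e^t` (`HH_approx`): total error
`∑_{d ≤ B} (1/d) (2 d/e^t) = 2 B/e^t ≤ 2 (x₀/e^t)^(1/2) ≤ 2 ε_t` (as `s ≤ 1`, `x₀ ≤ e^t`).
For `B < d ≤ ⌊e^t⌋` use `ps_abel` with `M = B`, `N = ⌊e^t⌋`, `φ(d) = HH(e^t/d)/d` (non-increasing, `≥ 0`,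
`φ(d) ≤ (1 + t)/d` by `HH_le`, `HH_mono`), `G = 1 + T`: at most `(3 + 1/s)(1 + T) 2 ε_t`.
On the other side, `L t + κ = ∑_{d ≤ Z} χ(d) (t + γ - log d)/d`; the part `B < d ≤ Z` is
`(t + γ) ∑ χ(d)/d - ∑ χ(d) log d/d`; `ps_abel` with `φ(d) = 1/d`, `G = 1`, and with `φ(d) = log d/d` (non-increasing
for `d ≥ 3`, and `d ≥ B + 1 ≥ 3`; `G = T` since `log d ≤ T`) bounds it by
`(t + 1) (3 + 1/s) 2 ε_t + T (3 + 1/s) 2 ε_t`. So `C = 2 + 6 (3 + 1/s)` works. -/
theorem RR_asym3 (s : ℝ) (hs : 0 < s) (hs1 : s ≤ 1) :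
    ∃ C : ℝ, 0 ≤ C ∧ ∀ (q x₀ : ℝ) (χ : ℕ → ℝ), 1 ≤ x₀ → RChar q χ → PS x₀ s χ →
      ∀ T : ℝ, 0 ≤ T → ∃ L κ : ℝ, ∀ t : ℝ, log x₀ + 2 ≤ t → t ≤ T →
        |RR χ t - (L * t + κ)| ≤ C * (1 + T) * Real.exp (-(s / 2) * (t - log x₀)) := by
  refine ⟨2 + 6 * (3 + 1 / s), by positivity, ?_⟩
  intro q x₀ χ hx h hps T hT
  have hx0 : 0 < x₀ := by linarith
  obtain ⟨K, hK⟩ : ∃ x : ℝ, x = 3 + 1 / s := ⟨_, rfl⟩
  have hK0 : 0 < K := by rw [hK]; positivity
  obtain ⟨N', hN'⟩ : ∃ n : ℕ, n = ⌊Real.exp T⌋₊ := ⟨_, rfl⟩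
  obtain ⟨γ, hγ⟩ : ∃ g : ℝ, g = eulerMascheroniConstant := ⟨_, rfl⟩
  have hγ0 : 0 < γ := by
    rw [hγ]; linarith [Real.one_half_lt_eulerMascheroniConstant]
  have hγ1 : γ ≤ 1 := by
    rw [hγ]; linarith [Real.eulerMascheroniConstant_lt_two_thirds]
  obtain ⟨L, hL⟩ : ∃ x : ℝ, x = ∑ d ∈ Icc 1 N', χ d * (1 / (d : ℝ)) := ⟨_, rfl⟩
  obtain ⟨L₁, hL₁⟩ : ∃ x : ℝ, x = ∑ d ∈ Icc 1 N', χ d * (log d / (d : ℝ)) := ⟨_, rfl⟩
  refine ⟨L, γ * L - L₁, ?_⟩
  intro t ht htT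
  obtain ⟨ℓ, hℓ⟩ : ∃ x : ℝ, x = log x₀ := ⟨_, rfl⟩
  rw [← hℓ] at ht ⊢
  have hℓ0 : 0 ≤ ℓ := by rw [hℓ]; exact Real.log_nonneg hx
  have hxe : x₀ = Real.exp ℓ := by rw [hℓ, Real.exp_log hx0]
  have ht2 : 2 ≤ t := by linarith
  obtain ⟨N, hN⟩ : ∃ n : ℕ, n = ⌊Real.exp t⌋₊ := ⟨_, rfl⟩
  obtain ⟨y, hy⟩ : ∃ x : ℝ, x = Real.exp ((t + ℓ) / 2) := ⟨_, rfl⟩
  obtain ⟨M, hM⟩ : ∃ n : ℕ, n = ⌊y⌋₊ := ⟨_, rfl⟩
  obtain ⟨E, hE⟩ : ∃ x : ℝ, x = Real.exp (-(s / 2) * (t - ℓ)) := ⟨_, rfl⟩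
  have hE0 : 0 < E := by rw [hE]; exact Real.exp_pos _
  have hy0 : 0 < y := by rw [hy]; exact Real.exp_pos _
  have he2 : (2 : ℝ) ≤ Real.exp 1 := by
    have := Real.add_one_le_exp (1 : ℝ)
    linarith
  have hy2 : 2 ≤ y := by
    refine he2.trans ?_
    rw [hy]; exact Real.exp_le_exp.2 (by linarith)
  have hyt : y ≤ Real.exp t := by
    rw [hy]; exact Real.exp_le_exp.2 (by linarith)
  have hMle : (M : ℝ) ≤ y := by
    rw [hM]; exact Nat.floor_le hy0.le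
  have hMlt : y < (M : ℝ) + 1 := by
    rw [hM]; exact Nat.lt_floor_add_one _
  have hM2 : 2 ≤ M := by
    rw [hM]; exact Nat.le_floor (by exact_mod_cast hy2)
  have hM1 : 1 ≤ M := by omega
  have hM2r : (2 : ℝ) ≤ M := by exact_mod_cast hM2
  have hMhalf : y / 2 ≤ M := by linarith
  have hMN : M ≤ N := by
    rw [hM, hN]; exact Nat.floor_mono hyt
  have hNN' : N ≤ N' := by
    rw [hN, hN']; exact Nat.floor_mono (Real.exp_le_exp.2 htT)
  -- the power
  have hpow : (x₀ / M) ^ s ≤ 2 * E := by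
    have h1 : x₀ / M ≤ 2 * Real.exp (-(t - ℓ) / 2) := by
      rw [div_le_iff₀ (by linarith)]
      have h2 : x₀ = Real.exp (-(t - ℓ) / 2) * y := by
        rw [hxe, hy, ← Real.exp_add]; congr 1; ring
      calc x₀ = 2 * Real.exp (-(t - ℓ) / 2) * (y / 2) := by rw [h2]; ring
        _ ≤ 2 * Real.exp (-(t - ℓ) / 2) * M :=
            mul_le_mul_of_nonneg_left hMhalf (by positivity)
    calc (x₀ / M) ^ s ≤ (2 * Real.exp (-(t - ℓ) / 2)) ^ s :=
          Real.rpow_le_rpow (by positivity) h1 hs.le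
      _ = (2 : ℝ) ^ s * Real.exp (-(t - ℓ) / 2) ^ s :=
          Real.mul_rpow (by norm_num) (Real.exp_pos _).le
      _ ≤ 2 * E := by
          have h3 : (2 : ℝ) ^ s ≤ 2 := by
            calc (2 : ℝ) ^ s ≤ (2 : ℝ) ^ (1 : ℝ) :=
                  Real.rpow_le_rpow_of_exponent_le (by norm_num) hs1
              _ = 2 := Real.rpow_one _
          have h4 : Real.exp (-(t - ℓ) / 2) ^ s = E := by
            rw [hE, ← Real.exp_mul]; congr 1; ring
          rw [h4]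
          exact mul_le_mul_of_nonneg_right h3 hE0.le
  have hME : (M : ℝ) / Real.exp t ≤ E := by
    calc (M : ℝ) / Real.exp t ≤ y / Real.exp t :=
          div_le_div_of_nonneg_right hMle (Real.exp_pos t).le
      _ = Real.exp (-(t - ℓ) / 2) := by
          rw [hy, ← Real.exp_sub]; congr 1; ring
      _ ≤ E := by
          rw [hE]
          apply Real.exp_le_exp.2
          nlinarith
  -- the head and the tail
  have hRR : RR χ t = ∑ d ∈ Icc 1 M, χ d * (HH (Real.exp t / d) / d)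
      + ∑ d ∈ Ioc M N, χ d * (HH (Real.exp t / d) / d) := by
    rw [RR_eq, ← hN, RAsym_split _ hMN]
  have hLs : L = ∑ d ∈ Icc 1 M, χ d * (1 / (d : ℝ)) + ∑ d ∈ Ioc M N', χ d * (1 / (d : ℝ)) := by
    rw [hL, RAsym_split _ (hMN.trans hNN')]
  have hL₁s : L₁ = ∑ d ∈ Icc 1 M, χ d * (log d / (d : ℝ))
      + ∑ d ∈ Ioc M N', χ d * (log d / (d : ℝ)) := by
    rw [hL₁, RAsym_split _ (hMN.trans hNN')]
  -- (1)
  have s1 : |∑ d ∈ Ioc M N, χ d * (HH (Real.exp t / d) / d)| ≤ K * (1 + T) * (2 * E) := by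
    have hab := ps_abel (G := 1 + T) hx hs hs1 (by linarith) hps
      (φ := fun d : ℕ => HH (Real.exp t / d) / d) (M := M) (N := N) hM1
      (by
        intro n hn _
        have hn0 : (0 : ℝ) < n := by
          have : 0 < n := by omega
          exact_mod_cast this
        have hn1 : (n : ℝ) ≤ ((n + 1 : ℕ) : ℝ) := by push_cast; linarith
        exact div_le_div₀ (HH_nonneg _)
          (HH_mono (div_le_div_of_nonneg_left (Real.exp_pos t).le hn0 hn1)) hn0 hn1)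
      (fun n _ _ => div_nonneg (HH_nonneg _) (Nat.cast_nonneg n))
      (by
        intro n hn hnN
        have hn1 : (1 : ℝ) ≤ n := by
          have : 1 ≤ n := by omega
          exact_mod_cast this
        have hne : (n : ℝ) ≤ Real.exp t := by
          have h1 : (n : ℝ) ≤ N := by exact_mod_cast hnN
          refine h1.trans ?_
          rw [hN]; exact Nat.floor_le (Real.exp_pos _).le
        refine div_le_div_of_nonneg_right ?_ (by linarith)
        have hu : 1 ≤ Real.exp t / n := by rw [le_div_iff₀ (by linarith)]; linarith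
        refine (HH_le hu).trans ?_
        have hlog : log (Real.exp t / n) ≤ t := by
          calc log (Real.exp t / n) ≤ log (Real.exp t) := by
                apply Real.log_le_log (by linarith)
                exact div_le_self (Real.exp_pos t).le hn1
            _ = t := Real.log_exp t
        linarith)
    rw [← hK] at hab
    exact hab.trans (mul_le_mul_of_nonneg_left hpow (by positivity))
  -- (2)
  have s2 : |∑ d ∈ Icc 1 M, χ d * (HH (Real.exp t / d) / d)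
      - ∑ d ∈ Icc 1 M, χ d * ((t - log d + γ) / d)| ≤ 2 * E := by
    rw [← Finset.sum_sub_distrib]
    refine (Finset.abs_sum_le_sum_abs _ _).trans ?_
    have hterm : ∀ d ∈ Icc 1 M,
        |χ d * (HH (Real.exp t / d) / d) - χ d * ((t - log d + γ) / d)| ≤ 2 / Real.exp t := by
      intro d hd
      rw [mem_Icc] at hd
      have hd0 : (0 : ℝ) < d := by exact_mod_cast hd.1
      have hdM : (d : ℝ) ≤ M := by exact_mod_cast hd.2
      have hde : (d : ℝ) ≤ Real.exp t := hdM.trans (hMle.trans hyt)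
      have hu : 1 ≤ Real.exp t / d := by rw [le_div_iff₀ hd0]; linarith
      have hap := HH_approx hu
      rw [Real.log_div (Real.exp_pos t).ne' hd0.ne', Real.log_exp, ← hγ] at hap
      have heq : χ d * (HH (Real.exp t / d) / d) - χ d * ((t - log d + γ) / d)
          = χ d * ((HH (Real.exp t / d) - (t - log d) - γ) / d) := by
        ring
      rw [heq, abs_mul, abs_div, abs_of_pos hd0]
      have h3 : |HH (Real.exp t / d) - (t - log d) - γ| / d ≤ 2 / Real.exp t := by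
        rw [div_le_iff₀ hd0]
        refine hap.trans ?_
        rw [div_div_eq_mul_div, div_mul_eq_mul_div]
      calc |χ d| * (|HH (Real.exp t / d) - (t - log d) - γ| / d)
          ≤ 1 * (2 / Real.exp t) := mul_le_mul (h.abs_le_one d) h3 (by positivity) (by norm_num)
        _ = 2 / Real.exp t := one_mul _
    refine (Finset.sum_le_sum hterm).trans ?_
    rw [Finset.sum_const, Nat.card_Icc, nsmul_eq_mul]
    have : ((M + 1 - 1 : ℕ) : ℝ) = M := by simp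
    rw [this]
    calc (M : ℝ) * (2 / Real.exp t) = 2 * (M / Real.exp t) := by ring
      _ ≤ 2 * E := by linarith
  -- (3)
  have s3 : |∑ d ∈ Ioc M N', χ d * (1 / (d : ℝ))| ≤ K * (2 * E) := by
    have hab := ps_abel (G := 1) hx hs hs1 (by norm_num) hps
      (φ := fun d : ℕ => 1 / (d : ℝ)) (M := M) (N := N') hM1
      (by
        intro n hn _
        have hn0 : (0 : ℝ) < n := by
          have : 0 < n := by omega
          exact_mod_cast this
        exact one_div_le_one_div_of_le hn0 (by push_cast; linarith))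
      (fun n _ _ => by positivity)
      (fun n _ _ => le_refl _)
    rw [← hK, mul_one] at hab
    exact hab.trans (mul_le_mul_of_nonneg_left hpow hK0.le)
  -- (4)
  have s4 : |∑ d ∈ Ioc M N', χ d * (log d / (d : ℝ))| ≤ K * T * (2 * E) := by
    have hab := ps_abel (G := T) hx hs hs1 hT hps
      (φ := fun d : ℕ => log d / (d : ℝ)) (M := M) (N := N') hM1
      (by
        intro n hn _
        have hn3 : (3 : ℝ) ≤ n := by
          have : 3 ≤ n := by omega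
          exact_mod_cast this
        have he3 : Real.exp 1 ≤ 3 := by
          have := Real.exp_one_lt_d9
          linarith
        have hanti := Real.log_div_self_antitoneOn
          (show (n : ℝ) ∈ {x : ℝ | Real.exp 1 ≤ x} from he3.trans hn3)
          (show (((n + 1 : ℕ) : ℝ)) ∈ {x : ℝ | Real.exp 1 ≤ x} from by
            change Real.exp 1 ≤ ((n + 1 : ℕ) : ℝ)
            push_cast; linarith)
          (by push_cast; linarith)
        exact hanti)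
      (fun n hn _ => by
        have hn1 : (1 : ℝ) ≤ n := by
          have : 1 ≤ n := by omega
          exact_mod_cast this
        exact div_nonneg (Real.log_nonneg hn1) (by linarith))
      (by
        intro n hn hnN
        have hn1 : (1 : ℝ) ≤ n := by
          have : 1 ≤ n := by omega
          exact_mod_cast this
        have hne : (n : ℝ) ≤ Real.exp T := by
          have h1 : (n : ℝ) ≤ N' := by exact_mod_cast hnN
          refine h1.trans ?_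
          rw [hN']; exact Nat.floor_le (Real.exp_pos _).le
        refine div_le_div_of_nonneg_right ?_ (by linarith)
        calc log n ≤ log (Real.exp T) := Real.log_le_log (by linarith) hne
          _ = T := Real.log_exp T)
    rw [← hK] at hab
    exact hab.trans (mul_le_mul_of_nonneg_left hpow (by positivity))
  -- assembly
  have hhead : ∑ d ∈ Icc 1 M, χ d * ((t - log d + γ) / d)
      = (t + γ) * ∑ d ∈ Icc 1 M, χ d * (1 / (d : ℝ)) - ∑ d ∈ Icc 1 M, χ d * (log d / (d : ℝ)) := by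
    rw [Finset.mul_sum, ← Finset.sum_sub_distrib]
    apply Finset.sum_congr rfl
    intro d _
    ring
  obtain ⟨A, hA⟩ : ∃ x : ℝ, x = ∑ d ∈ Icc 1 M, χ d * (HH (Real.exp t / d) / d) := ⟨_, rfl⟩
  obtain ⟨B, hB⟩ : ∃ x : ℝ, x = ∑ d ∈ Ioc M N, χ d * (HH (Real.exp t / d) / d) := ⟨_, rfl⟩
  obtain ⟨D, hD⟩ : ∃ x : ℝ, x = ∑ d ∈ Icc 1 M, χ d * ((t - log d + γ) / d) := ⟨_, rfl⟩
  obtain ⟨τ, hτ⟩ : ∃ x : ℝ, x = ∑ d ∈ Ioc M N', χ d * (1 / (d : ℝ)) := ⟨_, rfl⟩
  obtain ⟨σ, hσ⟩ : ∃ x : ℝ, x = ∑ d ∈ Ioc M N', χ d * (log d / (d : ℝ)) := ⟨_, rfl⟩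
  obtain ⟨P, hP⟩ : ∃ x : ℝ, x = ∑ d ∈ Icc 1 M, χ d * (1 / (d : ℝ)) := ⟨_, rfl⟩
  obtain ⟨Q, hQ⟩ : ∃ x : ℝ, x = ∑ d ∈ Icc 1 M, χ d * (log d / (d : ℝ)) := ⟨_, rfl⟩
  rw [← hA, ← hB] at hRR
  rw [← hP, ← hτ] at hLs
  rw [← hQ, ← hσ] at hL₁s
  rw [← hD, ← hP, ← hQ] at hhead
  rw [← hB] at s1
  rw [← hA, ← hD] at s2
  rw [← hτ] at s3
  rw [← hσ] at s4
  have hdiff : RR χ t - (L * t + (γ * L - L₁)) = B + (A - D) - (t + γ) * τ + σ := by
    rw [hRR, hLs, hL₁s]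
    have : A = (A - D) + D := by ring
    rw [this, hhead]
    ring
  rw [← hE, hdiff, ← hK]
  have s3' : |(t + γ) * τ| ≤ (1 + T) * (K * (2 * E)) := by
    rw [abs_mul, abs_of_nonneg (by linarith : 0 ≤ t + γ)]
    exact mul_le_mul (by linarith) s3 (abs_nonneg _) (by linarith)
  have hKE : 0 ≤ K * E := by positivity
  have hTE : 0 ≤ T * E := by positivity
  have e1 : K * (1 + T) * (2 * E) = 2 * (K * E) + 2 * (K * (T * E)) := by ring
  have e3 : (1 + T) * (K * (2 * E)) = 2 * (K * E) + 2 * (K * (T * E)) := by ring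
  have e4 : K * T * (2 * E) = 2 * (K * (T * E)) := by ring
  have e5 : (2 + 6 * K) * (1 + T) * E = 2 * E + 2 * (T * E) + 6 * (K * E) + 6 * (K * (T * E)) := by
    ring
  rw [e1] at s1
  rw [e3] at s3'
  rw [e4] at s4
  rw [e5]
  clear e1 e3 e4 e5
  obtain ⟨u, hu⟩ : ∃ x : ℝ, x = K * E := ⟨_, rfl⟩
  obtain ⟨v, hv⟩ : ∃ x : ℝ, x = T * E := ⟨_, rfl⟩
  obtain ⟨w, hw⟩ : ∃ x : ℝ, x = K * (T * E) := ⟨_, rfl⟩
  have hw0 : 0 ≤ w := by rw [hw]; positivity
  obtain ⟨z, hz⟩ : ∃ x : ℝ, x = (t + γ) * τ := ⟨_, rfl⟩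
  rw [← hu] at s1 s3' hKE ⊢
  rw [← hw] at s1 s3' s4 ⊢
  rw [← hv] at hTE ⊢
  rw [← hz] at s3' ⊢
  have b1 := abs_le.1 s1
  have b2 := abs_le.1 s2
  have b3 := abs_le.1 s3'
  have b4 := abs_le.1 s4
  rw [abs_le]
  constructor
  · linarith [b1.1, b2.1, b3.2, b4.1]
  · linarith [b1.2, b2.2, b3.1, b4.2]

end TwV
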