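import Pool.Agent.W_aaa0df_h65.RDefs

/-! Repulsion lemma: the convolution identity (helper65). -/

set_option autoImplicit false

namespace TwV

open Finset Real Twist

/-- `∑_{n ≤ e^t} r(n)/n log n = t R(t) - I(t)` (immediate from the definition of `II`, `RR`, `S`). -/
theorem S_log_eq (χ : ℕ → ℝ) (t : ℝ) :
    S (fun n => rr χ n / n * log n) t = t * RR χ t - II χ t := by
  unfold RR II S
  rw [Finset.mul_sum, ← Finset.sum_sub_distrib]
  refine Finset.sum_congr rfl fun n _ => ?_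
  ring

/-- Exchange of summation: `∑_{b ≤ e^t} Λ(b)/b R(t - log b) = ∑_{n ≤ e^t} r(n)/n ML(t - log n)`.
Proof. Both sides are the sum of `Λ(b) r(n)/(b n)` over the pairs `b, n ≥ 1` with `b n ≤ e^t`
(`mem_S`: `n ∈ Icc 1 ⌊e^(t - log b)⌋ ↔ 1 ≤ n ∧ log n ≤ t - log b`; symmetric in `b, n`;
`Finset.sum_comm'`; for `b ≤ e^t` terms with `t - log b ≥ 0` only). -/
theorem lam_swap (χ : ℕ → ℝ) (t : ℝ) :
    ∑ b ∈ Icc 1 ⌊Real.exp t⌋₊, lam b / b * RR χ (t - log b) =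
      ∑ n ∈ Icc 1 ⌊Real.exp t⌋₊, rr χ n / n * ML (t - log n) := by
  have h1 : ∑ b ∈ Icc 1 ⌊Real.exp t⌋₊, lam b / b * RR χ (t - log b) =
      ∑ b ∈ Icc 1 ⌊Real.exp t⌋₊, ∑ n ∈ Icc 1 ⌊Real.exp (t - log b)⌋₊,
        lam b / b * (rr χ n / (n : ℝ)) := by
    refine Finset.sum_congr rfl fun d _ => ?_
    unfold RR S
    rw [Finset.mul_sum]
  have h2 : ∑ n ∈ Icc 1 ⌊Real.exp t⌋₊, rr χ n / n * ML (t - log n) =
      ∑ n ∈ Icc 1 ⌊Real.exp t⌋₊, ∑ b ∈ Icc 1 ⌊Real.exp (t - log n)⌋₊,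
        lam b / b * (rr χ n / (n : ℝ)) := by
    refine Finset.sum_congr rfl fun d _ => ?_
    unfold ML S
    rw [Finset.mul_sum]
    refine Finset.sum_congr rfl fun b _ => ?_
    ring
  rw [h1, h2]
  refine Finset.sum_comm' fun b n => ?_
  rw [mem_S, mem_S, mem_S, mem_S]
  constructor
  · rintro ⟨⟨hb, hb2⟩, hn, hn2⟩
    have h0 : 0 ≤ log (b : ℝ) := Real.log_natCast_nonneg b
    exact ⟨⟨hb, by linarith⟩, hn, by linarith⟩
  · rintro ⟨⟨hb, hb2⟩, hn, hn2⟩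
    have h0 : 0 ≤ log (n : ℝ) := Real.log_natCast_nonneg n
    exact ⟨⟨hb, by linarith⟩, hn, by linarith⟩

/-- The convolution identity.
Proof. `S_conv` (in `W_aaa0df_h86/Conv.lean`): `S (r log/n) t = ∑_{d ≤ e^t} aa χ d/d · RR χ (t - log d)` with
`aa = (1 + χ) Λ = 2 Λ - (1 - χ) Λ`, so by `S_log_eq` and `lam_swap`
`t R(t) - I(t) = 2 ∑_{n ≤ e^t} r(n)/n ML(t - log n) - HN χ t`. In the first sum `t - log n ≥ 0`, so
`|ML(t - log n) - (t - log n)| ≤ C`, `r(n) ≥ 0` (`rr_nonneg`), hence it differs from `I(t)` by at most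
`C ∑ r(n)/n = C R(t)`. So `HN χ t = 2 I(t) + 2 θ C R(t) - t R(t) + I(t)`, `|θ| ≤ 1`. -/
theorem HN_eq {q : ℝ} {χ : ℕ → ℝ} (h : RChar q χ) {C : ℝ} (hC : ∀ t, 0 ≤ t → |ML t - t| ≤ C) (t : ℝ) :
    |HN χ t - (3 * II χ t - t * RR χ t)| ≤ 2 * C * RR χ t := by
  have h1 : HN χ t = 2 * ∑ b ∈ Icc 1 ⌊Real.exp t⌋₊, lam b / b * RR χ (t - log b) -
      ∑ b ∈ Icc 1 ⌊Real.exp t⌋₊, aa χ b / b * RR χ (t - log b) := by
    unfold HN
    rw [Finset.mul_sum, ← Finset.sum_sub_distrib]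
    refine Finset.sum_congr rfl fun b _ => ?_
    unfold aa
    ring
  rw [lam_swap, ← S_conv h, S_log_eq] at h1
  have h2 : HN χ t - (3 * II χ t - t * RR χ t) =
      2 * ∑ n ∈ Icc 1 ⌊Real.exp t⌋₊, rr χ n / n * (ML (t - log n) - (t - log n)) := by
    have h3 : ∑ n ∈ Icc 1 ⌊Real.exp t⌋₊, rr χ n / n * (ML (t - log n) - (t - log n)) =
        ∑ n ∈ Icc 1 ⌊Real.exp t⌋₊, rr χ n / n * ML (t - log n) - II χ t := by
      unfold II
      rw [← Finset.sum_sub_distrib]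
      refine Finset.sum_congr rfl fun b _ => ?_
      ring
    rw [h3, h1]
    ring
  have h4 : |∑ n ∈ Icc 1 ⌊Real.exp t⌋₊, rr χ n / n * (ML (t - log n) - (t - log n))| ≤
      C * RR χ t := by
    refine (Finset.abs_sum_le_sum_abs _ _).trans ?_
    unfold RR S
    rw [Finset.mul_sum]
    refine Finset.sum_le_sum fun n hn => ?_
    have h5 : 0 ≤ rr χ n / n := div_nonneg (rr_nonneg h n) (Nat.cast_nonneg n)
    rw [abs_mul, abs_of_nonneg h5, mul_comm]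
    refine mul_le_mul_of_nonneg_right (hC _ ?_) h5
    linarith [(mem_S.1 hn).2]
  rw [h2, abs_mul, abs_two]
  linarith

end TwV
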