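import Pool.Agent.W_aaa0df_h65.RDefs

/-! Repulsion lemma: increments (helper65). -/

set_option autoImplicit false

namespace TwV

open Finset Real Twist

/-- Increment of `I` where `R` is nearly affine.
Proof. By `Twist.abellog_aux3` (with `c n = rr χ n/n`), `II χ t = ∫_0^t RR χ` for `t ≥ 0` and `RR χ` is
interval integrable on `[0, t]`. So `II χ t₂ - II χ t₁ = ∫_{t₁}^{t₂} RR χ`, and
`∫_{t₁}^{t₂} (L s + k) ds = L (t₂² - t₁²)/2 + k (t₂ - t₁)`; the integrand of the difference is at most `τ` in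
absolute value on `[t₁, t₂]`. -/
theorem II_sub {χ : ℕ → ℝ} {L k τ t₁ t₂ : ℝ} (h0 : 0 ≤ t₁) (h12 : t₁ ≤ t₂)
    (hR : ∀ t, t₁ ≤ t → t ≤ t₂ → |RR χ t - (L * t + k)| ≤ τ) :
    |II χ t₂ - II χ t₁ - (L * (t₂ ^ 2 - t₁ ^ 2) / 2 + k * (t₂ - t₁))| ≤ τ * (t₂ - t₁) := by
  have h02 : 0 ≤ t₂ := h0.trans h12
  obtain ⟨hi1, he1⟩ := abellog_aux3 (fun n => rr χ n / n) h0
  obtain ⟨hi2, he2⟩ := abellog_aux3 (fun n => rr χ n / n) h02
  have hi : IntervalIntegrable (fun s => S (fun n => rr χ n / n) s) MeasureTheory.volume t₁ t₂ :=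
    hi2.mono_set (by rw [Set.uIcc_of_le h12, Set.uIcc_of_le h02]; exact Set.Icc_subset_Icc_left h0)
  have hadd := intervalIntegral.integral_add_adjacent_intervals hi1 hi
  have hE : II χ t₂ - II χ t₁ = ∫ s in t₁..t₂, S (fun n => rr χ n / n) s := by
    unfold II
    rw [← he1, ← he2, ← hadd]
    ring
  have hlin : IntervalIntegrable (fun s : ℝ => L * s + k) MeasureTheory.volume t₁ t₂ :=
    Continuous.intervalIntegrable (by fun_prop) _ _
  have hEi : ∫ s in t₁..t₂, (S (fun n => rr χ n / n) s - (L * s + k)) =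
      (II χ t₂ - II χ t₁) - (L * (t₂ ^ 2 - t₁ ^ 2) / 2 + k * (t₂ - t₁)) := by
    rw [intervalIntegral.integral_sub hi hlin, hE]
    congr 1
    rw [intervalIntegral.integral_add (Continuous.intervalIntegrable (by fun_prop) _ _)
      (Continuous.intervalIntegrable (by fun_prop) _ _),
      intervalIntegral.integral_const_mul, integral_id, intervalIntegral.integral_const]
    simp only [smul_eq_mul]
    ring
  have hb2 : ‖∫ s in t₁..t₂, (S (fun n => rr χ n / n) s - (L * s + k))‖ ≤ τ * |t₂ - t₁| := by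
    apply intervalIntegral.norm_integral_le_of_norm_le_const
    intro s hs
    rw [Set.uIoc_of_le h12] at hs
    exact hR s hs.1.le hs.2
  rw [hEi, Real.norm_eq_abs, abs_of_nonneg (sub_nonneg.2 h12)] at hb2
  exact hb2

lemma RC_aux1 {χ : ℕ → ℝ} {s : ℝ} (hs : s < 0) : RR χ s = 0 := by
  unfold RR S
  have h1 : Icc 1 ⌊Real.exp s⌋₊ = ∅ := by
    apply Finset.eq_empty_of_forall_notMem
    intro n hn
    have h2 := mem_S.1 hn
    linarith [Real.log_natCast_nonneg n, h2.2]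
  rw [h1, Finset.sum_empty]

lemma RC_aux2 {χ : ℕ → ℝ} {t T : ℝ} (h : t ≤ T) :
    HN χ t = ∑ b ∈ Icc 1 ⌊Real.exp T⌋₊, (1 - χ b) * lam b / b * RR χ (t - log b) := by
  unfold HN
  refine Finset.sum_subset (S_subset h) fun b hb hb2 => ?_
  have h1 := mem_S.1 hb
  have h2 : t - log b < 0 := by
    by_contra h3
    push Not at h3
    exact hb2 (mem_S.2 ⟨h1.1, by linarith⟩)
  rw [RC_aux1 h2, mul_zero]

/-- Increment of `H`.
Proof. `HN χ t = ∑_{b ≤ e^{t}} ν(b) RR χ (t - log b)`, `ν(b) = (1 - χ b) Λ(b)/b ≥ 0` (`nu_nonneg`), and the sum may be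
extended to all `b ≤ e^T` because `RR χ s = 0` for `s < 0` (the range `Icc 1 ⌊e^s⌋` is empty). So
`HN χ t₂ - HN χ t₁ = ∑_{b ≤ e^T} ν(b) (RR χ (t₂ - log b) - RR χ (t₁ - log b))`.
For `log b ≤ A`: `t₀ ≤ t₁ - log b ≤ t₂ - log b ≤ T`, so the bracket is `L (t₂ - t₁)` up to `2 τ`; the sum of these
`ν(b)` is `NU χ A` (`A ≤ T`). For `A < log b ≤ T` the bracket is in `[0, RR χ T]` (`RR_mono`, `RR χ ≥ 0`) and the
sum of the `ν(b)` is `NU χ T - NU χ A` (`S_sub_eq`). -/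
theorem HN_sub {q : ℝ} {χ : ℕ → ℝ} (h : RChar q χ) {L k τ t₀ T A t₁ t₂ : ℝ}
    (hR : ∀ t, t₀ ≤ t → t ≤ T → |RR χ t - (L * t + k)| ≤ τ) (hA0 : 0 ≤ A)
    (h1 : A + t₀ ≤ t₁) (h12 : t₁ ≤ t₂) (h2 : t₂ ≤ T) (ht₀ : 0 ≤ t₀) :
    |HN χ t₂ - HN χ t₁ - L * (t₂ - t₁) * NU χ A| ≤
      2 * τ * NU χ A + RR χ T * (NU χ T - NU χ A) := by
  have hAT : A ≤ T := by linarith
  have e1 : HN χ t₂ - HN χ t₁ = ∑ b ∈ Icc 1 ⌊Real.exp T⌋₊,
      (1 - χ b) * lam b / b * (RR χ (t₂ - log b) - RR χ (t₁ - log b)) := by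
    rw [RC_aux2 h2, RC_aux2 (h12.trans h2), ← Finset.sum_sub_distrib]
    refine Finset.sum_congr rfl fun b _ => ?_
    ring
  have e2 : L * (t₂ - t₁) * NU χ A = ∑ b ∈ Icc 1 ⌊Real.exp T⌋₊,
      if log (b : ℝ) ≤ A then (1 - χ b) * lam b / b * (L * (t₂ - t₁)) else 0 := by
    unfold NU
    rw [abellog_aux2 _ hAT, Finset.mul_sum]
    refine Finset.sum_congr rfl fun b _ => ?_
    by_cases hb : log (b : ℝ) ≤ A
    · rw [if_pos hb, if_pos hb]
      ring
    · rw [if_neg hb, if_neg hb, mul_zero]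
  have e3 : 2 * τ * NU χ A = ∑ b ∈ Icc 1 ⌊Real.exp T⌋₊,
      if log (b : ℝ) ≤ A then (1 - χ b) * lam b / b * (2 * τ) else 0 := by
    unfold NU
    rw [abellog_aux2 _ hAT, Finset.mul_sum]
    refine Finset.sum_congr rfl fun b _ => ?_
    by_cases hb : log (b : ℝ) ≤ A
    · rw [if_pos hb, if_pos hb]
      ring
    · rw [if_neg hb, if_neg hb, mul_zero]
  have e4 : RR χ T * (NU χ T - NU χ A) = ∑ b ∈ Icc 1 ⌊Real.exp T⌋₊,
      if log (b : ℝ) ≤ A then 0 else (1 - χ b) * lam b / b * RR χ T := by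
    unfold NU
    rw [abellog_aux2 _ hAT]
    unfold S
    rw [← Finset.sum_sub_distrib, Finset.mul_sum]
    refine Finset.sum_congr rfl fun b _ => ?_
    by_cases hb : log (b : ℝ) ≤ A
    · rw [if_pos hb, if_pos hb]
      ring
    · rw [if_neg hb, if_neg hb]
      ring
  rw [e1, e2, e3, e4, ← Finset.sum_sub_distrib, ← Finset.sum_add_distrib]
  refine (Finset.abs_sum_le_sum_abs _ _).trans (Finset.sum_le_sum fun b hb => ?_)
  have hb1 := mem_S.1 hb
  have hnu : 0 ≤ (1 - χ b) * lam b / b := nu_nonneg h b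
  have hlb : 0 ≤ log (b : ℝ) := Real.log_natCast_nonneg b
  by_cases hbA : log (b : ℝ) ≤ A
  · rw [if_pos hbA, if_pos hbA, if_pos hbA, add_zero, ← mul_sub, abs_mul, abs_of_nonneg hnu]
    refine mul_le_mul_of_nonneg_left ?_ hnu
    have r1 := abs_le.1 (hR (t₁ - log b) (by linarith) (by linarith))
    have r2 := abs_le.1 (hR (t₂ - log b) (by linarith) (by linarith))
    rw [abs_le]
    constructor
    · nlinarith [r1.1, r1.2, r2.1, r2.2]
    · nlinarith [r1.1, r1.2, r2.1, r2.2]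
  · rw [if_neg hbA, if_neg hbA, if_neg hbA, zero_add, sub_zero, abs_mul, abs_of_nonneg hnu]
    refine mul_le_mul_of_nonneg_left ?_ hnu
    have m1 : RR χ (t₁ - log b) ≤ RR χ (t₂ - log b) := RR_mono h (by linarith)
    have m2 : RR χ (t₂ - log b) ≤ RR χ T := RR_mono h (by linarith)
    have m3 : 0 ≤ RR χ (t₁ - log b) :=
      S_nonneg (fun n => div_nonneg (rr_nonneg h n) (Nat.cast_nonneg n)) _
    rw [abs_of_nonneg (by linarith)]
    linarith

end TwV
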