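import Pool.Agent.W_aaa0df_h65.RA2
import Pool.Agent.W_aaa0df_h65.RB
import Pool.Agent.W_aaa0df_h65.RC

/-! Repulsion lemma: the contradiction (helper65). -/

set_option autoImplicit false

namespace TwV

open Finset Real Twist

/-- Pure inequality behind the repulsion lemma. Here `R = R(T)`, `n = NU χ A` (`A = θT`), `ω = NU χ T - NU χ A`,
`a₁ = (T₁+T₂)/2`, `a₂ = (T₂+T₃)/2 = a₁ + h`, and `Err` is the error term of the two increments.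

Proof. Subtract: `|L| h² ≤ 2 Err` from `|L h n - L h a₁ - 2 k h| ≤ Err`, `|L h n - L h (a₁ + h) - 2 k h| ≤ Err`.
Since `|n - a₁| ≤ 3 T`, `2 |k| h ≤ Err + |L| h 3 T`, so `|k| ≤ Err/(2h) + (3/2) T |L|`. Then
`R ≤ |L| T + |k| + τ ≤ (5/2) T |L| + Err/(2h) + τ ≤ 5 T Err/h² + Err/(2 h) + τ ≤ 6 T Err/h² + τ` (as `h ≤ T`).
-/
theorem rep_ineq {L k τ T h n a₁ Err R : ℝ} (hh : 0 < h) (hhT : h ≤ T) (hErr : 0 ≤ Err)
    (hn : |n - a₁| ≤ 3 * T) (hR : |R - (L * T + k)| ≤ τ)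
    (h1 : |L * h * n - L * h * a₁ - 2 * k * h| ≤ Err)
    (h2 : |L * h * n - L * h * (a₁ + h) - 2 * k * h| ≤ Err) :
    R ≤ 6 * T * Err / h ^ 2 + τ := by
  have b1 := abs_le.1 h1
  have b2 := abs_le.1 h2
  have bn := abs_le.1 hn
  have bR := abs_le.1 hR
  have hT : 0 ≤ T := hh.le.trans hhT
  obtain ⟨M, hM⟩ : ∃ x : ℝ, x = |L| := ⟨_, rfl⟩
  have hM0 : 0 ≤ M := by rw [hM]; exact abs_nonneg _
  have hLM : L ≤ M := by rw [hM]; exact le_abs_self _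
  have hk1 : k ≤ |k| := le_abs_self _
  have e1 : M * h ^ 2 ≤ 2 * Err := by
    have h3 : |L * h ^ 2| ≤ 2 * Err := by
      rw [abs_le]
      constructor
      · nlinarith [b1.1, b1.2, b2.1, b2.2]
      · nlinarith [b1.1, b1.2, b2.1, b2.2]
    rwa [abs_mul, abs_of_nonneg (sq_nonneg h), ← hM] at h3
  have e2 : 2 * (|k| * h) ≤ Err + 3 * (M * h * T) := by
    have h3 : |L * h * (n - a₁)| ≤ M * h * (3 * T) := by
      rw [abs_mul, abs_mul, abs_of_pos hh, ← hM]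
      exact mul_le_mul_of_nonneg_left hn (by positivity)
    have h4 := abs_le.1 h3
    have h5 : |2 * k * h| ≤ Err + 3 * (M * h * T) := by
      rw [abs_le]
      constructor
      · nlinarith [b1.1, b1.2, h4.1, h4.2]
      · nlinarith [b1.1, b1.2, h4.1, h4.2]
    have h6 : |2 * k * h| = 2 * (|k| * h) := by
      rw [abs_mul, abs_mul, abs_of_pos hh, abs_two]
      ring
    rwa [h6] at h5
  have e3 : R - τ ≤ M * T + |k| := by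
    have h7 : L * T ≤ M * T := mul_le_mul_of_nonneg_right hLM hT
    linarith [bR.2]
  have hh2 : 0 < h ^ 2 := by positivity
  have e4 : (R - τ) * h ^ 2 ≤ 6 * T * Err := by
    have f1 : (R - τ) * h ^ 2 ≤ (M * T + |k|) * h ^ 2 := mul_le_mul_of_nonneg_right e3 hh2.le
    have f2 : (M * T + |k|) * h ^ 2 = T * (M * h ^ 2) + h * (|k| * h) := by ring
    have f3 : h * (2 * (|k| * h)) ≤ h * (Err + 3 * (M * h * T)) :=
      mul_le_mul_of_nonneg_left e2 hh.le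
    have f4 : h * (Err + 3 * (M * h * T)) = h * Err + 3 * (T * (M * h ^ 2)) := by ring
    have f5 : T * (M * h ^ 2) ≤ T * (2 * Err) := mul_le_mul_of_nonneg_left e1 hT
    have f6 : h * Err ≤ T * Err := mul_le_mul_of_nonneg_right hhT hErr
    have f7 : 0 ≤ T * Err := mul_nonneg hT hErr
    nlinarith [f1, f2, f3, f4, f5, f6, f7]
  have e5 : R - τ ≤ 6 * T * Err / h ^ 2 := by
    rw [le_div_iff₀ hh2]
    exact e4
  linarith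

theorem RD_exp {D c T : ℝ} (hD : 0 ≤ D) (hc : 0 < c) (hT1 : 1 ≤ T)
    (hT : 192 * D / c ^ 3 ≤ T) : D * (1 + T) * Real.exp (-(c * T)) ≤ 1 / (16 * T) := by
  have hT0 : 0 < T := by linarith
  have hx : 0 < c * T := by positivity
  have h1 : (c * T) ^ 3 / 6 ≤ Real.exp (c * T) := by
    have := Real.pow_div_factorial_le_exp (c * T) hx.le 3
    have h6 : ((Nat.factorial 3 : ℕ) : ℝ) = 6 := by norm_num [Nat.factorial]
    rwa [h6] at this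
  have h2 : Real.exp (-(c * T)) ≤ 6 / (c * T) ^ 3 := by
    rw [Real.exp_neg, inv_eq_one_div, div_le_div_iff₀ (Real.exp_pos _) (by positivity)]
    rw [div_le_iff₀ (by norm_num : (0 : ℝ) < 6)] at h1
    linarith
  have h3 : 192 * D ≤ T * c ^ 3 := by
    rwa [div_le_iff₀ (by positivity)] at hT
  calc D * (1 + T) * Real.exp (-(c * T)) ≤ D * (2 * T) * (6 / (c * T) ^ 3) := by
        apply mul_le_mul _ h2 (Real.exp_pos _).le (by positivity)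
        exact mul_le_mul_of_nonneg_left (by linarith) hD
    _ ≤ 1 / (16 * T) := by
        rw [mul_div_assoc', div_le_div_iff₀ (by positivity) (by positivity)]
        have h4 : D * (2 * T) * 6 * (16 * T) = 192 * D * T ^ 2 := by ring
        have h5 : 1 * (c * T) ^ 3 = T * c ^ 3 * T ^ 2 := by ring
        rw [h4, h5]
        exact mul_le_mul_of_nonneg_right h3 (by positivity)

theorem RD_comb {H1 H2 I1 I2 R1 R2 R n ω C L k τ T t₁ t₂ : ℝ} (hτ : 0 ≤ τ) (hC0 : 0 ≤ C)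
    (ht1 : 0 ≤ t₁) (h12 : t₁ ≤ t₂) (h2T : t₂ ≤ T)
    (e1 : |H1 - (3 * I1 - t₁ * R1)| ≤ 2 * C * R1) (e2 : |H2 - (3 * I2 - t₂ * R2)| ≤ 2 * C * R2)
    (e3 : |I2 - I1 - (L * (t₂ ^ 2 - t₁ ^ 2) / 2 + k * (t₂ - t₁))| ≤ τ * (t₂ - t₁))
    (e4 : |H2 - H1 - L * (t₂ - t₁) * n| ≤ 2 * τ * n + R * ω)
    (r1 : |R1 - (L * t₁ + k)| ≤ τ) (r2 : |R2 - (L * t₂ + k)| ≤ τ)
    (m1 : R1 ≤ R) (m2 : R2 ≤ R) (hn : n ≤ 2 * (T + C)) :
    |L * (t₂ - t₁) * n - (L * (t₂ ^ 2 - t₁ ^ 2) / 2 + 2 * k * (t₂ - t₁))| ≤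
      τ * (3 * (t₂ - t₁) + 6 * T + 4 * C) + (4 * C + ω) * R := by
  have ht2 : 0 ≤ t₂ := ht1.trans h12
  have p1 : |t₁ * R1 - (L * t₁ ^ 2 + k * t₁)| ≤ τ * T := by
    have : t₁ * R1 - (L * t₁ ^ 2 + k * t₁) = t₁ * (R1 - (L * t₁ + k)) := by ring
    rw [this, abs_mul, abs_of_nonneg ht1]
    calc t₁ * |R1 - (L * t₁ + k)| ≤ T * τ :=
          mul_le_mul (h12.trans h2T) r1 (abs_nonneg _) (ht2.trans h2T)
      _ = τ * T := mul_comm _ _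
  have p2 : |t₂ * R2 - (L * t₂ ^ 2 + k * t₂)| ≤ τ * T := by
    have : t₂ * R2 - (L * t₂ ^ 2 + k * t₂) = t₂ * (R2 - (L * t₂ + k)) := by ring
    rw [this, abs_mul, abs_of_nonneg ht2]
    calc t₂ * |R2 - (L * t₂ + k)| ≤ T * τ :=
          mul_le_mul h2T r2 (abs_nonneg _) (ht2.trans h2T)
      _ = τ * T := mul_comm _ _
  have q1 : C * R1 ≤ C * R := mul_le_mul_of_nonneg_left m1 hC0
  have q2 : C * R2 ≤ C * R := mul_le_mul_of_nonneg_left m2 hC0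
  have q3 : τ * n ≤ τ * (2 * (T + C)) := mul_le_mul_of_nonneg_left hn hτ
  obtain ⟨z1, hz1⟩ : ∃ x : ℝ, x = H1 - (3 * I1 - t₁ * R1) := ⟨_, rfl⟩
  obtain ⟨z2, hz2⟩ : ∃ x : ℝ, x = H2 - (3 * I2 - t₂ * R2) := ⟨_, rfl⟩
  obtain ⟨z3, hz3⟩ : ∃ x : ℝ,
    x = I2 - I1 - (L * (t₂ ^ 2 - t₁ ^ 2) / 2 + k * (t₂ - t₁)) := ⟨_, rfl⟩
  obtain ⟨z4, hz4⟩ : ∃ x : ℝ, x = H2 - H1 - L * (t₂ - t₁) * n := ⟨_, rfl⟩
  obtain ⟨z5, hz5⟩ : ∃ x : ℝ, x = t₁ * R1 - (L * t₁ ^ 2 + k * t₁) := ⟨_, rfl⟩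
  obtain ⟨z6, hz6⟩ : ∃ x : ℝ, x = t₂ * R2 - (L * t₂ ^ 2 + k * t₂) := ⟨_, rfl⟩
  have key : L * (t₂ - t₁) * n - (L * (t₂ ^ 2 - t₁ ^ 2) / 2 + 2 * k * (t₂ - t₁)) =
      -z4 + z2 - z1 + 3 * z3 - z6 + z5 := by
    rw [hz1, hz2, hz3, hz4, hz5, hz6]
    ring
  have rhs : τ * (3 * (t₂ - t₁) + 6 * T + 4 * C) + (4 * C + ω) * R =
      (2 * (τ * (2 * (T + C))) + R * ω) + 4 * (C * R) + 3 * (τ * (t₂ - t₁)) + 2 * (τ * T) := by
    ring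
  rw [key, rhs]
  rw [← hz1, mul_assoc] at e1
  rw [← hz2, mul_assoc] at e2
  rw [← hz3] at e3
  rw [← hz4, mul_assoc] at e4
  rw [← hz5] at p1
  rw [← hz6] at p2
  have b1 := abs_le.1 e1
  have b2 := abs_le.1 e2
  have b3 := abs_le.1 e3
  have b4 := abs_le.1 e4
  have b5 := abs_le.1 p1
  have b6 := abs_le.1 p2
  rw [abs_le]
  constructor
  · linarith [b1.1, b1.2, b2.1, b2.2, b3.1, b3.2, b4.1, b4.2, b5.1, b5.2, b6.1, b6.2]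
  · linarith [b1.1, b1.2, b2.1, b2.2, b3.1, b3.2, b4.1, b4.2, b5.1, b5.2, b6.1, b6.2]

theorem RD_nule {q : ℝ} {χ : ℕ → ℝ} (h : RChar q χ) {C : ℝ}
    (hC : ∀ t, 0 ≤ t → |ML t - t| ≤ C) {A T : ℝ} (hA0 : 0 ≤ A) (hAT : A ≤ T) :
    NU χ A ≤ 2 * (T + C) := by
  have h1 := AA_add_NU χ A
  have h2 : 0 ≤ AA χ A := S_nonneg (fun n => div_nonneg (aa_nonneg h n) (Nat.cast_nonneg n)) A
  have h3 := abs_le.1 (hC A hA0)
  linarith [h3.2]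

theorem RD_inc {q : ℝ} {χ : ℕ → ℝ} (h : RChar q χ) {C : ℝ} (hC0 : 0 ≤ C)
    (hC : ∀ t, 0 ≤ t → |ML t - t| ≤ C) {L k τ t₀ T A t₁ t₂ : ℝ} (hτ : 0 ≤ τ)
    (hR : ∀ t, t₀ ≤ t → t ≤ T → |RR χ t - (L * t + k)| ≤ τ) (hA0 : 0 ≤ A) (hAT : A ≤ T)
    (h1 : A + t₀ ≤ t₁) (h12 : t₁ ≤ t₂) (h2 : t₂ ≤ T) (ht₀ : 0 ≤ t₀) :
    |L * (t₂ - t₁) * NU χ A - (L * (t₂ ^ 2 - t₁ ^ 2) / 2 + 2 * k * (t₂ - t₁))| ≤
      τ * (3 * (t₂ - t₁) + 6 * T + 4 * C) + (4 * C + (NU χ T - NU χ A)) * RR χ T := by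
  have e3 := II_sub (χ := χ) (L := L) (k := k) (τ := τ) (t₁ := t₁) (t₂ := t₂) (by linarith) h12
    (fun t ht ht' => hR t (by linarith) (by linarith))
  exact RD_comb hτ hC0 (by linarith) h12 h2 (HN_eq h hC t₁) (HN_eq h hC t₂) e3
    (HN_sub h hR hA0 h1 h12 h2 ht₀) (hR t₁ (by linarith) (by linarith))
    (hR t₂ (by linarith) h2) (RR_mono h (by linarith)) (RR_mono h h2) (RD_nule h hC hA0 hAT)

theorem RD_final {R τ T C c₂ ω : ℝ} (hT : 0 < T) (hC : 0 ≤ C) (hc : 0 < c₂)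
    (hR1 : 1 ≤ R) (hω : ω < 1 / (4 * c₂) * T)
    (hTC : 16 * C * c₂ ≤ T) (hτ : (11 * c₂ + 1) * τ < 1 / 2)
    (h : R ≤ c₂ / T * (11 * τ * T + (4 * C + ω) * R) + τ) : False := by
  have h1 : c₂ / T * (11 * τ * T + (4 * C + ω) * R) =
      11 * c₂ * τ + (c₂ / T * (4 * C + ω)) * R := by
    field_simp
  have h2 : c₂ / T * (4 * C + ω) ≤ 1 / 2 := by
    rw [div_mul_eq_mul_div, div_le_iff₀ hT]
    have h3 : c₂ * ω < c₂ * (1 / (4 * c₂) * T) := mul_lt_mul_of_pos_left hω hc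
    have h4 : c₂ * (1 / (4 * c₂) * T) = T / 4 := by
      field_simp
    nlinarith [h3, h4, hTC]
  have h5 : (c₂ / T * (4 * C + ω)) * R ≤ 1 / 2 * R :=
    mul_le_mul_of_nonneg_right h2 (by linarith)
  rw [h1] at h
  nlinarith [h, h5, hτ, hR1]

/-- **Repulsion lemma, logarithmic form.** If `x₀ ≤ e^((1-θ-ε)T)` then the primes `p` in `(e^(θT), e^T]` with
`χ(p) = -1` have `∑ log p/p ≫ T` (`NU` also counts prime powers and zeros of `χ`).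

Proof. Let `C₁` be the constant of `RR_asym3`, `C ≥ 1` that of `mertens` (`|ML t - t| ≤ C`, `t ≥ 0`).
`A = θ T`, `t₀ = log x₀ + (ε/4) T`, which is `≥ log x₀ + 2` for large `T`. For `t₀ ≤ t ≤ T`,
`|RR χ t - (L t + k)| ≤ τ := C₁ (1 + T) exp(-(s ε/8) T)`; `τ T → 0`. Note
`A + t₀ ≤ θT + (1-θ-ε)T + (ε/4)T = T - (3ε/4)T`. Put `h = (3ε/8) T`, `T₃ = T`, `T₂ = T - h`, `T₁ = T - 2h`, so
`T₁ ≥ A + t₀`, `T₁ ≥ 0`, `0 < h ≤ T` (as `ε < 1`). For `i = 1, 2` combine `HN_eq` at `T_i`, `T_{i+1}`, `II_sub` and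
`HN_sub` (`NU χ A ≤ 2 ML A ≤ 2 (A + C) ≤ 2T + 2C` by `AA_add_NU` and `AA ≥ 0`):
`H(T_{i+1}) - H(T_i) = 3 (I(T_{i+1}) - I(T_i)) - (T_{i+1} R(T_{i+1}) - T_i R(T_i)) + error ≤ 4 C R(T)`
`= 3 L (T_{i+1}² - T_i²)/2 + 3 k h - (L (T_{i+1}² - T_i²) + k h) + error`, where the errors are
`3 τ h + 2 τ T + 4 C R`; and `H(T_{i+1}) - H(T_i) = L h NU(A) + error`, error `≤ 2 τ (2T + 2C) + R ω`,
`ω = NU χ T - NU χ A`. Since `(T_{i+1}² - T_i²)/2 = h a_i`, we get the hypotheses of `rep_ineq` with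
`n = NU χ A`, `|n - a₁| ≤ max(2T + 2C, T) ≤ 3T` for `T ≥ 2C`,
`Err = τ (3h + 2T + 4T + 4C) + (4 C + ω) R ≤ 11 τ T + (4C + ω) R` (for `T ≥ 2C`), `R = RR χ T ≥ 1` (`RR_ge_one`).
So `R ≤ (6 T/h²)(11 τ T + (4C + ω) R) + τ`, `6T/h² = (128/(3 ε²))/T =: c₂/T`. If `ω < c T` with `c = 1/(4 c₂)`
and `T ≥ 16 C c₂`, then `(c₂/T)(4C + ω) ≤ 1/2`, hence `1/2 ≤ R/2 ≤ 11 c₂ τ + τ`, false for large `T` because
`τ → 0`. -/
theorem nu_lower3 (s θ ε : ℝ) (hs : 0 < s) (hs1 : s ≤ 1) (hθ : 0 ≤ θ) (hε : 0 < ε) (hθε : θ + ε < 1) :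
    ∃ c : ℝ, 0 < c ∧ ∃ T₀ : ℝ, ∀ T : ℝ, T₀ ≤ T → ∀ (q x₀ : ℝ) (χ : ℕ → ℝ), 1 ≤ x₀ →
      x₀ ≤ Real.exp ((1 - θ - ε) * T) → RChar q χ → PS x₀ s χ →
      c * T ≤ NU χ T - NU χ (θ * T) := by
  obtain ⟨C₁, hC₁, hasym⟩ := RR_asym3 s hs hs1
  obtain ⟨C, hC0, hC⟩ := mertens
  obtain ⟨c₂, hc₂⟩ : ∃ x : ℝ, x = 128 / (3 * ε ^ 2) := ⟨_, rfl⟩
  have hc₂0 : 0 < c₂ := by rw [hc₂]; positivity
  have hc0 : 0 < s * ε / 8 := by positivity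
  have hε1 : ε < 1 := by linarith
  refine ⟨1 / (4 * c₂), by positivity,
    max 1 (max (8 / ε) (max (2 * C) (max (16 * C * c₂) (max (192 * C₁ / (s * ε / 8) ^ 3)
      (11 * c₂ + 1))))), ?_⟩
  intro T hT q x₀ χ hx₀ hxT h hps
  simp only [max_le_iff] at hT
  obtain ⟨hT1, hT2, hT3, hT4, hT5, hT6⟩ := hT
  have hT0 : 0 < T := by linarith
  by_contra hcon
  rw [not_le] at hcon
  obtain ⟨L, k, hRR⟩ := hasym q x₀ χ hx₀ h hps T hT0.le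
  obtain ⟨τ, hτ⟩ : ∃ x : ℝ, x = C₁ * (1 + T) * Real.exp (-(s * ε / 8 * T)) := ⟨_, rfl⟩
  have hτ0 : 0 ≤ τ := by rw [hτ]; positivity
  have hτ1 : τ ≤ 1 / (16 * T) := by
    rw [hτ]
    exact RD_exp hC₁ hc0 hT1 hT5
  obtain ⟨ℓ, hℓ⟩ : ∃ x : ℝ, x = log x₀ := ⟨_, rfl⟩
  have hℓ0 : 0 ≤ ℓ := by rw [hℓ]; exact Real.log_nonneg hx₀
  have hℓT : ℓ ≤ (1 - θ - ε) * T := by
    rw [hℓ, Real.log_le_iff_le_exp (by linarith)]
    exact hxT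
  rw [← hℓ] at hRR
  have hεT : 8 ≤ ε * T := by
    rw [div_le_iff₀ hε] at hT2
    linarith
  have hR : ∀ t, ℓ + ε / 4 * T ≤ t → t ≤ T → |RR χ t - (L * t + k)| ≤ τ := by
    intro t ht htT
    refine (hRR t (by linarith) htT).trans ?_
    rw [hτ]
    apply mul_le_mul_of_nonneg_left _ (by positivity)
    apply Real.exp_le_exp.2
    have h1 : ε / 4 * T ≤ t - ℓ := by linarith
    have h2 : s / 2 * (ε / 4 * T) ≤ s / 2 * (t - ℓ) :=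
      mul_le_mul_of_nonneg_left h1 (by linarith)
    linarith
  obtain ⟨w, hw⟩ : ∃ x : ℝ, x = 3 * ε / 8 * T := ⟨_, rfl⟩
  have hw0 : 0 < w := by rw [hw]; positivity
  have hwT : w ≤ T := by
    rw [hw]
    have : 3 * ε / 8 ≤ 1 := by linarith
    calc 3 * ε / 8 * T ≤ 1 * T := mul_le_mul_of_nonneg_right this hT0.le
      _ = T := one_mul T
  have hA0 : 0 ≤ θ * T := by positivity
  have hAT : θ * T ≤ T := by
    calc θ * T ≤ 1 * T := mul_le_mul_of_nonneg_right (by linarith) hT0.le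
      _ = T := one_mul T
  have hstart : θ * T + (ℓ + ε / 4 * T) ≤ T - 2 * w := by
    rw [hw]
    nlinarith [hℓT]
  have ht₀ : 0 ≤ ℓ + ε / 4 * T := by positivity
  have i1 := RD_inc h hC0 hC hτ0 hR hA0 hAT (t₁ := T - 2 * w) (t₂ := T - w) hstart
    (by linarith) (by linarith) ht₀
  have i2 := RD_inc h hC0 hC hτ0 hR hA0 hAT (t₁ := T - w) (t₂ := T) (by linarith)
    (by linarith) le_rfl ht₀
  obtain ⟨n, hn⟩ : ∃ x : ℝ, x = NU χ (θ * T) := ⟨_, rfl⟩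
  obtain ⟨ω, hω⟩ : ∃ x : ℝ, x = NU χ T - NU χ (θ * T) := ⟨_, rfl⟩
  have hω0 : 0 ≤ ω := by rw [hω]; linarith [NU_mono h hAT]
  have hn0 : 0 ≤ n := by rw [hn]; exact S_nonneg (nu_nonneg h) _
  have hn1 : n ≤ 2 * (T + C) := by rw [hn]; exact RD_nule h hC hA0 hAT
  have hR1 : 1 ≤ RR χ T := RR_ge_one h hT0.le
  rw [← hω] at hcon i1 i2
  rw [← hn] at i1 i2
  obtain ⟨R, hRd⟩ : ∃ x : ℝ, x = RR χ T := ⟨_, rfl⟩
  have hRT := hR T (by linarith) le_rfl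
  rw [← hRd] at i1 i2 hR1 hRT
  obtain ⟨Err, hErr⟩ : ∃ x : ℝ, x = 11 * τ * T + (4 * C + ω) * R := ⟨_, rfl⟩
  have hErr0 : 0 ≤ Err := by
    rw [hErr]
    have : 0 ≤ (4 * C + ω) * R := mul_nonneg (by linarith) (by linarith)
    have : 0 ≤ 11 * τ * T := by positivity
    linarith
  have hE : τ * (3 * w + 6 * T + 4 * C) + (4 * C + ω) * R ≤ Err := by
    rw [hErr]
    have : τ * (3 * w + 6 * T + 4 * C) ≤ τ * (11 * T) :=
      mul_le_mul_of_nonneg_left (by linarith) hτ0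
    linarith
  have j1 : |L * w * n - L * w * (T - 3 / 2 * w) - 2 * k * w| ≤ Err := by
    have e : L * w * n - L * w * (T - 3 / 2 * w) - 2 * k * w =
        L * (T - w - (T - 2 * w)) * n - (L * ((T - w) ^ 2 - (T - 2 * w) ^ 2) / 2 +
          2 * k * (T - w - (T - 2 * w))) := by ring
    rw [e]
    have e' : T - w - (T - 2 * w) = w := by ring
    rw [e'] at i1 ⊢
    exact i1.trans hE
  have j2 : |L * w * n - L * w * (T - 3 / 2 * w + w) - 2 * k * w| ≤ Err := by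
    have e : L * w * n - L * w * (T - 3 / 2 * w + w) - 2 * k * w =
        L * (T - (T - w)) * n - (L * (T ^ 2 - (T - w) ^ 2) / 2 + 2 * k * (T - (T - w))) := by ring
    rw [e]
    have e' : T - (T - w) = w := by ring
    rw [e'] at i2 ⊢
    exact i2.trans hE
  have j3 : |n - (T - 3 / 2 * w)| ≤ 3 * T := by
    rw [abs_le]
    constructor <;> linarith
  have main := rep_ineq hw0 hwT hErr0 j3 hRT j1 j2
  have hc : 6 * T * Err / w ^ 2 = c₂ / T * Err := by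
    rw [hw, hc₂]
    field_simp
    ring
  rw [hc, hErr] at main
  have hτ2 : (11 * c₂ + 1) * τ < 1 / 2 := by
    have g1 : (11 * c₂ + 1) * τ ≤ T * (1 / (16 * T)) :=
      mul_le_mul hT6 hτ1 hτ0 hT0.le
    have g2 : T * (1 / (16 * T)) = 1 / 16 := by field_simp
    rw [g2] at g1
    linarith
  exact RD_final hT0 hC0 hc₂0 hR1 hcon hT4 hτ2 main

end TwV
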