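import Pool.Agent.W_aaa0df_h65.RD

/-! Repulsion lemma: counting form (helper65). -/

set_option autoImplicit false

namespace TwV

open Finset Real Twist

theorem RE_card {M : ℕ} (hM : M ≠ 0) : (M.primeFactors.card : ℝ) ≤ 2 * log M := by
  have h1 : 2 ^ M.primeFactors.card ≤ M := by
    calc 2 ^ M.primeFactors.card ≤ ∏ p ∈ M.primeFactors, p :=
          Finset.pow_card_le_prod _ _ _ (fun p hp => (Nat.prime_of_mem_primeFactors hp).two_le)
      _ ≤ M := Nat.le_of_dvd (Nat.pos_of_ne_zero hM) (Nat.prod_primeFactors_dvd M)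
  have h2 : (2 : ℝ) ^ M.primeFactors.card ≤ M := by exact_mod_cast h1
  have h3 := Real.log_le_log (by positivity) h2
  rw [Real.log_pow] at h3
  have h4 := Real.log_two_gt_d9
  have h5 : (0 : ℝ) ≤ M.primeFactors.card := Nat.cast_nonneg _
  nlinarith

/-- the prime part of the window -/
theorem RE_prime {a T q : ℝ} {χ : ℕ → ℝ} (hT : 0 < T) (h : RChar q χ) {p : ℕ} (hp : p.Prime)
    (h1 : a < log p) (h2 : log p ≤ T) :
    (1 - χ p) * lam p / p ≤ (if χ p = -1 then 2 * T * Real.exp (-a) else 0) +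
      if χ p = 0 then T * Real.exp (-a) else 0 := by
  have hp0 : (0 : ℝ) < p := by exact_mod_cast hp.pos
  have hlt : Real.exp a < p := (Real.lt_log_iff_exp_lt hp0).1 h1
  have hlam : lam p = log p := ArithmeticFunction.vonMangoldt_apply_prime hp
  have he : 0 < Real.exp a := Real.exp_pos _
  have h5 : (1 : ℝ) ≤ (Real.exp a)⁻¹ * p := by
    rw [inv_mul_eq_div, le_div_iff₀ he, one_mul]
    exact hlt.le
  rcases h.val p with h3 | h3 | h3
  · rw [if_neg (by rw [h3]; norm_num), if_pos h3, h3, hlam, Real.exp_neg, zero_add,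
      div_le_iff₀ hp0]
    calc (1 - 0) * log p = log p := by ring
      _ ≤ T := h2
      _ ≤ T * ((Real.exp a)⁻¹ * p) := le_mul_of_one_le_right hT.le h5
      _ = T * (Real.exp a)⁻¹ * p := by ring
  · rw [if_neg (by rw [h3]; norm_num), if_neg (by rw [h3]; norm_num), h3]
    norm_num
  · rw [if_pos h3, if_neg (by rw [h3]; norm_num), h3, hlam, Real.exp_neg, add_zero,
      div_le_iff₀ hp0]
    calc (1 - -1) * log p = 2 * log p := by ring
      _ ≤ 2 * T := by linarith
      _ ≤ 2 * T * ((Real.exp a)⁻¹ * p) := le_mul_of_one_le_right (by linarith) h5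
      _ = 2 * T * (Real.exp a)⁻¹ * p := by ring

/-- **Repulsion lemma, counting form.**
Proof. (Compare `Twist.inert_count` in `W_aaa0df_h86/Inert.lean`, from which most lines can be copied.)
Let `θ' = θ + ε/2`, `ε' = ε/2`; `nu_lower3` for `θ', ε'` gives `c T ≤ NU χ T - NU χ (θ' T)`, which is
(`S_sub_eq`) the sum of `(1 - χ n) Λ(n)/n` over `θ' T < log n ≤ T`. The non-primes contribute at most `2 C`
(`nonprime_sum`). The primes `p` with `χ p = 1` contribute `0`. The primes with `χ p = 0` divide `M`; each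
contributes `log p/p ≤ T exp(-θ' T)`, and there are at most `M.primeFactors.card ≤ 2 log M ≤ 8 T` of them
(`2^card ≤ M`), in total at most `8 T² exp(-θ' T) ≤ 1` for large `T`. The primes with `χ p = -1` contribute
`2 log p/p ≤ 2 T exp(-θ' T)` each. So their number is at least
`(c T - 2 C - 1) exp(θ' T)/(2 T) ≥ (c/4) exp(θ' T) ≥ exp(θ T)` for large `T`. (`θ' > 0` here.) -/
theorem inert_count3 (s θ ε : ℝ) (hs : 0 < s) (hs1 : s ≤ 1) (hθ : 0 ≤ θ) (hε : 0 < ε) (hθε : θ + ε < 1) :
    ∃ T₀ : ℝ, ∀ T : ℝ, T₀ ≤ T → ∀ (q x₀ : ℝ) (χ : ℕ → ℝ) (M : ℕ), 1 ≤ x₀ →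
      x₀ ≤ Real.exp ((1 - θ - ε) * T) → RChar q χ → PS x₀ s χ →
      (∀ p : ℕ, p.Prime → χ p = 0 → p ∣ M) → M ≠ 0 → log M ≤ 4 * T →
      Real.exp (θ * T) ≤
        (((Icc 1 ⌊Real.exp T⌋₊).filter (fun p : ℕ => p.Prime ∧ χ p = -1)).card : ℝ) := by
  classical
  obtain ⟨c, hc, T₁, hnu⟩ := nu_lower3 s (θ + ε / 2) (ε / 2) hs hs1 (by linarith) (by linarith)
    (by linarith)
  obtain ⟨C, hC0, hC⟩ := nonprime_sum
  refine ⟨max (max T₁ 1) (max ((4 * C + 2) / c) (max (8 / (ε * c)) (384 / ε ^ 3))), ?_⟩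
  intro T hT q x₀ χ M hx1 hx hR hPS hM hM0 hlM
  have hT1 : T₁ ≤ T := (le_max_left _ _).trans ((le_max_left _ _).trans hT)
  have hTo : 1 ≤ T := (le_max_right _ _).trans ((le_max_left _ _).trans hT)
  have hT2 : (4 * C + 2) / c ≤ T := (le_max_left _ _).trans ((le_max_right _ _).trans hT)
  have hT3 : 8 / (ε * c) ≤ T := (le_max_left _ _).trans
    ((le_max_right _ _).trans ((le_max_right _ _).trans hT))
  have hT4 : 384 / ε ^ 3 ≤ T := (le_max_right _ _).trans
    ((le_max_right _ _).trans ((le_max_right _ _).trans hT))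
  have hTp : 0 < T := by linarith
  have hx' : x₀ ≤ Real.exp ((1 - (θ + ε / 2) - ε / 2) * T) := by
    have e : (1 - (θ + ε / 2) - ε / 2) * T = (1 - θ - ε) * T := by ring
    rw [e]
    exact hx
  have h1 := hnu T hT1 q x₀ χ hx1 hx' hR hPS
  unfold NU at h1
  rw [S_sub_eq (by nlinarith)] at h1
  set a : ℝ := (θ + ε / 2) * T with ha
  set W := (Icc 1 ⌊Real.exp T⌋₊).filter (fun n : ℕ => a < log n) with hW
  rw [← Finset.sum_filter_add_sum_filter_not W (fun n : ℕ => n.Prime)] at h1
  -- non-primes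
  have h2 : ∑ n ∈ W.filter (fun n : ℕ => ¬ n.Prime), (1 - χ n) * lam n / n ≤ 2 * C := by
    calc ∑ n ∈ W.filter (fun n : ℕ => ¬ n.Prime), (1 - χ n) * lam n / n
        ≤ ∑ n ∈ (Icc 1 ⌊Real.exp T⌋₊).filter (fun n : ℕ => ¬ n.Prime), (1 - χ n) * lam n / n := by
          apply Finset.sum_le_sum_of_subset_of_nonneg
          · exact Finset.filter_subset_filter _ (Finset.filter_subset _ _)
          · intro n _ _
            exact nu_nonneg hR n
      _ ≤ ∑ n ∈ (Icc 1 ⌊Real.exp T⌋₊).filter (fun n : ℕ => ¬ n.Prime), 2 * (lam n / n) := by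
          apply Finset.sum_le_sum
          intro n _
          rw [mul_div_assoc]
          exact mul_le_mul_of_nonneg_right (by linarith [hR.neg_one_le n])
            (div_nonneg (lam_nonneg n) (Nat.cast_nonneg n))
      _ = 2 * ∑ n ∈ (Icc 1 ⌊Real.exp T⌋₊).filter (fun n : ℕ => ¬ n.Prime), lam n / n := by
          rw [Finset.mul_sum]
      _ ≤ 2 * C := by linarith [hC ⌊Real.exp T⌋₊]
  -- primes
  set m : ℝ := (((Icc 1 ⌊Real.exp T⌋₊).filter (fun p : ℕ => p.Prime ∧ χ p = -1)).card : ℝ) with hm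
  have h3 : ∑ n ∈ W.filter (fun n : ℕ => n.Prime), (1 - χ n) * lam n / n ≤
      m * (2 * T * Real.exp (-a)) + 8 * T * (T * Real.exp (-a)) := by
    calc ∑ n ∈ W.filter (fun n : ℕ => n.Prime), (1 - χ n) * lam n / n
        ≤ ∑ n ∈ W.filter (fun n : ℕ => n.Prime),
            ((if χ n = -1 then 2 * T * Real.exp (-a) else 0) +
              if χ n = 0 then T * Real.exp (-a) else 0) := by
          apply Finset.sum_le_sum
          intro n hn
          rw [mem_filter, hW, mem_filter, mem_S] at hn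
          exact RE_prime hTp hR hn.2 hn.1.2 hn.1.1.2
      _ = ((((W.filter (fun n : ℕ => n.Prime)).filter (fun n : ℕ => χ n = -1)).card : ℕ) : ℝ) *
            (2 * T * Real.exp (-a)) +
          ((((W.filter (fun n : ℕ => n.Prime)).filter (fun n : ℕ => χ n = 0)).card : ℕ) : ℝ) *
            (T * Real.exp (-a)) := by
          rw [Finset.sum_add_distrib, ← Finset.sum_filter, ← Finset.sum_filter,
            Finset.sum_const, Finset.sum_const, nsmul_eq_mul, nsmul_eq_mul]
      _ ≤ m * (2 * T * Real.exp (-a)) + 8 * T * (T * Real.exp (-a)) := by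
          apply add_le_add
          · apply mul_le_mul_of_nonneg_right _ (by positivity)
            rw [hm, Nat.cast_le]
            apply Finset.card_le_card
            intro n hn
            rw [mem_filter, mem_filter, hW, mem_filter] at hn
            rw [mem_filter]
            exact ⟨hn.1.1.1, hn.1.2, hn.2⟩
          · apply mul_le_mul_of_nonneg_right _ (by positivity)
            have h4 : ((W.filter (fun n : ℕ => n.Prime)).filter (fun n : ℕ => χ n = 0)).card ≤
                M.primeFactors.card := by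
              apply Finset.card_le_card
              intro n hn
              rw [mem_filter, mem_filter] at hn
              exact Nat.mem_primeFactors.2 ⟨hn.1.2, hM n hn.1.2 hn.2, hM0⟩
            have h5 : (((((W.filter (fun n : ℕ => n.Prime)).filter
                (fun n : ℕ => χ n = 0)).card : ℕ) : ℝ)) ≤ M.primeFactors.card := by
              exact_mod_cast h4
            linarith [RE_card hM0]
  have hE : 0 < Real.exp a := Real.exp_pos _
  have hεT : 0 ≤ ε * T / 2 := by positivity
  have hεa : ε * T / 2 ≤ a := by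
    rw [ha]
    nlinarith
  -- the primes dividing `M` are negligible
  have h6 : 8 * T * (T * Real.exp (-a)) ≤ 1 := by
    have h7 : (ε * T / 2) ^ 3 / 6 ≤ Real.exp a := by
      have h8 := Real.pow_div_factorial_le_exp (ε * T / 2) hεT 3
      have h9 : (Nat.factorial 3 : ℝ) = 6 := by norm_num [Nat.factorial]
      rw [h9] at h8
      exact h8.trans (Real.exp_le_exp.2 hεa)
    have h10 : 384 ≤ T * ε ^ 3 := by rwa [div_le_iff₀ (by positivity)] at hT4
    have h11 : 8 * T * T ≤ Real.exp a := by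
      refine le_trans ?_ h7
      have e : (ε * T / 2) ^ 3 / 6 = T * ε ^ 3 / 48 * (T * T) := by ring
      rw [e]
      have : 8 * T * T = 8 * (T * T) := by ring
      rw [this]
      apply mul_le_mul_of_nonneg_right _ (by positivity)
      linarith
    rw [Real.exp_neg]
    have e : 8 * T * (T * (Real.exp a)⁻¹) = 8 * T * T / Real.exp a := by
      field_simp
    rw [e, div_le_one hE]
    exact h11
  have h4 : c * T / 2 ≤ m * (2 * T * Real.exp (-a)) := by
    have h5 : 4 * C + 2 ≤ T * c := by rwa [div_le_iff₀ hc] at hT2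
    linarith
  have h5 : c / 4 * Real.exp a ≤ m := by
    rw [Real.exp_neg] at h4
    have h6 : m * (2 * T * (Real.exp a)⁻¹) = 2 * T * m / Real.exp a := by
      field_simp
    rw [h6, le_div_iff₀ hE] at h4
    have h7 : T * (c / 4 * Real.exp a) ≤ T * m := by nlinarith
    exact le_of_mul_le_mul_left h7 hTp
  refine le_trans ?_ h5
  have h8 : Real.exp a = Real.exp (θ * T) * Real.exp (ε * T / 2) := by
    rw [← Real.exp_add, ha]
    congr 1
    ring
  have h9 : 4 / c ≤ Real.exp (ε * T / 2) := by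
    have h10 : ε * T / 2 + 1 ≤ Real.exp (ε * T / 2) := Real.add_one_le_exp _
    have h11 : 8 ≤ T * (ε * c) := by rwa [div_le_iff₀ (by positivity)] at hT3
    have h12 : 4 / c ≤ ε * T / 2 := by
      rw [div_le_iff₀ hc]
      linarith
    linarith
  rw [div_le_iff₀ hc] at h9
  rw [h8]
  have h13 : 0 < Real.exp (θ * T) := Real.exp_pos _
  nlinarith

end TwV
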