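import Pool.Agent.W_aaa0df_h65.RE
import Pool.Agent.W_aaa0df_h65.PV3
import Pool.Agent.W_aaa0df_h42.ArB
import Pool.Agent.W_aaa0df_h42.Res

/-! Repulsion of discriminants with a real exponent (helper65). -/

set_option autoImplicit false

namespace TwV

open Finset Real Twist MPaaa0df

theorem RG_pos {e : ℕ} (he : ¬ IsSquare e) : 2 ≤ e := by
  rcases Nat.lt_or_ge e 2 with h | h
  · interval_cases e
    · exact absurd ⟨0, rfl⟩ he
    · exact absurd ⟨1, rfl⟩ he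
  · exact h

theorem RG_van {e : ℕ} {p : ℕ} (hp : p.Prime) (h0 : chi e p = 0) : p ∣ 2 * e := by
  by_cases hpo : Odd p
  · unfold Twist.chi at h0
    rw [if_pos hpo] at h0
    have h7 : jacobiSym (e : ℤ) p = 0 := by exact_mod_cast h0
    rw [jacobiSym.eq_zero_iff, Int.gcd_natCast_natCast] at h7
    have h8 : p ∣ e := by
      by_contra h9
      exact h7.2 ((hp.coprime_iff_not_dvd.2 h9).symm)
    exact h8.mul_left 2
  · have h9 : p = 2 := by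
      rcases hp.eq_two_or_odd' with h | h
      · exact h
      · exact absurd h hpo
    rw [h9]
    exact dvd_mul_right 2 e

theorem RG_chi (e p : ℕ) : TwR.chi (e : ℤ) p = chi e p := by
  unfold TwR.chi Twist.chi
  by_cases hp : Odd p
  · rw [if_pos hp, if_neg (Nat.not_even_iff_odd.2 hp)]
  · rw [if_neg hp, if_pos (Nat.not_odd_iff_even.1 hp)]

/-- many inert primes in `ℚ(√e)` below `x`.
Proof. Apply `inert_count3` with `s = 1`, `θ' = θ + ε/8`, `ε' = ε/8` (`θ' + ε' < 1`), `T = log x`, `χ = chi e`,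
`x₀ = C e^(1/2 + ε/16)` from `chi_PS (ε/16)`, `q = 4e` (`chi_RChar`), `M = 2 e` (if `chi e p = 0` then `p = 2` or
`p ∣ e`, by `jacobiSym.eq_zero_iff_not_coprime`; cf. the field `van` in the proof of `chi_RChar`).
`e ≤ x^(2(1-θ)-ε) ≤ x²` gives `log(2e) ≤ 4 log x` and
`x₀ ≤ C x^((2(1-θ)-ε)(1/2+ε/16)) ≤ C x^(1-θ-ε/2+ε/8) = C x^(1-θ-3ε/8) ≤ x^(1-θ-ε/4)` for large `x`, and
`1 - θ' - ε' = 1 - θ - ε/4`. Finally `exp(θ' T) = x^(θ+ε/8)` and `⌊exp T⌋ = x`. -/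
theorem many_inert (θ ε : ℝ) (hθ : 0 < θ) (hε : 0 < ε) (hθε : θ + ε / 2 ≤ 1) :
    ∃ X : ℕ, ∀ x : ℕ, X ≤ x → ∀ e : ℕ, ¬ IsSquare e → (e : ℝ) ≤ (x : ℝ) ^ (2 * (1 - θ) - ε) →
      (x : ℝ) ^ (θ + ε / 8) ≤ (((Icc 1 x).filter (fun p : ℕ => p.Prime ∧ chi e p = -1)).card : ℝ) := by
  obtain ⟨T₀, hT₀⟩ := inert_count3 1 (θ + ε / 8) (ε / 8) one_pos le_rfl (by positivity)
    (by positivity) (by linarith)
  obtain ⟨C, hC, hPS⟩ := chi_PS (ε / 16) (by positivity)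
  have e1 := (tendsto_rpow_atTop (show 0 < ε / 8 by positivity)).eventually_ge_atTop C
  have e2 := Real.tendsto_log_atTop.eventually_ge_atTop T₀
  obtain ⟨y₁, hy₁⟩ := ((e1.and e2).and (Filter.eventually_ge_atTop (2 : ℝ))).exists_forall_of_atTop
  refine ⟨⌈y₁⌉₊, fun x hx e he hex => ?_⟩
  obtain ⟨⟨h1, h2⟩, h3⟩ := hy₁ x ((Nat.le_ceil y₁).trans (by exact_mod_cast hx))
  have hx0 : (0 : ℝ) < x := by linarith
  have hx1 : (1 : ℝ) ≤ x := by linarith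
  have he2 : (2 : ℝ) ≤ e := by exact_mod_cast RG_pos he
  have he0 : (0 : ℝ) < e := by linarith
  obtain ⟨h4, h5⟩ := hPS e he
  have h6 := hT₀ (log x) h2 (4 * (e : ℝ)) (C * (e : ℝ) ^ (1 / 2 + ε / 16)) (chi e) (2 * e) h4
    ?_ (chi_RChar he) h5 (fun p hp h0 => RG_van hp h0) (by have := RG_pos he; omega) ?_
  · have h7 : Real.exp ((θ + ε / 8) * log x) = (x : ℝ) ^ (θ + ε / 8) := by
      rw [Real.rpow_def_of_pos hx0, mul_comm]
    rw [h7, Real.exp_log hx0, Nat.floor_natCast] at h6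
    exact h6
  · have h7 : Real.exp ((1 - (θ + ε / 8) - ε / 8) * log x) = (x : ℝ) ^ (1 - θ - ε / 4) := by
      rw [Real.rpow_def_of_pos hx0]
      congr 1
      ring
    rw [h7]
    have h8 : (e : ℝ) ^ (1 / 2 + ε / 16) ≤ (x : ℝ) ^ (1 - θ - 3 * ε / 8) := by
      calc (e : ℝ) ^ (1 / 2 + ε / 16)
          ≤ ((x : ℝ) ^ (2 * (1 - θ) - ε)) ^ (1 / 2 + ε / 16) :=
            Real.rpow_le_rpow he0.le hex (by positivity)
        _ = (x : ℝ) ^ ((2 * (1 - θ) - ε) * (1 / 2 + ε / 16)) := (Real.rpow_mul hx0.le _ _).symm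
        _ ≤ (x : ℝ) ^ (1 - θ - 3 * ε / 8) := by
            refine Real.rpow_le_rpow_of_exponent_le hx1 ?_
            nlinarith [mul_pos hθ hε, mul_pos hε hε]
    calc C * (e : ℝ) ^ (1 / 2 + ε / 16) ≤ (x : ℝ) ^ (ε / 8) * (x : ℝ) ^ (1 - θ - 3 * ε / 8) := by
          gcongr
      _ = (x : ℝ) ^ (1 - θ - ε / 4) := by
          rw [← Real.rpow_add hx0]
          congr 1
          ring
  · have h7 : (e : ℝ) ≤ (x : ℝ) ^ (2 : ℝ) :=
      hex.trans (Real.rpow_le_rpow_of_exponent_le hx1 (by linarith))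
    have h8 : log (e : ℝ) ≤ 2 * log x := by
      have h9 := Real.log_le_log he0 h7
      rwa [Real.log_rpow hx0] at h9
    push_cast
    rw [Real.log_mul (by norm_num) he0.ne']
    have h9 : log 2 ≤ log x := Real.log_le_log (by norm_num) h3
    have h10 := Real.log_nonneg hx1
    linarith

/-- **Repulsion**, finite sets of even cardinality.
Proof. `e ≥ 2`, so `2(1-θ) - ε > 0` (else `e ≤ y^(nonpositive) ≤ 1`), hence `θ + ε/2 < 1`. Take the integer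
`x = ⌈y⌉ - 1`, `y/2 ≤ x < y` (see `TwR.thmA` in `W_aaa0df_h42/Res.lean`). For large `y`,
`e ≤ y^(2(1-θ)-ε) ≤ x^(2(1-θ)-ε/2)`; `many_inert` with `ε/2` in place of `ε` gives at least `x^(θ+ε/16)` primes
`p ≤ x` with `chi e p = -1`. `TwR.count_le` (with `(e : ℤ)`, `(k : ℤ)`; `-(-1)^card = -1` because the cardinality is
even; `TwR.chi (e : ℤ) p = chi e p`, both definitions are the Jacobi symbol for odd `p` and `0` for even `p`) bounds
this number by `2 ∑ log|d| + ∑ splitCount d y`. For large `y`, `x^(θ+ε/16) ≥ (y/2)^(θ+ε/16) ≥ 3 y^θ`. -/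
theorem repel (θ ε : ℝ) (hθ : 0 < θ) (hε : 0 < ε) :
    ∃ y₀ : ℝ, ∀ y : ℝ, y₀ ≤ y → ∀ (Fs : Finset ℤ) (e k : ℕ), Even Fs.card →
      (∀ d ∈ Fs, d ≠ 0 ∧ (d % 4 = 0 ∨ d % 4 = 1)) → ¬ IsSquare e →
      (e : ℝ) ≤ y ^ (2 * (1 - θ) - ε) → ∏ d ∈ Fs, d = (e : ℤ) * (k : ℤ) ^ 2 →
      ∑ d ∈ Fs, log |(d : ℝ)| ≤ y ^ θ → y ^ θ ≤ ∑ d ∈ Fs, (splitCount d y : ℝ) := by
  by_cases hcase : 1 ≤ θ + ε / 2
  · refine ⟨1, fun y hy Fs e k _ _ he hey _ _ => ?_⟩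
    exfalso
    have he2 : (2 : ℝ) ≤ e := by exact_mod_cast RG_pos he
    have h1 : y ^ (2 * (1 - θ) - ε) ≤ 1 := Real.rpow_le_one_of_one_le_of_nonpos hy (by linarith)
    linarith
  push Not at hcase
  obtain ⟨X, hX⟩ := many_inert θ (ε / 2) hθ (by positivity) (by linarith)
  have e1 := TwR.ev_rpow (a := 2 * (1 - θ) - ε) (b := 2 * (1 - θ) - ε / 2) (by linarith)
    (2 ^ (2 * (1 - θ) - ε / 2))
  have e2 := TwR.ev_rpow (a := θ) (b := θ + ε / 16) (by linarith) (3 * 2 ^ (θ + ε / 16))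
  obtain ⟨y₀, hy₀⟩ := ((e1.and e2).and ((Filter.eventually_ge_atTop (2 * (X : ℝ))).and
    (Filter.eventually_ge_atTop (2 : ℝ)))).exists_forall_of_atTop
  refine ⟨y₀, fun y hy Fs e k hev hF he hey hprod hsum => ?_⟩
  obtain ⟨⟨h1, h2⟩, h3, h4⟩ := hy₀ y hy
  have hy0 : 0 < y := by linarith
  obtain ⟨x, hxy, hyx⟩ : ∃ x : ℕ, (x : ℝ) < y ∧ y / 2 ≤ x := by
    refine ⟨⌈y⌉₊ - 1, ?_, ?_⟩
    · have := Nat.ceil_lt_add_one (show (0 : ℝ) ≤ y by linarith)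
      have hc : 1 ≤ ⌈y⌉₊ := Nat.one_le_ceil_iff.2 (by linarith)
      push_cast [Nat.cast_sub hc]
      linarith
    · have := Nat.le_ceil y
      have hc : 1 ≤ ⌈y⌉₊ := Nat.one_le_ceil_iff.2 (by linarith)
      push_cast [Nat.cast_sub hc]
      linarith
  have hx0 : X ≤ x := by
    have : (X : ℝ) ≤ x := by linarith
    exact_mod_cast this
  have hy2 : (0 : ℝ) < y / 2 := by linarith
  have hex : (e : ℝ) ≤ (x : ℝ) ^ (2 * (1 - θ) - ε / 2) := by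
    have hb : (y / 2) ^ (2 * (1 - θ) - ε / 2) ≤ (x : ℝ) ^ (2 * (1 - θ) - ε / 2) :=
      Real.rpow_le_rpow hy2.le hyx (by linarith)
    have hc : (y / 2) ^ (2 * (1 - θ) - ε / 2) =
        y ^ (2 * (1 - θ) - ε / 2) / 2 ^ (2 * (1 - θ) - ε / 2) :=
      Real.div_rpow (by linarith) (by norm_num) _
    have hd : y ^ (2 * (1 - θ) - ε) ≤
        y ^ (2 * (1 - θ) - ε / 2) / 2 ^ (2 * (1 - θ) - ε / 2) := by
      rw [le_div_iff₀ (by positivity)]
      linarith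
    linarith
  have hmain := hX x hx0 e he hex
  have hcount := TwR.count_le (Fs := Fs) (e := (e : ℤ)) (k := (k : ℤ)) (fun d hd => (hF d hd).2)
    (fun d hd => (hF d hd).1) hprod hxy
  have hcard : TwR.S (TwR.chi (e : ℤ)) (-(-1) ^ Fs.card) 0 x =
      (Icc 1 x).filter (fun p : ℕ => p.Prime ∧ chi e p = -1) := by
    unfold TwR.S
    ext p
    rw [mem_filter, mem_filter, mem_Ioc, mem_Icc, RG_chi, hev.neg_one_pow]
    rfl
  rw [hcard] at hcount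
  have hb : (y / 2) ^ (θ + ε / 16) ≤ (x : ℝ) ^ (θ + ε / 16) :=
    Real.rpow_le_rpow hy2.le hyx (by positivity)
  have hc : (y / 2) ^ (θ + ε / 16) = y ^ (θ + ε / 16) / 2 ^ (θ + ε / 16) :=
    Real.div_rpow (by linarith) (by norm_num) _
  have hd : (3 : ℝ) * y ^ θ ≤ y ^ (θ + ε / 16) / 2 ^ (θ + ε / 16) := by
    rw [le_div_iff₀ (by positivity)]
    linarith
  have hf : θ + ε / 2 / 8 = θ + ε / 16 := by ring
  rw [hf] at hmain
  linarith

end TwV
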