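import Pool.Agent.W_aaa0df_h65.RG
import Pool.Agent.W_aaa0df_h65.BU

/-! Repulsion of discriminants with the Burgess exponent (helper65; adapted from RG.lean by helper78). -/

set_option autoImplicit false

namespace TwV

open Finset Real Twist MPaaa0df

/-- many inert primes in `ℚ(√e)` below `x` (Burgess exponent).
Proof. Let `s, C` be given by `burgess_PS (ε/32)`. Apply `inert_count3` with this `s`, `θ' = θ + ε/32`, `ε' = ε/32`,
`T = log x`, `χ = chi e`, `x₀ = C e^(1/4 + ε/32)`, `q = 4e`, `M = 2 e`. -/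
theorem many_inert4 (θ ε : ℝ) (hθ : 0 < θ) (hε : 0 < ε) (hθε : θ + ε / 4 ≤ 1) :
    ∃ X : ℕ, ∀ x : ℕ, X ≤ x → ∀ e : ℕ, Squarefree e → e ≠ 1 → (e : ℝ) ≤ (x : ℝ) ^ (4 * (1 - θ) - ε) →
      (x : ℝ) ^ (θ + ε / 32) ≤ (((Icc 1 x).filter (fun p : ℕ => p.Prime ∧ Twist.chi e p = -1)).card : ℝ) := by
  obtain ⟨s, C, hs, hs1, hC, hPS⟩ := burgess_PS (ε / 32) (by positivity)
  obtain ⟨T₀, hT₀⟩ := inert_count3 s (θ + ε / 32) (ε / 32) hs hs1 (by positivity)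
    (by positivity) (by linarith)
  have e1 := (tendsto_rpow_atTop (show 0 < ε / 16 by positivity)).eventually_ge_atTop C
  have e2 := Real.tendsto_log_atTop.eventually_ge_atTop T₀
  have e3 := (tendsto_rpow_atTop (show 0 < 4 * θ by positivity)).eventually_ge_atTop (2 : ℝ)
  obtain ⟨y₁, hy₁⟩ := ((e1.and (e2.and e3)).and (Filter.eventually_ge_atTop (2 : ℝ))).exists_forall_of_atTop
  refine ⟨⌈y₁⌉₊, fun x hx e he hne hex => ?_⟩
  obtain ⟨⟨h1, h2, h2'⟩, h3⟩ := hy₁ x ((Nat.le_ceil y₁).trans (by exact_mod_cast hx))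
  have hx0 : (0 : ℝ) < x := by linarith
  have hx1 : (1 : ℝ) ≤ x := by linarith
  have hnsq := BU_sq he hne
  have he2 : (2 : ℝ) ≤ e := by exact_mod_cast RG_pos hnsq
  have he0 : (0 : ℝ) < e := by linarith
  obtain ⟨h4, h5⟩ := hPS e he hne
  have h6 := hT₀ (log x) h2 (4 * (e : ℝ)) (C * (e : ℝ) ^ (1 / 4 + ε / 32)) (Twist.chi e) (2 * e) h4
    ?_ (chi_RChar hnsq) h5 (fun p hp h0 => RG_van hp h0) (by have := RG_pos hnsq; omega) ?_
  · have h7 : Real.exp ((θ + ε / 32) * log x) = (x : ℝ) ^ (θ + ε / 32) := by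
      rw [Real.rpow_def_of_pos hx0, mul_comm]
    rw [h7, Real.exp_log hx0, Nat.floor_natCast] at h6
    exact h6
  · have h7 : Real.exp ((1 - (θ + ε / 32) - ε / 32) * log x) = (x : ℝ) ^ (1 - θ - ε / 16) := by
      rw [Real.rpow_def_of_pos hx0]
      congr 1
      ring
    rw [h7]
    have h8 : (e : ℝ) ^ (1 / 4 + ε / 32) ≤ (x : ℝ) ^ (1 - θ - ε / 8) := by
      calc (e : ℝ) ^ (1 / 4 + ε / 32)
          ≤ ((x : ℝ) ^ (4 * (1 - θ) - ε)) ^ (1 / 4 + ε / 32) :=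
            Real.rpow_le_rpow he0.le hex (by positivity)
        _ = (x : ℝ) ^ ((4 * (1 - θ) - ε) * (1 / 4 + ε / 32)) := (Real.rpow_mul hx0.le _ _).symm
        _ ≤ (x : ℝ) ^ (1 - θ - ε / 8) := by
            refine Real.rpow_le_rpow_of_exponent_le hx1 ?_
            nlinarith [mul_pos hθ hε, mul_pos hε hε]
    calc C * (e : ℝ) ^ (1 / 4 + ε / 32) ≤ (x : ℝ) ^ (ε / 16) * (x : ℝ) ^ (1 - θ - ε / 8) := by
          gcongr
      _ = (x : ℝ) ^ (1 - θ - ε / 16) := by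
          rw [← Real.rpow_add hx0]
          congr 1
          ring
  · have h7 : 2 * (e : ℝ) ≤ (x : ℝ) ^ (4 : ℝ) := by
      calc 2 * (e : ℝ) ≤ (x : ℝ) ^ (4 * θ) * (x : ℝ) ^ (4 * (1 - θ) - ε) := by gcongr
        _ = (x : ℝ) ^ (4 - ε) := by
            rw [← Real.rpow_add hx0]
            congr 1
            ring
        _ ≤ (x : ℝ) ^ (4 : ℝ) := Real.rpow_le_rpow_of_exponent_le hx1 (by linarith)
    have h9 := Real.log_le_log (by positivity) h7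
    rw [Real.log_rpow hx0] at h9
    push_cast
    exact h9

/-- **Repulsion** (Burgess exponent), finite sets of even cardinality. Proof as in `repel`. -/
theorem repel4 (θ ε : ℝ) (hθ : 0 < θ) (hε : 0 < ε) :
    ∃ y₀ : ℝ, ∀ y : ℝ, y₀ ≤ y → ∀ (Fs : Finset ℤ) (e k : ℕ), Even Fs.card →
      (∀ d ∈ Fs, d ≠ 0 ∧ (d % 4 = 0 ∨ d % 4 = 1)) → Squarefree e → e ≠ 1 →
      (e : ℝ) ≤ y ^ (4 * (1 - θ) - ε) → ∏ d ∈ Fs, d = (e : ℤ) * (k : ℤ) ^ 2 →
      ∑ d ∈ Fs, log |(d : ℝ)| ≤ y ^ θ → y ^ θ ≤ ∑ d ∈ Fs, (splitCount d y : ℝ) := by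
  by_cases hcase : 1 ≤ θ + ε / 4
  · refine ⟨1, fun y hy Fs e k _ _ he hne hey _ _ => ?_⟩
    exfalso
    have he2 : (2 : ℝ) ≤ e := by exact_mod_cast RG_pos (BU_sq he hne)
    have h1 : y ^ (4 * (1 - θ) - ε) ≤ 1 := Real.rpow_le_one_of_one_le_of_nonpos hy (by linarith)
    linarith
  push Not at hcase
  obtain ⟨X, hX⟩ := many_inert4 θ (ε / 2) hθ (by positivity) (by linarith)
  have e1 := TwR.ev_rpow (a := 4 * (1 - θ) - ε) (b := 4 * (1 - θ) - ε / 2) (by linarith)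
    (2 ^ (4 * (1 - θ) - ε / 2))
  have e2 := TwR.ev_rpow (a := θ) (b := θ + ε / 64) (by linarith) (3 * 2 ^ (θ + ε / 64))
  obtain ⟨y₀, hy₀⟩ := ((e1.and e2).and ((Filter.eventually_ge_atTop (2 * (X : ℝ))).and
    (Filter.eventually_ge_atTop (2 : ℝ)))).exists_forall_of_atTop
  refine ⟨y₀, fun y hy Fs e k hev hF he hne hey hprod hsum => ?_⟩
  obtain ⟨⟨h1, h2⟩, h3, h4⟩ := hy₀ y hy
  have hy0 : 0 < y := by linarith
  obtain ⟨x, hxy, hyx⟩ : ∃ x : ℕ, (x : ℝ) < y ∧ y / 2 ≤ x := by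
    refine ⟨⌈y⌉₊ - 1, ?_, ?_⟩
    · have := Nat.ceil_lt_add_one (show (0 : ℝ) ≤ y by linarith)
      have hc : 1 ≤ ⌈y⌉₊ := Nat.one_le_ceil_iff.2 (by linarith)
      push_cast [Nat.cast_sub hc]
      linarith
    · have := Nat.le_ceil y
      have hc : 1 ≤ ⌈y⌉₊ := Nat.one_le_ceil_iff.2 (by linarith)
      push_cast [Nat.cast_sub hc]
      linarith
  have hx0 : X ≤ x := by
    have : (X : ℝ) ≤ x := by linarith
    exact_mod_cast this
  have hy2 : (0 : ℝ) < y / 2 := by linarith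
  have hex : (e : ℝ) ≤ (x : ℝ) ^ (4 * (1 - θ) - ε / 2) := by
    have hb : (y / 2) ^ (4 * (1 - θ) - ε / 2) ≤ (x : ℝ) ^ (4 * (1 - θ) - ε / 2) :=
      Real.rpow_le_rpow hy2.le hyx (by linarith)
    have hc : (y / 2) ^ (4 * (1 - θ) - ε / 2) =
        y ^ (4 * (1 - θ) - ε / 2) / 2 ^ (4 * (1 - θ) - ε / 2) :=
      Real.div_rpow (by linarith) (by norm_num) _
    have hd : y ^ (4 * (1 - θ) - ε) ≤
        y ^ (4 * (1 - θ) - ε / 2) / 2 ^ (4 * (1 - θ) - ε / 2) := by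
      rw [le_div_iff₀ (by positivity)]
      linarith
    linarith
  have hmain := hX x hx0 e he hne hex
  have hcount := TwR.count_le (Fs := Fs) (e := (e : ℤ)) (k := (k : ℤ)) (fun d hd => (hF d hd).2)
    (fun d hd => (hF d hd).1) hprod hxy
  have hcard : TwR.S (TwR.chi (e : ℤ)) (-(-1) ^ Fs.card) 0 x =
      (Icc 1 x).filter (fun p : ℕ => p.Prime ∧ Twist.chi e p = -1) := by
    unfold TwR.S
    ext p
    rw [mem_filter, mem_filter, mem_Ioc, mem_Icc, RG_chi, hev.neg_one_pow]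
    rfl
  rw [hcard] at hcount
  have hb : (y / 2) ^ (θ + ε / 64) ≤ (x : ℝ) ^ (θ + ε / 64) :=
    Real.rpow_le_rpow hy2.le hyx (by positivity)
  have hc : (y / 2) ^ (θ + ε / 64) = y ^ (θ + ε / 64) / 2 ^ (θ + ε / 64) :=
    Real.div_rpow (by linarith) (by norm_num) _
  have hd : (3 : ℝ) * y ^ θ ≤ y ^ (θ + ε / 64) / 2 ^ (θ + ε / 64) := by
    rw [le_div_iff₀ (by positivity)]
    linarith
  have hf : θ + ε / 2 / 32 = θ + ε / 64 := by ring
  rw [hf] at hmain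
  linarith

end TwV
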