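import Pool.Agent.W_aaa0df_h65.RG2
import Pool.Agent.W_aaa0df_h65.RH
import Pool.Agent.W_aaa0df_h86.BallOne

/-! At most one exception in a twist ball of radius `(log|d₀|)^(2(2-κ)-ε)` (helper65; adapted from RH.lean). -/

set_option autoImplicit false

namespace TwV

open Finset Real Twist MPaaa0df

/-- **At most one exception.** As `ball_one2`, with `repel4` instead of `repel`: `y = ℓ²`, `θ = κ/2 + ε/16`,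
`y^(4(1-θ) - ε/2) = ℓ^(8 - 4κ - ε) ≥ ℓ^(8-4κ-2ε) ≥ s`. -/
theorem ball_one4 (κ ε : ℝ) (hκ : 1 ≤ κ) (hκ2 : κ < 2) (hε : 0 < ε) :
    ∃ D : ℝ, ∀ d₀ : ℤ, d₀ < 0 → Fund d₀ → D ≤ |(d₀ : ℝ)| → ∀ d₁ d₂ : ℤ,
      Near d₀ (log |(d₀ : ℝ)| ^ (2 * (2 - κ) - ε)) d₁ → Near d₀ (log |(d₀ : ℝ)| ^ (2 * (2 - κ) - ε)) d₂ →
      (N d₁ : ℝ) < log |(d₁ : ℝ)| ^ κ → (N d₂ : ℝ) < log |(d₂ : ℝ)| ^ κ → d₁ = d₂ := by
  rcases lt_or_ge (2 * (2 - κ) - ε) 0 with hneg | hpos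
  · refine ⟨Real.exp 2, ?_⟩
    intro d₀ h₀ hF₀ hd₀ d₁ d₂ hn1 _ _ _
    exfalso
    obtain ⟨_, _, e, k, he, heE, _⟩ := hn1
    have h2 : 2 ≤ log |(d₀ : ℝ)| := by
      rw [Real.le_log_iff_exp_le (lt_of_lt_of_le (Real.exp_pos _) hd₀)]
      exact hd₀
    have h3 : log |(d₀ : ℝ)| ^ (2 * (2 - κ) - ε) < 1 :=
      Real.rpow_lt_one_of_one_lt_of_neg (by linarith) hneg
    have h4 : (1 : ℝ) ≤ e := by exact_mod_cast he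
    linarith
  obtain ⟨θ, hθ⟩ : ∃ θ : ℝ, θ = κ / 2 + ε / 16 := ⟨_, rfl⟩
  have hθ0 : 0 < θ := by rw [hθ]; linarith
  obtain ⟨y₀, hrep⟩ := repel4 θ (ε / 2) hθ0 (by linarith)
  obtain ⟨DN, hDN⟩ := N_ge
  obtain ⟨L, hL⟩ := RH_aux κ (ε / 2) hκ hκ2 (by linarith) y₀
  refine ⟨max (Real.exp (max L 1)) DN, ?_⟩
  intro d₀ h₀ hF₀ hd₀ d₁ d₂ hn1 hn2 hN1 hN2
  by_contra hne
  set ℓ : ℝ := log |(d₀ : ℝ)| with hℓ
  have hLℓ : L ≤ ℓ := by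
    have h1 : Real.exp (max L 1) ≤ |(d₀ : ℝ)| := le_trans (le_max_left _ _) hd₀
    have h2 : max L 1 ≤ ℓ := by
      rw [hℓ, Real.le_log_iff_exp_le (lt_of_lt_of_le (Real.exp_pos _) h1)]
      exact h1
    exact le_trans (le_max_left _ _) h2
  obtain ⟨hℓ8, hy₀, hlog, h4ℓ, hfin⟩ := hL ℓ hLℓ
  have hℓ1 : 1 ≤ ℓ := by linarith
  have hℓ0 : 0 < ℓ := by linarith
  have hc1 : 2 * (2 - κ) - ε ≤ 2 := by linarith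
  have hE1 : 1 ≤ ℓ ^ (2 * (2 - κ) - ε) := Real.one_le_rpow hℓ1 hpos
  have hlogE : log (ℓ ^ (2 * (2 - κ) - ε)) ≤ ℓ / 4 := by
    rw [Real.log_rpow hℓ0]
    have h0 : 0 ≤ log ℓ := Real.log_nonneg hℓ1
    have h1 : (2 * (2 - κ) - ε) * log ℓ ≤ 2 * log ℓ := mul_le_mul_of_nonneg_right hc1 h0
    linarith
  have hl4 : log 4 ≤ ℓ / 4 := by
    have : log 4 = 2 * log 2 := by
      rw [show (4 : ℝ) = 2 ^ 2 by norm_num, Real.log_pow]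
      norm_num
    have h2 := Real.log_two_lt_d9
    linarith
  have key : ∀ d : ℤ, Near d₀ (ℓ ^ (2 * (2 - κ) - ε)) d → 1 ≤ log |(d : ℝ)| ∧ log |(d : ℝ)| ≤ 2 * ℓ ∧
      splitCount d (ℓ ^ (2 : ℝ)) ≤ N d := by
    intro d hd
    obtain ⟨h1, h2⟩ := near_size hF₀ hd
    refine ⟨by rw [← hℓ] at h2; linarith, by rw [← hℓ] at h1; linarith, ?_⟩
    exact hDN d₀ hF₀ (le_trans (le_max_right _ _) hd₀) _ hE1 (by rw [← hℓ]; linarith) d hd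
  obtain ⟨hlo1, hup1, hsp1⟩ := key d₁ hn1
  obtain ⟨hlo2, hup2, hsp2⟩ := key d₂ hn2
  obtain ⟨hd1, hF1, e₁, k₁, he₁, heE₁, hk₁⟩ := hn1
  obtain ⟨hd2, hF2, e₂, k₂, he₂, heE₂, hk₂⟩ := hn2
  have hsq : ¬ IsSquare (d₁ * d₂) := fun h => hne (fund_inj hd1 hd2 hF1 hF2 h)
  have h12 : d₁ * d₂ ≠ 0 := mul_ne_zero (fund_ne hF1) (fund_ne hF2)
  have hj : d₀.natAbs ≠ 0 := Int.natAbs_ne_zero.2 (fund_ne hF₀)
  obtain ⟨s, b, hs, hse, hb, hx⟩ := kernel (x := d₁ * d₂) h12 (j := d₀.natAbs) (m := e₁ * e₂)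
    (k := k₁ * k₂) hj (by
      have h3 : ((d₀.natAbs : ℤ)) ^ 2 = d₀ ^ 2 := Int.natAbs_sq d₀
      rw [h3]
      push_cast
      calc d₁ * d₂ * d₀ ^ 2 = (d₁ * d₀) * (d₂ * d₀) := by ring
        _ = _ := by rw [hk₁, hk₂]; ring)
  have hssq : ¬ IsSquare s := by
    rintro ⟨r, hr⟩
    apply hsq
    refine ⟨(r : ℤ) * b, ?_⟩
    rw [hx, hr]
    push_cast
    ring
  have hyθ : (ℓ ^ (2 : ℝ)) ^ θ = ℓ ^ (κ + ε / 2 / 4) := by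
    rw [← Real.rpow_mul hℓ0.le, hθ]
    congr 1
    ring
  have hse' : (s : ℝ) ≤ (ℓ ^ (2 : ℝ)) ^ (4 * (1 - θ) - ε / 2) := by
    have h1 : (s : ℝ) ≤ (e₁ : ℝ) * e₂ := by exact_mod_cast hse
    have h2 : (e₁ : ℝ) * e₂ ≤ ℓ ^ (2 * (2 - κ) - ε) * ℓ ^ (2 * (2 - κ) - ε) :=
      mul_le_mul heE₁ heE₂ (by positivity) (by positivity)
    have h3 : ℓ ^ (2 * (2 - κ) - ε) * ℓ ^ (2 * (2 - κ) - ε) = ℓ ^ (2 * (2 * (2 - κ) - ε)) := by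
      rw [← Real.rpow_add hℓ0]
      congr 1
      ring
    have h4 : ℓ ^ (2 * (2 * (2 - κ) - ε)) ≤ ℓ ^ (2 * (4 * (1 - θ) - ε / 2)) :=
      Real.rpow_le_rpow_of_exponent_le hℓ1 (by rw [hθ]; linarith)
    have h5 : (ℓ ^ (2 : ℝ)) ^ (4 * (1 - θ) - ε / 2) = ℓ ^ (2 * (4 * (1 - θ) - ε / 2)) := by
      rw [← Real.rpow_mul hℓ0.le]
    rw [h5]
    linarith
  have hcard : Even ({d₁, d₂} : Finset ℤ).card := by
    rw [Finset.card_pair hne]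
    exact even_two
  have hfs : ∀ d ∈ ({d₁, d₂} : Finset ℤ), d ≠ 0 ∧ (d % 4 = 0 ∨ d % 4 = 1) := by
    intro d hd
    rw [Finset.mem_insert, Finset.mem_singleton] at hd
    rcases hd with rfl | rfl
    · exact ⟨fund_ne hF1, fund_mod hF1⟩
    · exact ⟨fund_ne hF2, fund_mod hF2⟩
  have hsum : ∑ d ∈ ({d₁, d₂} : Finset ℤ), log |(d : ℝ)| ≤ (ℓ ^ (2 : ℝ)) ^ θ := by
    rw [Finset.sum_pair hne, hyθ]
    linarith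
  have hp := hrep (ℓ ^ (2 : ℝ)) hy₀ {d₁, d₂} s b hcard hfs hs (fun h => hssq ⟨1, by rw [h]⟩) hse'
    (by rw [Finset.prod_pair hne]; exact hx) hsum
  rw [Finset.sum_pair hne, hyθ] at hp
  have hNb : ∀ d : ℤ, 1 ≤ log |(d : ℝ)| → log |(d : ℝ)| ≤ 2 * ℓ →
      log |(d : ℝ)| ^ κ ≤ (2 * ℓ) ^ κ := by
    intro d h1 h2
    exact Real.rpow_le_rpow (by linarith) h2 (by linarith)
  have h1 := hNb d₁ hlo1 hup1
  have h2 := hNb d₂ hlo2 hup2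
  have h3 : (splitCount d₁ (ℓ ^ (2 : ℝ)) : ℝ) ≤ N d₁ := by exact_mod_cast hsp1
  have h4 : (splitCount d₂ (ℓ ^ (2 : ℝ)) : ℝ) ≤ N d₂ := by exact_mod_cast hsp2
  linarith

end TwV
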