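import Pool.Agent.W_aaa0df_h65.RG2

/-! Repulsion, with the number of prime factors instead of the size (helper65). -/

set_option autoImplicit false

namespace TwV

open Finset Real Twist MPaaa0df

/-- primes dividing a product -/
theorem card_dvd_prod {Fs : Finset ℤ} (h0 : ∀ d ∈ Fs, d ≠ 0) (x : ℕ) :
    ((Ioc 0 x).filter (fun p : ℕ => p.Prime ∧ (p : ℤ) ∣ ∏ d ∈ Fs, d)).card ≤
      ∑ d ∈ Fs, d.natAbs.primeFactors.card := by
  classical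
  refine le_trans (Finset.card_le_card ?_) Finset.card_biUnion_le
  intro p hp
  rw [Finset.mem_filter] at hp
  obtain ⟨_, hp, hd⟩ := hp
  rw [Finset.mem_biUnion]
  obtain ⟨d, hd1, hd2⟩ := (Prime.dvd_finset_prod_iff (Nat.prime_iff_prime_int.1 hp) _).1 hd
  exact ⟨d, hd1, Nat.mem_primeFactors.2 ⟨hp, Int.natCast_dvd.1 hd2, Int.natAbs_ne_zero.2 (h0 d hd1)⟩⟩

/-- counting: `#{p ≤ x : χ_e(p) = -1} ≤ ∑ ω(d) + ∑ splitCount d y` for `x < y`, `|F|` even. -/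
theorem count_omega {Fs : Finset ℤ} {e k : ℕ} (hF : ∀ d ∈ Fs, d % 4 = 0 ∨ d % 4 = 1)
    (h0 : ∀ d ∈ Fs, d ≠ 0) (hev : Even Fs.card) (hprod : ∏ d ∈ Fs, d = (e : ℤ) * (k : ℤ) ^ 2) {x : ℕ} {y : ℝ}
    (hxy : (x : ℝ) < y) :
    (((Icc 1 x).filter (fun p : ℕ => p.Prime ∧ Twist.chi e p = -1)).card : ℝ)
      ≤ ∑ d ∈ Fs, (d.natAbs.primeFactors.card : ℝ) + ∑ d ∈ Fs, (splitCount d y : ℝ) := by
  classical
  have hsub : (Icc 1 x).filter (fun p : ℕ => p.Prime ∧ Twist.chi e p = -1) ⊆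
      ((Ioc 0 x).filter (fun p : ℕ => p.Prime ∧ (p : ℤ) ∣ ∏ d ∈ Fs, d)) ∪
      Fs.biUnion (fun d => (Ioc 0 x).filter (fun p : ℕ => p.Prime ∧ ¬ ((p : ℤ) ∣ d) ∧
        ∃ x : ℤ, (4 * (p : ℤ)) ∣ x ^ 2 - d)) := by
    intro p hp
    rw [Finset.mem_filter, Finset.mem_Icc] at hp
    obtain ⟨hp1, hp2, hp3⟩ := hp
    have hp1' : p ∈ Ioc 0 x := Finset.mem_Ioc.2 ⟨by omega, hp1.2⟩
    rw [Finset.mem_union]
    by_cases hd : (p : ℤ) ∣ ∏ d ∈ Fs, d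
    · left
      rw [Finset.mem_filter]
      exact ⟨hp1', hp2, hd⟩
    · right
      rw [Finset.mem_biUnion]
      obtain ⟨d, h1, h2, h3⟩ := TwR.exists_split hF hprod hp2 hd (by
        rw [RG_chi, hp3, hev.neg_one_pow])
      refine ⟨d, h1, ?_⟩
      rw [Finset.mem_filter]
      exact ⟨hp1', hp2, h2, h3⟩
  have h1 : ∀ d ∈ Fs, (((Ioc 0 x).filter (fun p : ℕ => p.Prime ∧ ¬ ((p : ℤ) ∣ d) ∧
        ∃ x : ℤ, (4 * (p : ℤ)) ∣ x ^ 2 - d)).card : ℝ) ≤ (splitCount d y : ℝ) := by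
    intro d _
    rw [Nat.cast_le]
    unfold splitCount
    rw [← Set.ncard_coe_finset]
    refine Set.ncard_le_ncard ?_ ?_
    · intro p hp
      rw [Finset.mem_coe, Finset.mem_filter, Finset.mem_Ioc] at hp
      refine ⟨hp.2.1, ?_, hp.2.2⟩
      have h2 : (p : ℝ) ≤ x := by exact_mod_cast hp.1.2
      linarith
    · refine Set.Finite.subset (Set.finite_Iic ⌈y⌉₊) ?_
      intro p hp
      have h2 : (p : ℝ) < y := hp.2.1
      have h3 : (p : ℝ) ≤ ⌈y⌉₊ := h2.le.trans (Nat.le_ceil y)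
      exact_mod_cast h3
  have h2 := (Finset.card_le_card hsub).trans ((Finset.card_union_le _ _).trans
      (Nat.add_le_add_left Finset.card_biUnion_le _))
  have h3 : (((Ioc 0 x).filter (fun p : ℕ => p.Prime ∧ (p : ℤ) ∣ ∏ d ∈ Fs, d)).card : ℝ) ≤
      ∑ d ∈ Fs, (d.natAbs.primeFactors.card : ℝ) := by
    exact_mod_cast card_dvd_prod h0 x
  calc (((Icc 1 x).filter (fun p : ℕ => p.Prime ∧ Twist.chi e p = -1)).card : ℝ)
      ≤ ((((Ioc 0 x).filter (fun p : ℕ => p.Prime ∧ (p : ℤ) ∣ ∏ d ∈ Fs, d)).card +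
      ∑ d ∈ Fs, ((Ioc 0 x).filter (fun p : ℕ => p.Prime ∧ ¬ ((p : ℤ) ∣ d) ∧
        ∃ x : ℤ, (4 * (p : ℤ)) ∣ x ^ 2 - d)).card : ℕ) : ℝ) := by exact_mod_cast h2
    _ = (((Ioc 0 x).filter (fun p : ℕ => p.Prime ∧ (p : ℤ) ∣ ∏ d ∈ Fs, d)).card : ℝ) +
      ∑ d ∈ Fs, (((Ioc 0 x).filter (fun p : ℕ => p.Prime ∧ ¬ ((p : ℤ) ∣ d) ∧
        ∃ x : ℤ, (4 * (p : ℤ)) ∣ x ^ 2 - d)).card : ℝ) := by push_cast; rfl
    _ ≤ _ := add_le_add h3 (Finset.sum_le_sum h1)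

/-- **Repulsion** (Burgess exponent), with the number `ω(d)` of prime factors: finite sets of even cardinality. -/
theorem repelW (θ ε K : ℝ) (hθ : 0 < θ) (hε : 0 < ε) (hK : 0 ≤ K) :
    ∃ y₀ : ℝ, ∀ y : ℝ, y₀ ≤ y → ∀ (Fs : Finset ℤ) (e k : ℕ), Even Fs.card →
      (∀ d ∈ Fs, d ≠ 0 ∧ (d % 4 = 0 ∨ d % 4 = 1)) → Squarefree e → e ≠ 1 →
      (e : ℝ) ≤ y ^ (4 * (1 - θ) - ε) → ∏ d ∈ Fs, d = (e : ℤ) * (k : ℤ) ^ 2 →
      ∑ d ∈ Fs, (d.natAbs.primeFactors.card : ℝ) ≤ K * y ^ θ →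
      y ^ θ ≤ ∑ d ∈ Fs, (splitCount d y : ℝ) := by
  by_cases hcase : 1 ≤ θ + ε / 4
  · refine ⟨1, fun y hy Fs e k _ _ he hne hey _ _ => ?_⟩
    exfalso
    have he2 : (2 : ℝ) ≤ e := by exact_mod_cast RG_pos (BU_sq he hne)
    have h1 : y ^ (4 * (1 - θ) - ε) ≤ 1 := Real.rpow_le_one_of_one_le_of_nonpos hy (by linarith)
    linarith
  push Not at hcase
  obtain ⟨X, hX⟩ := many_inert4 θ (ε / 2) hθ (by positivity) (by linarith)
  have e1 := TwR.ev_rpow (a := 4 * (1 - θ) - ε) (b := 4 * (1 - θ) - ε / 2) (by linarith)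
    (2 ^ (4 * (1 - θ) - ε / 2))
  have e2 := TwR.ev_rpow (a := θ) (b := θ + ε / 64) (by linarith) ((K + 1) * 2 ^ (θ + ε / 64))
  obtain ⟨y₀, hy₀⟩ := ((e1.and e2).and ((Filter.eventually_ge_atTop (2 * (X : ℝ))).and
    (Filter.eventually_ge_atTop (2 : ℝ)))).exists_forall_of_atTop
  refine ⟨y₀, fun y hy Fs e k hev hF he hne hey hprod hsum => ?_⟩
  obtain ⟨⟨h1, h2⟩, h3, h4⟩ := hy₀ y hy
  have hy0 : 0 < y := by linarith
  obtain ⟨x, hxy, hyx⟩ : ∃ x : ℕ, (x : ℝ) < y ∧ y / 2 ≤ x := by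
    refine ⟨⌈y⌉₊ - 1, ?_, ?_⟩
    · have := Nat.ceil_lt_add_one (show (0 : ℝ) ≤ y by linarith)
      have hc : 1 ≤ ⌈y⌉₊ := Nat.one_le_ceil_iff.2 (by linarith)
      push_cast [Nat.cast_sub hc]
      linarith
    · have := Nat.le_ceil y
      have hc : 1 ≤ ⌈y⌉₊ := Nat.one_le_ceil_iff.2 (by linarith)
      push_cast [Nat.cast_sub hc]
      linarith
  have hx0 : X ≤ x := by
    have : (X : ℝ) ≤ x := by linarith
    exact_mod_cast this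
  have hy2 : (0 : ℝ) < y / 2 := by linarith
  have hex : (e : ℝ) ≤ (x : ℝ) ^ (4 * (1 - θ) - ε / 2) := by
    have hb : (y / 2) ^ (4 * (1 - θ) - ε / 2) ≤ (x : ℝ) ^ (4 * (1 - θ) - ε / 2) :=
      Real.rpow_le_rpow hy2.le hyx (by linarith)
    have hc : (y / 2) ^ (4 * (1 - θ) - ε / 2) =
        y ^ (4 * (1 - θ) - ε / 2) / 2 ^ (4 * (1 - θ) - ε / 2) :=
      Real.div_rpow (by linarith) (by norm_num) _
    have hd : y ^ (4 * (1 - θ) - ε) ≤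
        y ^ (4 * (1 - θ) - ε / 2) / 2 ^ (4 * (1 - θ) - ε / 2) := by
      rw [le_div_iff₀ (by positivity)]
      linarith
    linarith
  have hmain := hX x hx0 e he hne hex
  have hcount := count_omega (fun d hd => (hF d hd).2) (fun d hd => (hF d hd).1) hev hprod hxy
  have hb : (y / 2) ^ (θ + ε / 64) ≤ (x : ℝ) ^ (θ + ε / 64) :=
    Real.rpow_le_rpow hy2.le hyx (by positivity)
  have hc : (y / 2) ^ (θ + ε / 64) = y ^ (θ + ε / 64) / 2 ^ (θ + ε / 64) :=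
    Real.div_rpow (by linarith) (by norm_num) _
  have hd : (K + 1) * y ^ θ ≤ y ^ (θ + ε / 64) / 2 ^ (θ + ε / 64) := by
    rw [le_div_iff₀ (by positivity)]
    linarith
  have hf : θ + ε / 2 / 32 = θ + ε / 64 := by ring
  rw [hf] at hmain
  linarith

end TwV
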